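import Mathlib

/-!
# MP_cccab4_an : definitions

`Z` is a compact metric space with a Borel measure `μ`; `Q > 1`.
-/

open MeasureTheory Metric Set Filter Topology
open scoped ENNReal NNReal

namespace QSCoh

variable {X Y Z : Type*}

/-! ### Quasi-Möbius and quasisymmetric maps, in gauge form (internal notions) -/

/-- A gauge: a nondecreasing nonnegative function tending to `0` at `0+`. -/
structure Gauge (θ : ℝ → ℝ) : Prop where
  mono : Monotone θ
  nonneg : ∀ t, 0 ≤ θ t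
  lim : Tendsto θ (𝓝[>] 0) (𝓝 0)

/-- The metric cross-ratio `d(a,b) d(c,d) / (d(a,c) d(b,d))`. -/
noncomputable def cr [PseudoMetricSpace X] (a b c d : X) : ℝ :=
  dist a b * dist c d / (dist a c * dist b d)

/-- Internal form of `θ`-quasi-Möbius (all quadruples with nonvanishing denominator). -/
structure QM [PseudoMetricSpace X] [PseudoMetricSpace Y] (θ : ℝ → ℝ) (f : X → Y) : Prop where
  inj : Function.Injective f
  le : ∀ a b c d, a ≠ c → b ≠ d → cr (f a) (f b) (f c) (f d) ≤ θ (cr a b c d)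

/-- Internal form of `η`-quasisymmetric (division free). -/
def QSg [PseudoMetricSpace X] [PseudoMetricSpace Y] (η : ℝ → ℝ) (f : X → Y) : Prop :=
  ∀ x a b t, dist x a ≤ t * dist x b → dist (f x) (f a) ≤ η t * dist (f x) (f b)

/-- The three points `a, b, c` are pairwise at distance at least `δ`. -/
def Sep [PseudoMetricSpace X] (δ : ℝ) (a b c : X) : Prop :=
  δ ≤ dist a b ∧ δ ≤ dist a c ∧ δ ≤ dist b c

/-! ### Curves and modulus -/

/-- `T` is the image of a path `[0,1] → Z`. -/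
def IsPI [TopologicalSpace Z] (T : Set Z) : Prop := ∃ α : C(unitInterval, Z), range α = T

/-- A function `ρ` is admissible for the curves joining `E` to `F`: `∫ ρ(γ(t)) dt ≥ 1` for all
`1`-Lipschitz curves `γ : [0,L] → Z` from `E` to `F` (a curve on `[0,L]` is written as a
`1`-Lipschitz map on `ℝ`; curves parametrised by arc length are `1`-Lipschitz). -/
def Adm [PseudoMetricSpace Z] [MeasurableSpace Z] (ρ : Z → ℝ≥0∞) (E F : Set Z) : Prop :=
  Measurable ρ ∧ ∀ (γ : ℝ → Z) (L : ℝ), LipschitzWith 1 γ → 0 ≤ L → γ 0 ∈ E → γ L ∈ F →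
    1 ≤ ∫⁻ t in Icc 0 L, ρ (γ t)

/-- The `Q`-modulus of the family of curves joining `E` to `F`. -/
noncomputable def Md [PseudoMetricSpace Z] [MeasurableSpace Z] (μ : Measure Z) (Q : ℝ)
    (E F : Set Z) : ℝ≥0∞ :=
  ⨅ (ρ : Z → ℝ≥0∞) (_ : Adm ρ E F), ∫⁻ z, ρ z ^ Q ∂μ

/-! ### The two packages of hypotheses -/

/-- Hypotheses on the space: `Q > 1`, at least two points, Ahlfors regular, rectifiably
connected, Loewner (for pairs of disjoint non-degenerate path images). -/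
structure Sp (Z : Type*) [MetricSpace Z] [CompactSpace Z] [MeasurableSpace Z] [BorelSpace Z]
    (μ : Measure Z) (Q : ℝ) : Prop where
  hQ : 1 < Q
  hD : 0 < diam (univ : Set Z)
  ahl : ∃ C : ℝ, 1 ≤ C ∧ ∀ (x : Z) (r : ℝ), 0 < r → r ≤ diam (univ : Set Z) →
    ENNReal.ofReal (r ^ Q / C) ≤ μ (closedBall x r) ∧
    μ (closedBall x r) ≤ ENNReal.ofReal (C * r ^ Q)
  rc : ∀ x y : Z, ∃ (γ : ℝ → Z) (L : ℝ), LipschitzWith 1 γ ∧ 0 ≤ L ∧ γ 0 = x ∧ γ L = y
  loew : ∀ t : ℝ, 0 < t → ∃ m : ℝ, 0 < m ∧ ∀ E F : Set Z, IsPI E → IsPI F → Disjoint E F →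
    0 < diam E → 0 < diam F → (∃ x ∈ E, ∃ y ∈ F, dist x y ≤ t * min (diam E) (diam F)) →
    ENNReal.ofReal m ≤ Md μ Q E F

/-- Hypotheses on the semigroup `S` of embeddings and its subgroup `G`. -/
structure Sg (Z : Type*) [MetricSpace Z] (S G : Set (Z → Z)) (δ₀ : ℝ) (θ₀ : ℝ → ℝ) : Prop where
  hδ : 0 < δ₀
  gauge : Gauge θ₀
  id_mem : id ∈ G
  sub : G ⊆ S
  comp : ∀ f ∈ S, ∀ g ∈ S, f ∘ g ∈ S
  cont : ∀ f ∈ S, Continuous f
  qs : ∀ f ∈ S, ∃ η, Gauge η ∧ QSg η f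
  qm : ∀ f ∈ S, ∃ θ, Gauge θ ∧ QM θ f
  inv : ∀ g ∈ G, ∃ g' ∈ G, g ∘ g' = id ∧ g' ∘ g = id
  compG : ∀ f ∈ G, ∀ g ∈ G, f ∘ g ∈ G
  co : ∀ x y z : Z, x ≠ y → x ≠ z → y ≠ z → ∃ h ∈ G, Sep δ₀ (h x) (h y) (h z)
  rig : ∀ f ∈ S, ∀ g h : ℕ → Z → Z, (∀ j, g j ∈ G) → (∀ j, h j ∈ G) → ∀ φ : Z → Z,
    TendstoUniformly (fun j => g j ∘ f ∘ h j) φ atTop → Function.Bijective φ → QM θ₀ φ

/-- `h ∈ G` moves the triple `x, y, z` (with `x ≠ y`) to a `δ₀`-separated triple. -/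
structure Zm [PseudoMetricSpace Z] (G : Set (Z → Z)) (δ₀ : ℝ) (h : Z → Z) (x y z : Z) : Prop where
  mem : h ∈ G
  ne : x ≠ y
  sep : Sep δ₀ (h x) (h y) (h z)

/-! ### Scales, nets, discrete energies -/

/-- The scale `2^{-k}`. -/
noncomputable def ep (k : ℕ) : ℝ := (1 / 2 : ℝ) ^ k

/-- `N` is a maximal `ε`-separated set. -/
structure IsNet [PseudoMetricSpace Z] (N : Finset Z) (ε : ℝ) : Prop where
  sep : ∀ x ∈ N, ∀ y ∈ N, x ≠ y → ε ≤ dist x y
  cov : ∀ z : Z, ∃ x ∈ N, dist z x < ε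

theorem exists_net [PseudoMetricSpace Z] [CompactSpace Z] {ε : ℝ} (hε : 0 < ε) :
    ∃ N : Finset Z, IsNet N ε := by
  classical
  -- a finite cover by balls of radius `ε/2` bounds the size of `ε`-separated finite sets
  obtain ⟨T, -, hTfin, hT⟩ := (isCompact_univ : IsCompact (univ : Set Z)).finite_cover_balls
    (half_pos hε)
  lift T to Finset Z using hTfin
  let P : ℕ → Prop := fun n => ∃ N : Finset Z, N.card = n ∧
    ∀ x ∈ N, ∀ y ∈ N, x ≠ y → ε ≤ dist x y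
  have hb : ∀ n, P n → n ≤ T.card := by
    rintro n ⟨N, rfl, hN⟩
    have hch : ∀ x : Z, ∃ t ∈ T, dist x t < ε / 2 := by
      intro x
      have := hT (mem_univ x)
      simp only [mem_iUnion, mem_ball, Finset.mem_coe] at this
      obtain ⟨t, ht, h⟩ := this
      exact ⟨t, ht, h⟩
    choose c hc hc' using hch
    refine Finset.card_le_card_of_injOn c (fun x _ => hc x) ?_
    intro x hx y hy hxy
    by_contra hne
    have h1 := hN x hx y hy hne
    have h2 := dist_triangle_right x y (c x)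
    have h3 := hc' x
    have h4 := hc' y
    rw [← hxy] at h4
    linarith
  obtain ⟨N, hNc, hN⟩ : P (Nat.findGreatest P T.card) :=
    Nat.findGreatest_spec (P := P) (m := 0) (Nat.zero_le _) ⟨∅, rfl, by simp⟩
  refine ⟨N, hN, fun z => ?_⟩
  by_contra hcon
  push Not at hcon
  have hz : z ∉ N := fun hz => by
    have := hcon z hz
    simp at this
    linarith
  have hP : P (N.card + 1) := by
    refine ⟨insert z N, Finset.card_insert_of_notMem hz, ?_⟩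
    intro x hx y hy hxy
    rw [Finset.mem_insert] at hx hy
    rcases hx with rfl | hx <;> rcases hy with rfl | hy
    · exact absurd rfl hxy
    · exact hcon y hy
    · rw [dist_comm]; exact hcon x hx
    · exact hN x hx y hy hxy
  have h1 := Nat.le_findGreatest (hb _ hP) hP
  omega

/-- A fixed maximal `2^{-k}`-separated set of `Z`. -/
noncomputable def net (Z : Type*) [MetricSpace Z] [CompactSpace Z] (k : ℕ) : Finset Z :=
  (exists_net (Z := Z) (ε := ep k) (by unfold ep; positivity)).choose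

theorem net_isNet (Z : Type*) [MetricSpace Z] [CompactSpace Z] (k : ℕ) :
    IsNet (net Z k) (ep k) :=
  (exists_net (Z := Z) (ε := ep k) (by unfold ep; positivity)).choose_spec

open Classical in
/-- The discrete energy of `v` at scale `2^{-k}` over net points in `W`. -/
noncomputable def Ek [MetricSpace Z] [CompactSpace Z] [PseudoMetricSpace Y] (Q : ℝ) (k : ℕ)
    (W : Set Z) (v : Z → Y) : ℝ :=
  ∑ x ∈ (net Z k).filter (· ∈ W), diam (v '' ball x (4 * ep k)) ^ Q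

/-- The test class: continuous functions all of whose compositions with elements of `S` have
energy at most `1` at arbitrarily small scales. -/
def UU [MetricSpace Z] [CompactSpace Z] (Q : ℝ) (S : Set (Z → Z)) : Set (Z → ℝ) :=
  {u | Continuous u ∧ ∀ f ∈ S, ∃ᶠ k in atTop, Ek Q k univ (u ∘ f) ≤ 1}

/-- `f` and `f'` are within `n` of each other, tested against the class `UU`. -/
def Near [MetricSpace Z] [CompactSpace Z] [MeasurableSpace Z] (μ : Measure Z) (Q : ℝ)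
    (S : Set (Z → Z)) (f f' : Z → Z) (n : ℝ) : Prop :=
  ∀ u ∈ UU Q S, |(∫ x, u (f x) ∂μ) - ∫ x, u (f' x) ∂μ| ≤ n

/-- `p` and `q` are joined by a path on which `v` oscillates by at most `c`. -/
def JJ [TopologicalSpace Z] [PseudoMetricSpace Y] (v : Z → Y) (p q : Z) (c : ℝ≥0∞) : Prop :=
  ∃ α : C(unitInterval, Z), α 0 = p ∧ α 1 = q ∧ ∀ s t, edist (v (α s)) (v (α t)) ≤ c

/-- The density at scale `2^{-k}` whose line integrals control the oscillation of `v`. -/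
noncomputable def rk [MetricSpace Z] [CompactSpace Z] [PseudoMetricSpace Y] (k : ℕ) (v : Z → Y)
    (z : Z) : ℝ≥0∞ :=
  ∑ x ∈ net Z k, ENNReal.ofReal (diam (v '' ball x (4 * ep k)) / ep k) *
    (ball x (2 * ep k)).indicator 1 z

/-- A curve in `closedBall x (Λ r)` starting in `closedBall x (r/8)`, ending outside
`ball x (r/2)`, with `ρ`-length at most `e`. -/
structure Seed [PseudoMetricSpace Z] (Λ : ℝ) (x : Z) (r : ℝ) (ρ : Z → ℝ≥0∞) (e : ℝ≥0∞)
    (γ : ℝ → Z) (L : ℝ) : Prop where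
  lip : LipschitzWith 1 γ
  nonneg : 0 ≤ L
  im : ∀ t ∈ Icc 0 L, γ t ∈ closedBall x (Λ * r)
  start : dist x (γ 0) ≤ r / 8
  stop : r / 2 ≤ dist x (γ L)
  int : ∫⁻ t in Icc 0 L, ρ (γ t) ≤ e

/-- The constants `Λ, m` are good for the existence of seeds (module S06). -/
def SeedC [MetricSpace Z] [MeasurableSpace Z] (μ : Measure Z) (Q Λ m : ℝ) : Prop :=
  1 ≤ Λ ∧ 0 < m ∧ ∀ (x : Z) (r : ℝ), 0 < r → r ≤ diam (univ : Set Z) / 2 →
    ∀ ρ : Z → ℝ≥0∞, Measurable ρ → ∀ l : ℝ≥0∞, 0 < l → l ≠ ∞ →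
    ∫⁻ z in closedBall x (Λ * r), ρ z ^ Q ∂μ < ENNReal.ofReal m * l ^ Q →
    ∃ (γ : ℝ → Z) (L : ℝ), Seed Λ x r ρ l γ L

/-- The constants `Λ', m'` are good for linking two curves of size `≥ c R` in a ball of
radius `R` (module S09). -/
def StepC [MetricSpace Z] [CompactSpace Z] [MeasurableSpace Z] (μ : Measure Z) (Q : ℝ)
    (Y : Type*) [PseudoMetricSpace Y] (c Λ' m' : ℝ) : Prop :=
  1 ≤ Λ' ∧ 0 < m' ∧ ∀ (k : ℕ) (v : Z → Y), Continuous v → ∀ (x₀ : Z) (R : ℝ), 0 < R →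
    ∀ (γ₁ γ₂ : ℝ → Z) (L₁ L₂ : ℝ), LipschitzWith 1 γ₁ → LipschitzWith 1 γ₂ →
    ep k / 2 ≤ L₁ → ep k / 2 ≤ L₂ →
    (∀ t ∈ Icc 0 L₁, γ₁ t ∈ closedBall x₀ R) → (∀ t ∈ Icc 0 L₂, γ₂ t ∈ closedBall x₀ R) →
    c * R ≤ dist (γ₁ 0) (γ₁ L₁) → c * R ≤ dist (γ₂ 0) (γ₂ L₂) →
    ∀ e₁ e₂ e : ℝ≥0∞, ∫⁻ t in Icc 0 L₁, rk k v (γ₁ t) ≤ e₁ → ∫⁻ t in Icc 0 L₂, rk k v (γ₂ t) ≤ e₂ →
    0 < e → e ≠ ∞ →
    ∫⁻ z in closedBall x₀ (Λ' * R), rk k v z ^ Q ∂μ < ENNReal.ofReal m' * e ^ Q →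
    JJ v (γ₁ 0) (γ₂ 0) (4 * e₁ + 2 * e₂ + 2 * e)

/-- `y` is a point of density of `A`. -/
def Dens [PseudoMetricSpace Z] [MeasurableSpace Z] (μ : Measure Z) (A : Set Z) (y : Z) : Prop :=
  Tendsto (fun r => μ (A ∩ closedBall y r) / μ (closedBall y r)) (𝓝[>] 0) (𝓝 1)

/-- Truncated logarithmic potential `min (N, log (D / d(·,a)))`. -/
noncomputable def LL [PseudoMetricSpace Z] (D : ℝ) (a : Z) (N : ℝ) (z : Z) : ℝ :=
  Real.log (D / max (dist z a) (D * Real.exp (-N)))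

end QSCoh
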