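import Mathlib
import Pool.Agent.Lib.MP_cccab4_an.Defs

/-!
# MP_cccab4_an, module A01

Gauges versus self-homeomorphisms of `[0,∞)`.

(1) Given a gauge `θ` put `η t = t + ∫ u in 1..2, θ (t u)` = `t + (1/t) ∫_t^{2t} θ` (for `t > 0`),
`η 0 = 0`.  `θ` is monotone, so `θ t ≤ ∫_1^2 θ(tu) du ≤ θ (2t)`; the integral is nondecreasing in `t`,
continuous on `(0,∞)` (formula `(1/t) ∫_t^{2t} θ`), tends to `0` at `0`.  So `η` is continuous, strictly
increasing, `η 0 = 0`, unbounded, hence an order isomorphism of `ℝ≥0`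
(`StrictMono.orderIsoOfSurjective`, `OrderIso.toHomeomorph`).  (Any other construction of a continuous
strictly increasing unbounded majorant vanishing at `0` is fine, e.g. piecewise linear on the points
`2^n`, `n ∈ ℤ`.)

(2) A homeomorphism of `ℝ≥0` is continuous and injective, hence strictly monotone or strictly antitone
(`Continuous.strictMono_of_inj`), and it is onto the unbounded set `ℝ≥0`, so it is strictly increasing;
being onto it maps `0` to `0`.  Take `θ t = η (t.toNNReal)` (it is `0` for `t ≤ 0`).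
-/

open MeasureTheory Metric Set Filter Topology
open scoped ENNReal NNReal

namespace QSCoh

/-- the average of `θ` over `[t, 2t]` -/
noncomputable def a01g (θ : ℝ → ℝ) (t : ℝ) : ℝ := ∫ u in (1 : ℝ)..2, θ (t * u)

theorem a01_int {θ : ℝ → ℝ} (h : Gauge θ) (t : ℝ) :
    IntervalIntegrable (fun u => θ (t * u)) volume 1 2 := by
  rcases le_total 0 t with ht | ht
  · apply Monotone.intervalIntegrable
    intro x y hxy
    exact h.mono (mul_le_mul_of_nonneg_left hxy ht)
  · apply Antitone.intervalIntegrable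
    intro x y hxy
    exact h.mono (mul_le_mul_of_nonpos_left hxy ht)

theorem a01_ge {θ : ℝ → ℝ} (h : Gauge θ) {t : ℝ} (ht : 0 ≤ t) : θ t ≤ a01g θ t := by
  have h1 : ∫ _u in (1 : ℝ)..2, θ t ≤ a01g θ t := by
    apply intervalIntegral.integral_mono_on (by norm_num) intervalIntegrable_const (a01_int h t)
    intro u hu
    apply h.mono
    nlinarith [hu.1]
  have h2 : ∫ _u in (1 : ℝ)..2, θ t = θ t := by
    rw [intervalIntegral.integral_const, smul_eq_mul]
    norm_num
  linarith

theorem a01_le {θ : ℝ → ℝ} (h : Gauge θ) {t : ℝ} (ht : 0 ≤ t) : a01g θ t ≤ θ (2 * t) := by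
  have h1 : a01g θ t ≤ ∫ _u in (1 : ℝ)..2, θ (2 * t) := by
    apply intervalIntegral.integral_mono_on (by norm_num) (a01_int h t) intervalIntegrable_const
    intro u hu
    apply h.mono
    nlinarith [hu.2]
  have h2 : ∫ _u in (1 : ℝ)..2, θ (2 * t) = θ (2 * t) := by
    rw [intervalIntegral.integral_const, smul_eq_mul]
    norm_num
  linarith

theorem a01_mono {θ : ℝ → ℝ} (h : Gauge θ) {s t : ℝ} (hst : s ≤ t) : a01g θ s ≤ a01g θ t := by
  apply intervalIntegral.integral_mono_on (by norm_num) (a01_int h s) (a01_int h t)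
  intro u hu
  apply h.mono
  apply mul_le_mul_of_nonneg_right hst
  linarith [hu.1]

theorem a01_zero {θ : ℝ → ℝ} (h : Gauge θ) : θ 0 = 0 := by
  apply le_antisymm _ (h.nonneg 0)
  apply ge_of_tendsto h.lim
  filter_upwards [self_mem_nhdsWithin] with t ht
  exact h.mono (le_of_lt ht)

theorem a01_cont_pos {θ : ℝ → ℝ} (h : Gauge θ) {t : ℝ} (ht : 0 < t) : ContinuousAt (a01g θ) t := by
  have hΦ : Continuous (fun x : ℝ => ∫ u in (0 : ℝ)..x, θ u) := by
    apply intervalIntegral.continuous_primitive
    intro a b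
    exact h.mono.intervalIntegrable
  have h1 : ∀ᶠ s in 𝓝 t, a01g θ s =
      s⁻¹ * ((∫ u in (0 : ℝ)..(s * 2), θ u) - ∫ u in (0 : ℝ)..(s * 1), θ u) := by
    filter_upwards [lt_mem_nhds ht] with s hs
    rw [a01g, intervalIntegral.integral_comp_mul_left (fun u => θ u) hs.ne', smul_eq_mul]
    congr 1
    rw [intervalIntegral.integral_interval_sub_left h.mono.intervalIntegrable
      h.mono.intervalIntegrable]
  apply ContinuousAt.congr _ (h1.mono (fun s hs => hs.symm))
  apply ContinuousAt.mul
  · exact continuousAt_inv₀ ht.ne'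
  · apply ContinuousAt.sub
    · exact (hΦ.comp (continuous_id.mul continuous_const)).continuousAt
    · exact (hΦ.comp (continuous_id.mul continuous_const)).continuousAt

theorem a01_cont {θ : ℝ → ℝ} (h : Gauge θ) :
    Continuous (fun t : ℝ≥0 => a01g θ (t : ℝ)) := by
  rw [continuous_iff_continuousAt]
  intro t
  rcases eq_or_lt_of_le (zero_le : 0 ≤ t) with ht | ht
  · rw [← ht]
    have h0 : a01g θ ((0 : ℝ≥0) : ℝ) = 0 := by
      apply le_antisymm
      · have := a01_le h (t := 0) le_rfl
        rw [mul_zero, a01_zero h] at this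
        simpa using this
      · have := a01_ge h (t := 0) le_rfl
        rw [a01_zero h] at this
        simpa using this
    rw [ContinuousAt, h0]
    have hlim : Tendsto (fun t : ℝ≥0 => θ (2 * (t : ℝ))) (𝓝 0) (𝓝 0) := by
      rw [Metric.tendsto_nhds]
      intro ε hε
      have h1 := (Metric.tendsto_nhds.1 h.lim) ε hε
      rw [eventually_nhdsWithin_iff, Metric.eventually_nhds_iff] at h1
      obtain ⟨δ, hδ, h1⟩ := h1
      rw [Metric.eventually_nhds_iff]
      refine ⟨δ / 2, by positivity, fun y hy => ?_⟩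
      rcases eq_or_lt_of_le (zero_le : 0 ≤ y) with hy0 | hy0
      · rw [← hy0]
        simp only [NNReal.coe_zero, mul_zero, a01_zero h, dist_self]
        exact hε
      · apply h1
        · rw [NNReal.dist_eq] at hy
          rw [Real.dist_eq]
          simp only [NNReal.coe_zero, sub_zero] at hy ⊢
          rw [abs_mul, abs_of_pos (by norm_num : (0 : ℝ) < 2)]
          linarith
        · have : (0 : ℝ) < y := hy0
          show (0 : ℝ) < 2 * (y : ℝ)
          positivity
    refine tendsto_of_tendsto_of_tendsto_of_le_of_le tendsto_const_nhds hlim ?_ ?_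
    · intro y
      exact (h.nonneg _).trans (a01_ge h y.2)
    · intro y
      exact a01_le h y.2
  · exact (a01_cont_pos h (t := t) ht).comp NNReal.continuous_coe.continuousAt

theorem gauge_homeo {θ : ℝ → ℝ} (h : Gauge θ) :
    ∃ η : ℝ≥0 ≃ₜ ℝ≥0, ∀ t : ℝ≥0, θ t ≤ η t := by
  have hnn : ∀ t : ℝ≥0, 0 ≤ a01g θ (t : ℝ) := fun t => (h.nonneg _).trans (a01_ge h t.2)
  let e : ℝ≥0 → ℝ≥0 := fun t => t + ⟨a01g θ (t : ℝ), hnn t⟩
  have hmono : StrictMono e := by
    intro s t hst
    apply add_lt_add_of_lt_of_le hst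
    exact a01_mono h (NNReal.coe_le_coe.2 hst.le)
  have hcont : Continuous e := by
    apply continuous_id.add
    exact (a01_cont h).subtype_mk _
  have hsurj : Function.Surjective e := by
    intro c
    apply mem_range_of_exists_le_of_exists_ge hcont
    · refine ⟨0, ?_⟩
      have h0 : e 0 = 0 := by
        apply NNReal.coe_injective
        have h1 : a01g θ ((0 : ℝ≥0) : ℝ) = 0 := by
          apply le_antisymm
          · have := a01_le h (t := 0) le_rfl
            rw [mul_zero, a01_zero h] at this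
            simpa using this
          · exact hnn 0
        show ((0 : ℝ≥0) : ℝ) + a01g θ ((0 : ℝ≥0) : ℝ) = ((0 : ℝ≥0) : ℝ)
        rw [h1, add_zero]
      rw [h0]
      exact zero_le
    · exact ⟨c, le_add_of_nonneg_right zero_le⟩
  refine ⟨(hmono.orderIsoOfSurjective e hsurj).toHomeomorph, fun t => ?_⟩
  have h1 : (hmono.orderIsoOfSurjective e hsurj).toHomeomorph t = e t := rfl
  rw [h1]
  show θ t ≤ (t : ℝ) + a01g θ (t : ℝ)
  exact (a01_ge h t.2).trans (le_add_of_nonneg_left (NNReal.coe_nonneg t))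

theorem homeo_gauge (η : ℝ≥0 ≃ₜ ℝ≥0) :
    ∃ θ : ℝ → ℝ, Gauge θ ∧ ∀ t : ℝ≥0, θ t = η t := by
  have hmono : StrictMono η := by
    rcases η.continuous.strictMono_of_inj η.injective with h | h
    · exact h
    · exfalso
      obtain ⟨t, ht⟩ := η.surjective (η 0 + 1)
      have h1 : η t ≤ η 0 := h.antitone zero_le
      rw [ht] at h1
      have h2 : η 0 < η 0 + 1 := lt_add_of_pos_right _ one_pos
      exact absurd h1 (not_le.2 h2)
  have h0 : η 0 = 0 := by
    obtain ⟨t, ht⟩ := η.surjective 0
    have h1 : η 0 ≤ η t := hmono.monotone zero_le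
    rw [ht] at h1
    exact le_antisymm h1 zero_le
  refine ⟨fun t => η t.toNNReal, ⟨?_, ?_, ?_⟩, ?_⟩
  · intro s t hst
    exact NNReal.coe_le_coe.2 (hmono.monotone (Real.toNNReal_le_toNNReal hst))
  · intro t
    exact (η t.toNNReal).2
  · have h1 : Continuous (fun t : ℝ => ((η t.toNNReal : ℝ≥0) : ℝ)) :=
      NNReal.continuous_coe.comp (η.continuous.comp continuous_real_toNNReal)
    have h2 := h1.tendsto 0
    simp only [Real.toNNReal_zero, h0, NNReal.coe_zero] at h2
    exact h2.mono_left nhdsWithin_le_nhds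
  · intro t
    simp only [Real.toNNReal_coe]

end QSCoh
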