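import Mathlib
import Pool.Agent.Lib.MP_cccab4_an.Defs

/-!
# MP_cccab4_an, module A02

Let `a ≠ c`, `b ≠ d`, `t = cr a b c d = ab·cd/(ac·bd)`, `s = min(ab,cd)/min(ac,bd)`; `t', s'` the same
quantities for the images (`f` is injective so the denominators are positive).

(i) `s ≤ 3 t + √(3 t)`.  By the symmetries `(a,b,c,d) → (b,a,d,c)`, `(c,d,a,b)`, `(d,c,b,a)` (they
preserve the two products) one may assume `ab ≤ cd`; both cases `ac ≤ bd` and `bd ≤ ac` are alike.
Say `ac ≤ bd` (so `s = ab/ac`).  `t = s · cd/bd`, and `bd ≤ ba + ac + cd ≤ 2 cd + ac`.  If `s ≥ 1` then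
`ac ≤ ab ≤ cd`, so `bd ≤ 3 cd` and `t ≥ s/3`.  If `0 < s ≤ 1` then `ac = ab/s ≤ cd/s`, so
`bd ≤ 3 cd/s`, `t ≥ s²/3`.  If `s = 0` nothing to show.
(ii) `s' ≤ η s`.  By the symmetry assume `min(a'c',b'd') = a'c'` (primes: images).  If
`min(ab,cd) = ab` then `ab ≤ s·ac` (as `min(ac,bd) ≤ ac`), so `a'b' ≤ η(s) a'c'` (QSg with centre `a`).
If it is `cd` then `cd ≤ s·ca`, so `c'd' ≤ η(s) c'a'` (centre `c`).
(iii) `t' ≤ 3 (s' + s'²)`: apply (i) to the quadruple `(a,c,b,d)`, whose `t, s` are the inverses (if
`t' > 0`): `1/s' ≤ 3/t' + √(3/t')`, so either `1/(2 s') ≤ 3/t'` or `1/(2s')² ≤ 3/t'`; so in fact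
`t' ≤ 6 s' + 12 s'²`.
So `θ t = 6 E + 12 E²` with `E = η (3 t + √(3 t))` works (`Real.sqrt` is `0` for negative argument; put
`max t 0` in place of `t` to keep it monotone for negative `t`).
-/

open MeasureTheory Metric Set Filter Topology
open scoped ENNReal NNReal

namespace QSCoh

/-- Core case of the comparison of the two cross-ratios. -/
theorem mm_core {X : Type*} [MetricSpace X] {a b c d : X} (hac : a ≠ c) (hbd : b ≠ d)
    (h1 : dist a b ≤ dist c d) (_h2 : dist a c ≤ dist b d) :
    dist a b ≤ (3 * cr a b c d + Real.sqrt (3 * cr a b c d)) * dist a c := by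
  have hAC : 0 < dist a c := dist_pos.2 hac
  have hBD : 0 < dist b d := dist_pos.2 hbd
  have hAB : 0 ≤ dist a b := dist_nonneg
  have hCD : 0 ≤ dist c d := dist_nonneg
  have htri : dist b d ≤ dist a b + dist a c + dist c d := by
    have := dist_triangle4 b a c d
    rw [dist_comm b a] at this
    exact this
  set t := cr a b c d with ht
  have ht' : t * (dist a c * dist b d) = dist a b * dist c d := by
    rw [ht, cr]; field_simp
  have ht0 : 0 ≤ t := by rw [ht, cr]; positivity
  have hsq : 0 ≤ Real.sqrt (3 * t) := Real.sqrt_nonneg _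
  by_cases hc : dist a c ≤ dist a b
  · have h3 : dist b d ≤ 3 * dist c d := by linarith
    have h4 : dist a b * dist b d ≤ 3 * t * dist a c * dist b d := by
      calc dist a b * dist b d ≤ dist a b * (3 * dist c d) := mul_le_mul_of_nonneg_left h3 hAB
        _ = 3 * (dist a b * dist c d) := by ring
        _ = 3 * (t * (dist a c * dist b d)) := by rw [ht']
        _ = _ := by ring
    have h5 : dist a b ≤ 3 * t * dist a c := le_of_mul_le_mul_right h4 hBD
    have h6 : 0 ≤ Real.sqrt (3 * t) * dist a c := by positivity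
    nlinarith
  · push Not at hc
    -- s = ab / ac < 1
    have h3 : dist a b * dist b d ≤ 3 * dist c d * dist a c := by
      have e1 : dist a b * dist b d ≤ dist a b * (2 * dist c d + dist a c) :=
        mul_le_mul_of_nonneg_left (by linarith) hAB
      have e2 : dist a b * dist c d ≤ dist a c * dist c d := mul_le_mul_of_nonneg_right hc.le hCD
      have e3 : dist a b * dist a c ≤ dist c d * dist a c := mul_le_mul_of_nonneg_right h1 hAC.le
      nlinarith
    have h4 : (dist a b / dist a c) ^ 2 ≤ 3 * t := by
      rw [div_pow, div_le_iff₀ (by positivity)]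
      have e4 : dist a b ^ 2 * dist b d ≤ 3 * t * dist a c ^ 2 * dist b d := by
        calc dist a b ^ 2 * dist b d = dist a b * (dist a b * dist b d) := by ring
          _ ≤ dist a b * (3 * dist c d * dist a c) := mul_le_mul_of_nonneg_left h3 hAB
          _ = 3 * (dist a b * dist c d) * dist a c := by ring
          _ = 3 * (t * (dist a c * dist b d)) * dist a c := by rw [ht']
          _ = _ := by ring
      exact le_of_mul_le_mul_right e4 hBD
    have h5 : dist a b / dist a c ≤ Real.sqrt (3 * t) := Real.le_sqrt_of_sq_le h4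
    have h6 : dist a b ≤ Real.sqrt (3 * t) * dist a c := (div_le_iff₀ hAC).1 h5
    have h7 : 0 ≤ 3 * t * dist a c := by positivity
    nlinarith

/-- `min(ab,cd) ≤ (3t + √(3t)) min(ac,bd)`. -/
theorem mm {X : Type*} [MetricSpace X] {a b c d : X} (hac : a ≠ c) (hbd : b ≠ d) :
    min (dist a b) (dist c d) ≤ (3 * cr a b c d + Real.sqrt (3 * cr a b c d)) *
      min (dist a c) (dist b d) := by
  have s1 : cr b a d c = cr a b c d := by
    unfold cr
    rw [dist_comm b a, dist_comm d c, mul_comm (dist b d)]
  have s2 : cr c d a b = cr a b c d := by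
    unfold cr
    rw [mul_comm (dist c d), dist_comm c a, dist_comm d b]
  have s3 : cr d c b a = cr a b c d := by
    unfold cr
    rw [dist_comm d c, dist_comm b a, mul_comm (dist c d), dist_comm d b, dist_comm c a,
      mul_comm (dist b d)]
  rcases le_total (dist a b) (dist c d) with h1 | h1 <;>
    rcases le_total (dist a c) (dist b d) with h2 | h2
  · rw [min_eq_left h1, min_eq_left h2]
    exact mm_core hac hbd h1 h2
  · rw [min_eq_left h1, min_eq_right h2]
    have := mm_core (a := b) (b := a) (c := d) (d := c) hbd hac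
      (by rw [dist_comm b a, dist_comm d c]; exact h1) h2
    rw [s1, dist_comm b a] at this
    exact this
  · rw [min_eq_right h1, min_eq_left h2]
    have := mm_core (a := c) (b := d) (c := a) (d := b) hac.symm hbd.symm h1
      (by rw [dist_comm c a, dist_comm d b]; exact h2)
    rw [s2, dist_comm c a] at this
    exact this
  · rw [min_eq_right h1, min_eq_right h2]
    have := mm_core (a := d) (b := c) (c := b) (d := a) hbd.symm hac.symm
      (by rw [dist_comm d c, dist_comm b a]; exact h1) (by rw [dist_comm d b, dist_comm c a]; exact h2)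
    rw [s3, dist_comm d c, dist_comm d b] at this
    exact this

/-- Quasisymmetric implies quasi-Möbius, quantitatively. -/
theorem qs_qm {X Y : Type*} [MetricSpace X] [MetricSpace Y] {η : ℝ → ℝ} (hη : Gauge η) :
    ∃ θ : ℝ → ℝ, Gauge θ ∧ ∀ f : X → Y, Function.Injective f → QSg η f → QM θ f := by
  have hu : Monotone fun t : ℝ => 3 * max t 0 + Real.sqrt (3 * max t 0) := by
    intro s t hst
    have h1 : max s 0 ≤ max t 0 := max_le_max hst le_rfl
    have h2 := Real.sqrt_le_sqrt (mul_le_mul_of_nonneg_left h1 (by norm_num : (0:ℝ) ≤ 3))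
    show 3 * max s 0 + Real.sqrt (3 * max s 0) ≤ 3 * max t 0 + Real.sqrt (3 * max t 0)
    linarith
  set E : ℝ → ℝ := fun t => η (3 * max t 0 + Real.sqrt (3 * max t 0)) with hE
  have hEm : Monotone E := hη.mono.comp hu
  have hE0 : ∀ t, 0 ≤ E t := fun t => hη.nonneg _
  refine ⟨fun t => 6 * E t + 12 * E t ^ 2, ⟨?_, ?_, ?_⟩, ?_⟩
  · intro s t hst
    have h1 := hEm hst
    have h2 : E s ^ 2 ≤ E t ^ 2 := pow_le_pow_left₀ (hE0 s) h1 2
    show 6 * E s + 12 * E s ^ 2 ≤ 6 * E t + 12 * E t ^ 2
    linarith
  · intro t
    have := hE0 t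
    positivity
  · have h1 : Tendsto (fun t : ℝ => 3 * max t 0 + Real.sqrt (3 * max t 0)) (𝓝[>] 0) (𝓝[>] 0) := by
      refine tendsto_nhdsWithin_iff.2 ⟨?_, ?_⟩
      · have hc : Continuous fun t : ℝ => 3 * max t 0 + Real.sqrt (3 * max t 0) := by fun_prop
        have := (hc.tendsto 0)
        simp only [max_self, mul_zero, Real.sqrt_zero, add_zero] at this
        exact this.mono_left nhdsWithin_le_nhds
      · filter_upwards [self_mem_nhdsWithin] with t ht
        have ht' : (0:ℝ) < t := ht
        show 0 < 3 * max t 0 + Real.sqrt (3 * max t 0)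
        rw [max_eq_left ht'.le]
        positivity
    have h2 : Tendsto E (𝓝[>] 0) (𝓝 0) := hη.lim.comp h1
    have h3 := (h2.const_mul 6).add ((h2.pow 2).const_mul 12)
    simpa using h3
  · intro f hf hq
    refine ⟨hf, fun a b c d hac hbd => ?_⟩
    have hac' := hf.ne hac
    have hbd' := hf.ne hbd
    have hA'C' : 0 < dist (f a) (f c) := dist_pos.2 hac'
    have hB'D' : 0 < dist (f b) (f d) := dist_pos.2 hbd'
    have hcr0 : 0 ≤ cr a b c d := by unfold cr; positivity
    by_cases hab : a = b
    · have : cr (f a) (f b) (f c) (f d) = 0 := by simp [cr, hab]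
      rw [this]
      have := hE0 (cr a b c d)
      positivity
    by_cases hcd : c = d
    · have : cr (f a) (f b) (f c) (f d) = 0 := by simp [cr, hcd]
      rw [this]
      have := hE0 (cr a b c d)
      positivity
    have hA'B' : 0 < dist (f a) (f b) := dist_pos.2 (hf.ne hab)
    have hC'D' : 0 < dist (f c) (f d) := dist_pos.2 (hf.ne hcd)
    set u := 3 * cr a b c d + Real.sqrt (3 * cr a b c d) with hu'
    have hEu : E (cr a b c d) = η u := by
      simp only [hE, max_eq_left hcr0, hu']
    have hu0 : 0 ≤ u := by positivity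
    have hmn := mm (a := a) (b := b) (c := c) (d := d) hac hbd
    rw [← hu'] at hmn
    -- step (ii)
    have hii : min (dist (f a) (f b)) (dist (f c) (f d)) ≤
        η u * min (dist (f a) (f c)) (dist (f b) (f d)) := by
      have hle1 : u * min (dist a c) (dist b d) ≤ u * dist a c :=
        mul_le_mul_of_nonneg_left (min_le_left _ _) hu0
      have hle2 : u * min (dist a c) (dist b d) ≤ u * dist b d :=
        mul_le_mul_of_nonneg_left (min_le_right _ _) hu0
      have k1 : min (dist (f a) (f b)) (dist (f c) (f d)) ≤ η u * dist (f a) (f c) := by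
        rcases le_total (dist a b) (dist c d) with h | h
        · rw [min_eq_left h] at hmn
          exact (min_le_left _ _).trans (hq a b c u (hmn.trans hle1))
        · rw [min_eq_right h] at hmn
          have := hq c d a u (by rw [dist_comm c a]; exact hmn.trans hle1)
          rw [dist_comm (f c) (f a)] at this
          exact (min_le_right _ _).trans this
      have k2 : min (dist (f a) (f b)) (dist (f c) (f d)) ≤ η u * dist (f b) (f d) := by
        rcases le_total (dist a b) (dist c d) with h | h
        · rw [min_eq_left h] at hmn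
          have := hq b a d u (by rw [dist_comm b a]; exact hmn.trans hle2)
          rw [dist_comm (f b) (f a)] at this
          exact (min_le_left _ _).trans this
        · rw [min_eq_right h] at hmn
          have := hq d c b u (by rw [dist_comm d c, dist_comm d b]; exact hmn.trans hle2)
          rw [dist_comm (f d) (f c), dist_comm (f d) (f b)] at this
          exact (min_le_right _ _).trans this
      rcases le_total (dist (f a) (f c)) (dist (f b) (f d)) with h | h
      · rw [min_eq_left h]; exact k1
      · rw [min_eq_right h]; exact k2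
    -- step (iii)
    have hm2 := mm (a := f a) (b := f c) (c := f b) (d := f d) (hf.ne hab) (hf.ne hcd)
    set t' := cr (f a) (f b) (f c) (f d) with ht'
    have ht'pos : 0 < t' := by rw [ht', cr]; positivity
    have hcr2 : cr (f a) (f c) (f b) (f d) = 1 / t' := by
      rw [ht', cr, cr]; field_simp
    rw [hcr2] at hm2
    set n' := min (dist (f a) (f c)) (dist (f b) (f d)) with hn'
    have hn'pos : 0 < n' := lt_min hA'C' hB'D'
    set w := 3 * (1 / t') + Real.sqrt (3 * (1 / t')) with hw
    have hw0 : 0 ≤ w := by positivity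
    have h1 : n' ≤ w * (η u * n') := hm2.trans (mul_le_mul_of_nonneg_left hii hw0)
    have h2 : 1 ≤ w * η u := by
      have : 1 * n' ≤ w * η u * n' := by linarith
      exact le_of_mul_le_mul_right this hn'pos
    show t' ≤ 6 * E (cr a b c d) + 12 * E (cr a b c d) ^ 2
    rw [hEu]
    have hη0 : 0 ≤ η u := hη.nonneg _
    by_contra hcon
    push Not at hcon
    have h3 : 6 * η u < t' := by nlinarith
    have h4 : 12 * η u ^ 2 < t' := by nlinarith
    have h5 : 3 * (1 / t') * η u < 1 / 2 := by
      rw [show 3 * (1 / t') * η u = 3 * η u / t' by ring, div_lt_iff₀ ht'pos]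
      linarith
    have h6 : Real.sqrt (3 * (1 / t')) * η u ≤ 1 / 2 := by
      have e1 : (Real.sqrt (3 * (1 / t')) * η u) ^ 2 ≤ (1 / 2) ^ 2 := by
        rw [mul_pow, Real.sq_sqrt (by positivity),
          show 3 * (1 / t') * η u ^ 2 = 3 * η u ^ 2 / t' by ring, div_le_iff₀ ht'pos]
        linarith
      exact le_of_sq_le_sq e1 (by norm_num) |> fun h => h
    have : w * η u < 1 := by
      rw [hw, add_mul]
      linarith
    linarith

end QSCoh
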