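import Mathlib
import Pool.Agent.Lib.MP_cccab4_an.Defs

/-!
# MP_cccab4_an, module A03

Note `θ 0 = 0` for a gauge (monotone, nonnegative, limit `0` at `0+`), also `θ t = 0` for `t ≤ 0`.

* `gauge_comp`: monotone, nonnegative clear; given `ε > 0` there is `τ > 0` with `θ' < ε` on `[0,τ]`
  (at `0` it is `0`), and `θ t ≤ τ` for small `t`.
* `qm_comp`: direct.
* `qm_inv`: for `a ≠ c`, `b ≠ d` and also `a ≠ b`, `c ≠ d` one has `cr a b c d * cr a c b d = 1`.
  Let `t' = cr (f a) (f b) (f c) (f d)`, `t = cr a b c d`.  From `cr (f a) (f c) (f b) (f d) ≤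
  θ (cr a c b d)`: `1/t' ≤ θ (1/t)`.  If `t' → 0` then `θ(1/t) → ∞` so `t → 0`; if `t' ≤ s` then
  `θ (1/t) ≥ 1/s > 0` so `1/t` is bounded below.  Take `θ' s = sSup {t | 0 ≤ t ∧ (t = 0 ∨
  1 ≤ s * θ (1/t))}` for `s > 0`, `0` for `s ≤ 0` (bounded above because `θ(1/t) → 0` as `t → ∞`;
  monotone; tends to `0`: if `t ≥ ε` then `θ (1/t) ≤ θ (1/ε)` so `s ≥ 1/(θ(1/ε)+1)`).  In the degenerate
  cases `a = b` or `c = d` the cross-ratio of the preimages is `0`.
* `qm_limit`: the cross-ratios converge (`a ≠ c` gives `φ a ≠ φ c`, so the denominators converge to a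
  nonzero limit); `le_of_tendsto`.
-/

open MeasureTheory Metric Set Filter Topology
open scoped ENNReal NNReal

namespace QSCoh

theorem Gauge.zero_of_nonpos {θ : ℝ → ℝ} (h : Gauge θ) {t : ℝ} (ht : t ≤ 0) : θ t = 0 := by
  refine le_antisymm ?_ (h.nonneg t)
  refine ge_of_tendsto h.lim ?_
  filter_upwards [self_mem_nhdsWithin] with s hs
  exact h.mono (ht.trans (le_of_lt hs))

theorem Gauge.exists_small {θ : ℝ → ℝ} (hθ : Gauge θ) {ε : ℝ} (hε : 0 < ε) :
    ∃ τ > 0, ∀ t, t ≤ τ → θ t < ε := by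
  have h1 : ∀ᶠ t in 𝓝[>] (0:ℝ), θ t < ε := hθ.lim.eventually_lt_const hε
  obtain ⟨τ, hτ, h⟩ := (mem_nhdsGT_iff_exists_Ioc_subset).1 h1
  exact ⟨τ, hτ, fun t ht => lt_of_le_of_lt (hθ.mono ht) (h ⟨hτ, le_rfl⟩)⟩

/-- A convenient way to produce gauges. -/
theorem gauge_of {θ : ℝ → ℝ} (hm : Monotone θ) (h0 : ∀ t, 0 ≤ θ t)
    (hs : ∀ ε > 0, ∃ τ > 0, θ τ < ε) : Gauge θ := by
  refine ⟨hm, h0, ?_⟩
  rw [Metric.tendsto_nhds]
  intro ε hε
  obtain ⟨τ, hτ, h⟩ := hs ε hε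
  filter_upwards [Ioc_mem_nhdsGT hτ] with t ht
  rw [Real.dist_eq, sub_zero, abs_of_nonneg (h0 t)]
  exact lt_of_le_of_lt (hm ht.2) h

theorem gauge_comp {θ θ' : ℝ → ℝ} (h : Gauge θ) (h' : Gauge θ') : Gauge (fun t => θ' (θ t)) := by
  refine gauge_of (fun a b hab => h'.mono (h.mono hab)) (fun t => h'.nonneg _) fun ε hε => ?_
  obtain ⟨τ', hτ', h1⟩ := h'.exists_small hε
  obtain ⟨τ, hτ, h2⟩ := h.exists_small hτ'
  exact ⟨τ, hτ, h1 _ (h2 τ le_rfl).le⟩

theorem qm_comp {X Y W : Type*} [MetricSpace X] [MetricSpace Y] [MetricSpace W] {θ θ' : ℝ → ℝ}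
    (h' : Gauge θ') {f : X → Y} {g : Y → W} (hf : QM θ f) (hg : QM θ' g) :
    QM (fun t => θ' (θ t)) (fun x => g (f x)) :=
  ⟨hg.inj.comp hf.inj, fun a b c d hac hbd =>
    (hg.le _ _ _ _ (hf.inj.ne hac) (hf.inj.ne hbd)).trans (h'.mono (hf.le a b c d hac hbd))⟩

theorem cr_nonneg {X : Type*} [MetricSpace X] (a b c d : X) : 0 ≤ cr a b c d := by
  unfold cr; positivity

theorem cr_mul_cr {X : Type*} [MetricSpace X] {a b c d : X} (hac : a ≠ c) (hbd : b ≠ d)
    (hab : a ≠ b) (hcd : c ≠ d) : cr a b c d * cr a c b d = 1 := by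
  unfold cr
  have h1 := (dist_pos.2 hac).ne'
  have h2 := (dist_pos.2 hbd).ne'
  have h3 := (dist_pos.2 hab).ne'
  have h4 := (dist_pos.2 hcd).ne'
  field_simp

theorem qm_inv {X Y : Type*} [MetricSpace X] [MetricSpace Y] {θ : ℝ → ℝ} (h : Gauge θ) :
    ∃ θ' : ℝ → ℝ, Gauge θ' ∧ ∀ (f : X → Y) (g : Y → X), QM θ f → (∀ y, f (g y) = y) →
      (∀ x, g (f x) = x) → QM θ' g := by
  -- the set of admissible values
  set T : ℝ → Set ℝ := fun s => {t | t = 0 ∨ (0 < t ∧ 0 < s ∧ 1 ≤ s * θ (1 / t))} with hT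
  have hT0 : ∀ s, (0:ℝ) ∈ T s := fun s => Or.inl rfl
  have hbdd : ∀ s, BddAbove (T s) := by
    intro s
    by_cases hs : 0 < s
    · obtain ⟨τ, hτ, hsm⟩ := h.exists_small (ε := 1 / s) (by positivity)
      refine ⟨1 / τ, ?_⟩
      rintro t (rfl | ⟨ht, -, h1⟩)
      · positivity
      · by_contra hcon
        push Not at hcon
        have h2 : 1 / t ≤ τ := by
          rw [div_le_iff₀ ht]
          rw [div_lt_iff₀ hτ] at hcon
          linarith
        have h3 := hsm _ h2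
        have h4 : s * θ (1 / t) < s * (1 / s) := mul_lt_mul_of_pos_left h3 hs
        rw [mul_one_div_cancel hs.ne'] at h4
        linarith
    · refine ⟨0, ?_⟩
      rintro t (rfl | ⟨ht, hs', h1⟩)
      · exact le_rfl
      · exact absurd hs' hs
  refine ⟨fun s => sSup (T s), gauge_of ?_ ?_ ?_, ?_⟩
  · intro s s' hss
    refine csSup_le_csSup (hbdd s') ⟨0, hT0 s⟩ ?_
    rintro t (rfl | ⟨ht, hs, h1⟩)
    · exact Or.inl rfl
    · exact Or.inr ⟨ht, hs.trans_le hss, h1.trans (mul_le_mul_of_nonneg_right hss (h.nonneg _))⟩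
  · intro s
    exact le_csSup (hbdd s) (hT0 s)
  · intro ε hε
    -- if t ≥ ε then s ≥ 1/(θ(1/ε)+1)
    have hθ0 := h.nonneg (1 / (ε / 2))
    refine ⟨1 / (2 * (θ (1 / (ε / 2)) + 1)), by positivity, ?_⟩
    have hle : sSup (T (1 / (2 * (θ (1 / (ε / 2)) + 1)))) ≤ ε / 2 := by
      refine csSup_le ⟨0, hT0 _⟩ ?_
      rintro t (rfl | ⟨ht, hs, h1⟩)
      · positivity
      · by_contra hcon
        push Not at hcon
        have h2 : θ (1 / t) ≤ θ (1 / (ε / 2)) :=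
          h.mono (one_div_le_one_div_of_le (by positivity) hcon.le)
        have h3 : 1 / (2 * (θ (1 / (ε / 2)) + 1)) * θ (1 / t) ≤
            1 / (2 * (θ (1 / (ε / 2)) + 1)) * (θ (1 / (ε / 2)) + 1) :=
          mul_le_mul_of_nonneg_left (by linarith) (by positivity)
        have h4 : 1 / (2 * (θ (1 / (ε / 2)) + 1)) * (θ (1 / (ε / 2)) + 1) = 1 / 2 := by
          have h5 : θ (1 / (ε / 2)) + 1 ≠ 0 := by linarith
          generalize θ (1 / (ε / 2)) + 1 = B at h5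
          field_simp
        linarith
    linarith
  · intro f g hf hfg hgf
    have hginj : Function.Injective g := Function.LeftInverse.injective (g := f) hfg
    refine ⟨hginj, fun a b c d hac hbd => ?_⟩
    refine le_csSup (hbdd _) ?_
    by_cases hab : a = b
    · left; simp [cr, hab]
    by_cases hcd : c = d
    · left; simp [cr, hcd]
    right
    have hgac := hginj.ne hac
    have hgbd := hginj.ne hbd
    have hgab := hginj.ne hab
    have hgcd := hginj.ne hcd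
    have e1 := cr_mul_cr hac hbd hab hcd
    have e2 := cr_mul_cr hgac hgbd hgab hgcd
    have p1 : 0 < cr a b c d := lt_of_le_of_ne (cr_nonneg _ _ _ _)
      (fun e => by rw [← e, zero_mul] at e1; exact zero_ne_one e1)
    have p2 : 0 < cr (g a) (g b) (g c) (g d) := lt_of_le_of_ne (cr_nonneg _ _ _ _)
      (fun e => by rw [← e, zero_mul] at e2; exact zero_ne_one e2)
    refine ⟨p2, p1, ?_⟩
    have h1 := hf.le (g a) (g c) (g b) (g d) hgab hgcd
    rw [hfg, hfg, hfg, hfg] at h1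
    have e3 : cr (g a) (g c) (g b) (g d) = 1 / cr (g a) (g b) (g c) (g d) := by
      rw [eq_div_iff p2.ne', mul_comm]; exact e2
    rw [e3] at h1
    calc (1:ℝ) = cr a b c d * cr a c b d := e1.symm
      _ ≤ _ := mul_le_mul_of_nonneg_left h1 p1.le

theorem qm_limit {X Y : Type*} [MetricSpace X] [MetricSpace Y] {θ : ℝ → ℝ} {f : ℕ → X → Y}
    {φ : X → Y} (h : ∀ j, QM θ (f j)) (hl : ∀ x, Tendsto (fun j => f j x) atTop (𝓝 (φ x)))
    (hi : Function.Injective φ) : QM θ φ := by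
  refine ⟨hi, fun a b c d hac hbd => ?_⟩
  have hne : dist (φ a) (φ c) * dist (φ b) (φ d) ≠ 0 :=
    mul_ne_zero (dist_pos.2 (hi.ne hac)).ne' (dist_pos.2 (hi.ne hbd)).ne'
  have ht : Tendsto (fun j => cr (f j a) (f j b) (f j c) (f j d)) atTop
      (𝓝 (cr (φ a) (φ b) (φ c) (φ d))) := by
    unfold cr
    exact (((hl a).dist (hl b)).mul ((hl c).dist (hl d))).div
      (((hl a).dist (hl c)).mul ((hl b).dist (hl d))) hne
  exact le_of_tendsto' ht fun j => (h j).le a b c d hac hbd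

end QSCoh
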