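import Mathlib
import Pool.Agent.Lib.MP_cccab4_an.Defs

/-!
# MP_cccab4_an, module A04

Let `D = diam X`.  If `D = 0` (or `X` empty) all distances vanish and any gauge works.  Let `D > 0`.
`f` is continuous and injective on a compact space: `ω(s) = sup {d(fu,fv) : d(u,v) ≤ s}` tends to `0`,
is bounded by `D' = ω(D)`, and `i(ε) = inf {d(fu,fv) : d(u,v) ≥ ε} > 0` (for `0 < ε ≤ D`).

Let `xa ≤ t·xb`, `x ≠ b` (if `x = b` then `a = x`, trivial).  Let `c_t = D/(8 max t 1)`.
(1) If `xb ≥ c_t`: `fxfa ≤ D'` and `fxfb ≥ i(c_t)`; and for `t ≤ 1`, `fxfa ≤ ω(t D)`, `fxfb ≥ i(D/8)`.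
(2) If `xb < c_t`: then `xa ≤ D/8`, `xb ≤ D/8`.  There is `p` with `xp ≥ D/2` (otherwise all points are
within `< D/2` of `x`; use compactness to get the strict inequality, or take any `p` with
`xp ≥ 3D/8`).  Then `cr x a b p = xa·bp/(xb·ap) ≤ 4t` since `bp ≤ D`, `ap ≥ D/4`, so
`fxfa·fbfp ≤ θ(4t) fxfb·fafp`, i.e. `fxfa ≤ θ(4t) (D'/i(D/4)) fxfb`.
So `η t = θ(4t) D'/i(D/4) + (if t ≤ 1 then ω(tD)/i(D/8) else D'/i(D/(8t)))` works: it is monotone
(`ω` monotone, `i` monotone) and tends to `0` at `0+`.  (For `t < 0`: `xa ≤ t·xb` forces `xa = xb = 0`.)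
-/

open MeasureTheory Metric Set Filter Topology
open scoped ENNReal NNReal

namespace QSCoh

/-- A continuous injective map on a compact space has a lower modulus. -/
theorem lower_modulus {X Y : Type*} [MetricSpace X] [CompactSpace X] [MetricSpace Y] {f : X → Y}
    (hc : Continuous f) (hi : Function.Injective f) {ε : ℝ} (hε : 0 < ε) :
    ∃ m > 0, ∀ u v : X, ε ≤ dist u v → m ≤ dist (f u) (f v) := by
  set A : Set (X × X) := {p | ε ≤ dist p.1 p.2} with hA
  have hAc : IsCompact A := (isClosed_le continuous_const (continuous_fst.dist continuous_snd)).isCompact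
  by_cases hne : A.Nonempty
  · have hcont : Continuous fun p : X × X => dist (f p.1) (f p.2) :=
      (hc.comp continuous_fst).dist (hc.comp continuous_snd)
    obtain ⟨p, hp, hmin⟩ := hAc.exists_isMinOn hne hcont.continuousOn
    refine ⟨dist (f p.1) (f p.2), ?_, fun u v huv => hmin (show (u, v) ∈ A from huv)⟩
    refine dist_pos.2 (hi.ne fun e => ?_)
    have : ε ≤ dist p.1 p.2 := hp
    rw [e, dist_self] at this
    linarith
  · refine ⟨1, one_pos, fun u v huv => ?_⟩
    exact absurd ⟨(u, v), huv⟩ hne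

/-- On a compact space, continuous quasi-Möbius embeddings are quasisymmetric. -/
theorem qm_qs {X Y : Type*} [MetricSpace X] [CompactSpace X] [MetricSpace Y] {θ : ℝ → ℝ}
    (hθ : Gauge θ) {f : X → Y} (hc : Continuous f) (hf : QM θ f) :
    ∃ η : ℝ → ℝ, Gauge η ∧ QSg η f := by
  set D := diam (univ : Set X) with hD
  have hle : ∀ a b : X, dist a b ≤ D := fun a b =>
    dist_le_diam_of_mem isBounded_of_compactSpace (mem_univ _) (mem_univ _)
  have hD0 : 0 ≤ D := diam_nonneg
  rcases hD0.eq_or_lt with hDz | hDpos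
  · -- degenerate
    refine ⟨fun _ => 0, ⟨monotone_const, fun _ => le_rfl, tendsto_const_nhds⟩, ?_⟩
    intro x a b t _
    have : x = a := dist_le_zero.1 (by rw [hDz]; exact hle x a)
    rw [this]; simp
  obtain ⟨D', hD'⟩ : ∃ D' : ℝ, ∀ u v : X, dist (f u) (f v) ≤ D' := by
    have hb : Bornology.IsBounded (range f) := (isCompact_range hc).isBounded
    exact ⟨diam (range f), fun u v => dist_le_diam_of_mem hb ⟨u, rfl⟩ ⟨v, rfl⟩⟩
  have hne : Nonempty X := by
    by_contra h
    rw [not_nonempty_iff] at h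
    rw [hD, univ_eq_empty_iff.2 h] at hDpos
    simp at hDpos
  obtain ⟨x₀⟩ := hne
  have hD'0 : 0 ≤ D' := le_trans dist_nonneg (hD' x₀ x₀)
  -- a far point
  have hfar : ∀ x : X, ∃ p, D / 2 ≤ dist x p := by
    intro x
    obtain ⟨z, -, hz⟩ := isCompact_univ.exists_isMaxOn ⟨x, mem_univ x⟩
      ((continuous_const.dist continuous_id : Continuous fun z => dist x z).continuousOn)
    refine ⟨z, ?_⟩
    have h1 : D ≤ 2 * dist x z := by
      refine diam_le_of_forall_dist_le (by positivity) fun a _ b _ => ?_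
      have h2 : dist x a ≤ dist x z := hz (mem_univ a)
      have h3 : dist x b ≤ dist x z := hz (mem_univ b)
      have h4 := dist_triangle_left a b x
      linarith
    linarith
  obtain ⟨m₂, hm₂, hlow₂⟩ := lower_modulus hc hf.inj (ε := D / 4) (by positivity)
  -- the key estimate at small scale
  have hsmall : ∀ x a b : X, x ≠ b → ∀ t, 0 ≤ t → dist x a ≤ t * dist x b → dist x a ≤ D / 8 →
      dist x b ≤ D / 8 → dist (f x) (f a) ≤ θ (4 * t) * D' / m₂ * dist (f x) (f b) := by
    intro x a b hxb t ht hat ha hb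
    obtain ⟨p, hp⟩ := hfar x
    have hap : D / 4 ≤ dist a p := by have := dist_triangle x a p; linarith
    have hbp : D / 4 ≤ dist b p := by have := dist_triangle x b p; linarith
    have hap' : a ≠ p := fun e => by rw [e, dist_self] at hap; linarith
    have hq := hf.le x a b p hxb hap'
    have hxbpos : 0 < dist x b := dist_pos.2 hxb
    have happos : 0 < dist a p := dist_pos.2 hap'
    have hcr : cr x a b p ≤ 4 * t := by
      unfold cr
      rw [div_le_iff₀ (mul_pos hxbpos happos)]
      have h1 : dist x a * dist b p ≤ t * dist x b * D :=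
        mul_le_mul hat (hle b p) dist_nonneg (by positivity)
      have h2 : t * dist x b * D ≤ t * dist x b * (4 * dist a p) :=
        mul_le_mul_of_nonneg_left (by linarith) (by positivity)
      linarith
    have hfxb : 0 < dist (f x) (f b) := dist_pos.2 (hf.inj.ne hxb)
    have hfap : 0 < dist (f a) (f p) := dist_pos.2 (hf.inj.ne hap')
    have hq' : dist (f x) (f a) * dist (f b) (f p) ≤
        θ (4 * t) * (dist (f x) (f b) * dist (f a) (f p)) := by
      have h3 := hq.trans (hθ.mono hcr)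
      unfold cr at h3
      exact (div_le_iff₀ (mul_pos hfxb hfap)).1 h3
    have hfbp : m₂ ≤ dist (f b) (f p) := hlow₂ b p hbp
    have h4 : dist (f x) (f a) * m₂ ≤ θ (4 * t) * D' * dist (f x) (f b) := by
      calc dist (f x) (f a) * m₂ ≤ dist (f x) (f a) * dist (f b) (f p) :=
            mul_le_mul_of_nonneg_left hfbp dist_nonneg
        _ ≤ _ := hq'
        _ ≤ θ (4 * t) * (dist (f x) (f b) * D') :=
            mul_le_mul_of_nonneg_left (mul_le_mul_of_nonneg_left (hD' a p) hfxb.le) (hθ.nonneg _)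
        _ = _ := by ring
    rw [div_mul_eq_mul_div, le_div_iff₀ hm₂]
    exact h4
  -- the set of ratios
  set T : ℝ → Set ℝ := fun t => {r | r = 0 ∨ ∃ x a b : X, x ≠ b ∧ dist x a ≤ t * dist x b ∧
    r = dist (f x) (f a) / dist (f x) (f b)} with hT
  have hT0 : ∀ t, (0:ℝ) ∈ T t := fun t => Or.inl rfl
  have hbound : ∀ t c m : ℝ, 0 ≤ t → 0 < c → 0 < m → c ≤ D / 8 → t * c ≤ D / 8 →
      (∀ u v : X, c ≤ dist u v → m ≤ dist (f u) (f v)) → ∀ w : ℝ, 0 ≤ w →
      (∀ u v : X, dist u v ≤ t * D → dist (f u) (f v) ≤ w) →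
      ∀ r ∈ T t, r ≤ max (w / m) (θ (4 * t) * D' / m₂) := by
    intro t c m ht hc0 hm hc1 hc2 hlow w hw hup r hr
    rcases hr with rfl | ⟨x, a, b, hxb, hat, rfl⟩
    · exact le_max_of_le_left (by positivity)
    have hfxb : 0 < dist (f x) (f b) := dist_pos.2 (hf.inj.ne hxb)
    by_cases hcb : c ≤ dist x b
    · refine le_max_of_le_left ?_
      refine div_le_div₀ hw (hup x a ?_) hm (hlow x b hcb)
      exact hat.trans (mul_le_mul_of_nonneg_left (hle x b) ht)
    · push Not at hcb
      refine le_max_of_le_right ?_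
      rw [div_le_iff₀ hfxb]
      refine hsmall x a b hxb t ht hat ?_ (hcb.le.trans hc1)
      exact hat.trans ((mul_le_mul_of_nonneg_left hcb.le ht).trans hc2)
  have hbdd : ∀ t, BddAbove (T t) := by
    intro t
    by_cases ht : 0 ≤ t
    · set c := D / (8 * (t + 1)) with hcdef
      have hc0 : 0 < c := by positivity
      have hc1 : c ≤ D / 8 := by
        rw [hcdef]
        exact div_le_div_of_nonneg_left hDpos.le (by norm_num) (by linarith)
      have hc2 : t * c ≤ D / 8 := by
        rw [hcdef, ← mul_div_assoc, div_le_div_iff₀ (by positivity) (by norm_num)]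
        nlinarith
      obtain ⟨m, hm, hlow⟩ := lower_modulus hc hf.inj hc0
      exact ⟨_, fun r hr => hbound t c m ht hc0 hm hc1 hc2 hlow D' hD'0 (fun u v _ => hD' u v) r hr⟩
    · refine ⟨0, ?_⟩
      rintro r (rfl | ⟨x, a, b, hxb, hat, rfl⟩)
      · exact le_rfl
      · exfalso
        push Not at ht
        have h1 : 0 < dist x b := dist_pos.2 hxb
        have h2 : 0 ≤ dist x a := dist_nonneg
        nlinarith
  refine ⟨fun t => sSup (T t), ⟨?_, ?_, ?_⟩, ?_⟩
  · intro s t hst
    refine csSup_le_csSup (hbdd t) ⟨0, hT0 s⟩ ?_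
    rintro r (rfl | ⟨x, a, b, hxb, hat, rfl⟩)
    · exact Or.inl rfl
    · exact Or.inr ⟨x, a, b, hxb, hat.trans (mul_le_mul_of_nonneg_right hst dist_nonneg), rfl⟩
  · intro t
    exact le_csSup (hbdd t) (hT0 t)
  · rw [Metric.tendsto_nhds]
    intro ε hε
    obtain ⟨m, hm, hlow⟩ := lower_modulus hc hf.inj (ε := D / 8) (by positivity)
    obtain ⟨ρ, hρ, hunif⟩ := Metric.uniformContinuous_iff.1
      (CompactSpace.uniformContinuous_of_continuous hc) (ε / 2 * m) (by positivity)
    have h1 : ∀ᶠ t in 𝓝[>] (0:ℝ), θ (4 * t) * D' / m₂ < ε := by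
      have h2 : Tendsto (fun t : ℝ => 4 * t) (𝓝[>] 0) (𝓝[>] 0) := by
        refine tendsto_nhdsWithin_iff.2 ⟨?_, ?_⟩
        · have hcc : Continuous fun t : ℝ => 4 * t := by fun_prop
          have := hcc.tendsto 0
          simp only [mul_zero] at this
          exact this.mono_left nhdsWithin_le_nhds
        · filter_upwards [self_mem_nhdsWithin] with t ht
          have ht' : (0:ℝ) < t := ht
          show 0 < 4 * t
          positivity
      have h3 : Tendsto (fun t : ℝ => θ (4 * t) * D' / m₂) (𝓝[>] 0) (𝓝 (0 * D' / m₂)) :=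
        ((hθ.lim.comp h2).mul_const D').div_const m₂
      rw [zero_mul, zero_div] at h3
      exact h3.eventually_lt_const hε
    have h4 : ∀ᶠ t in 𝓝[>] (0:ℝ), t * D < ρ := by
      have : Tendsto (fun t : ℝ => t * D) (𝓝[>] 0) (𝓝 0) := by
        have hcc : Continuous fun t : ℝ => t * D := by fun_prop
        have := hcc.tendsto 0
        simp only [zero_mul] at this
        exact this.mono_left nhdsWithin_le_nhds
      exact this.eventually_lt_const hρ
    have h5 : ∀ᶠ t in 𝓝[>] (0:ℝ), t ≤ 1 := by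
      filter_upwards [Ioc_mem_nhdsGT one_pos] with t ht using ht.2
    filter_upwards [h1, h4, h5, self_mem_nhdsWithin] with t ht1 ht4 ht5 ht0
    have ht0' : (0:ℝ) < t := ht0
    rw [Real.dist_eq, sub_zero, abs_of_nonneg (le_csSup (hbdd t) (hT0 t))]
    have hmax : ∀ r ∈ T t, r ≤ max (ε / 2 * m / m) (θ (4 * t) * D' / m₂) :=
      hbound t (D / 8) m ht0'.le (by positivity) hm le_rfl
        (by nlinarith) hlow (ε / 2 * m) (by positivity)
        (fun u v huv => (hunif (lt_of_le_of_lt huv ht4)).le)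
    refine lt_of_le_of_lt (csSup_le ⟨0, hT0 t⟩ hmax) (max_lt ?_ ht1)
    rw [mul_div_assoc, div_self hm.ne', mul_one]
    linarith
  · intro x a b t hat
    by_cases hxb : x = b
    · have h1 : dist x a ≤ 0 := by rw [hxb, dist_self, mul_zero, ← hxb] at hat; exact hat
      have : x = a := dist_le_zero.1 h1
      rw [← this, ← hxb]; simp
    · have hfxb : 0 < dist (f x) (f b) := dist_pos.2 (hf.inj.ne hxb)
      have := le_csSup (hbdd t) (show dist (f x) (f a) / dist (f x) (f b) ∈ T t from
        Or.inr ⟨x, a, b, hxb, hat, rfl⟩)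
      exact (div_le_iff₀ hfxb).1 this

end QSCoh
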