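import Mathlib
import Pool.Agent.Lib.MP_cccab4_an.Defs

/-!
# MP_cccab4_an, module A05

Let `D = diam Z` (`D ≥ δ > 0` as soon as a `δ`-separated triple exists; if there is none the claims are
void).  Given three points pairwise `≥ δ` apart, at most one is within `< δ/2` of a given point.

* `qm_equi`: let `x ≠ y`, `xy < τ ≤ δ/4`.  Choose two of the three points, `p ≠ q`, with `xp, xq ≥ δ/2`.
  `cr x y p q = xy·pq/(xp·yq) ≤ τ D/((δ/2)(δ/4)) = 8τD/δ²` and
  `cr (f x) (f y) (f p) (f q) = fxfy·fpfq/(fxfp·fyfq) ≤ θ(8τD/δ²)`, so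
  `fxfy ≤ θ(8τD/δ²) D²/δ`.  Choose `τ` small.
* `qm_lower`: `x ≠ y`.  Let `τ ≤ δ/4` and suppose `fxfy < τ`.  Choose `p ≠ q` among the three points with
  `fxfp, fxfq ≥ δ/2`; then `fyfq ≥ δ/4`.  `cr x p y q = xp·yq/(xy·pq) ≤ D²/(εδ) = K` so
  `fxfp·fyfq/(fxfy·fpfq) ≤ θ K`, hence `fxfy·θ(K)·D ≥ (δ/2)(δ/4)` (note `fpfq > 0`, `fxfy>0`).
  Contradiction if `τ < δ²/(8 (θ K + 1) D)`.
-/

open MeasureTheory Metric Set Filter Topology
open scoped ENNReal NNReal

namespace QSCoh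

theorem sep_two {X : Type*} [MetricSpace X] {δ : ℝ} {a b c : X} (h : Sep δ a b c)
    (x : X) : ∃ p q : X, (p = a ∧ q = b ∨ p = a ∧ q = c ∨ p = b ∧ q = c) ∧ δ / 2 ≤ dist x p ∧
      δ / 2 ≤ dist x q := by
  obtain ⟨h1, h2, h3⟩ := h
  have t1 := dist_triangle_left a b x
  have t2 := dist_triangle_left a c x
  have t3 := dist_triangle_left b c x
  by_cases ha : δ / 2 ≤ dist x a
  · by_cases hb : δ / 2 ≤ dist x b
    · exact ⟨a, b, Or.inl ⟨rfl, rfl⟩, ha, hb⟩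
    · exact ⟨a, c, Or.inr (Or.inl ⟨rfl, rfl⟩), ha, by push Not at hb; linarith⟩
  · push Not at ha
    exact ⟨b, c, Or.inr (Or.inr ⟨rfl, rfl⟩), by linarith, by linarith⟩

/-- Normalised quasi-Möbius maps are equicontinuous. -/
theorem qm_equi {Z : Type*} [MetricSpace Z] [CompactSpace Z] {θ : ℝ → ℝ} (hθ : Gauge θ) {δ : ℝ}
    (hδ : 0 < δ) {ε : ℝ} (hε : 0 < ε) :
    ∃ τ > 0, ∀ f : Z → Z, QM θ f → (∃ a b c, Sep δ a b c ∧ Sep δ (f a) (f b) (f c)) →
      ∀ x y, dist x y < τ → dist (f x) (f y) < ε := by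
  set D := diam (univ : Set Z) with hD
  have hD0 : 0 ≤ D := diam_nonneg
  have hle : ∀ a b : Z, dist a b ≤ D := fun a b =>
    dist_le_diam_of_mem isBounded_of_compactSpace (mem_univ _) (mem_univ _)
  have h1 : ∀ᶠ t in 𝓝[>] (0:ℝ), θ t < ε * δ / (D + 1) ^ 2 :=
    hθ.lim.eventually_lt_const (by positivity)
  obtain ⟨τ₀, hτ₀, h2⟩ := (mem_nhdsGT_iff_exists_Ioc_subset).1 h1
  have hτ₀' : (0:ℝ) < τ₀ := hτ₀
  refine ⟨min (δ / 4) (τ₀ * δ ^ 2 / (8 * (D + 1))), by positivity, fun f hf ⟨a, b, c, hs, hs'⟩ x y hxy => ?_⟩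
  by_cases hne : x = y
  · rw [hne, dist_self]; exact hε
  obtain ⟨p, q, hpq, hxp, hxq⟩ := sep_two hs x
  have hpq1 : δ ≤ dist (f p) (f q) := by
    obtain ⟨s1, s2, s3⟩ := hs'
    rcases hpq with ⟨rfl, rfl⟩ | ⟨rfl, rfl⟩ | ⟨rfl, rfl⟩ <;> assumption
  have hxy1 : dist x y < δ / 4 := hxy.trans_le (min_le_left _ _)
  have hxy2 : dist x y < τ₀ * δ ^ 2 / (8 * (D + 1)) := hxy.trans_le (min_le_right _ _)
  have hyq : δ / 4 ≤ dist y q := by
    have := dist_triangle x y q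
    linarith
  have hxp' : x ≠ p := fun e => by rw [e, dist_self] at hxp; linarith
  have hyq' : y ≠ q := fun e => by rw [e, dist_self] at hyq; linarith
  have hm := hf.le x y p q hxp' hyq'
  have hcr : cr x y p q ≤ τ₀ := by
    unfold cr
    rw [div_le_iff₀ (mul_pos (by linarith) (by linarith))]
    have h3 : dist x y * dist p q ≤ τ₀ * δ ^ 2 / (8 * (D + 1)) * (D + 1) :=
      mul_le_mul hxy2.le (by linarith [hle p q]) dist_nonneg (by positivity)
    have h4 : τ₀ * δ ^ 2 / (8 * (D + 1)) * (D + 1) = τ₀ * (δ / 2 * (δ / 4)) := by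
      field_simp
      norm_num
    have h5 : δ / 2 * (δ / 4) ≤ dist x p * dist y q :=
      mul_le_mul hxp hyq (by positivity) dist_nonneg
    have := mul_le_mul_of_nonneg_left h5 hτ₀'.le
    linarith
  have hth : θ (cr x y p q) < ε * δ / (D + 1) ^ 2 := lt_of_le_of_lt (hθ.mono hcr) (h2 ⟨hτ₀', le_rfl⟩)
  have hfx : 0 < dist (f x) (f p) := dist_pos.2 (hf.inj.ne hxp')
  have hfy : 0 < dist (f y) (f q) := dist_pos.2 (hf.inj.ne hyq')
  unfold cr at hm
  rw [div_le_iff₀ (mul_pos hfx hfy)] at hm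
  have h6 : dist (f x) (f p) * dist (f y) (f q) ≤ (D + 1) ^ 2 := by
    rw [sq]
    exact mul_le_mul (by linarith [hle (f x) (f p)]) (by linarith [hle (f y) (f q)]) dist_nonneg
      (by positivity)
  have h7 : dist (f x) (f y) * dist (f p) (f q) < ε * δ := by
    refine lt_of_le_of_lt hm ?_
    calc θ (dist x y * dist p q / (dist x p * dist y q)) * (dist (f x) (f p) * dist (f y) (f q))
        < ε * δ / (D + 1) ^ 2 * (dist (f x) (f p) * dist (f y) (f q)) :=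
          mul_lt_mul_of_pos_right hth (mul_pos hfx hfy)
      _ ≤ ε * δ / (D + 1) ^ 2 * (D + 1) ^ 2 := mul_le_mul_of_nonneg_left h6 (by positivity)
      _ = ε * δ := by field_simp
  have h8 : dist (f x) (f y) * δ ≤ dist (f x) (f y) * dist (f p) (f q) :=
    mul_le_mul_of_nonneg_left hpq1 dist_nonneg
  exact lt_of_mul_lt_mul_right (lt_of_le_of_lt h8 h7) hδ.le

/-- Normalised quasi-Möbius maps do not contract too much. -/
theorem qm_lower {Z : Type*} [MetricSpace Z] [CompactSpace Z] {θ : ℝ → ℝ} (hθ : Gauge θ) {δ : ℝ}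
    (hδ : 0 < δ) {ε : ℝ} (hε : 0 < ε) :
    ∃ τ > 0, ∀ f : Z → Z, QM θ f → (∃ a b c, Sep δ a b c ∧ Sep δ (f a) (f b) (f c)) →
      ∀ x y, ε ≤ dist x y → τ ≤ dist (f x) (f y) := by
  set D := diam (univ : Set Z) with hD
  have hD0 : 0 ≤ D := diam_nonneg
  have hle : ∀ a b : Z, dist a b ≤ D := fun a b =>
    dist_le_diam_of_mem isBounded_of_compactSpace (mem_univ _) (mem_univ _)
  set A := θ ((D + 1) ^ 2 / (ε * δ)) with hA
  have hA0 : 0 ≤ A := hθ.nonneg _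
  refine ⟨min (δ / 4) (δ ^ 2 / (8 * ((A + 1) * (D + 1)))), by positivity,
    fun f hf ⟨a, b, c, hs, hs'⟩ x y hxy => ?_⟩
  by_contra hcon
  push Not at hcon
  have hc1 : dist (f x) (f y) < δ / 4 := hcon.trans_le (min_le_left _ _)
  have hc2 : dist (f x) (f y) < δ ^ 2 / (8 * ((A + 1) * (D + 1))) := hcon.trans_le (min_le_right _ _)
  obtain ⟨p', q', hpq, hxp, hxq⟩ := sep_two hs' (f x)
  obtain ⟨p, q, rfl, rfl, hpq1⟩ : ∃ p q, p' = f p ∧ q' = f q ∧ δ ≤ dist p q := by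
    obtain ⟨s1, s2, s3⟩ := hs
    rcases hpq with ⟨rfl, rfl⟩ | ⟨rfl, rfl⟩ | ⟨rfl, rfl⟩
    · exact ⟨a, b, rfl, rfl, s1⟩
    · exact ⟨a, c, rfl, rfl, s2⟩
    · exact ⟨b, c, rfl, rfl, s3⟩
  have hyq : δ / 4 ≤ dist (f y) (f q) := by
    have := dist_triangle (f x) (f y) (f q)
    linarith
  have hxy' : x ≠ y := fun e => by rw [e, dist_self] at hxy; linarith
  have hpq' : p ≠ q := fun e => by rw [e, dist_self] at hpq1; linarith
  have hm := hf.le x p y q hxy' hpq'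
  have hcr : cr x p y q ≤ (D + 1) ^ 2 / (ε * δ) := by
    unfold cr
    refine div_le_div₀ (by positivity) ?_ (by positivity) (mul_le_mul hxy hpq1 hδ.le dist_nonneg)
    rw [sq]
    exact mul_le_mul (by linarith [hle x p]) (by linarith [hle y q]) dist_nonneg (by positivity)
  have hth : θ (cr x p y q) ≤ A := hθ.mono hcr
  have hfxy : 0 < dist (f x) (f y) := dist_pos.2 (hf.inj.ne hxy')
  have hfpq : 0 < dist (f p) (f q) := dist_pos.2 (hf.inj.ne hpq')
  have hm' : dist (f x) (f p) * dist (f y) (f q) ≤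
      θ (cr x p y q) * (dist (f x) (f y) * dist (f p) (f q)) := by
    have := hm
    rw [show cr (f x) (f p) (f y) (f q) = dist (f x) (f p) * dist (f y) (f q) /
      (dist (f x) (f y) * dist (f p) (f q)) from rfl, div_le_iff₀ (mul_pos hfxy hfpq)] at this
    exact this
  have h1 : δ / 2 * (δ / 4) ≤ dist (f x) (f p) * dist (f y) (f q) :=
    mul_le_mul hxp hyq (by positivity) dist_nonneg
  have h2 : θ (cr x p y q) * (dist (f x) (f y) * dist (f p) (f q)) ≤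
      (A + 1) * (dist (f x) (f y) * (D + 1)) :=
    mul_le_mul (by linarith) (mul_le_mul_of_nonneg_left (by linarith [hle (f p) (f q)]) hfxy.le)
      (by positivity) (by positivity)
  have h3 : (A + 1) * (dist (f x) (f y) * (D + 1)) <
      (A + 1) * (δ ^ 2 / (8 * ((A + 1) * (D + 1))) * (D + 1)) :=
    mul_lt_mul_of_pos_left (mul_lt_mul_of_pos_right hc2 (by positivity)) (by positivity)
  have h4 : (A + 1) * (δ ^ 2 / (8 * ((A + 1) * (D + 1))) * (D + 1)) = δ / 2 * (δ / 4) := by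
    field_simp
    norm_num
  linarith

end QSCoh
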