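import Mathlib
import Pool.Agent.Lib.MP_cccab4_an.Defs

/-!
# MP_cccab4_an, module A07

View the `F j` as elements of `BoundedContinuousFunction Z Z` (or `C(Z,Z)`) and use the Arzelà–Ascoli
theorem of Mathlib (`BoundedContinuousFunction.arzela_ascoli` /
`BoundedContinuousFunction.arzela_ascoli₁`: a closed equicontinuous family with values in a compact
space is compact), then sequential compactness (`IsCompact.tendsto_subseq`) and
`BoundedContinuousFunction.tendsto_iff_tendstoUniformly`.
-/

open MeasureTheory Metric Set Filter Topology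
open scoped ENNReal NNReal

namespace QSCoh

/-- Arzelà–Ascoli for sequences of self-maps. -/
theorem extract {Z : Type*} [MetricSpace Z] [CompactSpace Z] (F : ℕ → Z → Z)
    (hF : ∀ ε > 0, ∃ τ > 0, ∀ j x y, dist x y < τ → dist (F j x) (F j y) < ε) :
    ∃ φ : ℕ → ℕ, StrictMono φ ∧ ∃ f : Z → Z, Continuous f ∧
      TendstoUniformly (fun j => F (φ j)) f atTop := by
  have hc : ∀ j, Continuous (F j) := fun j => by
    rw [Metric.continuous_iff]
    intro b ε hε
    obtain ⟨τ, hτ, h⟩ := hF ε hε
    exact ⟨τ, hτ, fun a hab => h j a b hab⟩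
  let B : ℕ → BoundedContinuousFunction Z Z := fun j =>
    BoundedContinuousFunction.mkOfCompact ⟨F j, hc j⟩
  set A : Set (BoundedContinuousFunction Z Z) := range B with hA
  have hequi : Equicontinuous (fun f : A => ((f : BoundedContinuousFunction Z Z) : Z → Z)) := by
    intro x₀
    rw [Metric.equicontinuousAt_iff]
    intro ε hε
    obtain ⟨τ, hτ, h⟩ := hF ε hε
    refine ⟨τ, hτ, fun x hx => ?_⟩
    rintro ⟨_, j, rfl⟩
    rw [dist_comm] at hx
    exact h j x₀ x hx
  have hcomp : IsCompact (closure A) :=
    BoundedContinuousFunction.arzela_ascoli univ isCompact_univ A (fun f x _ => mem_univ _) hequi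
  obtain ⟨f, -, φ, hφ, hlim⟩ := hcomp.tendsto_subseq
    (fun j => subset_closure (mem_range_self j) : ∀ j, B j ∈ closure A)
  exact ⟨φ, hφ, f, f.continuous, BoundedContinuousFunction.tendsto_iff_tendstoUniformly.1 hlim⟩

end QSCoh
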