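import Mathlib
import Pool.Agent.Lib.MP_cccab4_an.Defs
import Pool.Agent.Lib.MP_cccab4_an.A03
import Pool.Agent.Lib.MP_cccab4_an.A05

/-!
# MP_cccab4_an, module A08

Write `D = diam Z`, `s = xy`, `D₁ = xz`, `s ≤ σ D₁`; always `σ ≤ 1/2` and (when `M` is given)
`M σ ≤ 1/2`.  `h` and its inverse `h' ∈ G` (from `K.inv`) are `θ₀`-QM: `G_qm` follows from `K.rig`
with `f = id`, constant sequences `g j = h`, `h j = id` (the constant sequence converges uniformly;
bijectivity from `K.inv`); so no theorem of A03/A05 is really needed.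

(i) `xu ≤ M s ≤ D₁/2`, so `uz ≥ D₁/2 > 0`, `zy ≤ 3D₁/2`.  Let `τ = d(hu,hz) > 0`.  If `τ ≥ δ₀/2` fine.
Else `d(hu,hx) ≥ δ₀/2`, `u ≠ x`; `cr (h u) (h z) (h x) (h y) = τ·hxhy/(huhx·hzhy) ≤ 2τD/δ₀²`, hence
(inverse map) `θ₀(2τD/δ₀²) ≥ cr u z x y = uz·xy/(ux·zy) ≥ (D₁/2)s/(M s·3D₁/2) = 1/(3M)`.  Since
`θ₀ → 0` at `0+` this bounds `τ` below.  (If `u = x`: `d(hx,hz) ≥ δ₀`.)
(ii) `u ≠ x`.  `cr (h x) (h u) (h y) (h z) = hxhu·hyhz/(hxhy·huhz) ≤ D²/(δ₀κ)`; so with
`T = θ₀(D²/(δ₀κ))`: `cr x u y z = xu·yz/(s·uz) ≤ T`.  `yz ≥ D₁/2`, `uz ≤ xu + D₁`; so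
`xu (D₁/2 - T s) ≤ T s D₁`, and with `σ ≤ 1/(4(T+1))`: `xu ≤ 4 T s`.
(iii) `u ≠ v`.  Choose `p ∈ {x,y}` with `up ≥ s/2`.  `cr u v p z = uv·pz/(up·vz) ≤
τ s (3D₁/2)/((s/2)(D₁/2)) = 6τ`, so `huhv·hphz/(huhp·hvhz) ≤ θ₀(6τ)`, `huhv ≤ θ₀(6τ) D²/δ₀`.
(iv) Let `c` be from (i) for `M`.  Choose `p ∈ {x,y}` with `d(hu,hp) ≥ δ₀/2`.
`cr (h u) (h v) (h p) (h z) ≤ τ D/((δ₀/2) c)`, so `uv·pz/(up·vz) ≤ θ₀(2τD/(δ₀c))`;
`up ≤ (M+1)s`, `vz ≤ 3D₁/2`, `pz ≥ D₁/2`, so `uv ≤ 3(M+1) θ₀(2τD/(δ₀c)) s`.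
-/

open MeasureTheory Metric Set Filter Topology
open scoped ENNReal NNReal

namespace QSCoh

set_option linter.unusedSectionVars false

variable {Z : Type*} [MetricSpace Z] [CompactSpace Z] [MeasurableSpace Z] [BorelSpace Z]
  {μ : Measure Z} {Q : ℝ}

theorem G_qm {S G : Set (Z → Z)} {δ₀ : ℝ} {θ₀ : ℝ → ℝ} (K : Sg Z S G δ₀ θ₀) {h : Z → Z} (hh : h ∈ G) :
    QM θ₀ h ∧ Function.Bijective h ∧ Continuous h := by
  obtain ⟨h', hh', e1, e2⟩ := K.inv h hh
  have hb : Function.Bijective h :=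
    ⟨Function.LeftInverse.injective (g := h') (fun x => congrFun e2 x),
      Function.RightInverse.surjective (g := h') (fun x => congrFun e1 x)⟩
  refine ⟨?_, hb, K.cont h (K.sub hh)⟩
  refine K.rig id (K.sub K.id_mem) (fun _ => h) (fun _ => id) (fun _ => hh) (fun _ => K.id_mem) h
    ?_ hb
  intro u hu
  exact Eventually.of_forall fun n x => refl_mem_uniformity hu

/-- A gauge vanishes at `0`. -/
theorem Gauge.small {θ : ℝ → ℝ} (hθ : Gauge θ) {ε : ℝ} (hε : 0 < ε) :
    ∃ τ > 0, ∀ t, t ≤ τ → θ t < ε := by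
  have h1 : ∀ᶠ t in 𝓝[>] (0:ℝ), θ t < ε := hθ.lim.eventually_lt_const hε
  obtain ⟨τ, hτ, h⟩ := (mem_nhdsGT_iff_exists_Ioc_subset).1 h1
  exact ⟨τ, hτ, fun t ht => lt_of_le_of_lt (hθ.mono ht) (h ⟨hτ, le_rfl⟩)⟩

/-- The consequence of quasi-Möbius in product form. -/
theorem QM.prod {X Y : Type*} [MetricSpace X] [MetricSpace Y] {θ : ℝ → ℝ} {f : X → Y}
    (hf : QM θ f) {a b c d : X} (hac : a ≠ c) (hbd : b ≠ d) :
    dist (f a) (f b) * dist (f c) (f d) ≤
      θ (dist a b * dist c d / (dist a c * dist b d)) * (dist (f a) (f c) * dist (f b) (f d)) := by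
  have h := hf.le a b c d hac hbd
  unfold cr at h
  have h1 : 0 < dist (f a) (f c) := dist_pos.2 (hf.inj.ne hac)
  have h2 : 0 < dist (f b) (f d) := dist_pos.2 (hf.inj.ne hbd)
  exact (div_le_iff₀ (mul_pos h1 h2)).1 h

theorem dle (a b : Z) : dist a b ≤ diam (univ : Set Z) :=
  dist_le_diam_of_mem isBounded_of_compactSpace (mem_univ _) (mem_univ _)

/-- Zoom, (i): points at distance `≤ M s` from `x` stay away from the pole `h z`. -/
theorem zoom1 {S G : Set (Z → Z)} {δ₀ : ℝ} {θ₀ : ℝ → ℝ} (K : Sg Z S G δ₀ θ₀) {M : ℝ} (hM : 0 < M) :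
    ∃ σ > 0, ∃ c > 0, ∀ h x y z, Zm G δ₀ h x y z → dist x y ≤ σ * dist x z →
      ∀ u, dist x u ≤ M * dist x y → c ≤ dist (h u) (h z) := by
  have hδ := K.hδ
  obtain ⟨τ, hτ, hsm⟩ := K.gauge.small (ε := 1 / (3 * M)) (by positivity)
  set D := diam (univ : Set Z) with hD
  have hD0 : 0 ≤ D := diam_nonneg
  refine ⟨min (1 / 2) (1 / (2 * M)), by positivity, min (δ₀ / 2) (τ * δ₀ ^ 2 / (2 * (D + 1))),
    by positivity, fun h x y z hz hs u hu => ?_⟩
  obtain ⟨h', hh', e1, e2⟩ := K.inv h hz.mem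
  have hq := (G_qm K hh').1
  have e2' : ∀ w, h' (h w) = w := fun w => congrFun e2 w
  have hs0 : 0 < dist x y := dist_pos.2 hz.ne
  have hxz0 : 0 ≤ dist x z := dist_nonneg
  have hs1 : dist x y ≤ dist x z / 2 :=
    hs.trans (by nlinarith [min_le_left (1 / 2 : ℝ) (1 / (2 * M))])
  have hMs : M * dist x y ≤ dist x z / 2 := by
    have : M * dist x y ≤ M * (1 / (2 * M) * dist x z) :=
      mul_le_mul_of_nonneg_left (hs.trans (mul_le_mul_of_nonneg_right (min_le_right _ _) hxz0)) hM.le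
    refine this.trans (le_of_eq ?_)
    field_simp
  have hxz : 0 < dist x z := by linarith
  have huz : dist x z / 2 ≤ dist u z := by
    have := dist_triangle x u z
    linarith
  have hzy : dist z y ≤ 3 / 2 * dist x z := by
    have := dist_triangle_left z y x
    linarith
  by_contra hcon
  push Not at hcon
  have hc1 : dist (h u) (h z) < δ₀ / 2 := hcon.trans_le (min_le_left _ _)
  have hc2 : dist (h u) (h z) < τ * δ₀ ^ 2 / (2 * (D + 1)) := hcon.trans_le (min_le_right _ _)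
  have hhux : δ₀ / 2 ≤ dist (h u) (h x) := by
    have h1 := hz.sep.2.1
    have h2 := dist_triangle_left (h x) (h z) (h u)
    linarith
  have hhzy : δ₀ ≤ dist (h z) (h y) := by rw [dist_comm]; exact hz.sep.2.2
  have hne1 : h u ≠ h x := fun e => by rw [e, dist_self] at hhux; linarith
  have hne2 : h z ≠ h y := fun e => by rw [e, dist_self] at hhzy; linarith
  have hp := hq.prod (a := h u) (b := h z) (c := h x) (d := h y) hne1 hne2
  rw [e2', e2', e2', e2'] at hp
  have hub : dist (h u) (h z) * dist (h x) (h y) / (dist (h u) (h x) * dist (h z) (h y)) ≤ τ := by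
    rw [div_le_iff₀ (mul_pos (by linarith) (by linarith))]
    have h3 : dist (h x) (h y) ≤ D + 1 := by linarith [dle (h x) (h y)]
    have h4 : dist (h u) (h z) * dist (h x) (h y) ≤ τ * δ₀ ^ 2 / (2 * (D + 1)) * (D + 1) :=
      mul_le_mul hc2.le h3 dist_nonneg (by positivity)
    have h5 : τ * δ₀ ^ 2 / (2 * (D + 1)) * (D + 1) = τ * (δ₀ / 2 * δ₀) := by field_simp
    have h6 : δ₀ / 2 * δ₀ ≤ dist (h u) (h x) * dist (h z) (h y) :=
      mul_le_mul hhux hhzy hδ.le (by positivity)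
    have h7 := mul_le_mul_of_nonneg_left h6 hτ.le
    linarith
  have hθ := hsm _ hub
  -- dist u z * dist x y ≤ θ * (dist u x * dist z y)
  have hux : dist u x ≤ M * dist x y := by rw [dist_comm]; exact hu
  have h8 : dist u x * dist z y ≤ M * dist x y * (3 / 2 * dist x z) :=
    mul_le_mul hux hzy dist_nonneg (by positivity)
  have h9 : dist x z / 2 * dist x y ≤ dist u z * dist x y :=
    mul_le_mul_of_nonneg_right huz hs0.le
  have h10 : dist u z * dist x y < 1 / (3 * M) * (M * dist x y * (3 / 2 * dist x z)) := by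
    have hux0 : 0 < dist u x * dist z y := by
      by_contra hn
      have h12 : dist u x * dist z y = 0 := le_antisymm (not_lt.1 hn) (by positivity)
      rw [h12, mul_zero] at hp
      nlinarith
    calc dist u z * dist x y ≤ _ := hp
      _ < 1 / (3 * M) * (dist u x * dist z y) := mul_lt_mul_of_pos_right hθ hux0
      _ ≤ _ := mul_le_mul_of_nonneg_left h8 (by positivity)
  have h11 : 1 / (3 * M) * (M * dist x y * (3 / 2 * dist x z)) = dist x z / 2 * dist x y := by
    field_simp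
  linarith

/-- Zoom, (ii): points whose image is away from the pole are at distance `≤ M s` from `x`. -/
theorem zoom2 {S G : Set (Z → Z)} {δ₀ : ℝ} {θ₀ : ℝ → ℝ} (K : Sg Z S G δ₀ θ₀) {κ : ℝ} (hκ : 0 < κ) :
    ∃ σ > 0, ∃ M > 0, ∀ h x y z, Zm G δ₀ h x y z → dist x y ≤ σ * dist x z →
      ∀ u, κ ≤ dist (h u) (h z) → dist x u ≤ M * dist x y := by
  have hδ := K.hδ
  set D := diam (univ : Set Z) with hD
  have hD0 : 0 ≤ D := diam_nonneg
  set T := θ₀ (D ^ 2 / (δ₀ * κ)) with hT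
  have hT0 : 0 ≤ T := K.gauge.nonneg _
  refine ⟨1 / (4 * (T + 1)), by positivity, 4 * T + 1, by positivity, fun h x y z hz hs u hu => ?_⟩
  obtain ⟨h', hh', e1, e2⟩ := K.inv h hz.mem
  have hq := (G_qm K hh').1
  have e2' : ∀ w, h' (h w) = w := fun w => congrFun e2 w
  have hs0 : 0 < dist x y := dist_pos.2 hz.ne
  have hxz0 : 0 ≤ dist x z := dist_nonneg
  have hs1 : (T + 1) * dist x y ≤ dist x z / 4 := by
    have := mul_le_mul_of_nonneg_left hs (by positivity : 0 ≤ T + 1)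
    refine this.trans (le_of_eq ?_)
    field_simp
  have hTs : T * dist x y ≤ dist x z / 4 := by nlinarith
  have hs2 : dist x y ≤ dist x z / 4 := by nlinarith
  have hyz : dist x z / 2 ≤ dist y z := by
    have := dist_triangle x y z
    linarith
  by_cases hux : u = x
  · rw [hux, dist_self]; positivity
  have hne1 : h x ≠ h y := fun e => by
    have := hz.sep.1
    rw [e, dist_self] at this
    linarith
  have hne2 : h u ≠ h z := fun e => by rw [e, dist_self] at hu; linarith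
  have hp := hq.prod (a := h x) (b := h u) (c := h y) (d := h z) hne1 hne2
  rw [e2', e2', e2', e2'] at hp
  have hub : dist (h x) (h u) * dist (h y) (h z) / (dist (h x) (h y) * dist (h u) (h z)) ≤
      D ^ 2 / (δ₀ * κ) := by
    have h3 : dist (h x) (h u) * dist (h y) (h z) ≤ D ^ 2 := by
      rw [sq]
      exact mul_le_mul (dle _ _) (dle _ _) dist_nonneg hD0
    exact div_le_div₀ (by positivity) h3 (by positivity)
      (mul_le_mul hz.sep.1 hu hκ.le dist_nonneg)
  have hθ : θ₀ (dist (h x) (h u) * dist (h y) (h z) / (dist (h x) (h y) * dist (h u) (h z))) ≤ T :=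
    K.gauge.mono hub
  have huz : dist u z ≤ dist x u + dist x z := dist_triangle_left _ _ _
  have h5 : dist x u * dist y z ≤ T * (dist x y * (dist x u + dist x z)) := by
    refine hp.trans (mul_le_mul hθ ?_ (by positivity) hT0)
    exact mul_le_mul_of_nonneg_left huz hs0.le
  have h6 : dist x u * (dist x z / 2) ≤ dist x u * dist y z :=
    mul_le_mul_of_nonneg_left hyz dist_nonneg
  have h7 : T * dist x y * dist x u ≤ dist x z / 4 * dist x u :=
    mul_le_mul_of_nonneg_right hTs dist_nonneg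
  have hxz : 0 < dist x z := by nlinarith
  have h8 : dist x u * (dist x z / 4) ≤ T * dist x y * dist x z := by nlinarith
  have h9 : dist x u / 4 ≤ T * dist x y := by
    have : dist x u / 4 * dist x z ≤ T * dist x y * dist x z := by linarith
    exact le_of_mul_le_mul_right this hxz
  nlinarith

/-- Zoom, (iii). -/
theorem zoom3 {S G : Set (Z → Z)} {δ₀ : ℝ} {θ₀ : ℝ → ℝ} (K : Sg Z S G δ₀ θ₀) {M : ℝ} (hM : 0 < M) {ε : ℝ} (hε : 0 < ε) :
    ∃ σ > 0, ∃ τ > 0, ∀ h x y z, Zm G δ₀ h x y z → dist x y ≤ σ * dist x z →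
      ∀ u v, dist x u ≤ M * dist x y → dist x v ≤ M * dist x y → dist u v ≤ τ * dist x y →
        dist (h u) (h v) ≤ ε := by
  have hδ := K.hδ
  set D := diam (univ : Set Z) with hD
  have hD0 : 0 ≤ D := diam_nonneg
  obtain ⟨τ, hτ, hsm⟩ := K.gauge.small (ε := ε * δ₀ / (D + 1) ^ 2) (by positivity)
  refine ⟨min (1 / 2) (1 / (2 * M)), by positivity, τ / 6, by positivity,
    fun h x y z hz hs u v hu hv huv => ?_⟩
  have hq := (G_qm K hz.mem).1
  have hs0 : 0 < dist x y := dist_pos.2 hz.ne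
  have hxz0 : 0 ≤ dist x z := dist_nonneg
  have hs1 : dist x y ≤ dist x z / 2 :=
    hs.trans (by nlinarith [min_le_left (1 / 2 : ℝ) (1 / (2 * M))])
  have hMs : M * dist x y ≤ dist x z / 2 := by
    have : M * dist x y ≤ M * (1 / (2 * M) * dist x z) :=
      mul_le_mul_of_nonneg_left (hs.trans (mul_le_mul_of_nonneg_right (min_le_right _ _) hxz0)) hM.le
    refine this.trans (le_of_eq ?_)
    field_simp
  have hxz : 0 < dist x z := by linarith
  have hvz : dist x z / 2 ≤ dist v z := by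
    have := dist_triangle x v z
    linarith
  -- choose p
  obtain ⟨p, hup, hpz, hhpz⟩ : ∃ p, dist x y / 2 ≤ dist u p ∧ dist p z ≤ 3 / 2 * dist x z ∧
      δ₀ ≤ dist (h p) (h z) := by
    by_cases hux : dist x y / 2 ≤ dist u x
    · exact ⟨x, hux, by linarith, hz.sep.2.1⟩
    · refine ⟨y, ?_, ?_, hz.sep.2.2⟩
      · have := dist_triangle_left x y u
        linarith
      · have := dist_triangle_left y z x
        linarith
  have hne1 : u ≠ p := fun e => by rw [e, dist_self] at hup; linarith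
  have hne2 : v ≠ z := fun e => by rw [e, dist_self] at hvz; linarith
  have hp := hq.prod (a := u) (b := v) (c := p) (d := z) hne1 hne2
  have hub : dist u v * dist p z / (dist u p * dist v z) ≤ τ := by
    have hpos : 0 < dist u p * dist v z := by
      have : 0 < dist u p := by linarith
      have : 0 < dist v z := by linarith
      positivity
    rw [div_le_iff₀ hpos]
    have h3 : dist u v * dist p z ≤ τ / 6 * dist x y * (3 / 2 * dist x z) :=
      mul_le_mul huv hpz dist_nonneg (by positivity)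
    have h4 : dist x y / 2 * (dist x z / 2) ≤ dist u p * dist v z :=
      mul_le_mul hup hvz (by positivity) dist_nonneg
    have h5 := mul_le_mul_of_nonneg_left h4 hτ.le
    nlinarith
  have hθ := hsm _ hub
  have h6 : dist (h u) (h p) * dist (h v) (h z) ≤ (D + 1) ^ 2 := by
    rw [sq]
    exact mul_le_mul (by linarith [dle (h u) (h p)]) (by linarith [dle (h v) (h z)]) dist_nonneg
      (by positivity)
  have h7 : dist (h u) (h v) * dist (h p) (h z) ≤ ε * δ₀ := by
    calc dist (h u) (h v) * dist (h p) (h z) ≤ _ := hp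
      _ ≤ ε * δ₀ / (D + 1) ^ 2 * (D + 1) ^ 2 :=
        mul_le_mul hθ.le h6 (by positivity) (by positivity)
      _ = ε * δ₀ := by field_simp
  have h8 : dist (h u) (h v) * δ₀ ≤ dist (h u) (h v) * dist (h p) (h z) :=
    mul_le_mul_of_nonneg_left hhpz dist_nonneg
  exact le_of_mul_le_mul_right (h8.trans h7) hδ

/-- Zoom, (iv). -/
theorem zoom4 {S G : Set (Z → Z)} {δ₀ : ℝ} {θ₀ : ℝ → ℝ} (K : Sg Z S G δ₀ θ₀) {M : ℝ} (hM : 0 < M) {ε : ℝ} (hε : 0 < ε) :
    ∃ σ > 0, ∃ τ > 0, ∀ h x y z, Zm G δ₀ h x y z → dist x y ≤ σ * dist x z →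
      ∀ u v, dist x u ≤ M * dist x y → dist x v ≤ M * dist x y → dist (h u) (h v) ≤ τ →
        dist u v ≤ ε * dist x y := by
  have hδ := K.hδ
  set D := diam (univ : Set Z) with hD
  have hD0 : 0 ≤ D := diam_nonneg
  obtain ⟨σ₁, hσ₁, c, hc, hz1⟩ := zoom1 K hM
  obtain ⟨τ, hτ, hsm⟩ := K.gauge.small (ε := ε / (3 * (M + 1))) (by positivity)
  refine ⟨min σ₁ (min (1 / 2) (1 / (2 * M))), by positivity, τ * δ₀ * c / (2 * (D + 1)),
    by positivity, fun h x y z hz hs u v hu hv huv => ?_⟩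
  obtain ⟨h', hh', e1, e2⟩ := K.inv h hz.mem
  have hq := (G_qm K hh').1
  have e2' : ∀ w, h' (h w) = w := fun w => congrFun e2 w
  have hs0 : 0 < dist x y := dist_pos.2 hz.ne
  have hxz0 : 0 ≤ dist x z := dist_nonneg
  have hs' : dist x y ≤ min (1 / 2) (1 / (2 * M)) * dist x z :=
    hs.trans (mul_le_mul_of_nonneg_right (min_le_right _ _) hxz0)
  have hs1 : dist x y ≤ dist x z / 2 :=
    hs'.trans (by nlinarith [min_le_left (1 / 2 : ℝ) (1 / (2 * M))])
  have hMs : M * dist x y ≤ dist x z / 2 := by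
    have : M * dist x y ≤ M * (1 / (2 * M) * dist x z) :=
      mul_le_mul_of_nonneg_left (hs'.trans (mul_le_mul_of_nonneg_right (min_le_right _ _) hxz0)) hM.le
    refine this.trans (le_of_eq ?_)
    field_simp
  have hxz : 0 < dist x z := by linarith
  have hvz' : c ≤ dist (h v) (h z) :=
    hz1 h x y z hz (hs.trans (mul_le_mul_of_nonneg_right (min_le_left _ _) hxz0)) v hv
  have hvz : dist v z ≤ 3 / 2 * dist x z := by
    have := dist_triangle_left v z x
    linarith
  -- choose p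
  obtain ⟨p, hup, hxp, hpz, hhpz⟩ : ∃ p, δ₀ / 2 ≤ dist (h u) (h p) ∧ dist x p ≤ dist x y ∧
      dist x z / 2 ≤ dist p z ∧ δ₀ ≤ dist (h p) (h z) := by
    by_cases hux : δ₀ / 2 ≤ dist (h u) (h x)
    · exact ⟨x, hux, by rw [dist_self]; exact dist_nonneg, by linarith, hz.sep.2.1⟩
    · refine ⟨y, ?_, le_rfl, ?_, hz.sep.2.2⟩
      · have h1 := dist_triangle_left (h x) (h y) (h u)
        have h2 := hz.sep.1
        linarith
      · have := dist_triangle x y z
        linarith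
  have hne1 : h u ≠ h p := fun e => by rw [e, dist_self] at hup; linarith
  have hne2 : h v ≠ h z := fun e => by rw [e, dist_self] at hvz'; linarith
  have hp := hq.prod (a := h u) (b := h v) (c := h p) (d := h z) hne1 hne2
  rw [e2', e2', e2', e2'] at hp
  have hub : dist (h u) (h v) * dist (h p) (h z) / (dist (h u) (h p) * dist (h v) (h z)) ≤ τ := by
    have hpos : 0 < dist (h u) (h p) * dist (h v) (h z) := by
      have : 0 < dist (h u) (h p) := by linarith
      have : 0 < dist (h v) (h z) := by linarith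
      positivity
    rw [div_le_iff₀ hpos]
    have h3 : dist (h u) (h v) * dist (h p) (h z) ≤ τ * δ₀ * c / (2 * (D + 1)) * (D + 1) :=
      mul_le_mul huv (by linarith [dle (h p) (h z)]) dist_nonneg (by positivity)
    have h4 : τ * δ₀ * c / (2 * (D + 1)) * (D + 1) = τ * (δ₀ / 2 * c) := by field_simp
    have h5 : δ₀ / 2 * c ≤ dist (h u) (h p) * dist (h v) (h z) :=
      mul_le_mul hup hvz' hc.le dist_nonneg
    have h6 := mul_le_mul_of_nonneg_left h5 hτ.le
    linarith
  have hθ := hsm _ hub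
  have hup' : dist u p ≤ (M + 1) * dist x y := by
    have := dist_triangle_left u p x
    linarith
  have h7 : dist u p * dist v z ≤ (M + 1) * dist x y * (3 / 2 * dist x z) :=
    mul_le_mul hup' hvz dist_nonneg (by positivity)
  have h8 : dist u v * dist p z ≤ ε / (3 * (M + 1)) * ((M + 1) * dist x y * (3 / 2 * dist x z)) :=
    hp.trans (mul_le_mul hθ.le h7 (by positivity) (by positivity))
  have h9 : ε / (3 * (M + 1)) * ((M + 1) * dist x y * (3 / 2 * dist x z)) =
      ε * dist x y * (dist x z / 2) := by field_simp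
  have h10 : dist u v * (dist x z / 2) ≤ dist u v * dist p z :=
    mul_le_mul_of_nonneg_left hpz dist_nonneg
  rw [h9] at h8
  exact le_of_mul_le_mul_right (h10.trans h8) (by linarith)

end QSCoh
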