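import Mathlib
import Pool.Agent.Lib.MP_cccab4_an.Defs

/-!
# MP_cccab4_an, module S04

`far`: the distance function `d(x,·)` attains its maximum `m` on the compact space; all distances are
`≤ 2m`, so `D ≤ 2m` (`diam_le_of_forall_dist_le`).  `precon`: `H.rc` joins any two points by a
continuous curve (image of a connected interval).  `sphere_pt`: intermediate value theorem for
`d(x, ·)` on the preconnected space between `x` and a far point.  `near_pt` from `sphere_pt` with
radius `min (r/2) (D/2)`.
-/

open MeasureTheory Metric Set Filter Topology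
open scoped ENNReal NNReal

namespace QSCoh

variable {Z : Type*} [MetricSpace Z] [CompactSpace Z] [MeasurableSpace Z] [BorelSpace Z]
  {μ : Measure Z} {Q : ℝ}

theorem far (H : Sp Z μ Q) (x : Z) : ∃ z : Z, diam (univ : Set Z) / 2 ≤ dist x z := by
  have hne : (univ : Set Z).Nonempty := ⟨x, mem_univ _⟩
  obtain ⟨z, -, hz⟩ := isCompact_univ.exists_isMaxOn hne
    ((continuous_const.dist continuous_id : Continuous fun z => dist x z).continuousOn)
  refine ⟨z, ?_⟩
  have h1 : diam (univ : Set Z) ≤ 2 * dist x z := by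
    refine diam_le_of_forall_dist_le (by positivity) fun a _ b _ => ?_
    have h2 : dist x a ≤ dist x z := hz (mem_univ a)
    have h3 : dist x b ≤ dist x z := hz (mem_univ b)
    have h4 := dist_triangle_left a b x
    linarith
  linarith

theorem precon (H : Sp Z μ Q) : PreconnectedSpace Z := by
  refine ⟨isPreconnected_of_forall_pair fun x _ y _ => ?_⟩
  obtain ⟨γ, L, hγ, hL, h0, h1⟩ := H.rc x y
  exact ⟨γ '' Icc 0 L, subset_univ _, ⟨0, ⟨le_rfl, hL⟩, h0⟩, ⟨L, ⟨hL, le_rfl⟩, h1⟩,
    isPreconnected_Icc.image γ hγ.continuous.continuousOn⟩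

theorem sphere_pt (H : Sp Z μ Q) (x : Z) {r : ℝ} (h0 : 0 ≤ r) (h : r ≤ diam (univ : Set Z) / 2) :
    ∃ y : Z, dist x y = r := by
  have := precon H
  obtain ⟨z, hz⟩ := far H x
  have hc : Continuous fun z => dist x z := continuous_const.dist continuous_id
  have := (isPreconnected_univ : IsPreconnected (univ : Set Z)).intermediate_value
    (mem_univ x) (mem_univ z) hc.continuousOn
  obtain ⟨y, -, hy⟩ := this ⟨by simpa using h0, h.trans hz⟩
  exact ⟨y, hy⟩

theorem near_pt (H : Sp Z μ Q) (x : Z) {r : ℝ} (h0 : 0 < r) : ∃ y : Z, y ≠ x ∧ dist x y < r := by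
  have hD := H.hD
  obtain ⟨y, hy⟩ := sphere_pt H x (r := min (r / 2) (diam (univ : Set Z) / 2))
    (le_min (by linarith) (by linarith)) (min_le_right _ _)
  have h1 : 0 < dist x y := by rw [hy]; exact lt_min (by linarith) (by linarith)
  exact ⟨y, fun h => by rw [h, dist_self] at h1; exact lt_irrefl _ h1,
    by rw [hy]; exact lt_of_le_of_lt (min_le_left _ _) (by linarith)⟩

end QSCoh
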