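import Mathlib
import Pool.Agent.Lib.MP_cccab4_an.Defs
import Pool.Agent.Lib.MP_cccab4_an.S04
import Pool.Agent.Lib.MP_cccab4_an.A08

/-!
# MP_cccab4_an, module A09

`y` from `sphere_pt`, `z` from `far`; `y ≠ z` since `xy = s < D/2 ≤ xz`; `h` from `K.co`.
-/

open MeasureTheory Metric Set Filter Topology
open scoped ENNReal NNReal

namespace QSCoh

variable {Z : Type*} [MetricSpace Z] [CompactSpace Z] [MeasurableSpace Z] [BorelSpace Z]
  {μ : Measure Z} {Q : ℝ}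

theorem zoom_exists {S G : Set (Z → Z)} {δ₀ : ℝ} {θ₀ : ℝ → ℝ} (H : Sp Z μ Q) (K : Sg Z S G δ₀ θ₀) (x : Z) {s : ℝ} (h0 : 0 < s)
    (hs : s < diam (univ : Set Z) / 2) :
    ∃ y z h, dist x y = s ∧ diam (univ : Set Z) / 2 ≤ dist x z ∧ Zm G δ₀ h x y z := by
  obtain ⟨y, hy⟩ := sphere_pt H x h0.le hs.le
  obtain ⟨z, hz⟩ := far H x
  have hxy : x ≠ y := by
    rintro rfl
    rw [dist_self] at hy
    linarith
  have hxz : x ≠ z := by
    rintro rfl
    rw [dist_self] at hz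
    linarith
  have hyz : y ≠ z := by
    rintro rfl
    linarith
  obtain ⟨h, hh, hsep⟩ := K.co x y z hxy hxz hyz
  exact ⟨y, z, h, hy, hz, hh, hxy, hsep⟩

end QSCoh
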