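import Mathlib
import Pool.Agent.Lib.MP_cccab4_an.Defs

/-!
# MP_cccab4_an : the public definitions (those in which the final theorem is stated)
-/

open MeasureTheory Metric Set Filter Topology
open scoped ENNReal NNReal

namespace QSCoh

universe u

variable {X Y Z : Type*}

/-- Quasisymmetric embedding: a topological embedding with
`d(f x, f a) / d(f x, f b) ≤ η (d(x,a) / d(x,b))` for all `x ≠ b`, for some homeomorphism
`η : [0,∞) → [0,∞)`. -/
def IsQSEmb [MetricSpace X] [MetricSpace Y] (f : X → Y) : Prop :=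
  Topology.IsEmbedding f ∧ ∃ η : ℝ≥0 ≃ₜ ℝ≥0, ∀ x a b : X, x ≠ b →
    nndist (f x) (f a) / nndist (f x) (f b) ≤ η (nndist x a / nndist x b)

/-- `X` is quasisymmetrically cohopfian. -/
def IsCohopfian (X : Type*) [MetricSpace X] : Prop :=
  ∀ f : X → X, IsQSEmb f → Function.Surjective f

/-- The cross-ratio of a quadruple of distinct points. -/
noncomputable def crn [MetricSpace X] (a b c d : X) : ℝ≥0 :=
  nndist a b * nndist c d / (nndist a c * nndist b d)

/-- `θ`-quasi-Möbius map: cross-ratios of quadruples of distinct points are distorted by at most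
`θ : [0,∞) → [0,∞)`. -/
def IsQMob [MetricSpace X] [MetricSpace Y] (θ : ℝ≥0 ≃ₜ ℝ≥0) (f : X → Y) : Prop :=
  ∀ a b c d : X, a ≠ b → a ≠ c → a ≠ d → b ≠ c → b ≠ d → c ≠ d →
    crn (f a) (f b) (f c) (f d) ≤ θ (crn a b c d)

/-- The distance between two sets. -/
noncomputable def setDist [MetricSpace Z] (E F : Set Z) : ℝ :=
  sInf {t | ∃ x ∈ E, ∃ y ∈ F, t = dist x y}

/-- The relative distance `Δ(E,F) = dist(E,F) / min(diam E, diam F)`. -/
noncomputable def relDist [MetricSpace Z] (E F : Set Z) : ℝ :=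
  setDist E F / min (diam E) (diam F)

/-- Ahlfors `Q`-regularity with respect to the `Q`-dimensional Hausdorff measure. -/
def IsAhlfors (Q : ℝ) (Z : Type*) [MetricSpace Z] [MeasurableSpace Z] [BorelSpace Z] : Prop :=
  ∃ C : ℝ, 1 ≤ C ∧ ∀ (x : Z) (r : ℝ), 0 < r → ENNReal.ofReal r ≤ ediam (univ : Set Z) →
    ENNReal.ofReal (r ^ Q / C) ≤ μH[Q] (closedBall x r) ∧
    μH[Q] (closedBall x r) ≤ ENNReal.ofReal (C * r ^ Q)

/-- `Q`-Loewner space: `Q > 1`, rectifiably connected, Ahlfors `Q`-regular, and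
`Mod_Q(E,F) ≥ φ(Δ(E,F))` for all disjoint non-degenerate continua `E, F`.  (`Md` is the modulus of
the family of curves joining `E` to `F`, the curves being written as `1`-Lipschitz maps on
intervals `[0,L]`, in particular by arc length.) -/
structure IsLoewner (Q : ℝ) (Z : Type*) [MetricSpace Z] [MeasurableSpace Z] [BorelSpace Z] :
    Prop where
  one_lt : 1 < Q
  rectConn : ∀ x y : Z, ∃ (γ : ℝ → Z) (L : ℝ), LipschitzWith 1 γ ∧ 0 ≤ L ∧ γ 0 = x ∧ γ L = y
  ahlfors : IsAhlfors Q Z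
  loewner : ∃ φ : ℝ → ℝ, (∀ t, 0 < t → 0 < φ t) ∧ ∀ E F : Set Z, IsCompact E → IsCompact F →
    IsConnected E → IsConnected F → E.Nontrivial → F.Nontrivial → Disjoint E F →
    ENNReal.ofReal (φ (relDist E F)) ≤ Md μH[Q] Q E F

/-- `X` is quasisymmetrically equivalent to a `Q`-Loewner space for some `Q > 1` (equivalently: some
metric on `X` quasisymmetrically equivalent to the given one is Loewner). -/
def QSLoewner (X : Type u) [MetricSpace X] : Prop :=
  ∃ (Z : Type u) (_ : MetricSpace Z) (_ : MeasurableSpace Z) (_ : BorelSpace Z) (Q : ℝ)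
    (e : Z ≃ₜ X), IsQSEmb e ∧ IsLoewner Q Z

/-- All quasisymmetric self-homeomorphisms of `X` are quasi-Möbius with one distortion function. -/
def UniformQS (X : Type*) [MetricSpace X] : Prop :=
  ∃ θ : ℝ≥0 ≃ₜ ℝ≥0, ∀ h : X ≃ₜ X, IsQSEmb h → IsQMob θ h

/-- The semigroup form for a metric space `Z` : let `S` be a semigroup of quasisymmetric embeddings
`Z → Z` and `G ⊆ S` a group of homeomorphisms such that every triple of distinct points can be moved
by `G` to a `δ`-separated one, and all homeomorphisms which are uniform limits of sequences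
`g_j ∘ f ∘ h_j` (`f ∈ S` fixed, `g_j, h_j ∈ G`) are `θ`-quasi-Möbius with one `θ`.  Then all
elements of `S` are onto. -/
def SemigroupForm (Z : Type*) [MetricSpace Z] : Prop :=
  ∀ (S G : Set (Z → Z)) (δ : ℝ) (θ : ℝ≥0 ≃ₜ ℝ≥0), 0 < δ → (∀ f ∈ S, IsQSEmb f) →
    (∀ f ∈ S, ∀ g ∈ S, f ∘ g ∈ S) → G ⊆ S → id ∈ G → (∀ f ∈ G, ∀ g ∈ G, f ∘ g ∈ G) →
    (∀ g ∈ G, ∃ g' ∈ G, g ∘ g' = id ∧ g' ∘ g = id) →
    (∀ x y z : Z, x ≠ y → x ≠ z → y ≠ z → ∃ h ∈ G, δ ≤ dist (h x) (h y) ∧ δ ≤ dist (h x) (h z) ∧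
      δ ≤ dist (h y) (h z)) →
    (∀ f ∈ S, ∀ g h : ℕ → Z → Z, (∀ j, g j ∈ G) → (∀ j, h j ∈ G) → ∀ φ : Z ≃ₜ Z,
      TendstoUniformly (fun j => g j ∘ f ∘ h j) φ atTop → IsQMob θ φ) →
    ∀ f ∈ S, Function.Surjective f

/-! ### Hyperbolic groups and their boundaries -/

section Group

variable {Γ : Type*} [Group Γ]

/-- Word length with respect to `T ∪ T⁻¹`. -/
noncomputable def wlen (T : Set Γ) (g : Γ) : ℕ :=
  sInf {n : ℕ | ∃ l : List Γ, l.length = n ∧ (∀ s ∈ l, s ∈ T ∨ s⁻¹ ∈ T) ∧ l.prod = g}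

/-- Gromov product based at `1` in the word metric `d(x,y) = wlen (x⁻¹ y)`. -/
noncomputable def gp (T : Set Γ) (x y : Γ) : ℝ :=
  ((wlen T x : ℝ) + wlen T y - wlen T (x⁻¹ * y)) / 2

/-- `T` is a finite generating set of `Γ` and the word metric is Gromov hyperbolic. -/
structure IsHypGroup (T : Set Γ) : Prop where
  fin : T.Finite
  gen : Subgroup.closure T = ⊤
  hyp : ∃ δ : ℝ, ∀ x y z : Γ, min (gp T x y) (gp T y z) - δ ≤ gp T x z

/-- `x` converges to infinity: `(x_i | x_j) → ∞` as `i, j → ∞`. -/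
def ConvInf (T : Set Γ) (x : ℕ → Γ) : Prop :=
  Tendsto (fun p : ℕ × ℕ => gp T (x p.1) (x p.2)) atTop atTop

/-- Equivalence of sequences converging to infinity: `(x_i | y_j) → ∞`. -/
def EqInf (T : Set Γ) (x y : {x : ℕ → Γ // ConvInf T x}) : Prop :=
  Tendsto (fun p : ℕ × ℕ => gp T (x.1 p.1) (y.1 p.2)) atTop atTop

/-- The Gromov boundary: classes of sequences converging to infinity. -/
def Bdry (T : Set Γ) : Type _ := Quot (EqInf T)

/-- The Gromov product on the boundary, `sup liminf (x_i | y_j)`. -/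
noncomputable def bprod (T : Set Γ) (ξ η : Bdry T) : EReal :=
  ⨆ (x : {x : ℕ → Γ // ConvInf T x}) (y : {x : ℕ → Γ // ConvInf T x})
    (_ : (Quot.mk _ x : Bdry T) = ξ) (_ : (Quot.mk _ y : Bdry T) = η),
    liminf (fun p : ℕ × ℕ => ((gp T (x.1 p.1) (y.1 p.2) : ℝ) : EReal)) atTop

/-- A visual metric on the boundary: `C⁻¹ exp(-ε (ξ|η)) ≤ d(ξ,η) ≤ C exp(-ε (ξ|η))`. -/
def IsVisual (T : Set Γ) [MetricSpace (Bdry T)] : Prop :=
  ∃ ε C : ℝ, 0 < ε ∧ 1 ≤ C ∧ ∀ ξ η : Bdry T, ξ ≠ η →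
    C⁻¹ * Real.exp (-ε * (bprod T ξ η).toReal) ≤ dist ξ η ∧
    dist ξ η ≤ C * Real.exp (-ε * (bprod T ξ η).toReal)

end Group

end QSCoh
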