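import Mathlib
import Pool.Agent.Lib.MP_cccab4_an.Defs
import Pool.Agent.Lib.MP_cccab4_an.Pub

/-!
# MP_cccab4_an, module G01

Elementary.  By `Subgroup.closure T = ⊤` (and `Subgroup.exists_list_of_mem_closure`) every `g` is the
product of a list of elements of `T ∪ T⁻¹`, so the set defining `wlen` is nonempty and the infimum is
attained by a list (`Nat.sInf_mem`).  `wlen_geod`: split a shortest word of `g` after `k` letters.
`wlen_finite`: induction on `n`, or lists of length `≤ n` over the finite set `T ∪ T⁻¹`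
(`List.finite_length_le`/`Set.Finite.image`).
-/

open MeasureTheory Metric Set Filter Topology
open scoped ENNReal NNReal

namespace QSCoh

variable {Γ : Type*} [Group Γ] {T : Set Γ}

theorem G01_exists (hg : Subgroup.closure T = ⊤) (g : Γ) :
    ∃ l : List Γ, l.length = wlen T g ∧ (∀ s ∈ l, s ∈ T ∨ s⁻¹ ∈ T) ∧ l.prod = g := by
  have hne : {n : ℕ | ∃ l : List Γ, l.length = n ∧ (∀ s ∈ l, s ∈ T ∨ s⁻¹ ∈ T) ∧
      l.prod = g}.Nonempty := by
    have hgm : g ∈ Subgroup.closure T := by rw [hg]; exact Subgroup.mem_top g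
    rw [← Subgroup.mem_toSubmonoid, Subgroup.closure_toSubmonoid] at hgm
    obtain ⟨l, hl, hp⟩ := Submonoid.exists_list_of_mem_closure hgm
    refine ⟨l.length, l, rfl, fun s hs => ?_, hp⟩
    rcases hl s hs with h | h
    · exact Or.inl h
    · exact Or.inr (Set.mem_inv.mp h)
  exact Nat.sInf_mem hne

theorem G01_le {g : Γ} (l : List Γ) (hl : ∀ s ∈ l, s ∈ T ∨ s⁻¹ ∈ T) (hp : l.prod = g) :
    wlen T g ≤ l.length :=
  Nat.sInf_le ⟨l, rfl, hl, hp⟩

theorem wlen_one : wlen T 1 = 0 := by
  have h := G01_le (T := T) (g := (1 : Γ)) [] (by simp) (by simp)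
  simpa using h

theorem G01_inv_list (l : List Γ) (hl : ∀ s ∈ l, s ∈ T ∨ s⁻¹ ∈ T) :
    ∀ s ∈ (l.map fun x => x⁻¹).reverse, s ∈ T ∨ s⁻¹ ∈ T := by
  intro s hs
  rw [List.mem_reverse, List.mem_map] at hs
  obtain ⟨a, ha, rfl⟩ := hs
  rcases hl a ha with h | h
  · right; rw [inv_inv]; exact h
  · left; exact h

theorem wlen_inv (g : Γ) : wlen T g⁻¹ = wlen T g := by
  unfold wlen
  congr 1
  ext n
  constructor
  · rintro ⟨l, h1, h2, h3⟩
    refine ⟨(l.map fun x => x⁻¹).reverse, by simpa using h1, G01_inv_list l h2, ?_⟩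
    rw [← List.prod_inv_reverse, h3, inv_inv]
  · rintro ⟨l, h1, h2, h3⟩
    refine ⟨(l.map fun x => x⁻¹).reverse, by simpa using h1, G01_inv_list l h2, ?_⟩
    rw [← List.prod_inv_reverse, h3]

theorem wlen_mul (hg : Subgroup.closure T = ⊤) (g h : Γ) :
    wlen T (g * h) ≤ wlen T g + wlen T h := by
  obtain ⟨l, h1, h2, h3⟩ := G01_exists hg g
  obtain ⟨l', h1', h2', h3'⟩ := G01_exists hg h
  have := G01_le (T := T) (g := g * h) (l ++ l') (by
    intro s hs
    rw [List.mem_append] at hs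
    rcases hs with hs | hs
    · exact h2 s hs
    · exact h2' s hs) (by rw [List.prod_append, h3, h3'])
  rw [List.length_append, h1, h1'] at this
  exact this

theorem wlen_eq_zero (hg : Subgroup.closure T = ⊤) {g : Γ} (h : wlen T g = 0) : g = 1 := by
  obtain ⟨l, h1, h2, h3⟩ := G01_exists hg g
  rw [h, List.length_eq_zero_iff] at h1
  rw [← h3, h1, List.prod_nil]

/-- Points on geodesics. -/
theorem wlen_geod (hg : Subgroup.closure T = ⊤) (g : Γ) {k : ℕ} (hk : k ≤ wlen T g) :
    ∃ h : Γ, wlen T h = k ∧ wlen T (h⁻¹ * g) = wlen T g - k := by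
  obtain ⟨l, h1, h2, h3⟩ := G01_exists hg g
  refine ⟨(l.take k).prod, ?_⟩
  have e1 : (l.take k).prod * (l.drop k).prod = g := by
    rw [← List.prod_append, List.take_append_drop, h3]
  have e2 : ((l.take k).prod)⁻¹ * g = (l.drop k).prod := by
    rw [← e1]; group
  have b1 : wlen T (l.take k).prod ≤ k := by
    refine (G01_le (l.take k) (fun s hs => h2 s (List.mem_of_mem_take hs)) rfl).trans ?_
    rw [List.length_take]; omega
  have b2 : wlen T (l.drop k).prod ≤ wlen T g - k := by
    refine (G01_le (l.drop k) (fun s hs => h2 s (List.mem_of_mem_drop hs)) rfl).trans ?_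
    rw [List.length_drop, h1]
  have b3 := wlen_mul hg (l.take k).prod (l.drop k).prod
  rw [e1] at b3
  rw [e2]
  omega

theorem wlen_finite (hf : T.Finite) (hg : Subgroup.closure T = ⊤) (n : ℕ) :
    {g : Γ | wlen T g ≤ n}.Finite := by
  have hS : (T ∪ T⁻¹ : Set Γ).Finite := hf.union hf.inv
  have hS' : Finite (T ∪ T⁻¹ : Set Γ) := hS
  have hL : {l : List (T ∪ T⁻¹ : Set Γ) | l.length ≤ n}.Finite := List.finite_length_le _ n
  refine (hL.image (fun l => (l.map Subtype.val).prod)).subset ?_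
  intro g hgn
  obtain ⟨l, h1, h2, h3⟩ := G01_exists hg g
  have hgn' : wlen T g ≤ n := hgn
  refine ⟨l.attach.map (fun s => ⟨s.1, ?_⟩), ?_, ?_⟩
  · rcases h2 s.1 s.2 with h | h
    · exact Or.inl h
    · exact Or.inr (Set.mem_inv.mpr h)
  · simp only [Set.mem_ofPred_eq, List.length_map, List.length_attach]
    omega
  · simp only [List.map_map]
    have : (l.attach.map (Subtype.val ∘ fun s : {x // x ∈ l} =>
        (⟨s.1, by
          rcases h2 s.1 s.2 with h | h
          · exact Or.inl h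
          · exact Or.inr (Set.mem_inv.mpr h)⟩ : (T ∪ T⁻¹ : Set Γ)))) = l := by
      conv_rhs => rw [← List.attach_map_subtype_val l]
      rfl
    rw [this, h3]

end QSCoh
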