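import Mathlib
import Pool.Agent.Lib.MP_cccab4_an.Defs
import Pool.Agent.Lib.MP_cccab4_an.Pub
import Pool.Agent.Lib.MP_cccab4_an.G01

/-!
# MP_cccab4_an, module G02

Elementary from `G01`; the distance `wlen (x⁻¹ y)` is left invariant:
`gp (gx) (gy) = (|gx| + |gy| - |x⁻¹ y|)/2`, and `||gx| - |x|| ≤ |g|`.
-/

open MeasureTheory Metric Set Filter Topology
open scoped ENNReal NNReal

namespace QSCoh

variable {Γ : Type*} [Group Γ] {T : Set Γ}

theorem gp_comm (x y : Γ) : gp T x y = gp T y x := by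
  unfold gp
  have : wlen T (x⁻¹ * y) = wlen T (y⁻¹ * x) := by
    rw [← wlen_inv (x⁻¹ * y), mul_inv_rev, inv_inv]
  rw [this]; ring

theorem gp_nonneg (hg : Subgroup.closure T = ⊤) (x y : Γ) : 0 ≤ gp T x y := by
  unfold gp
  have h := wlen_mul hg x⁻¹ y
  rw [wlen_inv] at h
  have h' : (wlen T (x⁻¹ * y) : ℝ) ≤ wlen T x + wlen T y := by exact_mod_cast h
  linarith

theorem gp_le_left (hg : Subgroup.closure T = ⊤) (x y : Γ) : gp T x y ≤ wlen T x := by
  unfold gp
  have h := wlen_mul hg x (x⁻¹ * y)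
  rw [mul_inv_cancel_left] at h
  have h' : (wlen T y : ℝ) ≤ wlen T x + wlen T (x⁻¹ * y) := by exact_mod_cast h
  linarith

theorem G02_inv_mul (g x y : Γ) : (g * x)⁻¹ * (g * y) = x⁻¹ * y := by group

/-- The cross difference is invariant under left translation. -/
theorem cross_diff (g x y z w : Γ) :
    gp T (g * x) (g * y) + gp T (g * z) (g * w) - gp T (g * x) (g * z) - gp T (g * y) (g * w) =
      gp T x y + gp T z w - gp T x z - gp T y w := by
  unfold gp
  simp only [G02_inv_mul]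
  ring

theorem G02_wlen_mul_abs (hg : Subgroup.closure T = ⊤) (g x : Γ) :
    |(wlen T (g * x) : ℝ) - wlen T x| ≤ wlen T g := by
  have h1 := wlen_mul hg g x
  have h2 := wlen_mul hg g⁻¹ (g * x)
  rw [inv_mul_cancel_left, wlen_inv] at h2
  have h1' : (wlen T (g * x) : ℝ) ≤ wlen T g + wlen T x := by exact_mod_cast h1
  have h2' : (wlen T x : ℝ) ≤ wlen T g + wlen T (g * x) := by exact_mod_cast h2
  rw [abs_le]
  constructor <;> linarith

theorem gp_mul_le (hg : Subgroup.closure T = ⊤) (g x y : Γ) :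
    |gp T (g * x) (g * y) - gp T x y| ≤ wlen T g := by
  unfold gp
  rw [G02_inv_mul]
  have h1 := abs_le.mp (G02_wlen_mul_abs hg g x)
  have h2 := abs_le.mp (G02_wlen_mul_abs hg g y)
  rw [abs_le]
  constructor <;> linarith [h1.1, h1.2, h2.1, h2.2]

theorem G02_tendsto (hg : Subgroup.closure T = ⊤) (g : Γ) {x y : ℕ → Γ}
    (h : Tendsto (fun p : ℕ × ℕ => gp T (x p.1) (y p.2)) atTop atTop) :
    Tendsto (fun p : ℕ × ℕ => gp T (g * x p.1) (g * y p.2)) atTop atTop := by
  refine tendsto_atTop_mono (f := fun p : ℕ × ℕ => gp T (x p.1) (y p.2) + (-(wlen T g : ℝ))) ?_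
    (tendsto_atTop_add_const_right _ _ h)
  intro p
  have := abs_le.mp (gp_mul_le hg g (x p.1) (y p.2))
  linarith [this.1]

theorem convInf_mul (hg : Subgroup.closure T = ⊤) (g : Γ) {x : ℕ → Γ} (h : ConvInf T x) :
    ConvInf T (fun n => g * x n) :=
  G02_tendsto hg g h

theorem eqInf_mul (hg : Subgroup.closure T = ⊤) (g : Γ) {x y : {x : ℕ → Γ // ConvInf T x}}
    (h : EqInf T x y) : EqInf T ⟨fun n => g * x.1 n, convInf_mul hg g x.2⟩
      ⟨fun n => g * y.1 n, convInf_mul hg g y.2⟩ :=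
  G02_tendsto hg g h

/-- The action of `Γ` on its boundary. -/
noncomputable def act (hg : Subgroup.closure T = ⊤) (g : Γ) : Bdry T → Bdry T :=
  Quot.map (fun x => ⟨fun n => g * x.1 n, convInf_mul hg g x.2⟩) (fun _ _ h => eqInf_mul hg g h)

theorem act_one (hg : Subgroup.closure T = ⊤) (ξ : Bdry T) : act hg 1 ξ = ξ := by
  induction ξ using Quot.ind with
  | mk x =>
    unfold act
    simp only [Quot.map, one_mul]

theorem act_mul (hg : Subgroup.closure T = ⊤) (g h : Γ) (ξ : Bdry T) :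
    act hg (g * h) ξ = act hg g (act hg h ξ) := by
  induction ξ using Quot.ind with
  | mk x =>
    unfold act
    simp only [Quot.map, mul_assoc]

end QSCoh
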