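import Mathlib
import Pool.Agent.Lib.MP_cccab4_an.Defs
import Pool.Agent.Lib.MP_cccab4_an.Pub
import Pool.Agent.Lib.MP_cccab4_an.G01
import Pool.Agent.Lib.MP_cccab4_an.G02

/-!
# MP_cccab4_an, module G03

`δ ≥ 0` a hyperbolicity constant.  Transitivity: `gp x_i z_j ≥ min (gp x_i y_n) (gp y_n z_j) - δ` for
large `n`.  `mk_eq`: `Quot.eq` with the equivalence (`Equivalence.quot_mk_eq_iff` or
`Quot.eqvGen_exact`).
`bprod_near` with `C = 4δ`.  (1) If `¬ EqInf x y` there is `B` with `gp x_k y_l ≤ B` for arbitrarily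
large `(k,l)`; for `i, k, j, l` large `gp x_i x_k > B + 2δ`, `gp y_j y_l > B + 2δ`, and
`min (gp x_k x_i) (gp x_i y_j) (gp y_j y_l) - 2δ ≤ gp x_k y_l ≤ B` so `gp x_i y_j ≤ B + 2δ` for all large
`(i,j)`.  (2) Let `x', y'` be other representatives (equivalent to `x`, `y`; also `¬ EqInf x' y'`, so
`gp x'_k y'_l ≤ B'` eventually): for all large `i,j,k,l`,
`gp x_i y_j ≥ min (gp x_i x'_k) (gp x'_k y'_l) (gp y'_l y_j) - 2δ = gp x'_k y'_l - 2δ`, and
symmetrically.  So for large `(i,j)` every liminf occurring in `bprod` lies within `4δ` of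
`gp x_i y_j` (and the one for `x, y` occurs), hence so does the supremum (an `EReal` between two real
numbers, so finite; `EReal.toReal`).
-/

open MeasureTheory Metric Set Filter Topology
open scoped ENNReal NNReal

namespace QSCoh

variable {Γ : Type*} [Group Γ] {T : Set Γ}

theorem G03_ev (P : ℕ → ℕ → Prop) :
    (∀ᶠ p : ℕ × ℕ in atTop, P p.1 p.2) ↔ ∃ N, ∀ i ≥ N, ∀ j ≥ N, P i j := by
  rw [eventually_atTop]
  constructor
  · rintro ⟨⟨a, b⟩, h⟩
    exact ⟨max a b, fun i hi j hj => h (i, j) ⟨(le_max_left _ _).trans hi,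
      (le_max_right _ _).trans hj⟩⟩
  · rintro ⟨N, h⟩
    exact ⟨(N, N), fun p hp => h p.1 hp.1 p.2 hp.2⟩

theorem G03_tend {x y : {x : ℕ → Γ // ConvInf T x}} :
    EqInf T x y ↔ ∀ B : ℝ, ∃ N, ∀ i ≥ N, ∀ j ≥ N, B ≤ gp T (x.1 i) (y.1 j) := by
  unfold EqInf
  rw [Filter.tendsto_atTop]
  exact forall_congr' fun B => G03_ev (fun i j => B ≤ gp T (x.1 i) (y.1 j))

theorem G03_hyp (hT : IsHypGroup T) : ∃ δ : ℝ, 0 ≤ δ ∧
    (∀ x y z : Γ, min (gp T x y) (gp T y z) - δ ≤ gp T x z) := by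
  obtain ⟨δ, hδ⟩ := hT.hyp
  refine ⟨max δ 0, le_max_right _ _, fun x y z => ?_⟩
  have h1 := hδ x y z
  have h2 := le_max_left δ 0
  linarith

theorem G03_hyp3 {δ : ℝ} (hδ : ∀ x y z : Γ, min (gp T x y) (gp T y z) - δ ≤ gp T x z)
    (a b c d : Γ) {B : ℝ} (h1 : B ≤ gp T a b) (h2 : B ≤ gp T b c) (h3 : B ≤ gp T c d) :
    B - 2 * δ ≤ gp T a d := by
  have e1 := hδ a b c
  have e2 := hδ a c d
  have m1 : B ≤ min (gp T a b) (gp T b c) := le_min h1 h2
  by_cases hc : gp T a c ≤ gp T c d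
  · rw [min_eq_left hc] at e2; linarith
  · push Not at hc
    rw [min_eq_right hc.le] at e2
    have h0 : 0 ≤ δ := by
      have := hδ 1 1 1
      rw [min_self] at this
      linarith
    linarith

theorem eqInf_equiv (hT : IsHypGroup T) : Equivalence (EqInf T) := by
  obtain ⟨δ, hδ0, hδ⟩ := G03_hyp hT
  refine ⟨fun x => x.2, ?_, ?_⟩
  · intro x y h
    have h' := G03_tend.mp h
    refine G03_tend.mpr fun B => ?_
    obtain ⟨N, hN⟩ := h' B
    exact ⟨N, fun i hi j hj => by rw [gp_comm]; exact hN j hj i hi⟩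
  · intro x y z h1 h2
    refine G03_tend.mpr fun B => ?_
    obtain ⟨N1, hN1⟩ := G03_tend.mp h1 (B + δ)
    obtain ⟨N2, hN2⟩ := G03_tend.mp h2 (B + δ)
    refine ⟨max N1 N2, fun i hi j hj => ?_⟩
    have a1 := hN1 i ((le_max_left _ _).trans hi) (max N1 N2) (le_max_left _ _)
    have a2 := hN2 (max N1 N2) (le_max_right _ _) j ((le_max_right _ _).trans hj)
    have a3 := hδ (x.1 i) (y.1 (max N1 N2)) (z.1 j)
    have a4 := le_min a1 a2
    linarith

theorem mk_eq (hT : IsHypGroup T) (x y : {x : ℕ → Γ // ConvInf T x}) :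
    (Quot.mk _ x : Bdry T) = Quot.mk _ y ↔ EqInf T x y :=
  (eqInf_equiv hT).quot_mk_eq_iff x y

/-- Boundedness of the products of inequivalent sequences. -/
theorem G03_bdd {δ : ℝ} (hδ : ∀ x y z : Γ, min (gp T x y) (gp T y z) - δ ≤ gp T x z)
    {x y : {x : ℕ → Γ // ConvInf T x}} (h : ¬ EqInf T x y) :
    ∃ B : ℝ, ∃ N, ∀ i ≥ N, ∀ j ≥ N, gp T (x.1 i) (y.1 j) ≤ B := by
  rw [G03_tend] at h
  push Not at h
  obtain ⟨B, hB⟩ := h
  obtain ⟨N1, hN1⟩ := (G03_tend (x := x) (y := x)).mp x.2 (B + 2 * δ)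
  obtain ⟨N2, hN2⟩ := (G03_tend (x := y) (y := y)).mp y.2 (B + 2 * δ)
  refine ⟨B + 2 * δ, max N1 N2, fun i hi j hj => ?_⟩
  obtain ⟨k, hk, l, hl, hkl⟩ := hB (max N1 N2)
  by_contra hcon
  push Not at hcon
  have a1 := hN1 k ((le_max_left _ _).trans hk) i ((le_max_left _ _).trans hi)
  have a2 := hN2 j ((le_max_right _ _).trans hj) l ((le_max_right _ _).trans hl)
  have h3 := G03_hyp3 hδ (x.1 k) (x.1 i) (y.1 j) (y.1 l) a1 hcon.le a2
  linarith

/-- Comparison of the products of equivalent sequences. -/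
theorem G03_cmp {δ : ℝ} (hδ : ∀ x y z : Γ, min (gp T x y) (gp T y z) - δ ≤ gp T x z)
    {x y x' y' : {x : ℕ → Γ // ConvInf T x}} (h : ¬ EqInf T x' y') (hx : EqInf T x x')
    (hy : EqInf T y' y) :
    ∃ N, ∀ i ≥ N, ∀ j ≥ N, ∀ k ≥ N, ∀ l ≥ N,
      gp T (x'.1 k) (y'.1 l) ≤ gp T (x.1 i) (y.1 j) + 2 * δ := by
  obtain ⟨B, N0, hB⟩ := G03_bdd hδ h
  obtain ⟨N1, hN1⟩ := G03_tend.mp hx B
  obtain ⟨N2, hN2⟩ := G03_tend.mp hy B
  refine ⟨max N0 (max N1 N2), fun i hi j hj k hk l hl => ?_⟩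
  have q0 : N0 ≤ max N0 (max N1 N2) := le_max_left _ _
  have q1 : N1 ≤ max N0 (max N1 N2) := (le_max_left _ _).trans (le_max_right _ _)
  have q2 : N2 ≤ max N0 (max N1 N2) := (le_max_right _ _).trans (le_max_right _ _)
  have b := hB k (q0.trans hk) l (q0.trans hl)
  have a1 := hN1 i (q1.trans hi) k (q1.trans hk)
  have a2 := hN2 l (q2.trans hl) j (q2.trans hj)
  have h := G03_hyp3 hδ (x.1 i) (x'.1 k) (y'.1 l) (y.1 j) (b.trans a1) le_rfl (b.trans a2)
  linarith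

/-- Gromov products of representatives eventually approximate the boundary product. -/
theorem bprod_near (hT : IsHypGroup T) : ∃ C : ℝ, 0 ≤ C ∧
    ∀ x y : {x : ℕ → Γ // ConvInf T x}, ¬ EqInf T x y → ∀ᶠ p : ℕ × ℕ in atTop,
      |gp T (x.1 p.1) (y.1 p.2) - (bprod T (Quot.mk _ x) (Quot.mk _ y)).toReal| ≤ C := by
  obtain ⟨δ, hδ0, hδ⟩ := G03_hyp hT
  have hE := eqInf_equiv hT
  refine ⟨4 * δ, by linarith, fun x y hxy => ?_⟩
  obtain ⟨N, hN⟩ := G03_cmp hδ hxy (hE.refl x) (hE.refl y)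
  refine (G03_ev (fun i j => |gp T (x.1 i) (y.1 j) -
    (bprod T (Quot.mk _ x) (Quot.mk _ y)).toReal| ≤ 4 * δ)).mpr ⟨N, fun i hi j hj => ?_⟩
  set c : ℝ := gp T (x.1 i) (y.1 j) with hc
  have lo : ((c - 2 * δ : ℝ) : EReal) ≤ bprod T (Quot.mk _ x) (Quot.mk _ y) := by
    unfold bprod
    refine le_iSup_of_le x (le_iSup_of_le y (le_iSup_of_le rfl (le_iSup_of_le rfl ?_)))
    refine le_liminf_of_le (by isBoundedDefault) ?_
    refine (G03_ev (fun k l => ((c - 2 * δ : ℝ) : EReal) ≤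
      ((gp T (x.1 k) (y.1 l) : ℝ) : EReal))).mpr ⟨N, fun k hk l hl => ?_⟩
    rw [EReal.coe_le_coe_iff]
    have := hN k hk l hl i hi j hj
    linarith
  have hi' : bprod T (Quot.mk _ x) (Quot.mk _ y) ≤ ((c + 4 * δ : ℝ) : EReal) := by
    unfold bprod
    refine iSup_le fun x' => iSup_le fun y' => iSup_le fun hx' => iSup_le fun hy' => ?_
    have ex : EqInf T x' x := (mk_eq hT x' x).mp hx'
    have ey : EqInf T y' y := (mk_eq hT y' y).mp hy'
    have hxy' : ¬ EqInf T x' y' := fun hcon =>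
      hxy (hE.trans (hE.symm ex) (hE.trans hcon ey))
    obtain ⟨N', hN'⟩ := G03_cmp hδ hxy' (hE.symm ex) ey
    refine liminf_le_of_frequently_le' (Eventually.frequently ?_)
    refine (G03_ev (fun k l => ((gp T (x'.1 k) (y'.1 l) : ℝ) : EReal) ≤
      ((c + 4 * δ : ℝ) : EReal))).mpr ⟨max N N', fun k hk l hl => ?_⟩
    rw [EReal.coe_le_coe_iff]
    have q1 : N ≤ max N N' := le_max_left _ _
    have q2 : N' ≤ max N N' := le_max_right _ _
    have a1 := hN' (max N N') q2 (max N N') q2 k (q2.trans hk) l (q2.trans hl)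
    have a2 := hN i hi j hj (max N N') q1 (max N N') q1
    linarith
  have hne1 : bprod T (Quot.mk _ x) (Quot.mk _ y) ≠ ⊤ := fun h => by
    rw [h] at hi'; exact absurd (top_le_iff.mp hi') (EReal.coe_ne_top _)
  have hne2 : bprod T (Quot.mk _ x) (Quot.mk _ y) ≠ ⊥ := fun h => by
    rw [h] at lo; exact absurd (le_bot_iff.mp lo) (EReal.coe_ne_bot _)
  rw [← EReal.coe_toReal hne1 hne2, EReal.coe_le_coe_iff] at lo hi'
  rw [abs_le]
  constructor <;> linarith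

end QSCoh
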