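import Mathlib
import Pool.Agent.Lib.MP_cccab4_an.Defs
import Pool.Agent.Lib.MP_cccab4_an.Pub
import Pool.Agent.Lib.MP_cccab4_an.G02
import Pool.Agent.Lib.MP_cccab4_an.G03

/-!
# MP_cccab4_an, module G04

`ε, C₀` from `hv`, `C₁` from `bprod_near`.  For `ξ ≠ η` with representatives `x, y`, eventually
`C₀⁻¹ e^{-εC₁} exp(-ε gp x_i y_j) ≤ d(ξ,η) ≤ C₀ e^{εC₁} exp(-ε gp x_i y_j)`; the same for
`g ξ ≠ g η` (`act` is injective: inverse `act g⁻¹`, by `act_mul`, `act_one`) with representatives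
`g x_i, g y_j`.
* `act_cont`: `d(gξ,gη) ≤ C₀² e^{2εC₁ + ε|g|} d(ξ,η)` by `gp_mul_le`: Lipschitz.
* `act_qm`: let `a ≠ c`, `b ≠ d`.  If `a = b` or `c = d` both cross-ratios are `0`.  Otherwise all four
distances in the cross-ratio are positive and for large indices `n` (the same index for all four
representatives: use the diagonal of `ℕ × ℕ`), `cr` of the images is at most
`(C₀ e^{εC₁})^8 ` times `cr a b c d`, by `cross_diff`:
`log cr ≈ -ε(gp a b + gp c d - gp a c - gp b d)`.  `θ t = K max t 0`.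
-/

open MeasureTheory Metric Set Filter Topology
open scoped ENNReal NNReal

namespace QSCoh

variable {Γ : Type*} [Group Γ] {T : Set Γ}

/-- The class of a sequence, as a point of the boundary. -/
def G04_mk (x : {x : ℕ → Γ // ConvInf T x}) : Bdry T := Quot.mk _ x

theorem G04_near (hT : IsHypGroup T) [MetricSpace (Bdry T)] (hv : IsVisual T) :
    ∃ ε K : ℝ, 0 < ε ∧ 1 ≤ K ∧ ∀ x y : {x : ℕ → Γ // ConvInf T x},
      G04_mk x ≠ G04_mk y → ∃ N, ∀ i ≥ N, ∀ j ≥ N,
        dist (G04_mk x) (G04_mk y) ≤ K * Real.exp (-ε * gp T (x.1 i) (y.1 j)) ∧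
        Real.exp (-ε * gp T (x.1 i) (y.1 j)) ≤
          K * dist (G04_mk x) (G04_mk y) := by
  obtain ⟨ε, C₀, hε, hC₀, hd⟩ := hv
  obtain ⟨C₁, hC₁, hb⟩ := bprod_near hT
  refine ⟨ε, C₀ * Real.exp (ε * C₁), hε, ?_, fun x y hxy => ?_⟩
  · have : 1 ≤ Real.exp (ε * C₁) := Real.one_le_exp (by positivity)
    nlinarith
  have hne : ¬ EqInf T x y := fun h => hxy ((mk_eq hT x y).mpr h)
  obtain ⟨N, hN⟩ := (G03_ev (fun i j => |gp T (x.1 i) (y.1 j) -
    (bprod T (G04_mk x) (G04_mk y)).toReal| ≤ C₁)).mp (hb x y hne)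
  refine ⟨N, fun i hi j hj => ?_⟩
  have h1 := abs_le.mp (hN i hi j hj)
  obtain ⟨d1, d2⟩ := hd _ _ hxy
  set b : ℝ := (bprod T (G04_mk x) (G04_mk y)).toReal with hbdef
  have hC₀p : 0 < C₀ := by linarith
  constructor
  · refine d2.trans ?_
    rw [mul_assoc, ← Real.exp_add]
    refine mul_le_mul_of_nonneg_left (Real.exp_le_exp.mpr ?_) hC₀p.le
    nlinarith [h1.1, h1.2]
  · have e1 : Real.exp (-ε * b) ≤ C₀ * dist (G04_mk x) (G04_mk y) := by
      have := mul_le_mul_of_nonneg_left d1 hC₀p.le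
      rwa [← mul_assoc, mul_inv_cancel₀ hC₀p.ne', one_mul] at this
    calc Real.exp (-ε * gp T (x.1 i) (y.1 j)) ≤ Real.exp (ε * C₁) * Real.exp (-ε * b) := by
          rw [← Real.exp_add]
          refine Real.exp_le_exp.mpr ?_
          nlinarith [h1.1, h1.2]
      _ ≤ Real.exp (ε * C₁) * (C₀ * dist (G04_mk x) (G04_mk y)) :=
          mul_le_mul_of_nonneg_left e1 (Real.exp_pos _).le
      _ = C₀ * Real.exp (ε * C₁) * dist (G04_mk x) (G04_mk y) := by ring

theorem G04_inj (hg : Subgroup.closure T = ⊤) (g : Γ) : Function.Injective (act hg g) := by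
  intro ξ η h
  have h' := congrArg (act hg g⁻¹) h
  rwa [← act_mul, ← act_mul, inv_mul_cancel, act_one, act_one] at h'

theorem G04_act_mk (hg : Subgroup.closure T = ⊤) (g : Γ) (x : {x : ℕ → Γ // ConvInf T x}) :
    act hg g (G04_mk x) = G04_mk ⟨fun n => g * x.1 n, convInf_mul hg g x.2⟩ := rfl

/-- `Γ` acts on its boundary by uniformly quasi-Möbius maps. -/
theorem act_qm (hT : IsHypGroup T) [MetricSpace (Bdry T)] (hv : IsVisual T) :
    ∃ θ : ℝ → ℝ, Gauge θ ∧ ∀ g : Γ, QM θ (act hT.gen g) := by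
  obtain ⟨ε, K, hε, hK, hnear⟩ := G04_near hT hv
  have hK0 : 0 < K := by linarith
  refine ⟨fun t => K ^ 8 * max t 0, ⟨?_, ?_, ?_⟩, fun g => ⟨G04_inj hT.gen g, ?_⟩⟩
  · intro s t hst
    have : max s 0 ≤ max t 0 := max_le_max_right _ hst
    simp only
    gcongr
  · intro t
    positivity
  · have hc : Continuous (fun t : ℝ => K ^ 8 * max t 0) := by fun_prop
    have := (hc.tendsto 0).mono_left (nhdsWithin_le_nhds (s := Ioi (0 : ℝ)))
    simpa using this
  · intro a b c d hac hbd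
    have hθ0 : 0 ≤ K ^ 8 * max (cr a b c d) 0 := by positivity
    by_cases hab : a = b
    · subst hab
      simp [cr]
    by_cases hcd : c = d
    · subst hcd
      simp [cr]
    have hinj := G04_inj hT.gen g
    induction a using Quot.ind with | mk a => ?_
    induction b using Quot.ind with | mk b => ?_
    induction c using Quot.ind with | mk c => ?_
    induction d using Quot.ind with | mk d => ?_
    obtain ⟨N1, h1⟩ := hnear a b hab
    obtain ⟨N2, h2⟩ := hnear c d hcd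
    obtain ⟨N3, h3⟩ := hnear a c hac
    obtain ⟨N4, h4⟩ := hnear b d hbd
    obtain ⟨N5, h5⟩ := hnear ⟨fun n => g * a.1 n, convInf_mul hT.gen g a.2⟩
      ⟨fun n => g * b.1 n, convInf_mul hT.gen g b.2⟩ (fun h => hab (hinj h))
    obtain ⟨N6, h6⟩ := hnear ⟨fun n => g * c.1 n, convInf_mul hT.gen g c.2⟩
      ⟨fun n => g * d.1 n, convInf_mul hT.gen g d.2⟩ (fun h => hcd (hinj h))
    obtain ⟨N7, h7⟩ := hnear ⟨fun n => g * a.1 n, convInf_mul hT.gen g a.2⟩
      ⟨fun n => g * c.1 n, convInf_mul hT.gen g c.2⟩ (fun h => hac (hinj h))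
    obtain ⟨N8, h8⟩ := hnear ⟨fun n => g * b.1 n, convInf_mul hT.gen g b.2⟩
      ⟨fun n => g * d.1 n, convInf_mul hT.gen g d.2⟩ (fun h => hbd (hinj h))
    set n := N1 + N2 + N3 + N4 + N5 + N6 + N7 + N8 with hn
    obtain ⟨-, p1⟩ := h1 n (by omega) n (by omega)
    obtain ⟨-, p2⟩ := h2 n (by omega) n (by omega)
    obtain ⟨p3, -⟩ := h3 n (by omega) n (by omega)
    obtain ⟨p4, -⟩ := h4 n (by omega) n (by omega)
    obtain ⟨p5, -⟩ := h5 n (by omega) n (by omega)
    obtain ⟨p6, -⟩ := h6 n (by omega) n (by omega)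
    obtain ⟨-, p7⟩ := h7 n (by omega) n (by omega)
    obtain ⟨-, p8⟩ := h8 n (by omega) n (by omega)
    have hcross := cross_diff (T := T) g (a.1 n) (b.1 n) (c.1 n) (d.1 n)
    simp only at p1 p2 p3 p4 p5 p6 p7 p8
    rw [← G04_act_mk hT.gen, ← G04_act_mk hT.gen] at p5 p6 p7 p8
    change cr (act hT.gen g (G04_mk a)) (act hT.gen g (G04_mk b)) (act hT.gen g (G04_mk c))
      (act hT.gen g (G04_mk d)) ≤ K ^ 8 * max (cr (G04_mk a) (G04_mk b) (G04_mk c) (G04_mk d)) 0
    have hac' : G04_mk a ≠ G04_mk c := hac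
    have hbd' : G04_mk b ≠ G04_mk d := hbd
    set fa := act hT.gen g (G04_mk a)
    set fb := act hT.gen g (G04_mk b)
    set fc := act hT.gen g (G04_mk c)
    set fd := act hT.gen g (G04_mk d)
    set a' : Bdry T := G04_mk a
    set b' : Bdry T := G04_mk b
    set c' : Bdry T := G04_mk c
    set d' : Bdry T := G04_mk d
    have hfac : 0 < dist fa fc := dist_pos.mpr (fun h => hac' (hinj h))
    have hfbd : 0 < dist fb fd := dist_pos.mpr (fun h => hbd' (hinj h))
    have hac0 : 0 < dist a' c' := dist_pos.mpr hac'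
    have hbd0 : 0 < dist b' d' := dist_pos.mpr hbd'
    have hexp : (Real.exp (-ε * gp T (g * a.1 n) (g * b.1 n)) *
          Real.exp (-ε * gp T (g * c.1 n) (g * d.1 n))) *
        (Real.exp (-ε * gp T (a.1 n) (c.1 n)) * Real.exp (-ε * gp T (b.1 n) (d.1 n))) =
        (Real.exp (-ε * gp T (a.1 n) (b.1 n)) * Real.exp (-ε * gp T (c.1 n) (d.1 n))) *
        (Real.exp (-ε * gp T (g * a.1 n) (g * c.1 n)) *
          Real.exp (-ε * gp T (g * b.1 n) (g * d.1 n))) := by
      simp only [← Real.exp_add]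
      congr 1
      linear_combination (-ε) * hcross
    refine le_trans ?_ (mul_le_mul_of_nonneg_left (le_max_left _ _) (by positivity))
    unfold cr
    rw [← mul_div_assoc, div_le_div_iff₀ (by positivity) (by positivity)]
    set E1 := Real.exp (-ε * gp T (a.1 n) (b.1 n))
    set E2 := Real.exp (-ε * gp T (c.1 n) (d.1 n))
    set E3 := Real.exp (-ε * gp T (a.1 n) (c.1 n))
    set E4 := Real.exp (-ε * gp T (b.1 n) (d.1 n))
    set E5 := Real.exp (-ε * gp T (g * a.1 n) (g * b.1 n))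
    set E6 := Real.exp (-ε * gp T (g * c.1 n) (g * d.1 n))
    set E7 := Real.exp (-ε * gp T (g * a.1 n) (g * c.1 n))
    set E8 := Real.exp (-ε * gp T (g * b.1 n) (g * d.1 n))
    have q1 : 0 ≤ E1 := (Real.exp_pos _).le
    have q2 : 0 ≤ E2 := (Real.exp_pos _).le
    have q3 : 0 ≤ E3 := (Real.exp_pos _).le
    have q4 : 0 ≤ E4 := (Real.exp_pos _).le
    have q5 : 0 ≤ E5 := (Real.exp_pos _).le
    have q6 : 0 ≤ E6 := (Real.exp_pos _).le
    have q7 : 0 ≤ E7 := (Real.exp_pos _).le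
    have q8 : 0 ≤ E8 := (Real.exp_pos _).le
    calc dist fa fb * dist fc fd * (dist a' c' * dist b' d')
        ≤ (K * E5) * (K * E6) * ((K * E3) * (K * E4)) := by gcongr
      _ = K ^ 4 * ((E5 * E6) * (E3 * E4)) := by ring
      _ = K ^ 4 * ((E1 * E2) * (E7 * E8)) := by rw [hexp]
      _ ≤ K ^ 4 * (((K * dist a' b') * (K * dist c' d')) *
            ((K * dist fa fc) * (K * dist fb fd))) := by gcongr
      _ = K ^ 8 * (dist a' b' * dist c' d') * (dist fa fc * dist fb fd) := by ring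

theorem act_cont (hT : IsHypGroup T) [MetricSpace (Bdry T)] (hv : IsVisual T) (g : Γ) :
    Continuous (act hT.gen g) := by
  obtain ⟨ε, K, hε, hK, hnear⟩ := G04_near hT hv
  have hK0 : 0 < K := by linarith
  have hinj := G04_inj hT.gen g
  set L : ℝ := K ^ 2 * Real.exp (ε * wlen T g) with hL
  have hL0 : 0 ≤ L := by positivity
  refine (LipschitzWith.of_dist_le_mul (K := L.toNNReal) (fun ξ η => ?_)).continuous
  rw [Real.coe_toNNReal _ hL0]
  by_cases hne : ξ = η
  · subst hne; simp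
  induction ξ using Quot.ind with | mk x => ?_
  induction η using Quot.ind with | mk y => ?_
  obtain ⟨N1, h1⟩ := hnear x y hne
  obtain ⟨N2, h2⟩ := hnear ⟨fun n => g * x.1 n, convInf_mul hT.gen g x.2⟩
      ⟨fun n => g * y.1 n, convInf_mul hT.gen g y.2⟩ (fun h => hne (hinj h))
  obtain ⟨-, p1⟩ := h1 (N1 + N2) (by omega) (N1 + N2) (by omega)
  obtain ⟨p2, -⟩ := h2 (N1 + N2) (by omega) (N1 + N2) (by omega)
  rw [← G04_act_mk hT.gen, ← G04_act_mk hT.gen] at p2
  change dist (act hT.gen g (G04_mk x)) (act hT.gen g (G04_mk y)) ≤ L * dist (G04_mk x) (G04_mk y)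
  have h3 := abs_le.mp (gp_mul_le hT.gen g (x.1 (N1 + N2)) (y.1 (N1 + N2)))
  refine p2.trans ?_
  calc K * Real.exp (-ε * gp T (g * x.1 (N1 + N2)) (g * y.1 (N1 + N2)))
      ≤ K * (Real.exp (ε * wlen T g) * Real.exp (-ε * gp T (x.1 (N1 + N2)) (y.1 (N1 + N2)))) := by
        rw [← Real.exp_add]
        refine mul_le_mul_of_nonneg_left (Real.exp_le_exp.mpr ?_) hK0.le
        nlinarith [h3.1, h3.2]
    _ ≤ K * (Real.exp (ε * wlen T g) * (K * dist (G04_mk x) (G04_mk y))) := by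
        gcongr
    _ = L * dist (G04_mk x) (G04_mk y) := by rw [hL]; ring

end QSCoh
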