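import Mathlib
import Pool.Agent.Lib.MP_cccab4_an.Defs
import Pool.Agent.Lib.MP_cccab4_an.Pub
import Pool.Agent.Lib.MP_cccab4_an.G01
import Pool.Agent.Lib.MP_cccab4_an.G02
import Pool.Agent.Lib.MP_cccab4_an.G03
import Pool.Agent.Lib.MP_cccab4_an.G04

/-!
# MP_cccab4_an, module G05

Sequential compactness (`isCompact_iff_isSeqCompact`/`UniformSpace.…`).  Let `ξ_n ∈ ∂Γ`,
representatives `x^n`.  Choose `a_n = x^n_i` (large `i`) with `gp a_n (x^n_j) ≥ n` for all large `j`; so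
`|a_n| ≥ n` (`gp_le_left`).  For `R ≤ |a|` let `p_R(a)` be a point with `|p_R(a)| = R`,
`|p_R(a)⁻¹ a| = |a| - R` (`wlen_geod`); if `p_R(a) = p_R(b)` then `gp a b ≥ R`.  The sphere of radius `R`
is finite (`wlen_finite`), so by a diagonal argument there is a subsequence `φ` such that for every `R`,
`p_R(a_{φ n})` is constant for `n ≥ R` (alternatively: Tychonoff/`Pi` compactness of
`∏_R (ball of radius R)`, a compact metrizable space, applied to `n ↦ (R ↦ p_R(a_n))`).  So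
`gp a_{φ n} a_{φ m} ≥ R` for `n, m` large: `(a_{φ n})` converges to infinity; let `ξ` be its class.
For `n` large, `gp (x^{φ n}_j) (a_{φ m}) ≥ min (gp x^{φn}_j a_{φn}) (gp a_{φn} a_{φm}) - δ → ∞`, so
(if `ξ_{φn} ≠ ξ`) `(ξ_{φ n}|ξ)` is large by `bprod_near` and `d(ξ_{φ n},ξ) → 0` by `IsVisual`.
-/

open MeasureTheory Metric Set Filter Topology
open scoped ENNReal NNReal

namespace QSCoh

variable {Γ : Type*} [Group Γ] {T : Set Γ}

theorem G05_proj (hg : Subgroup.closure T = ⊤) : ∃ p : ℕ → Γ → Γ,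
    (∀ R a, wlen T (p R a) ≤ R) ∧
    ∀ R a, R ≤ wlen T a → wlen T ((p R a)⁻¹ * a) = wlen T a - R := by
  have h : ∀ (R : ℕ) (a : Γ), ∃ b : Γ, wlen T b ≤ R ∧
      (R ≤ wlen T a → wlen T (b⁻¹ * a) = wlen T a - R) := by
    intro R a
    by_cases hR : R ≤ wlen T a
    · obtain ⟨b, h1, h2⟩ := wlen_geod hg a hR
      exact ⟨b, h1.le, fun _ => h2⟩
    · exact ⟨1, by rw [wlen_one]; omega, fun h => absurd h hR⟩
  choose p h1 h2 using h
  exact ⟨p, h1, h2⟩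

theorem G05_gp (hg : Subgroup.closure T = ⊤) {R : ℕ} {a b p : Γ} (ha : R ≤ wlen T a)
    (hb : R ≤ wlen T b) (h1 : wlen T (p⁻¹ * a) = wlen T a - R)
    (h2 : wlen T (p⁻¹ * b) = wlen T b - R) : (R : ℝ) ≤ gp T a b := by
  have e1 : wlen T (a⁻¹ * b) ≤ wlen T (p⁻¹ * a) + wlen T (p⁻¹ * b) := by
    have := wlen_mul hg (p⁻¹ * a)⁻¹ (p⁻¹ * b)
    rw [wlen_inv] at this
    have e : (p⁻¹ * a)⁻¹ * (p⁻¹ * b) = a⁻¹ * b := by group
    rwa [e] at this
  rw [h1, h2] at e1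
  have e2 : wlen T (a⁻¹ * b) + 2 * R ≤ wlen T a + wlen T b := by omega
  have e3 : (wlen T (a⁻¹ * b) : ℝ) + 2 * R ≤ wlen T a + wlen T b := by exact_mod_cast e2
  unfold gp
  linarith

/-- The diagonal argument. -/
theorem G05_diag (hT : IsHypGroup T) (a : ℕ → Γ) (ha : ∀ n, n ≤ wlen T (a n)) :
    ∃ φ : ℕ → ℕ, StrictMono φ ∧ ∀ R : ℕ, ∃ M, ∀ i ≥ M, ∀ j ≥ M,
      (R : ℝ) ≤ gp T (a (φ i)) (a (φ j)) := by
  obtain ⟨p, hp1, hp2⟩ := G05_proj hT.gen
  let F : ℕ → Type _ := fun R => {g : Γ // wlen T g ≤ R}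
  have : ∀ R, Finite (F R) := fun R => wlen_finite hT.fin hT.gen R
  let _ : ∀ R, TopologicalSpace (F R) := fun _ => ⊥
  have : ∀ R, DiscreteTopology (F R) := fun _ => ⟨rfl⟩
  have : ∀ R, CompactSpace (F R) := fun R => Finite.compactSpace
  let s : ℕ → (∀ R, F R) := fun n R => ⟨p R (a n), hp1 R (a n)⟩
  obtain ⟨σ, φ, hφ, hlim⟩ := CompactSpace.tendsto_subseq s
  refine ⟨φ, hφ, fun R => ?_⟩
  have h1 := tendsto_pi_nhds.mp hlim R
  rw [nhds_discrete, tendsto_pure, eventually_atTop] at h1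
  obtain ⟨M, hM⟩ := h1
  refine ⟨max M R, fun i hi j hj => ?_⟩
  have hi1 := hM i ((le_max_left _ _).trans hi)
  have hj1 := hM j ((le_max_left _ _).trans hj)
  have hi2 : R ≤ wlen T (a (φ i)) :=
    ((le_max_right M R).trans hi).trans ((hφ.id_le i).trans (ha _))
  have hj2 : R ≤ wlen T (a (φ j)) :=
    ((le_max_right M R).trans hj).trans ((hφ.id_le j).trans (ha _))
  have e1 : p R (a (φ i)) = (σ R).1 := congrArg Subtype.val hi1
  have e2 : p R (a (φ j)) = (σ R).1 := congrArg Subtype.val hj1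
  have g1 := hp2 R _ hi2
  have g2 := hp2 R _ hj2
  rw [e1] at g1
  rw [e2] at g2
  exact G05_gp hT.gen hi2 hj2 g1 g2

theorem bdry_compact (hT : IsHypGroup T) [MetricSpace (Bdry T)] (hv : IsVisual T) :
    CompactSpace (Bdry T) := by
  rw [compactSpace_iff_seqCompactSpace]
  refine ⟨fun ξ _ => ?_⟩
  obtain ⟨δ, hδ0, hδ⟩ := G03_hyp hT
  obtain ⟨ε, K, hε, hK, hnear⟩ := G04_near hT hv
  -- representatives
  have hrep : ∀ n, ∃ x : {x : ℕ → Γ // ConvInf T x}, G04_mk x = ξ n := fun n => Quot.exists_rep _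
  choose X hX using hrep
  have hN : ∀ n : ℕ, ∃ N, ∀ i ≥ N, ∀ j ≥ N, (n : ℝ) ≤ gp T ((X n).1 i) ((X n).1 j) := fun n =>
    (G03_tend (x := X n) (y := X n)).mp (X n).2 n
  choose N hN using hN
  set a : ℕ → Γ := fun n => (X n).1 (N n) with ha
  have hlen : ∀ n, n ≤ wlen T (a n) := by
    intro n
    have h1 := hN n (N n) le_rfl (N n) le_rfl
    have h2 := gp_le_left hT.gen (a n) (a n)
    exact_mod_cast h1.trans h2
  obtain ⟨φ, hφ, hM⟩ := G05_diag hT a hlen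
  have hconv : ConvInf T (a ∘ φ) := by
    unfold ConvInf
    rw [Filter.tendsto_atTop]
    intro B
    obtain ⟨R, hR⟩ := exists_nat_ge B
    obtain ⟨M, hM'⟩ := hM R
    exact (G03_ev (fun i j => B ≤ gp T ((a ∘ φ) i) ((a ∘ φ) j))).mpr
      ⟨M, fun i hi j hj => hR.trans (hM' i hi j hj)⟩
  refine ⟨G04_mk ⟨a ∘ φ, hconv⟩, mem_univ _, φ, hφ, ?_⟩
  rw [Metric.tendsto_atTop]
  intro e he
  have hlim : Tendsto (fun R : ℕ => K * Real.exp (-(ε * ((R : ℝ) - δ)))) atTop (𝓝 (K * 0)) := by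
    refine Tendsto.const_mul _ ?_
    refine Real.tendsto_exp_neg_atTop_nhds_zero.comp ?_
    refine Tendsto.const_mul_atTop hε ?_
    exact tendsto_atTop_add_const_right _ _ tendsto_natCast_atTop_atTop
  rw [mul_zero] at hlim
  obtain ⟨R, hR⟩ := (hlim.eventually_lt_const he).exists
  obtain ⟨M, hM'⟩ := hM R
  refine ⟨max M R, fun n hn => ?_⟩
  have hn1 : M ≤ n := (le_max_left _ _).trans hn
  have hn2 : R ≤ n := (le_max_right _ _).trans hn
  by_cases hne : G04_mk (X (φ n)) = G04_mk ⟨a ∘ φ, hconv⟩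
  · rw [Function.comp_apply, ← hX, hne, dist_self]; exact he
  rw [Function.comp_apply, ← hX]
  obtain ⟨N', hN'⟩ := hnear _ _ hne
  set i := max N' (N (φ n)) with hi
  set j := max N' M with hj
  obtain ⟨d1, -⟩ := hN' i (le_max_left _ _) j (le_max_left _ _)
  refine lt_of_le_of_lt d1 (lt_of_le_of_lt ?_ hR)
  refine mul_le_mul_of_nonneg_left (Real.exp_le_exp.mpr ?_) (by linarith)
  have g1 : (R : ℝ) ≤ gp T ((X (φ n)).1 i) (a (φ n)) := by
    rw [gp_comm]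
    refine le_trans ?_ (hN (φ n) (N (φ n)) le_rfl i (le_max_right _ _))
    exact_mod_cast hn2.trans (hφ.id_le n)
  have g2 : (R : ℝ) ≤ gp T (a (φ n)) (a (φ j)) := hM' n hn1 j (le_max_right _ _)
  have g3 := hδ ((X (φ n)).1 i) (a (φ n)) (a (φ j))
  have g4 := le_min g1 g2
  have g5 : (R : ℝ) - δ ≤ gp T ((X (φ n)).1 i) ((a ∘ φ) j) := by
    rw [Function.comp_apply]; linarith
  nlinarith

end QSCoh
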