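import Mathlib
import Pool.Agent.Lib.MP_cccab4_an.Defs
import Pool.Agent.Lib.MP_cccab4_an.Pub
import Pool.Agent.Lib.MP_cccab4_an.G01
import Pool.Agent.Lib.MP_cccab4_an.G02
import Pool.Agent.Lib.MP_cccab4_an.G03

/-!
# MP_cccab4_an, module G06

Write `d(x,y) = |x⁻¹y|`, `(x|y)_c = (d(c,x)+d(c,y)-d(x,y))/2 = gp (c⁻¹x) (c⁻¹y)`; `δ`-hyperbolicity at
`1` gives it at all base points (left translation), i.e. the four point condition
`d(x,y)+d(z,c) ≤ max (d(x,z)+d(y,c)) (d(y,z)+d(x,c)) + 2δ`.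
(1) For `x,y,z ∈ Γ` there is `c` with `(x|y)_c, (x|z)_c, (y|z)_c ≤ C_δ = δ + 2`: let
`k = ⌊(d(x,y)+d(x,z)-d(y,z))/2⌋₊ ≤ d(x,y)` and `c` on a geodesic from `x` to `y` at distance `k` from `x`
(`wlen_geod` for `x⁻¹y`), so `(x|y)_c = 0`; with `a = (y|z)_x`, `b = (x|z)_y`, `c' = (x|y)_z`:
`d(x,c) ≤ a`, `d(y,c) ≤ b+1`, `d(x,y) = a+b`, etc.; the four point condition gives
`d(z,c) ≤ c' + 1 + 2δ`, so `(x|z)_c = (d(c,x)+d(c,z)-d(x,z))/2 ≤ δ + 1` and `(y|z)_c ≤ δ + 1`.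
(2) Let `x,y,z` represent `ξ,η,ζ`; for large `i`, `gp x_i y_i, gp x_i z_i, gp y_i z_i ≤ B` (by
`bprod_near`).  Let `c_i` be as in (1) for `x_i,y_i,z_i`.  Then `|c_i| ≤ C_δ + 2δ + 2B`: by the four point
condition `|c| + d(x,y) ≤ max (|x| + d(c,y)) (|y| + d(c,x)) + 2δ` and `d(x,y) ≥ |x|+|y|-2B`, so
`max (d(c,y)-|y|) (d(c,x)-|x|) ≥ t := |c| - 2δ - 2B`; likewise for the other two pairs; so for at least two
of the three points, say `x,y`, `d(c,x)-|x| ≥ t`, `d(c,y)-|y| ≥ t`, and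
`C_δ ≥ (x|y)_c ≥ t + (|x|+|y|-d(x,y))/2 ≥ t`.
(3) The ball is finite (`wlen_finite`), so some `c` occurs for infinitely many `i`; `g = c⁻¹`.
`gp (g x_i) (g y_i) ≤ C_δ` for infinitely many `i`, so `(gξ|gη) ≤ C_δ + C₁` (`bprod_near` on the
diagonal; `gξ ≠ gη`), and `d(gξ,gη) ≥ C₀⁻¹ exp(-ε(C_δ+C₁)) =: κ`.
-/

set_option linter.unusedSectionVars false

open MeasureTheory Metric Set Filter Topology
open scoped ENNReal NNReal

namespace QSCoh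

variable {Γ : Type*} [Group Γ] {T : Set Γ}

/-- The word metric. -/
noncomputable def G06_d (T : Set Γ) (x y : Γ) : ℝ := wlen T (x⁻¹ * y)

theorem G06_comm (x y : Γ) : G06_d T x y = G06_d T y x := by
  unfold G06_d
  rw [← wlen_inv]
  congr 2
  group

theorem G06_tri (hg : Subgroup.closure T = ⊤) (x y z : Γ) :
    G06_d T x z ≤ G06_d T x y + G06_d T y z := by
  unfold G06_d
  have h := wlen_mul hg (x⁻¹ * y) (y⁻¹ * z)
  have e : x⁻¹ * y * (y⁻¹ * z) = x⁻¹ * z := by group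
  rw [e] at h
  exact_mod_cast h

theorem G06_gp (c x y : Γ) :
    gp T (c⁻¹ * x) (c⁻¹ * y) = (G06_d T c x + G06_d T c y - G06_d T x y) / 2 := by
  unfold gp G06_d
  have e : (c⁻¹ * x)⁻¹ * (c⁻¹ * y) = x⁻¹ * y := by group
  rw [e]

/-- The four point condition. -/
theorem G06_four {δ : ℝ} (hyp : ∀ x y z : Γ, min (gp T x y) (gp T y z) - δ ≤ gp T x z)
    (x y z c : Γ) : G06_d T x z + G06_d T c y ≤
      max (G06_d T x y + G06_d T c z) (G06_d T y z + G06_d T c x) + 2 * δ := by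
  have h := hyp (c⁻¹ * x) (c⁻¹ * y) (c⁻¹ * z)
  rw [G06_gp, G06_gp, G06_gp] at h
  rcases min_cases ((G06_d T c x + G06_d T c y - G06_d T x y) / 2)
    ((G06_d T c y + G06_d T c z - G06_d T y z) / 2) with ⟨h1, h2⟩ | ⟨h1, h2⟩
  · rw [h1] at h
    have := le_max_left (G06_d T x y + G06_d T c z) (G06_d T y z + G06_d T c x)
    linarith
  · rw [h1] at h
    have := le_max_right (G06_d T x y + G06_d T c z) (G06_d T y z + G06_d T c x)
    linarith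

/-- Centres of triangles. -/
theorem G06_centre (hg : Subgroup.closure T = ⊤) {δ : ℝ} (hδ : 0 ≤ δ)
    (hyp : ∀ x y z : Γ, min (gp T x y) (gp T y z) - δ ≤ gp T x z) (x y z : Γ) :
    ∃ c : Γ, gp T (c⁻¹ * x) (c⁻¹ * y) ≤ δ + 1 ∧ gp T (c⁻¹ * x) (c⁻¹ * z) ≤ δ + 1 ∧
      gp T (c⁻¹ * y) (c⁻¹ * z) ≤ δ + 1 := by
  obtain ⟨a, ha⟩ : ∃ a, a = (G06_d T x y + G06_d T x z - G06_d T y z) / 2 := ⟨_, rfl⟩
  have t1 := G06_tri hg x y z
  have t2 := G06_tri hg y x z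
  rw [G06_comm y x] at t2
  have t3 := G06_tri hg x z y
  rw [G06_comm z y] at t3
  have ha0 : 0 ≤ a := by linarith
  have ha1 : a ≤ G06_d T x y := by linarith
  have hk : ⌊a⌋₊ ≤ wlen T (x⁻¹ * y) := by
    have e1 : a ≤ ((wlen T (x⁻¹ * y) : ℕ) : ℝ) := ha1
    exact Nat.floor_le_of_le e1
  obtain ⟨h, h1, h2⟩ := wlen_geod hg (x⁻¹ * y) hk
  have hka := Nat.floor_le ha0
  have hka' := Nat.lt_floor_add_one a
  obtain ⟨c, hc⟩ : ∃ c, c = x * h := ⟨_, rfl⟩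
  have hxc : G06_d T c x = ⌊a⌋₊ := by
    rw [G06_comm]
    unfold G06_d
    rw [hc]
    have e : x⁻¹ * (x * h) = h := by group
    rw [e, h1]
  have hcy : G06_d T c y = G06_d T x y - ⌊a⌋₊ := by
    unfold G06_d
    rw [hc]
    have e : (x * h)⁻¹ * y = h⁻¹ * (x⁻¹ * y) := by group
    rw [e, h2, Nat.cast_sub hk]
  have h4 := G06_four hyp x z y c
  rw [G06_comm z y] at h4
  have hcz : G06_d T c z ≤ (G06_d T x z + G06_d T y z - G06_d T x y) / 2 + 1 + 2 * δ := by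
    rcases max_cases (G06_d T x z + G06_d T c y) (G06_d T y z + G06_d T c x) with
      ⟨h5, h6⟩ | ⟨h5, h6⟩
    · rw [h5] at h4
      linarith
    · rw [h5] at h4
      linarith
  refine ⟨c, ?_, ?_, ?_⟩
  · rw [G06_gp]
    linarith
  · rw [G06_gp]
    linarith
  · rw [G06_gp]
    linarith

theorem G06_len {δ : ℝ}
    (hyp : ∀ x y z : Γ, min (gp T x y) (gp T y z) - δ ≤ gp T x z) {x y c : Γ} {B : ℝ}
    (hB : gp T x y ≤ B) : (wlen T c : ℝ) - 2 * δ - 2 * B ≤ G06_d T c x - wlen T x ∨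
      (wlen T c : ℝ) - 2 * δ - 2 * B ≤ G06_d T c y - wlen T y := by
  have h := G06_four hyp x 1 y c
  have e0 : ∀ u : Γ, G06_d T 1 u = wlen T u := by
    intro u
    unfold G06_d
    rw [inv_one, one_mul]
  have e1 : ∀ u : Γ, G06_d T u 1 = wlen T u := by
    intro u
    rw [G06_comm, e0]
  rw [e1, e1, e0] at h
  have h2 : G06_d T x y = wlen T x + wlen T y - 2 * gp T x y := by
    unfold gp G06_d
    ring
  rcases max_cases ((wlen T x : ℝ) + G06_d T c y) ((wlen T y : ℝ) + G06_d T c x) with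
    ⟨h5, h6⟩ | ⟨h5, h6⟩
  · right
    rw [h5] at h
    linarith
  · left
    rw [h5] at h
    linarith

theorem G06_two (hg : Subgroup.closure T = ⊤) {x y c : Γ} {t C : ℝ}
    (hx : t ≤ G06_d T c x - wlen T x) (hy : t ≤ G06_d T c y - wlen T y)
    (hC : gp T (c⁻¹ * x) (c⁻¹ * y) ≤ C) : t ≤ C := by
  rw [G06_gp] at hC
  have h1 := gp_nonneg hg x y
  have h2 : G06_d T x y = wlen T x + wlen T y - 2 * gp T x y := by
    unfold gp G06_d
    ring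
  linarith

/-- The centre is not far away. -/
theorem G06_bound (hg : Subgroup.closure T = ⊤) {δ : ℝ}
    (hyp : ∀ x y z : Γ, min (gp T x y) (gp T y z) - δ ≤ gp T x z) {x y z c : Γ} {B C : ℝ}
    (hxy : gp T x y ≤ B) (hxz : gp T x z ≤ B) (hyz : gp T y z ≤ B)
    (cxy : gp T (c⁻¹ * x) (c⁻¹ * y) ≤ C) (cxz : gp T (c⁻¹ * x) (c⁻¹ * z) ≤ C)
    (cyz : gp T (c⁻¹ * y) (c⁻¹ * z) ≤ C) : (wlen T c : ℝ) ≤ C + 2 * δ + 2 * B := by
  have key : (wlen T c : ℝ) - 2 * δ - 2 * B ≤ C := by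
    rcases G06_len hyp (c := c) hxy with h1 | h1
    · rcases G06_len hyp (c := c) hyz with h2 | h2
      · exact G06_two hg h1 h2 cxy
      · exact G06_two hg h1 h2 cxz
    · rcases G06_len hyp (c := c) hxz with h2 | h2
      · exact G06_two hg h2 h1 cxy
      · exact G06_two hg h1 h2 cyz
  linarith

theorem G06_diag {p : ℕ × ℕ → Prop} (h : ∀ᶠ q : ℕ × ℕ in atTop, p q) :
    ∀ᶠ i : ℕ in atTop, p (i, i) := by
  have ht : Tendsto (fun i : ℕ => (i, i)) atTop atTop := by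
    rw [← prod_atTop_atTop_eq]
    exact tendsto_id.prodMk tendsto_id
  exact ht.eventually h

theorem G06_inj (hT : IsHypGroup T) (g : Γ) {ξ η : Bdry T} (h : ξ ≠ η) :
    act hT.gen g ξ ≠ act hT.gen g η := by
  intro h1
  apply h
  have h2 := congrArg (act hT.gen g⁻¹) h1
  rw [← act_mul, ← act_mul, inv_mul_cancel, act_one, act_one] at h2
  exact h2

/-- `Γ` acts cocompactly on triples of distinct points. -/
theorem act_co (hT : IsHypGroup T) [MetricSpace (Bdry T)] (hv : IsVisual T) :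
    ∃ κ : ℝ, 0 < κ ∧ ∀ ξ η ζ : Bdry T, ξ ≠ η → ξ ≠ ζ → η ≠ ζ → ∃ g : Γ,
      κ ≤ dist (act hT.gen g ξ) (act hT.gen g η) ∧ κ ≤ dist (act hT.gen g ξ) (act hT.gen g ζ) ∧
      κ ≤ dist (act hT.gen g η) (act hT.gen g ζ) := by
  obtain ⟨δ₀, hyp₀⟩ := hT.hyp
  obtain ⟨δ, hδd⟩ : ∃ δ, δ = max δ₀ 0 := ⟨_, rfl⟩
  have hδ : 0 ≤ δ := by rw [hδd]; exact le_max_right _ _
  have hyp : ∀ x y z : Γ, min (gp T x y) (gp T y z) - δ ≤ gp T x z := by
    intro x y z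
    have h1 := hyp₀ x y z
    have h2 : δ₀ ≤ δ := by rw [hδd]; exact le_max_left _ _
    linarith
  obtain ⟨C₁, hC₁, hnear⟩ := bprod_near hT
  obtain ⟨ε, C₀, hε, hC₀, hvis⟩ := hv
  have hC₀0 : 0 < C₀ := by linarith
  refine ⟨C₀⁻¹ * Real.exp (-ε * (δ + 1 + C₁)), by positivity, ?_⟩
  intro ξ η ζ hξη hξζ hηζ
  obtain ⟨x, rfl⟩ := Quot.exists_rep ξ
  obtain ⟨y, rfl⟩ := Quot.exists_rep η
  obtain ⟨z, rfl⟩ := Quot.exists_rep ζ
  have nxy : ¬ EqInf T x y := fun h => hξη ((mk_eq hT x y).2 h)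
  have nxz : ¬ EqInf T x z := fun h => hξζ ((mk_eq hT x z).2 h)
  have nyz : ¬ EqInf T y z := fun h => hηζ ((mk_eq hT y z).2 h)
  obtain ⟨B, hBd⟩ : ∃ B, B = max (max ((bprod T (Quot.mk _ x) (Quot.mk _ y)).toReal)
    ((bprod T (Quot.mk _ x) (Quot.mk _ z)).toReal))
    ((bprod T (Quot.mk _ y) (Quot.mk _ z)).toReal) + C₁ := ⟨_, rfl⟩
  have b1 : (bprod T (Quot.mk _ x) (Quot.mk _ y)).toReal + C₁ ≤ B := by
    rw [hBd]
    have := (le_max_left ((bprod T (Quot.mk _ x) (Quot.mk _ y)).toReal)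
      ((bprod T (Quot.mk _ x) (Quot.mk _ z)).toReal)).trans
      (le_max_left _ ((bprod T (Quot.mk _ y) (Quot.mk _ z)).toReal))
    linarith
  have b2 : (bprod T (Quot.mk _ x) (Quot.mk _ z)).toReal + C₁ ≤ B := by
    rw [hBd]
    have := (le_max_right ((bprod T (Quot.mk _ x) (Quot.mk _ y)).toReal)
      ((bprod T (Quot.mk _ x) (Quot.mk _ z)).toReal)).trans
      (le_max_left _ ((bprod T (Quot.mk _ y) (Quot.mk _ z)).toReal))
    linarith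
  have b3 : (bprod T (Quot.mk _ y) (Quot.mk _ z)).toReal + C₁ ≤ B := by
    rw [hBd]
    have := le_max_right (max ((bprod T (Quot.mk _ x) (Quot.mk _ y)).toReal)
      ((bprod T (Quot.mk _ x) (Quot.mk _ z)).toReal))
      ((bprod T (Quot.mk _ y) (Quot.mk _ z)).toReal)
    linarith
  obtain ⟨R, hR⟩ : ∃ R : ℕ, R = ⌊δ + 1 + 2 * δ + 2 * B⌋₊ := ⟨_, rfl⟩
  obtain ⟨good, hgood⟩ : ∃ good : Γ → ℕ → Prop, good = fun c i =>
    gp T (c⁻¹ * x.1 i) (c⁻¹ * y.1 i) ≤ δ + 1 ∧ gp T (c⁻¹ * x.1 i) (c⁻¹ * z.1 i) ≤ δ + 1 ∧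
      gp T (c⁻¹ * y.1 i) (c⁻¹ * z.1 i) ≤ δ + 1 := ⟨_, rfl⟩
  have hev : ∀ᶠ i : ℕ in atTop, ∃ c ∈ {g : Γ | wlen T g ≤ R}, good c i := by
    filter_upwards [G06_diag (hnear x y nxy), G06_diag (hnear x z nxz),
      G06_diag (hnear y z nyz)] with i h1 h2 h3
    obtain ⟨c, c1, c2, c3⟩ := G06_centre hT.gen hδ hyp (x.1 i) (y.1 i) (z.1 i)
    refine ⟨c, ?_, ?_⟩
    · have e1 := (abs_le.1 h1).2
      have e2 := (abs_le.1 h2).2
      have e3 := (abs_le.1 h3).2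
      have h4 := G06_bound hT.gen hyp (B := B) (by linarith) (by linarith) (by linarith) c1 c2 c3
      show wlen T c ≤ R
      rw [hR]
      exact Nat.le_floor h4
    · rw [hgood]
      exact ⟨c1, c2, c3⟩
  have hfr : ∃ c : Γ, ∃ᶠ i : ℕ in atTop, good c i := by
    by_contra hcon
    push Not at hcon
    have h1 : ∀ᶠ i : ℕ in atTop, ∀ c ∈ {g : Γ | wlen T g ≤ R}, ¬ good c i := by
      rw [Filter.eventually_all_finite (wlen_finite hT.fin hT.gen R)]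
      intro c _
      exact hcon c
    obtain ⟨i, ⟨c, hc, hci⟩, h2⟩ := (hev.and h1).exists
    exact h2 c hc hci
  obtain ⟨c, hc⟩ := hfr
  have key : ∀ u v : {x : ℕ → Γ // ConvInf T x}, (Quot.mk _ u : Bdry T) ≠ Quot.mk _ v →
      (∃ᶠ i : ℕ in atTop, gp T (c⁻¹ * u.1 i) (c⁻¹ * v.1 i) ≤ δ + 1) →
      C₀⁻¹ * Real.exp (-ε * (δ + 1 + C₁)) ≤
        dist (act hT.gen c⁻¹ (Quot.mk _ u)) (act hT.gen c⁻¹ (Quot.mk _ v)) := by
    intro u v huv hfr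
    have h1 := G06_inj hT c⁻¹ huv
    refine le_trans ?_ (hvis _ _ h1).1
    apply mul_le_mul_of_nonneg_left _ (by positivity)
    apply Real.exp_le_exp.2
    have h2 : ¬ EqInf T ⟨fun n => c⁻¹ * u.1 n, convInf_mul hT.gen c⁻¹ u.2⟩
        ⟨fun n => c⁻¹ * v.1 n, convInf_mul hT.gen c⁻¹ v.2⟩ := fun h => h1 ((mk_eq hT _ _).2 h)
    have h3 := G06_diag (hnear _ _ h2)
    obtain ⟨i, h4, h5⟩ := (hfr.and_eventually h3).exists
    have h6 := (abs_le.1 h5).1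
    have h7 : (bprod T (act hT.gen c⁻¹ (Quot.mk _ u)) (act hT.gen c⁻¹ (Quot.mk _ v))).toReal ≤
        δ + 1 + C₁ := by
      have h8 : (bprod T (Quot.mk _ (⟨fun n => c⁻¹ * u.1 n, convInf_mul hT.gen c⁻¹ u.2⟩ :
          {x : ℕ → Γ // ConvInf T x})) (Quot.mk _ ⟨fun n => c⁻¹ * v.1 n,
            convInf_mul hT.gen c⁻¹ v.2⟩)).toReal ≤ δ + 1 + C₁ := by
        simp only at h6
        linarith
      exact h8
    have h9 : 0 ≤ ε * (δ + 1 + C₁ -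
      (bprod T (act hT.gen c⁻¹ (Quot.mk _ u)) (act hT.gen c⁻¹ (Quot.mk _ v))).toReal) :=
      mul_nonneg hε.le (by linarith)
    linarith
  rw [hgood] at hc
  refine ⟨c⁻¹, key x y hξη (hc.mono fun i h => h.1), key x z hξζ (hc.mono fun i h => h.2.1),
    key y z hηζ (hc.mono fun i h => h.2.2)⟩

end QSCoh
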