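import Mathlib
import Pool.Agent.Lib.MP_cccab4_an.Defs
import Pool.Agent.Lib.MP_cccab4_an.Pub

/-!
# MP_cccab4_an, module P01

`m = φ t`.  Let `E = range α`, `F = range β` (`α β : C(unitInterval, Z)`), and for `s ∈ [0,1]` let
`E_s = α '' [0,s]`, `F_s = β '' [0,s]` (compact, connected).  The function
`h(s) = setDist E_s F_s - t * min (diam E_s) (diam F_s)` is continuous on `[0,1]` (uniform continuity of
`α, β`: `diam` and `setDist` change by at most `2 ω(|s-s'|)`), `h(0) = dist (α 0) (β 0) > 0` and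
`h(1) ≤ 0`.  So `h(s) = 0` for some `s`; `setDist E_s F_s > 0` (disjoint compact sets), so both
diameters are positive and `relDist E_s F_s = t`.  So `ofReal (φ t) ≤ Md μ Q E_s F_s ≤ Md μ Q E F`
(every `ρ` admissible for `(E,F)` is admissible for the subsets).
-/

open MeasureTheory Metric Set Filter Topology
open scoped ENNReal NNReal

namespace QSCoh

theorem P01_Md_mono {Z : Type*} [PseudoMetricSpace Z] [MeasurableSpace Z] {μ : Measure Z}
    {Q : ℝ} {E F E' F' : Set Z} (hE : E' ⊆ E) (hF : F' ⊆ F) : Md μ Q E' F' ≤ Md μ Q E F := by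
  unfold Md
  refine le_iInf₂ fun ρ hρ => iInf₂_le ρ ?_
  exact ⟨hρ.1, fun γ L hγ hL h0 h1 => hρ.2 γ L hγ hL (hE h0) (hF h1)⟩

/-- the initial part of the path, up to time `s` -/
def P01_part {Z : Type*} [TopologicalSpace Z] (α : C(unitInterval, Z)) (s : unitInterval) :
    Set Z := range fun u : unitInterval => α (s * u)

theorem P01_part_sub {Z : Type*} [TopologicalSpace Z] (α : C(unitInterval, Z))
    (s : unitInterval) : P01_part α s ⊆ range α := by
  rintro x ⟨u, rfl⟩
  exact ⟨_, rfl⟩

theorem P01_part_one {Z : Type*} [TopologicalSpace Z] (α : C(unitInterval, Z)) :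
    P01_part α 1 = range α := by
  unfold P01_part
  simp only [one_mul]

theorem P01_part_zero {Z : Type*} [TopologicalSpace Z] (α : C(unitInterval, Z)) :
    P01_part α 0 = {α 0} := by
  unfold P01_part
  simp only [zero_mul, range_const]

theorem P01_part_compact {Z : Type*} [TopologicalSpace Z] (α : C(unitInterval, Z))
    (s : unitInterval) : IsCompact (P01_part α s) :=
  isCompact_range (by fun_prop)

theorem P01_part_conn {Z : Type*} [TopologicalSpace Z] (α : C(unitInterval, Z))
    (s : unitInterval) : IsConnected (P01_part α s) :=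
  isConnected_range (by fun_prop)

theorem P01_setDist_eq {Z : Type*} [MetricSpace Z] (α β : C(unitInterval, Z))
    (s : unitInterval) : setDist (P01_part α s) (P01_part β s) =
      sInf ((fun p : unitInterval × unitInterval => dist (α (s * p.1)) (β (s * p.2))) '' univ) := by
  unfold setDist P01_part
  congr 1
  ext t
  constructor
  · rintro ⟨_, ⟨u, rfl⟩, _, ⟨v, rfl⟩, rfl⟩
    exact ⟨(u, v), mem_univ _, rfl⟩
  · rintro ⟨⟨u, v⟩, -, rfl⟩
    exact ⟨_, ⟨u, rfl⟩, _, ⟨v, rfl⟩, rfl⟩

theorem P01_diam_eq {Z : Type*} [MetricSpace Z] (α : C(unitInterval, Z))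
    (s : unitInterval) : diam (P01_part α s) =
      sSup ((fun p : unitInterval × unitInterval => dist (α (s * p.1)) (α (s * p.2))) '' univ) := by
  have hb := (P01_part_compact α s).isBounded
  have hbd : BddAbove ((fun p : unitInterval × unitInterval =>
      dist (α (s * p.1)) (α (s * p.2))) '' univ) := by
    refine ⟨diam (P01_part α s), ?_⟩
    rintro _ ⟨p, -, rfl⟩
    exact dist_le_diam_of_mem hb ⟨_, rfl⟩ ⟨_, rfl⟩
  apply le_antisymm
  · apply diam_le_of_forall_dist_le
    · have : (0 : ℝ) ≤ dist (α (s * 0)) (α (s * 0)) := dist_nonneg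
      exact this.trans (le_csSup hbd ⟨(0, 0), mem_univ _, rfl⟩)
    · rintro _ ⟨u, rfl⟩ _ ⟨v, rfl⟩
      exact le_csSup hbd ⟨(u, v), mem_univ _, rfl⟩
  · apply csSup_le
    · exact ⟨_, ⟨(0, 0), mem_univ _, rfl⟩⟩
    · rintro _ ⟨p, -, rfl⟩
      exact dist_le_diam_of_mem hb ⟨_, rfl⟩ ⟨_, rfl⟩

theorem P01_setDist_cont {Z : Type*} [MetricSpace Z] (α β : C(unitInterval, Z)) :
    Continuous fun s => setDist (P01_part α s) (P01_part β s) := by
  simp_rw [P01_setDist_eq]
  apply IsCompact.continuous_sInf isCompact_univ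
  fun_prop

theorem P01_diam_cont {Z : Type*} [MetricSpace Z] (α : C(unitInterval, Z)) :
    Continuous fun s => diam (P01_part α s) := by
  simp_rw [P01_diam_eq]
  apply IsCompact.continuous_sSup isCompact_univ
  fun_prop

theorem P01_setDist_mem {Z : Type*} [MetricSpace Z] (α β : C(unitInterval, Z))
    (s : unitInterval) : ∃ x ∈ P01_part α s, ∃ y ∈ P01_part β s,
      setDist (P01_part α s) (P01_part β s) = dist x y := by
  have hc : IsCompact ((fun p : unitInterval × unitInterval =>
      dist (α (s * p.1)) (β (s * p.2))) '' univ) :=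
    isCompact_univ.image (by fun_prop)
  have hm := hc.sInf_mem ⟨_, ⟨(0, 0), mem_univ _, rfl⟩⟩
  obtain ⟨p, -, hp⟩ := hm
  refine ⟨_, ⟨p.1, rfl⟩, _, ⟨p.2, rfl⟩, ?_⟩
  rw [P01_setDist_eq, ← hp]

theorem P01_setDist_le {Z : Type*} [MetricSpace Z] {E F : Set Z} {x y : Z} (hx : x ∈ E)
    (hy : y ∈ F) : setDist E F ≤ dist x y := by
  unfold setDist
  apply csInf_le
  · refine ⟨0, ?_⟩
    rintro _ ⟨a, -, b, -, rfl⟩
    exact dist_nonneg
  · exact ⟨x, hx, y, hy, rfl⟩

theorem P01_nontrivial {Z : Type*} [MetricSpace Z] {E : Set Z} (h : 0 < diam E) :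
    E.Nontrivial := by
  by_contra hcon
  rw [Set.not_nontrivial_iff] at hcon
  rw [diam_subsingleton hcon] at h
  exact lt_irrefl _ h

/-- The literal Loewner condition implies the monotone one for path images. -/
theorem loew_path {Z : Type*} [MetricSpace Z] [MeasurableSpace Z] {μ : Measure Z}
    {Q : ℝ} {φ : ℝ → ℝ} (hφ : ∀ t, 0 < t → 0 < φ t)
    (h : ∀ E F : Set Z, IsCompact E → IsCompact F → IsConnected E → IsConnected F → E.Nontrivial →
      F.Nontrivial → Disjoint E F → ENNReal.ofReal (φ (relDist E F)) ≤ Md μ Q E F) :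
    ∀ t : ℝ, 0 < t → ∃ m : ℝ, 0 < m ∧ ∀ E F : Set Z, IsPI E → IsPI F → Disjoint E F →
      0 < diam E → 0 < diam F → (∃ x ∈ E, ∃ y ∈ F, dist x y ≤ t * min (diam E) (diam F)) →
      ENNReal.ofReal m ≤ Md μ Q E F := by
  intro t ht
  refine ⟨φ t, hφ t ht, ?_⟩
  rintro _ _ ⟨α, rfl⟩ ⟨β, rfl⟩ hdis hE hF ⟨x, hx, y, hy, hxy⟩
  set H : unitInterval → ℝ := fun s => setDist (P01_part α s) (P01_part β s) -
    t * min (diam (P01_part α s)) (diam (P01_part β s)) with hH
  have hHc : Continuous H :=
    (P01_setDist_cont α β).sub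
      (continuous_const.mul ((P01_diam_cont α).min (P01_diam_cont β)))
  have hH1 : H 1 ≤ 0 := by
    have h1 : setDist (P01_part α 1) (P01_part β 1) ≤ dist x y := by
      rw [P01_part_one, P01_part_one]
      exact P01_setDist_le hx hy
    simp only [hH]
    rw [P01_part_one, P01_part_one] at *
    linarith
  have hpos : ∀ s, 0 < setDist (P01_part α s) (P01_part β s) := by
    intro s
    obtain ⟨a, ha, b, hb, hab⟩ := P01_setDist_mem α β s
    rw [hab]
    apply dist_pos.mpr
    rintro rfl
    exact Set.disjoint_left.mp hdis (P01_part_sub α s ha) (P01_part_sub β s hb)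
  have hH0 : 0 ≤ H 0 := by
    simp only [hH]
    have h1 := hpos 0
    rw [P01_part_zero, P01_part_zero] at *
    simp only [diam_singleton, min_self, mul_zero, sub_zero]
    exact h1.le
  obtain ⟨s, hs⟩ := mem_range_of_exists_le_of_exists_ge hHc ⟨1, hH1⟩ ⟨0, hH0⟩
  simp only [hH] at hs
  have hsd := hpos s
  have hmin : 0 < min (diam (P01_part α s)) (diam (P01_part β s)) := by
    by_contra hcon
    rw [not_lt] at hcon
    have : t * min (diam (P01_part α s)) (diam (P01_part β s)) ≤ 0 :=
      mul_nonpos_of_nonneg_of_nonpos ht.le hcon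
    linarith
  have hrel : relDist (P01_part α s) (P01_part β s) = t := by
    unfold relDist
    rw [div_eq_iff hmin.ne']
    linarith
  have h2 := h (P01_part α s) (P01_part β s) (P01_part_compact α s) (P01_part_compact β s)
    (P01_part_conn α s) (P01_part_conn β s) (P01_nontrivial (lt_min_iff.mp hmin).1)
    (P01_nontrivial (lt_min_iff.mp hmin).2)
    (hdis.mono (P01_part_sub α s) (P01_part_sub β s))
  rw [hrel] at h2
  exact h2.trans (P01_Md_mono (P01_part_sub α s) (P01_part_sub β s))

end QSCoh
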