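import Mathlib
import Pool.Agent.Lib.MP_cccab4_an.Defs
import Pool.Agent.Lib.MP_cccab4_an.Pub
import Pool.Agent.Lib.MP_cccab4_an.A01
import Pool.Agent.Lib.MP_cccab4_an.A02
import Pool.Agent.Lib.MP_cccab4_an.A03

/-!
# MP_cccab4_an, module P02

`qs_gauge`: `θ` from `homeo_gauge η`; if `x ≠ b` then `d(x,a)/d(x,b) ≤ t` and `f x ≠ f b`
(embedding), multiply out; if `x = b` then `a = x`.  `gauge_qs`: `η` majorised by a homeomorphism
(`gauge_homeo`); a continuous injective map from a compact space to a metric space is an embedding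
(`Continuous.isClosedEmbedding`).
`qmob_gauge`: `θ'(t) = θ t + (if 1 ≤ t then 1 else 0)` for `t ≥ 0` (`θ` from `homeo_gauge`).
Degenerate quadruples with `a ≠ c`, `b ≠ d`: if `a = b` or `c = d` the cross-ratio of the images is `0`;
if `a = d` or `b = c` (and not the former) the cross-ratio is `1` for the points and `≤ 1` — in fact
`= 1` — for the images.
-/

open MeasureTheory Metric Set Filter Topology
open scoped ENNReal NNReal

namespace QSCoh

theorem P02_coe_crn {X : Type*} [MetricSpace X] (a b c d : X) :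
    ((crn a b c d : ℝ≥0) : ℝ) = cr a b c d := by
  unfold crn cr
  push_cast
  rfl

theorem qs_gauge {X Y : Type*} [MetricSpace X] [MetricSpace Y] {f : X → Y} (h : IsQSEmb f) :
    Continuous f ∧ Function.Injective f ∧ ∃ η, Gauge η ∧ QSg η f := by
  obtain ⟨he, η, hη⟩ := h
  refine ⟨he.continuous, he.injective, ?_⟩
  obtain ⟨θ, hθ, hθη⟩ := homeo_gauge η
  refine ⟨θ, hθ, ?_⟩
  intro x a b t ht
  by_cases hxb : x = b
  · subst hxb
    have h1 : dist x a ≤ 0 := by simpa using ht
    have h2 : x = a := dist_le_zero.mp h1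
    subst h2
    simp
  · have hd : 0 < dist x b := dist_pos.mpr hxb
    have hfd : 0 < dist (f x) (f b) := dist_pos.mpr fun h => hxb (he.injective h)
    have h1 := hη x a b hxb
    have h2 : ((nndist x a / nndist x b : ℝ≥0) : ℝ) ≤ t := by
      push_cast
      rwa [div_le_iff₀ hd]
    have h3 : ((nndist (f x) (f a) / nndist (f x) (f b) : ℝ≥0) : ℝ) ≤
        θ ((nndist x a / nndist x b : ℝ≥0) : ℝ) := by
      rw [hθη]
      exact_mod_cast h1
    have h4 := h3.trans (hθ.mono h2)
    push_cast at h4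
    rwa [div_le_iff₀ hfd] at h4

theorem gauge_qs {X Y : Type*} [MetricSpace X] [CompactSpace X] [MetricSpace Y] {f : X → Y}
    (hc : Continuous f) (hi : Function.Injective f) {η : ℝ → ℝ} (hη : Gauge η) (hq : QSg η f) :
    IsQSEmb f := by
  refine ⟨(hc.isClosedEmbedding hi).isEmbedding, ?_⟩
  obtain ⟨η', hη'⟩ := gauge_homeo hη
  refine ⟨η', ?_⟩
  intro x a b hxb
  have hd : 0 < dist x b := dist_pos.mpr hxb
  have hfd : 0 < dist (f x) (f b) := dist_pos.mpr fun h => hxb (hi h)
  have h1 : dist x a ≤ (((nndist x a / nndist x b : ℝ≥0)) : ℝ) * dist x b := by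
    push_cast
    rw [div_mul_cancel₀ _ hd.ne']
  have h2 := hq x a b _ h1
  rw [← div_le_iff₀ hfd] at h2
  have h3 := h2.trans (hη' _)
  rw [← NNReal.coe_le_coe]
  push_cast
  exact h3

theorem qmob_gauge {X Y : Type*} [MetricSpace X] [MetricSpace Y] (θ : ℝ≥0 ≃ₜ ℝ≥0) :
    ∃ θ' : ℝ → ℝ, Gauge θ' ∧ ∀ f : X → Y, Function.Injective f → IsQMob θ f → QM θ' f := by
  obtain ⟨θ₀, hθ₀, hθη⟩ := homeo_gauge θ
  refine ⟨fun t => θ₀ t + (if 1 ≤ t then 1 else 0), ?_, ?_⟩
  · refine ⟨?_, ?_, ?_⟩
    · intro s t hst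
      apply add_le_add (hθ₀.mono hst)
      split_ifs with h1 h2 h2
      · exact le_rfl
      · exact absurd (h1.trans hst) h2
      · exact zero_le_one
      · exact le_rfl
    · intro t
      apply add_nonneg (hθ₀.nonneg t)
      split_ifs
      · exact zero_le_one
      · exact le_rfl
    · have h1 : (fun t : ℝ => θ₀ t + (if 1 ≤ t then (1 : ℝ) else 0)) =ᶠ[𝓝[>] 0] θ₀ := by
        have h2 : ∀ᶠ t : ℝ in 𝓝[>] 0, t < 1 :=
          nhdsWithin_le_nhds (Iio_mem_nhds zero_lt_one)
        filter_upwards [h2] with t ht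
        rw [if_neg (not_le.mpr ht), add_zero]
      exact hθ₀.lim.congr' h1.symm
  · intro f hf hq
    refine ⟨hf, ?_⟩
    intro a b c d hac hbd
    have hfac : 0 < dist (f a) (f c) := dist_pos.mpr fun h => hac (hf h)
    have hfbd : 0 < dist (f b) (f d) := dist_pos.mpr fun h => hbd (hf h)
    have hdac : 0 < dist a c := dist_pos.mpr hac
    have hdbd : 0 < dist b d := dist_pos.mpr hbd
    have hnn : ∀ t : ℝ, 0 ≤ θ₀ t + (if 1 ≤ t then (1 : ℝ) else 0) := by
      intro t
      apply add_nonneg (hθ₀.nonneg t)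
      split_ifs
      · exact zero_le_one
      · exact le_rfl
    by_cases hab : a = b
    · subst hab
      have : cr (f a) (f a) (f c) (f d) = 0 := by simp [cr]
      rw [this]
      exact hnn _
    by_cases hcd : c = d
    · subst hcd
      have : cr (f a) (f b) (f c) (f c) = 0 := by simp [cr]
      rw [this]
      exact hnn _
    by_cases had : a = d
    · subst had
      have h1 : cr (f a) (f b) (f c) (f a) = 1 := by
        unfold cr
        rw [dist_comm (f c) (f a), dist_comm (f b) (f a)]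
        rw [dist_comm (f b) (f a)] at hfbd
        field_simp
      have h2 : cr a b c a = 1 := by
        unfold cr
        rw [dist_comm c a, dist_comm b a]
        rw [dist_comm b a] at hdbd
        field_simp
      rw [h1, h2]
      simp only [le_refl, if_true]
      linarith [hθ₀.nonneg 1]
    by_cases hbc : b = c
    · subst hbc
      have h1 : cr (f a) (f b) (f b) (f d) = 1 := by
        unfold cr
        field_simp
      have h2 : cr a b b d = 1 := by
        unfold cr
        field_simp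
      rw [h1, h2]
      simp only [le_refl, if_true]
      linarith [hθ₀.nonneg 1]
    have h1 := hq a b c d hab hac had hbc hbd hcd
    have h2 : ((crn (f a) (f b) (f c) (f d) : ℝ≥0) : ℝ) ≤ θ₀ ((crn a b c d : ℝ≥0) : ℝ) := by
      rw [hθη]
      exact_mod_cast h1
    rw [P02_coe_crn, P02_coe_crn] at h2
    have h3 : (0 : ℝ) ≤ (if 1 ≤ cr a b c d then (1 : ℝ) else 0) := by
      split_ifs
      · exact zero_le_one
      · exact le_rfl
    show cr (f a) (f b) (f c) (f d) ≤ θ₀ (cr a b c d) + _
    linarith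

theorem gauge_qmob {X Y : Type*} [MetricSpace X] [MetricSpace Y] {θ : ℝ → ℝ} (hθ : Gauge θ) :
    ∃ θ' : ℝ≥0 ≃ₜ ℝ≥0, ∀ f : X → Y, QM θ f → IsQMob θ' f := by
  obtain ⟨θ', hθ'⟩ := gauge_homeo hθ
  refine ⟨θ', fun f hf a b c d _ hac _ _ hbd _ => ?_⟩
  have h1 := hf.le a b c d hac hbd
  rw [← P02_coe_crn, ← P02_coe_crn] at h1
  exact_mod_cast h1.trans (hθ' _)

end QSCoh
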