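import Mathlib
import Pool.Agent.Lib.MP_cccab4_an.Defs

/-!
# MP_cccab4_an, module S01

From `H.ahl`.  For `r > D = diam univ` the closed ball is the whole space `= closedBall x D` (every
distance is `≤ D`, `dist_le_diam_of_mem isBounded`), so the upper bound holds for all `r > 0` with the
same `C`.  Lower bound for open balls: `closedBall x (r/2) ⊆ ball x r`, `c = 1/(C 2^Q)`.  `μ {x} ≤
μ (closedBall x r) ≤ C r^Q → 0`.  `Z` is nonempty because `0 < diam univ`.
-/

open MeasureTheory Metric Set Filter Topology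
open scoped ENNReal NNReal

namespace QSCoh

variable {Z : Type*} [MetricSpace Z] [CompactSpace Z] [MeasurableSpace Z] [BorelSpace Z]
  {μ : Measure Z} {Q : ℝ}

theorem mass_upper (H : Sp Z μ Q) : ∃ C : ℝ, 1 ≤ C ∧ ∀ (x : Z) (r : ℝ), 0 < r →
    μ (closedBall x r) ≤ ENNReal.ofReal (C * r ^ Q) := by
  obtain ⟨C, hC, h⟩ := H.ahl
  refine ⟨C, hC, fun x r hr => ?_⟩
  by_cases hrD : r ≤ diam (univ : Set Z)
  · exact (h x r hr hrD).2
  · push Not at hrD
    have h1 : closedBall x r ⊆ closedBall x (diam (univ : Set Z)) := fun y _ => by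
      rw [mem_closedBall]
      exact dist_le_diam_of_mem isBounded_of_compactSpace (mem_univ _) (mem_univ _)
    refine (measure_mono h1).trans ((h x _ H.hD le_rfl).2.trans ?_)
    refine ENNReal.ofReal_le_ofReal (mul_le_mul_of_nonneg_left ?_ (by linarith))
    exact Real.rpow_le_rpow H.hD.le hrD.le (by linarith [H.hQ])

theorem mass_lower (H : Sp Z μ Q) : ∃ c : ℝ, 0 < c ∧ ∀ (x : Z) (r : ℝ), 0 < r →
    r ≤ diam (univ : Set Z) → ENNReal.ofReal (c * r ^ Q) ≤ μ (ball x r) := by
  obtain ⟨C, hC, h⟩ := H.ahl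
  refine ⟨(C * 2 ^ Q)⁻¹, by positivity, fun x r hr hrD => ?_⟩
  have h1 : closedBall x (r / 2) ⊆ ball x r := closedBall_subset_ball (by linarith)
  refine le_trans ?_ ((h x (r / 2) (by linarith) (by linarith)).1.trans (measure_mono h1))
  refine ENNReal.ofReal_le_ofReal (le_of_eq ?_)
  rw [Real.div_rpow hr.le (by norm_num)]
  field_simp

theorem finite_mu (H : Sp Z μ Q) : IsFiniteMeasure μ := by
  obtain ⟨C, -, h⟩ := mass_upper H
  refine ⟨?_⟩
  by_cases hne : Nonempty Z
  · obtain ⟨x⟩ := hne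
    have h1 : (univ : Set Z) ⊆ closedBall x (diam (univ : Set Z)) := fun y _ => by
      rw [mem_closedBall]
      exact dist_le_diam_of_mem isBounded_of_compactSpace (mem_univ _) (mem_univ _)
    exact lt_of_le_of_lt ((measure_mono h1).trans (h x _ H.hD)) ENNReal.ofReal_lt_top
  · rw [not_nonempty_iff] at hne
    rw [univ_eq_empty_iff.2 hne]
    simp

theorem mass_point (H : Sp Z μ Q) (x : Z) : μ {x} = 0 := by
  obtain ⟨C, hC, h⟩ := mass_upper H
  have hQ : 0 < Q := by linarith [H.hQ]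
  have hlim : Tendsto (fun r : ℝ => ENNReal.ofReal (C * r ^ Q)) (𝓝[>] 0) (𝓝 0) := by
    have h1 : Tendsto (fun r : ℝ => C * r ^ Q) (𝓝[>] 0) (𝓝 0) := by
      have h2 : Tendsto (fun r : ℝ => C * r ^ Q) (𝓝 0) (𝓝 (C * (0:ℝ) ^ Q)) :=
        ((Real.continuousAt_rpow_const 0 Q (Or.inr hQ.le)).tendsto).const_mul C
      rw [Real.zero_rpow hQ.ne', mul_zero] at h2
      exact h2.mono_left nhdsWithin_le_nhds
    have := ENNReal.tendsto_ofReal h1
    simpa using this
  have hle : ∀ᶠ r : ℝ in 𝓝[>] 0, μ {x} ≤ ENNReal.ofReal (C * r ^ Q) := by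
    filter_upwards [self_mem_nhdsWithin] with r hr
    exact (measure_mono (singleton_subset_iff.2 (mem_closedBall_self (le_of_lt hr)))).trans
      (h x r hr)
  have := ge_of_tendsto hlim hle
  simpa using this

theorem mass_ball_pos (H : Sp Z μ Q) (x : Z) {r : ℝ} (hr : 0 < r) : 0 < μ.real (ball x r) := by
  have := finite_mu H
  obtain ⟨c, hc, h⟩ := mass_lower H
  have hD := H.hD
  have hQ : 0 < Q := by linarith [H.hQ]
  have hmin : 0 < min r (diam (univ : Set Z)) := lt_min hr hD
  have h1 := h x (min r (diam (univ : Set Z))) hmin (min_le_right _ _)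
  have h2 : μ (ball x (min r (diam (univ : Set Z)))) ≤ μ (ball x r) :=
    measure_mono (ball_subset_ball (min_le_left _ _))
  have h3 : 0 < μ (ball x r) := by
    refine lt_of_lt_of_le ?_ (h1.trans h2)
    rw [ENNReal.ofReal_pos]
    positivity
  exact ENNReal.toReal_pos h3.ne' (measure_ne_top _ _)

theorem mass_pos (H : Sp Z μ Q) : 0 < μ.real univ := by
  have := finite_mu H
  have hne : Nonempty Z := by
    by_contra h
    rw [not_nonempty_iff] at h
    have h1 := H.hD
    rw [univ_eq_empty_iff.2 h] at h1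
    simp at h1
  obtain ⟨x⟩ := hne
  exact lt_of_lt_of_le (mass_ball_pos H x one_pos) (measureReal_mono (subset_univ _))

end QSCoh
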