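import Mathlib
import Pool.Agent.Lib.MP_cccab4_an.Defs
import Pool.Agent.Lib.MP_cccab4_an.S01

/-!
# MP_cccab4_an, module S05

If `E ∩ F ≠ ∅` take `L = 0` and the constant curve.  Otherwise `H.loew` with `t = 2/c₀` gives
`Md μ Q E F ≥ m₀` (any `x' ∈ E`, `y' ∈ F` have distance `≤ 2r ≤ (2/c₀) min(diam E, diam F)`).
Ring function: for `K ≥ 1`, `ρ₁ = Σ_{j<K} (K 2^j r)⁻¹ 1_{A_j}`, `A_j = {z | 2^j r < d(x,z) ≤ 2^{j+1} r}`.
If a `1`-Lipschitz `γ` starts in `closedBall x r` and leaves `closedBall x (2^K r)` at some time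
`≤ L`, then for each `j` the set `{t ∈ [0,L] | γ t ∈ A_j}` has measure `≥ 2^j r` (its image under the
`1`-Lipschitz function `t ↦ d(x,γ t)` contains `(2^j r, 2^{j+1} r]`), so `∫ ρ₁(γ) ≥ 1`.
`∫ ρ₁^Q dμ = Σ_j (K 2^j r)^{-Q} μ(A_j) ≤ C 2^Q K^{1-Q}` (the `A_j` are disjoint); choose `K` with
`2^{Q-1} C 2^Q K^{1-Q} ≤ m₀/4`, `Λ = 2^K`, `m = 2^{-Q} m₀`.
Suppose no `γ` as claimed exists.  Then `ρ' = ρ₁ + l⁻¹ ρ 1_{closedBall x (Λr)}` is admissible for
`(E,F)`: a curve leaving `closedBall x (Λ r)` has `∫ρ₁ ≥ 1`, the others have `∫ρ > l`.  So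
`m₀ ≤ ∫ρ'^Q ≤ 2^{Q-1}(∫ρ₁^Q + l^{-Q} ∫_{closedBall}ρ^Q) ≤ m₀/4 + 2^{Q-1} l^{-Q} ∫ρ^Q < m₀/4 + m₀/2`,
contradiction (`(a+b)^Q ≤ 2^{Q-1}(a^Q+b^Q)`: `ENNReal.rpow_add_le_mul_rpow_add_rpow`).
-/

set_option linter.unusedSectionVars false

open MeasureTheory Metric Set Filter Topology
open scoped ENNReal NNReal

namespace QSCoh

/-- The level sets of a `1`-Lipschitz function have big measure. -/
theorem S05_meas {f : ℝ → ℝ} (hf : LipschitzWith 1 f) {a b L : ℝ} (hL : 0 ≤ L) (ha : f 0 ≤ a)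
    (hb : b ≤ f L) : ENNReal.ofReal (b - a) ≤ volume ({t | t ∈ Icc 0 L ∧ f t ∈ Ioc a b}) := by
  have h1 : Ioc a b ⊆ f '' {t | t ∈ Icc 0 L ∧ f t ∈ Ioc a b} := by
    intro y hy
    have h2 : y ∈ Icc (f 0) (f L) := ⟨ha.trans hy.1.le, hy.2.trans hb⟩
    obtain ⟨t, ht, rfl⟩ := intermediate_value_Icc hL hf.continuous.continuousOn h2
    exact ⟨t, ⟨ht, hy⟩, rfl⟩
  have h3 := hf.hausdorffMeasure_image_le (d := 1) zero_le_one {t | t ∈ Icc 0 L ∧ f t ∈ Ioc a b}
  rw [hausdorffMeasure_real] at h3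
  simp only [ENNReal.coe_one, ENNReal.one_rpow, one_mul] at h3
  calc ENNReal.ofReal (b - a) = volume (Ioc a b) := by rw [Real.volume_Ioc]
    _ ≤ volume (f '' {t | t ∈ Icc 0 L ∧ f t ∈ Ioc a b}) := measure_mono h1
    _ ≤ _ := h3

section

variable {Z : Type*} [MetricSpace Z]

/-- The rings. -/
def S05_A (x : Z) (r : ℝ) (j : ℕ) : Set Z := {z | dist x z ∈ Ioc (2 ^ j * r) (2 ^ (j + 1) * r)}

/-- The ring function. -/
noncomputable def S05_rho (x : Z) (r : ℝ) (K : ℕ) (z : Z) : ℝ≥0∞ :=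
  ∑ j ∈ Finset.range K, ENNReal.ofReal ((K * (2 ^ j * r))⁻¹) * (S05_A x r j).indicator 1 z

theorem S05_disj {x : Z} {r : ℝ} (hr : 0 < r) {i j : ℕ} {z : Z} (hi : z ∈ S05_A x r i)
    (hj : z ∈ S05_A x r j) : i = j := by
  have key : ∀ {i j : ℕ}, z ∈ S05_A x r i → z ∈ S05_A x r j → ¬ i < j := by
    intro i j hi hj hij
    have h1 : (2 : ℝ) ^ (i + 1) ≤ 2 ^ j := pow_le_pow_right₀ (by norm_num) hij
    have h2 := hi.2
    have h3 := hj.1
    have h4 : (2 : ℝ) ^ (i + 1) * r ≤ 2 ^ j * r := mul_le_mul_of_nonneg_right h1 hr.le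
    linarith
  rcases lt_trichotomy i j with h | h | h
  · exact absurd h (key hi hj)
  · exact h
  · exact absurd h (key hj hi)

theorem S05_curve {x : Z} {r : ℝ} (hr : 0 < r) {K : ℕ} (hK : 0 < K) {γ : ℝ → Z}
    (hγ : LipschitzWith 1 γ) {L : ℝ} (h0 : dist x (γ 0) ≤ r) {t₁ : ℝ} (ht : t₁ ∈ Icc 0 L)
    (h1 : 2 ^ K * r ≤ dist x (γ t₁)) : 1 ≤ ∫⁻ t in Icc 0 L, S05_rho x r K (γ t) := by
  have hf : LipschitzWith 1 (fun t => dist x (γ t)) := by
    have h2 : LipschitzWith 1 (fun z => dist x z) := LipschitzWith.dist_right x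
    have h3 := h2.comp hγ
    rw [mul_one] at h3
    exact h3
  have hK0 : (0 : ℝ) < K := by exact_mod_cast hK
  have hAm : ∀ j, MeasurableSet {t | γ t ∈ S05_A x r j} := by
    intro j
    exact hf.continuous.measurable measurableSet_Ioc
  have h2 : ∀ j ∈ Finset.range K, ENNReal.ofReal (2 ^ j * r) ≤
      volume ({t | γ t ∈ S05_A x r j} ∩ Icc 0 L) := by
    intro j hj
    rw [Finset.mem_range] at hj
    have e1 : (1 : ℝ) ≤ 2 ^ j := one_le_pow₀ (by norm_num)
    have e2 : (2 : ℝ) ^ (j + 1) ≤ 2 ^ K := pow_le_pow_right₀ (by norm_num) hj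
    have e3 : (2 : ℝ) ^ (j + 1) * r ≤ 2 ^ K * r := mul_le_mul_of_nonneg_right e2 hr.le
    have h3 := S05_meas hf ht.1 (a := 2 ^ j * r) (b := 2 ^ (j + 1) * r) (by nlinarith)
      (e3.trans h1)
    have e4 : (2 : ℝ) ^ (j + 1) * r - 2 ^ j * r = 2 ^ j * r := by ring
    rw [e4] at h3
    refine h3.trans (measure_mono ?_)
    rintro t ⟨h4, h5⟩
    exact ⟨h5, h4.1, h4.2.trans ht.2⟩
  have h3 : ∫⁻ t in Icc 0 L, S05_rho x r K (γ t) = ∑ j ∈ Finset.range K,
      ENNReal.ofReal ((K * (2 ^ j * r))⁻¹) * volume ({t | γ t ∈ S05_A x r j} ∩ Icc 0 L) := by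
    unfold S05_rho
    rw [lintegral_finsetSum]
    · refine Finset.sum_congr rfl fun j _ => ?_
      rw [lintegral_const_mul]
      · congr 1
        have e1 : (fun t => (S05_A x r j).indicator (1 : Z → ℝ≥0∞) (γ t)) =
            {t | γ t ∈ S05_A x r j}.indicator 1 := by
          funext t
          rfl
        rw [e1, lintegral_indicator_one (hAm j), Measure.restrict_apply (hAm j)]
      · exact (measurable_one.indicator (hAm j))
    · intro j _
      exact (measurable_one.indicator (hAm j)).const_mul _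
  rw [h3]
  calc (1 : ℝ≥0∞) = ∑ j ∈ Finset.range K, ENNReal.ofReal ((K : ℝ)⁻¹) := by
        rw [Finset.sum_const, Finset.card_range, nsmul_eq_mul, ← ENNReal.ofReal_natCast,
          ← ENNReal.ofReal_mul (by positivity), mul_inv_cancel₀ hK0.ne', ENNReal.ofReal_one]
    _ = ∑ j ∈ Finset.range K,
        ENNReal.ofReal ((K * (2 ^ j * r))⁻¹) * ENNReal.ofReal (2 ^ j * r) := by
        refine Finset.sum_congr rfl fun j _ => ?_
        rw [← ENNReal.ofReal_mul (by positivity)]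
        congr 1
        field_simp
    _ ≤ _ := Finset.sum_le_sum fun j hj => mul_le_mul_right (h2 j hj) _

end

variable {Z : Type*} [MetricSpace Z] [CompactSpace Z] [MeasurableSpace Z] [BorelSpace Z]
  {μ : Measure Z} {Q : ℝ}

theorem S05_measA (x : Z) (r : ℝ) (j : ℕ) : MeasurableSet (S05_A x r j) :=
  (continuous_const.dist continuous_id).measurable measurableSet_Ioc

theorem S05_meas_rho (x : Z) (r : ℝ) (K : ℕ) : Measurable (S05_rho x r K) := by
  unfold S05_rho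
  exact Finset.measurable_sum _ fun j _ =>
    (measurable_one.indicator (S05_measA x r j)).const_mul _

theorem S05_energy (hQ : 1 < Q) {C : ℝ} (hC : 1 ≤ C)
    (hm : ∀ (x : Z) (r : ℝ), 0 < r → μ (closedBall x r) ≤ ENNReal.ofReal (C * r ^ Q)) (x : Z)
    {r : ℝ} (hr : 0 < r) {K : ℕ} (hK : 0 < K) :
    ∫⁻ z, S05_rho x r K z ^ Q ∂μ ≤ ENNReal.ofReal (C * 2 ^ Q * (K : ℝ) ^ (1 - Q)) := by
  have hQ0 : 0 < Q := by linarith
  have hK0 : (0 : ℝ) < K := by exact_mod_cast hK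
  have h1 : ∀ z, S05_rho x r K z ^ Q ≤ ∑ j ∈ Finset.range K,
      ENNReal.ofReal ((K * (2 ^ j * r))⁻¹) ^ Q * (S05_A x r j).indicator 1 z := by
    intro z
    by_cases hz : ∃ j ∈ Finset.range K, z ∈ S05_A x r j
    · obtain ⟨j, hj, hzj⟩ := hz
      have e1 : S05_rho x r K z = ENNReal.ofReal ((K * (2 ^ j * r))⁻¹) := by
        unfold S05_rho
        rw [Finset.sum_eq_single j]
        · rw [indicator_of_mem hzj, Pi.one_apply, mul_one]
        · intro i _ hij
          rw [indicator_of_notMem (fun hi => hij (S05_disj hr hi hzj)), mul_zero]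
        · intro h
          exact absurd hj h
      rw [e1]
      refine le_trans (le_of_eq ?_) (Finset.single_le_sum (f := fun j =>
        ENNReal.ofReal ((K * (2 ^ j * r))⁻¹) ^ Q * (S05_A x r j).indicator 1 z)
        (fun _ _ => zero_le) hj)
      simp only [indicator_of_mem hzj, Pi.one_apply, mul_one]
    · push Not at hz
      have e1 : S05_rho x r K z = 0 := by
        unfold S05_rho
        refine Finset.sum_eq_zero fun i hi => ?_
        rw [indicator_of_notMem (hz i hi), mul_zero]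
      rw [e1, ENNReal.zero_rpow_of_pos hQ0]
      exact zero_le
  calc ∫⁻ z, S05_rho x r K z ^ Q ∂μ
      ≤ ∫⁻ z, ∑ j ∈ Finset.range K,
        ENNReal.ofReal ((K * (2 ^ j * r))⁻¹) ^ Q * (S05_A x r j).indicator 1 z ∂μ :=
        lintegral_mono h1
    _ = ∑ j ∈ Finset.range K, ENNReal.ofReal ((K * (2 ^ j * r))⁻¹) ^ Q * μ (S05_A x r j) := by
        rw [lintegral_finsetSum]
        · refine Finset.sum_congr rfl fun j _ => ?_
          rw [lintegral_const_mul _ (measurable_one.indicator (S05_measA x r j)),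
            lintegral_indicator_one (S05_measA x r j)]
        · intro j _
          exact (measurable_one.indicator (S05_measA x r j)).const_mul _
    _ ≤ ∑ j ∈ Finset.range K, ENNReal.ofReal (C * 2 ^ Q * (K : ℝ) ^ (-Q)) := by
        refine Finset.sum_le_sum fun j _ => ?_
        have e1 : μ (S05_A x r j) ≤ ENNReal.ofReal (C * (2 ^ (j + 1) * r) ^ Q) := by
          refine (measure_mono ?_).trans (hm x (2 ^ (j + 1) * r) (by positivity))
          intro z hz
          rw [mem_closedBall, dist_comm]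
          exact hz.2
        refine (mul_le_mul_right e1 _).trans (le_of_eq ?_)
        rw [ENNReal.ofReal_rpow_of_pos (by positivity), ← ENNReal.ofReal_mul (by positivity)]
        congr 1
        have e2 : (2 : ℝ) ^ (j + 1) * r = 2 * (2 ^ j * r) := by ring
        have e3 : (0 : ℝ) < 2 ^ j * r := by positivity
        rw [e2, Real.inv_rpow (by positivity), Real.mul_rpow hK0.le e3.le,
          Real.mul_rpow (by norm_num) e3.le, Real.rpow_neg hK0.le]
        field_simp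
    _ = ENNReal.ofReal (C * 2 ^ Q * (K : ℝ) ^ (1 - Q)) := by
        rw [Finset.sum_const, Finset.card_range, nsmul_eq_mul, ← ENNReal.ofReal_natCast,
          ← ENNReal.ofReal_mul (by positivity)]
        congr 1
        rw [sub_eq_add_neg, Real.rpow_add hK0, Real.rpow_one]
        ring

/-- The Loewner condition, localised: short curves between two big continua in a ball. -/
theorem link (H : Sp Z μ Q) {c₀ : ℝ} (hc : 0 < c₀) : ∃ Λ m : ℝ, 1 ≤ Λ ∧ 0 < m ∧
    ∀ (x : Z) (r : ℝ), 0 < r → ∀ E F : Set Z, IsPI E → IsPI F →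
    E ⊆ closedBall x r → F ⊆ closedBall x r → c₀ * r ≤ diam E → c₀ * r ≤ diam F →
    ∀ ρ : Z → ℝ≥0∞, Measurable ρ → ∀ l : ℝ≥0∞, 0 < l → l ≠ ∞ →
    ∫⁻ z in closedBall x (Λ * r), ρ z ^ Q ∂μ < ENNReal.ofReal m * l ^ Q →
    ∃ (γ : ℝ → Z) (L : ℝ), LipschitzWith 1 γ ∧ 0 ≤ L ∧ γ 0 ∈ E ∧ γ L ∈ F ∧
      (∀ t ∈ Icc 0 L, γ t ∈ closedBall x (Λ * r)) ∧ ∫⁻ t in Icc 0 L, ρ (γ t) ≤ l := by
  have hQ := H.hQ
  have hQ0 : 0 < Q := by linarith
  obtain ⟨C, hC, hmass⟩ := mass_upper H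
  obtain ⟨m₀, hm₀, hlo⟩ := H.loew (2 / c₀) (by positivity)
  -- the choice of `K`
  have hlim : Tendsto (fun K : ℕ => 2 ^ (Q - 1) * (C * 2 ^ Q * (K : ℝ) ^ (1 - Q))) atTop
      (𝓝 0) := by
    have h1 : Tendsto (fun K : ℕ => (K : ℝ) ^ (-(Q - 1))) atTop (𝓝 0) :=
      (tendsto_rpow_neg_atTop (by linarith : 0 < Q - 1)).comp tendsto_natCast_atTop_atTop
    have h2 := (h1.const_mul (C * 2 ^ Q)).const_mul ((2 : ℝ) ^ (Q - 1))
    rw [mul_zero, mul_zero] at h2
    have e : -(Q - 1) = 1 - Q := by ring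
    rw [e] at h2
    exact h2
  obtain ⟨K, hK, hKm⟩ : ∃ K : ℕ, 0 < K ∧
      2 ^ (Q - 1) * (C * 2 ^ Q * (K : ℝ) ^ (1 - Q)) < m₀ / 4 := by
    have h1 := (hlim.eventually_lt_const (by positivity : 0 < m₀ / 4)).and (eventually_gt_atTop 0)
    obtain ⟨K, hK1, hK2⟩ := h1.exists
    exact ⟨K, hK2, hK1⟩
  refine ⟨2 ^ K, 2 ^ (-Q) * m₀, one_le_pow₀ (by norm_num), by positivity, ?_⟩
  intro x r hr E F hE hF hEb hFb hdE hdF ρ hρ l hl hl' hint
  have hΛ : (1 : ℝ) ≤ 2 ^ K := one_le_pow₀ (by norm_num)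
  have hsub : closedBall x r ⊆ closedBall x (2 ^ K * r) :=
    closedBall_subset_closedBall (le_mul_of_one_le_left hr.le hΛ)
  by_cases hdisj : Disjoint E F
  swap
  · rw [Set.not_disjoint_iff] at hdisj
    obtain ⟨p, hpE, hpF⟩ := hdisj
    refine ⟨fun _ => p, 0, (LipschitzWith.const p).weaken zero_le_one, le_rfl, hpE, hpF,
      fun _ _ => hsub (hEb hpE), ?_⟩
    simp
  have hcr : 0 < c₀ * r := by positivity
  have hdE0 : 0 < diam E := hcr.trans_le hdE
  have hdF0 : 0 < diam F := hcr.trans_le hdF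
  have hEne : E.Nonempty := by
    rw [Set.nonempty_iff_ne_empty]
    rintro rfl
    simp at hdE0
  have hFne : F.Nonempty := by
    rw [Set.nonempty_iff_ne_empty]
    rintro rfl
    simp at hdF0
  obtain ⟨x', hx'⟩ := hEne
  obtain ⟨y', hy'⟩ := hFne
  have hMd := hlo E F hE hF hdisj hdE0 hdF0 ⟨x', hx', y', hy', by
    have h1 : dist x' y' ≤ 2 * r := by
      have e1 := hEb hx'
      have e2 := hFb hy'
      rw [mem_closedBall] at e1 e2
      have := dist_triangle_right x' y' x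
      linarith
    have h2 : 2 / c₀ * (c₀ * r) ≤ 2 / c₀ * min (diam E) (diam F) :=
      mul_le_mul_of_nonneg_left (le_min hdE hdF) (by positivity)
    have h3 : 2 / c₀ * (c₀ * r) = 2 * r := by field_simp
    linarith⟩
  by_contra hcon
  push Not at hcon
  obtain ⟨ρ', hρ'⟩ : ∃ ρ' : Z → ℝ≥0∞, ρ' = fun z => S05_rho x r K z +
      l⁻¹ * (closedBall x (2 ^ K * r)).indicator ρ z := ⟨_, rfl⟩
  have hBm : MeasurableSet (closedBall x (2 ^ K * r)) := isClosed_closedBall.measurableSet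
  have hadm : Adm ρ' E F := by
    refine ⟨?_, fun γ L hγ hL h0 h1 => ?_⟩
    · rw [hρ']
      exact (S05_meas_rho x r K).add ((hρ.indicator hBm).const_mul _)
    · by_cases hin : ∀ t ∈ Icc 0 L, γ t ∈ closedBall x (2 ^ K * r)
      · have h2 := hcon γ L hγ hL h0 h1 hin
        calc (1 : ℝ≥0∞) = l⁻¹ * l := (ENNReal.inv_mul_cancel hl.ne' hl').symm
          _ ≤ l⁻¹ * ∫⁻ t in Icc 0 L, ρ (γ t) := mul_le_mul_right h2.le _
          _ ≤ ∫⁻ t in Icc 0 L, l⁻¹ * ρ (γ t) := lintegral_const_mul_le _ _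
          _ ≤ ∫⁻ t in Icc 0 L, ρ' (γ t) := by
              refine setLIntegral_mono' measurableSet_Icc fun t ht => ?_
              rw [hρ']
              simp only
              rw [indicator_of_mem (hin t ht)]
              exact le_add_self
      · push Not at hin
        obtain ⟨t₁, ht₁, hout⟩ := hin
        rw [mem_closedBall, dist_comm, not_le] at hout
        have h2 := hEb h0
        rw [mem_closedBall, dist_comm] at h2
        refine (S05_curve hr hK hγ h2 ht₁ hout.le).trans ?_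
        refine lintegral_mono fun t => ?_
        rw [hρ']
        exact le_self_add
  have hE1 := S05_energy (μ := μ) hQ hC hmass x hr hK
  have hE2 : ∫⁻ z, (l⁻¹ * (closedBall x (2 ^ K * r)).indicator ρ z) ^ Q ∂μ =
      l⁻¹ ^ Q * ∫⁻ z in closedBall x (2 ^ K * r), ρ z ^ Q ∂μ := by
    rw [← lintegral_indicator hBm, ← lintegral_const_mul _ ((hρ.pow_const Q).indicator hBm)]
    refine lintegral_congr fun z => ?_
    rw [ENNReal.mul_rpow_of_nonneg _ _ hQ0.le]
    congr 1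
    by_cases hz : z ∈ closedBall x (2 ^ K * r)
    · rw [indicator_of_mem hz, indicator_of_mem hz]
    · rw [indicator_of_notMem hz, indicator_of_notMem hz, ENNReal.zero_rpow_of_pos hQ0]
  have hlQ : l⁻¹ ^ Q * l ^ Q = 1 := by
    rw [← ENNReal.mul_rpow_of_nonneg _ _ hQ0.le, ENNReal.inv_mul_cancel hl.ne' hl',
      ENNReal.one_rpow]
  have h2Q : (2 : ℝ≥0∞) ^ (Q - 1) = ENNReal.ofReal (2 ^ (Q - 1)) := by
    rw [← ENNReal.ofReal_rpow_of_pos (by norm_num)]
    simp
  have hfin : ENNReal.ofReal m₀ ≤ ENNReal.ofReal (m₀ / 4 + m₀ / 2) := by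
    calc ENNReal.ofReal m₀ ≤ Md μ Q E F := hMd
      _ ≤ ∫⁻ z, ρ' z ^ Q ∂μ := iInf₂_le ρ' hadm
      _ ≤ ∫⁻ z, 2 ^ (Q - 1) * (S05_rho x r K z ^ Q +
            (l⁻¹ * (closedBall x (2 ^ K * r)).indicator ρ z) ^ Q) ∂μ := by
          refine lintegral_mono fun z => ?_
          rw [hρ']
          exact ENNReal.rpow_add_le_mul_rpow_add_rpow _ _ hQ.le
      _ = 2 ^ (Q - 1) * (∫⁻ z, S05_rho x r K z ^ Q ∂μ +
            ∫⁻ z, (l⁻¹ * (closedBall x (2 ^ K * r)).indicator ρ z) ^ Q ∂μ) := by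
          rw [lintegral_const_mul, lintegral_add_left]
          · exact (S05_meas_rho x r K).pow_const Q
          · exact ((S05_meas_rho x r K).pow_const Q).add
              (((hρ.indicator hBm).const_mul _).pow_const Q)
      _ ≤ 2 ^ (Q - 1) * (ENNReal.ofReal (C * 2 ^ Q * (K : ℝ) ^ (1 - Q)) +
            l⁻¹ ^ Q * (ENNReal.ofReal (2 ^ (-Q) * m₀) * l ^ Q)) := by
          rw [hE2]
          gcongr
      _ = 2 ^ (Q - 1) * ENNReal.ofReal (C * 2 ^ Q * (K : ℝ) ^ (1 - Q)) +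
            2 ^ (Q - 1) * ENNReal.ofReal (2 ^ (-Q) * m₀) := by
          rw [mul_add]
          congr 2
          calc l⁻¹ ^ Q * (ENNReal.ofReal (2 ^ (-Q) * m₀) * l ^ Q)
              = (l⁻¹ ^ Q * l ^ Q) * ENNReal.ofReal (2 ^ (-Q) * m₀) := by ring
            _ = _ := by rw [hlQ, one_mul]
      _ ≤ ENNReal.ofReal (m₀ / 4) + ENNReal.ofReal (m₀ / 2) := by
          rw [h2Q, ← ENNReal.ofReal_mul (by positivity), ← ENNReal.ofReal_mul (by positivity)]
          apply add_le_add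
          · exact ENNReal.ofReal_le_ofReal hKm.le
          · apply ENNReal.ofReal_le_ofReal
            rw [← mul_assoc, ← Real.rpow_add (by norm_num)]
            have e : Q - 1 + -Q = -1 := by ring
            rw [e, Real.rpow_neg_one]
            linarith
      _ = ENNReal.ofReal (m₀ / 4 + m₀ / 2) := by
          rw [ENNReal.ofReal_add (by positivity) (by positivity)]
  rw [ENNReal.ofReal_le_ofReal_iff (by positivity)] at hfin
  linarith

end QSCoh
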