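import Mathlib
import Pool.Agent.Lib.MP_cccab4_an.Defs
import Pool.Agent.Lib.MP_cccab4_an.S04
import Pool.Agent.Lib.MP_cccab4_an.S05

/-!
# MP_cccab4_an, module S06

Let `Λ, m` be from `link` with `c₀ = 1/16`.  Let `0 < r ≤ D/2`, `z` with `d(x,z) ≥ D/2 ≥ r` (`far`),
`κ : [0,L₀] → Z` a `1`-Lipschitz curve from `x` to `z` (`H.rc`).
`E = κ([0,t₁])`, `t₁` the first time with `d(x,κ t₁) ≥ r/16`: `E ⊆ closedBall x (r/16)`,
`diam E ≥ r/16`.  `F = κ([t₂,t₃])`, `t₃` the first time with `d(x,κ t₃) ≥ 3r/4` and `t₂` the last time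
before `t₃` with `d(x,κ t₂) ≤ r/2`: on `[t₂,t₃]`, `r/2 ≤ d(x,κ) ≤ 3r/4`, and
`diam F ≥ d(κ t₂,κ t₃) ≥ r/4`.  Both are path images (affine reparametrisation of `[a,b]` by `[0,1]`) in
`closedBall x r`.  `link` gives `γ` with `γ 0 ∈ E`, `γ L ∈ F`; it is a `Seed`.
-/

open MeasureTheory Metric Set Filter Topology
open scoped ENNReal NNReal

namespace QSCoh

set_option linter.unusedSectionVars false

variable {Z : Type*} [MetricSpace Z] [CompactSpace Z] [MeasurableSpace Z] [BorelSpace Z]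
  {μ : Measure Z} {Q : ℝ}

theorem isPI_Icc' {Z : Type*} [TopologicalSpace Z] {γ : ℝ → Z} (hγ : Continuous γ) {a b : ℝ}
    (hab : a ≤ b) : IsPI (γ '' Icc a b) := by
  refine ⟨⟨fun τ => γ (a + τ * (b - a)), by fun_prop⟩, ?_⟩
  ext z
  constructor
  · rintro ⟨τ, rfl⟩
    have h0 := τ.2.1
    have h1 := τ.2.2
    exact ⟨_, ⟨by nlinarith, by nlinarith⟩, rfl⟩
  · rintro ⟨t, ht, rfl⟩
    rcases hab.eq_or_lt with h | h
    · have : t = a := le_antisymm (by rw [h]; exact ht.2) ht.1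
      refine ⟨0, ?_⟩
      simp [this]
    · have hba : 0 < b - a := by linarith
      refine ⟨⟨(t - a) / (b - a), div_nonneg (by linarith [ht.1]) hba.le,
        (div_le_one hba).2 (by linarith [ht.2])⟩, ?_⟩
      show γ (a + (t - a) / (b - a) * (b - a)) = γ t
      rw [div_mul_cancel₀ _ hba.ne']
      congr 1
      ring

/-- First hitting time of a level by a continuous function on `[0,L]`. -/
theorem first_hit {f : ℝ → ℝ} (hf : Continuous f) {L c : ℝ} (hL : 0 ≤ L) (h0 : f 0 ≤ c)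
    (h1 : c ≤ f L) : ∃ t ∈ Icc 0 L, f t = c ∧ ∀ s ∈ Icc 0 t, f s ≤ c := by
  -- the set of times with f ≥ c
  set A : Set ℝ := {t ∈ Icc 0 L | c ≤ f t} with hA
  have hAc : IsCompact A := isCompact_Icc.inter_right (isClosed_le continuous_const hf)
  have hAne : A.Nonempty := ⟨L, ⟨hL, le_rfl⟩, h1⟩
  obtain ⟨t, ht, hmin⟩ := hAc.exists_isLeast hAne
  have hle : ∀ s ∈ Icc 0 t, f s ≤ c := by
    intro s hs
    rcases hs.2.eq_or_lt with h | h
    · -- s = t : limit from the left, or t = 0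
      subst h
      rcases hs.1.eq_or_lt with h' | h'
      · rw [← h']; exact h0
      · -- f s' ≤ c for s' < s
        have hlt : ∀ᶠ s' in 𝓝[<] s, f s' ≤ c := by
          filter_upwards [Ioo_mem_nhdsLT h'] with s' hs'
          by_contra hcon
          push Not at hcon
          have : s ≤ s' := hmin ⟨⟨hs'.1.le, hs'.2.le.trans ht.1.2⟩, hcon.le⟩
          linarith [hs'.2]
        exact le_of_tendsto (hf.continuousWithinAt.tendsto) hlt
    · by_contra hcon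
      push Not at hcon
      have : t ≤ s := hmin ⟨⟨hs.1, h.le.trans ht.1.2⟩, hcon.le⟩
      linarith
  exact ⟨t, ht.1, le_antisymm (hle t ⟨ht.1.1, le_rfl⟩) ht.2, hle⟩

theorem seed (H : Sp Z μ Q) : ∃ Λ m : ℝ, SeedC μ Q Λ m := by
  obtain ⟨Λ, m, hΛ, hm, hlink⟩ := link H (c₀ := 1 / 16) (by norm_num)
  refine ⟨Λ, m, hΛ, hm, ?_⟩
  intro x r hr hrD ρ hρ l hl hl' hI
  obtain ⟨z, hz⟩ := far H x
  obtain ⟨κ, L₀, hκ, hL₀, k0, k1⟩ := H.rc x z
  have hκc := hκ.continuous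
  set f : ℝ → ℝ := fun t => dist x (κ t) with hf
  have hfc : Continuous f := continuous_const.dist hκc
  have hf0 : f 0 = 0 := by simp [hf, k0]
  have hfL : r ≤ f L₀ := by
    show r ≤ dist x (κ L₀)
    rw [k1]; linarith
  -- first piece
  obtain ⟨t₁, ht₁, ft₁, hle₁⟩ := first_hit hfc hL₀ (c := r / 16) (by rw [hf0]; positivity)
    (by linarith)
  -- second piece
  obtain ⟨t₃, ht₃, ft₃, hle₃⟩ := first_hit hfc hL₀ (c := 3 * r / 4) (by rw [hf0]; positivity)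
    (by linarith)
  -- last time before t₃ with f ≤ r/2: reverse time
  obtain ⟨u, hu, fu, hleu⟩ := first_hit (f := fun s => - f (t₃ - s)) (by fun_prop) ht₃.1
    (c := -(r / 2)) (by simp only [sub_zero, ft₃]; linarith)
    (by simp only [sub_self, hf0]; linarith)
  set t₂ := t₃ - u with ht₂
  have ft₂ : f t₂ = r / 2 := by
    have : - f (t₃ - u) = -(r / 2) := fu
    linarith
  have ht₂₃ : t₂ ≤ t₃ := by linarith [hu.1]
  have ht₂0 : 0 ≤ t₂ := by linarith [hu.2]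
  have hge₂ : ∀ s ∈ Icc t₂ t₃, r / 2 ≤ f s := by
    intro s hs
    have := hleu (t₃ - s) ⟨by linarith [hs.2], by linarith [hs.1]⟩
    simp only [sub_sub_cancel] at this
    linarith
  have hbd : ∀ a b : ℝ, Bornology.IsBounded (κ '' Icc a b) := fun a b =>
    (isCompact_Icc.image hκc).isBounded
  have hE1 : κ '' Icc 0 t₁ ⊆ closedBall x r := by
    rintro _ ⟨s, hs, rfl⟩
    rw [mem_closedBall, dist_comm]
    have := hle₁ s hs
    show f s ≤ r
    linarith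
  have hF1 : κ '' Icc t₂ t₃ ⊆ closedBall x r := by
    rintro _ ⟨s, hs, rfl⟩
    rw [mem_closedBall, dist_comm]
    have := hle₃ s ⟨ht₂0.trans hs.1, hs.2⟩
    show f s ≤ r
    linarith
  have hE2 : 1 / 16 * r ≤ diam (κ '' Icc 0 t₁) := by
    have h1 := dist_le_diam_of_mem (hbd 0 t₁) ⟨0, ⟨le_rfl, ht₁.1⟩, rfl⟩ ⟨t₁, ⟨ht₁.1, le_rfl⟩, rfl⟩
    rw [k0] at h1
    have h2 : dist x (κ t₁) = r / 16 := ft₁
    linarith
  have hF2 : 1 / 16 * r ≤ diam (κ '' Icc t₂ t₃) := by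
    have h1 := dist_le_diam_of_mem (hbd t₂ t₃) ⟨t₂, ⟨le_rfl, ht₂₃⟩, rfl⟩ ⟨t₃, ⟨ht₂₃, le_rfl⟩, rfl⟩
    have h2 : dist x (κ t₂) = r / 2 := ft₂
    have h3 : dist x (κ t₃) = 3 * r / 4 := ft₃
    have h4 := dist_triangle x (κ t₂) (κ t₃)
    linarith
  obtain ⟨γ, L, hγ, hL, ⟨s, hs, hs'⟩, ⟨t, ht, ht'⟩, him, hint⟩ := hlink x r hr _ _
    (isPI_Icc' hκc ht₁.1) (isPI_Icc' hκc ht₂₃) hE1 hF1 hE2 hF2 ρ hρ l hl hl' hI
  refine ⟨γ, L, hγ, hL, him, ?_, ?_, hint⟩
  · rw [← hs']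
    have := hle₁ s hs
    show f s ≤ r / 8
    linarith
  · rw [← ht']
    exact hge₂ t ht

end QSCoh
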