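import Mathlib
import Pool.Agent.Lib.MP_cccab4_an.Defs
import Pool.Agent.Lib.MP_cccab4_an.S01

/-!
# MP_cccab4_an, module S02

If `ε/2 ≤ D = diam univ`: the balls `ball x (ε/2)`, `x ∈ A`, are pairwise disjoint, contained in
`closedBall z ((R+1)ε)`, and have mass `≥ c (ε/2)^Q`, so `A.card ≤ C (R+1)^Q 2^Q/c`.  If `ε > 2D` then
`A` has at most one point.
-/

open MeasureTheory Metric Set Filter Topology
open scoped ENNReal NNReal

namespace QSCoh

variable {Z : Type*} [MetricSpace Z] [CompactSpace Z] [MeasurableSpace Z] [BorelSpace Z]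
  {μ : Measure Z} {Q : ℝ}

theorem count_sep (H : Sp Z μ Q) {R : ℝ} (hR : 0 < R) : ∃ K : ℕ, ∀ ε : ℝ, 0 < ε →
    ∀ N : Finset Z, (∀ x ∈ N, ∀ y ∈ N, x ≠ y → ε ≤ dist x y) →
    ∀ z : Z, ∀ A ⊆ N, (∀ x ∈ A, dist z x ≤ R * ε) → A.card ≤ K := by
  have := finite_mu H
  have hQ : 0 < Q := by linarith [H.hQ]
  obtain ⟨C, hC, hup⟩ := mass_upper H
  obtain ⟨c, hc, hlo⟩ := mass_lower H
  set D := diam (univ : Set Z) with hD
  have hDpos : 0 < D := H.hD
  refine ⟨⌈C * (R + 1) ^ Q * 2 ^ Q / c⌉₊ + 1, fun ε hε N hN z A hA hz => ?_⟩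
  by_cases hεD : ε / 2 ≤ D
  · -- volume count
    have hdis : (A : Set Z).PairwiseDisjoint (fun x => ball x (ε / 2)) := by
      intro x hx y hy hxy
      refine ball_disjoint_ball ?_
      have := hN x (hA hx) y (hA hy) hxy
      linarith
    have hsub : (⋃ x ∈ A, ball x (ε / 2)) ⊆ closedBall z ((R + 1) * ε) := by
      intro w hw
      simp only [mem_iUnion, exists_prop] at hw
      obtain ⟨x, hx, hw⟩ := hw
      rw [mem_ball] at hw
      rw [mem_closedBall]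
      have h1 := hz x hx
      have h2 := dist_triangle w x z
      rw [dist_comm x z] at h2
      nlinarith
    have h3 : ∑ x ∈ A, μ (ball x (ε / 2)) ≤ μ (closedBall z ((R + 1) * ε)) := by
      rw [← measure_biUnion_finset hdis (fun x _ => measurableSet_ball)]
      exact measure_mono hsub
    have h4 : (A.card : ℝ≥0∞) * ENNReal.ofReal (c * (ε / 2) ^ Q) ≤
        ENNReal.ofReal (C * ((R + 1) * ε) ^ Q) := by
      calc (A.card : ℝ≥0∞) * ENNReal.ofReal (c * (ε / 2) ^ Q)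
          = ∑ _x ∈ A, ENNReal.ofReal (c * (ε / 2) ^ Q) := by rw [Finset.sum_const, nsmul_eq_mul]
        _ ≤ ∑ x ∈ A, μ (ball x (ε / 2)) :=
            Finset.sum_le_sum fun x _ => hlo x _ (by linarith) hεD
        _ ≤ _ := h3
        _ ≤ _ := hup z _ (by positivity)
    have h5 : (A.card : ℝ) * (c * (ε / 2) ^ Q) ≤ C * ((R + 1) * ε) ^ Q := by
      rw [← ENNReal.ofReal_natCast, ← ENNReal.ofReal_mul (by positivity)] at h4
      exact (ENNReal.ofReal_le_ofReal_iff (by positivity)).1 h4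
    rw [Real.div_rpow hε.le (by norm_num), Real.mul_rpow (by linarith) hε.le] at h5
    have hεQ : 0 < ε ^ Q := by positivity
    have h2Q : (0 : ℝ) < 2 ^ Q := by positivity
    have h6 : (A.card : ℝ) ≤ C * (R + 1) ^ Q * 2 ^ Q / c := by
      rw [le_div_iff₀ hc]
      have h7 : (A.card : ℝ) * c * (ε ^ Q / 2 ^ Q) ≤ C * (R + 1) ^ Q * 2 ^ Q * (ε ^ Q / 2 ^ Q) := by
        calc (A.card : ℝ) * c * (ε ^ Q / 2 ^ Q) = (A.card : ℝ) * (c * (ε ^ Q / 2 ^ Q)) := by ring
          _ ≤ C * ((R + 1) ^ Q * ε ^ Q) := h5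
          _ = C * (R + 1) ^ Q * 2 ^ Q * (ε ^ Q / 2 ^ Q) := by field_simp
      exact le_of_mul_le_mul_right h7 (by positivity)
    have h8 : (A.card : ℝ) ≤ (⌈C * (R + 1) ^ Q * 2 ^ Q / c⌉₊ : ℕ) := h6.trans (Nat.le_ceil _)
    have h9 : A.card ≤ ⌈C * (R + 1) ^ Q * 2 ^ Q / c⌉₊ := by exact_mod_cast h8
    omega
  · push Not at hεD
    have h1 : A.card ≤ 1 := by
      rw [Finset.card_le_one]
      intro x hx y hy
      by_contra hxy
      have h2 := hN x (hA hx) y (hA hy) hxy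
      have h3 : dist x y ≤ D :=
        dist_le_diam_of_mem isBounded_of_compactSpace (mem_univ _) (mem_univ _)
      linarith
    omega

theorem net_overlap (H : Sp Z μ Q) : ∃ K : ℕ, ∀ (k : ℕ) (z : Z), ∀ A ⊆ net Z k,
    (∀ x ∈ A, dist z x ≤ 4 * ep k) → A.card ≤ K := by
  obtain ⟨K, hK⟩ := count_sep H (R := 4) (by norm_num)
  exact ⟨K, fun k z A hA hz => hK (ep k) (by unfold ep; positivity) (net Z k)
    (net_isNet Z k).sep z A hA hz⟩

end QSCoh
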