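import Mathlib
import Pool.Agent.Lib.MP_cccab4_an.Defs

/-!
# MP_cccab4_an, module S07a

`ε = ep k`.  Key fact: if `J ⊆ [0,L]` is an interval `[a,b]` with `b - a ≤ ε`, `a ∈ J`, choose
`x ∈ net Z k` with `d(γ a, x) < ε`; then `γ(J) ⊆ ball x (2ε)`, so
`∫_J rk k v (γ τ) dτ ≥ (b-a)·diam (v '' ball x (4ε))/ε`, while `v '' γ(J)` (and also
`v '' ball (γ a) ε`, and `v '' ball (γ t) ε` for `t ∈ J`) lies in `v '' ball x (4ε)` which is bounded
(`v` continuous on a compact space), so all `edist`s there are `≤ ofReal (diam (v '' ball x (4ε)))`.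
* `osc_ball`: inside `[0,L]` there is an interval of length `ε/2` containing `t`; use the key fact
  (`γ(J) ⊆ closedBall (γ t) (ε/2)`; choose `x` with `d(γ t,x) < ε`, then `γ(J) ⊆ ball x (2ε)` and
  `ball (γ t) ε ⊆ ball x (2ε)`).
* `osc_curve`: let `n = ⌊2L/ε⌋₊ ≥ 1`, cut `[0,L]` into `n` intervals of equal length
  `L/n ∈ [ε/2, ε]`; on each `diam (v '' γ(J)) ≤ 2 ∫_J rk`; the intervals are disjoint up to endpoints;
  a chain of at most `n` intervals joins `s` to `t`.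
-/

open MeasureTheory Metric Set Filter Topology
open scoped ENNReal NNReal

namespace QSCoh

set_option linter.unusedSectionVars false

variable {Z : Type*} [MetricSpace Z] [CompactSpace Z] [MeasurableSpace Z] [BorelSpace Z]
  {μ : Measure Z} {Q : ℝ}

theorem ep_pos (k : ℕ) : 0 < ep k := by unfold ep; positivity

theorem measurable_rk {Y : Type*} [PseudoMetricSpace Y] (k : ℕ) (v : Z → Y) :
    Measurable (rk k v) := by
  unfold rk
  refine Finset.measurable_sum _ fun x _ => ?_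
  exact (measurable_const.indicator measurableSet_ball).const_mul _

/-- Two values of `v` on a ball. -/
theorem edist_le_diam {Y : Type*} [PseudoMetricSpace Y] {v : Z → Y} (hv : Continuous v) {A : Set Z}
    {u w : Z} (hu : u ∈ A) (hw : w ∈ A) : edist (v u) (v w) ≤ ENNReal.ofReal (diam (v '' A)) := by
  have hb : Bornology.IsBounded (v '' A) :=
    ((isCompact_range hv).isBounded).subset (image_subset_range _ _)
  rw [edist_dist]
  exact ENNReal.ofReal_le_ofReal (dist_le_diam_of_mem hb ⟨u, hu, rfl⟩ ⟨w, hw, rfl⟩)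

theorem osc_key {Y : Type*} [PseudoMetricSpace Y] (v : Z → Y) (k : ℕ)
    {γ : ℝ → Z} (hγ : LipschitzWith 1 γ) {a b t : ℝ} (hba : b - a ≤ ep k) (ht : t ∈ Icc a b) :
    ∃ x ∈ net Z k, dist (γ t) x < ep k ∧ ENNReal.ofReal ((b - a) / ep k) *
      ENNReal.ofReal (diam (v '' ball x (4 * ep k))) ≤ ∫⁻ τ in Ioc a b, rk k v (γ τ) := by
  have hε := ep_pos k
  obtain ⟨x, hx, hxt⟩ := (net_isNet Z k).cov (γ t)
  refine ⟨x, hx, hxt, ?_⟩
  have hba0 : 0 ≤ b - a := by linarith [ht.1, ht.2]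
  have hlow : ∀ τ ∈ Ioc a b, ENNReal.ofReal (diam (v '' ball x (4 * ep k)) / ep k) ≤
      rk k v (γ τ) := by
    intro τ hτ
    have h1 : dist (γ τ) (γ t) ≤ |τ - t| := by
      have := hγ.dist_le_mul τ t
      simpa [Real.dist_eq] using this
    have h2 : |τ - t| ≤ b - a := abs_le.2 ⟨by linarith [hτ.1, ht.2], by linarith [hτ.2, ht.1]⟩
    have h3 : γ τ ∈ ball x (2 * ep k) := by
      rw [mem_ball]
      have := dist_triangle (γ τ) (γ t) x
      linarith
    unfold rk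
    refine le_trans (le_of_eq ?_) (Finset.single_le_sum (f := fun x =>
      ENNReal.ofReal (diam (v '' ball x (4 * ep k)) / ep k) *
      (ball x (2 * ep k)).indicator 1 (γ τ)) (fun _ _ => zero_le) hx)
    simp [indicator_of_mem h3]
  calc ENNReal.ofReal ((b - a) / ep k) * ENNReal.ofReal (diam (v '' ball x (4 * ep k)))
      = ENNReal.ofReal (diam (v '' ball x (4 * ep k)) / ep k) * volume (Ioc a b) := by
        rw [Real.volume_Ioc, ← ENNReal.ofReal_mul (by positivity), ← ENNReal.ofReal_mul (by positivity)]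
        congr 1
        ring
    _ = ∫⁻ _ in Ioc a b, ENNReal.ofReal (diam (v '' ball x (4 * ep k)) / ep k) := by
        rw [setLIntegral_const]
    _ ≤ _ := setLIntegral_mono' measurableSet_Ioc hlow

theorem osc_base {Y : Type*} [PseudoMetricSpace Y] {v : Z → Y} (hv : Continuous v) (k : ℕ)
    {γ : ℝ → Z} (hγ : LipschitzWith 1 γ) {a b t : ℝ} (hba : b - a ≤ ep k)
    (hab : ep k / 2 ≤ b - a) (ht : t ∈ Icc a b) {u w : Z} (hu : dist u (γ t) ≤ b - a ∨ u ∈ ball (γ t) (ep k))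
    (hw : dist w (γ t) ≤ b - a ∨ w ∈ ball (γ t) (ep k)) :
    edist (v u) (v w) ≤ 2 * ∫⁻ τ in Ioc a b, rk k v (γ τ) := by
  have hε := ep_pos k
  obtain ⟨x, hx, hxt, h⟩ := osc_key v k hγ hba ht
  have hmem : ∀ u : Z, dist u (γ t) ≤ b - a ∨ u ∈ ball (γ t) (ep k) → u ∈ ball x (4 * ep k) := by
    intro u hu
    have h1 : dist u (γ t) ≤ ep k := by
      rcases hu with h | h
      · linarith
      · exact (mem_ball.1 h).le
    rw [mem_ball]
    have := dist_triangle u (γ t) x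
    linarith
  have h1 : edist (v u) (v w) ≤ ENNReal.ofReal (diam (v '' ball x (4 * ep k))) :=
    edist_le_diam hv (hmem u hu) (hmem w hw)
  refine h1.trans ?_
  have h2 : (2⁻¹ : ℝ≥0∞) ≤ ENNReal.ofReal ((b - a) / ep k) := by
    have : (2⁻¹ : ℝ≥0∞) = ENNReal.ofReal (1 / 2) := by
      rw [one_div, ENNReal.ofReal_inv_of_pos (by norm_num)]
      simp
    rw [this]
    refine ENNReal.ofReal_le_ofReal ?_
    rw [le_div_iff₀ hε]
    linarith
  have h3 : 2⁻¹ * ENNReal.ofReal (diam (v '' ball x (4 * ep k))) ≤ ∫⁻ τ in Ioc a b, rk k v (γ τ) :=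
    (mul_le_mul_left h2 _).trans h
  calc ENNReal.ofReal (diam (v '' ball x (4 * ep k)))
      = 2 * (2⁻¹ * ENNReal.ofReal (diam (v '' ball x (4 * ep k)))) := by
        rw [← mul_assoc, ENNReal.mul_inv_cancel (by norm_num) (by norm_num), one_mul]
    _ ≤ _ := mul_le_mul_right h3 _

theorem osc_ind {Y : Type*} [PseudoMetricSpace Y] {v : Z → Y} (hv : Continuous v) (k : ℕ)
    {γ : ℝ → Z} (hγ : LipschitzWith 1 γ) (n : ℕ) : ∀ a b : ℝ, ep k / 2 ≤ b - a →
    b - a ≤ (n + 2) * (ep k / 2) → ∀ s ∈ Icc a b, ∀ t ∈ Icc a b,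
    edist (v (γ s)) (v (γ t)) ≤ 2 * ∫⁻ τ in Ioc a b, rk k v (γ τ) := by
  have hε := ep_pos k
  have hd : ∀ s t : ℝ, dist (γ s) (γ t) ≤ |s - t| := fun s t => by
    have := hγ.dist_le_mul s t
    simpa [Real.dist_eq] using this
  have hbase : ∀ a b : ℝ, ep k / 2 ≤ b - a → b - a ≤ ep k → ∀ s ∈ Icc a b, ∀ t ∈ Icc a b,
      edist (v (γ s)) (v (γ t)) ≤ 2 * ∫⁻ τ in Ioc a b, rk k v (γ τ) := by
    intro a b h1 h2 s hs t ht
    refine osc_base hv k hγ h2 h1 ht (Or.inl ?_) (Or.inl ?_)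
    · exact (hd s t).trans (abs_le.2 ⟨by linarith [hs.1, ht.2], by linarith [hs.2, ht.1]⟩)
    · rw [dist_self]; linarith
  induction n with
  | zero =>
    intro a b h1 h2
    exact hbase a b h1 (by simp at h2; linarith)
  | succ n ih =>
    intro a b h1 h2 s hs t ht
    by_cases hc : b - a ≤ ep k
    · exact hbase a b h1 hc s hs t ht
    · push Not at hc
      set c := a + ep k / 2 with hcdef
      have hac : a ≤ c := by linarith
      have hcb : c ≤ b := by linarith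
      have hsplit : ∫⁻ τ in Ioc a b, rk k v (γ τ) =
          (∫⁻ τ in Ioc a c, rk k v (γ τ)) + ∫⁻ τ in Ioc c b, rk k v (γ τ) := by
        rw [← Ioc_union_Ioc_eq_Ioc hac hcb]
        exact lintegral_union measurableSet_Ioc (Ioc_disjoint_Ioc_of_le le_rfl)
      have p1 := hbase a c (by linarith) (by linarith)
      have p2 := ih c b (by linarith) (by push_cast at h2; linarith)
      -- reduce to comparisons through c
      have q1 : ∀ s ∈ Icc a b, s ≤ c → edist (v (γ s)) (v (γ c)) ≤ 2 * ∫⁻ τ in Ioc a c, rk k v (γ τ) :=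
        fun s hs hsc => p1 s ⟨hs.1, hsc⟩ c ⟨hac, le_rfl⟩
      have q2 : ∀ s ∈ Icc a b, c ≤ s → edist (v (γ c)) (v (γ s)) ≤ 2 * ∫⁻ τ in Ioc c b, rk k v (γ τ) :=
        fun s hs hsc => p2 c ⟨le_rfl, hcb⟩ s ⟨hsc, hs.2⟩
      rw [hsplit, mul_add]
      rcases le_total s c with h | h <;> rcases le_total t c with h' | h'
      · exact (p1 s ⟨hs.1, h⟩ t ⟨ht.1, h'⟩).trans le_self_add
      · exact (edist_triangle _ (v (γ c)) _).trans (add_le_add (q1 s hs h) (q2 t ht h'))
      · rw [edist_comm]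
        exact (edist_triangle _ (v (γ c)) _).trans (add_le_add (q1 t ht h') (q2 s hs h))
      · exact (p2 s ⟨h, hs.2⟩ t ⟨h', ht.2⟩).trans le_add_self

/-- Oscillation along a curve which is not too short. -/
theorem osc_curve {Y : Type*} [PseudoMetricSpace Y] {v : Z → Y} (hv : Continuous v) (k : ℕ)
    {γ : ℝ → Z} {L : ℝ} (hγ : LipschitzWith 1 γ) (hL : ep k / 2 ≤ L) {s t : ℝ}
    (hs : s ∈ Icc 0 L) (ht : t ∈ Icc 0 L) :
    edist (v (γ s)) (v (γ t)) ≤ 2 * ∫⁻ τ in Icc 0 L, rk k v (γ τ) := by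
  have hε := ep_pos k
  obtain ⟨n, hn⟩ := exists_nat_ge (L / (ep k / 2))
  rw [div_le_iff₀ (by positivity)] at hn
  have h := osc_ind hv k hγ n 0 L (by linarith) (by nlinarith) s hs t ht
  exact h.trans (mul_le_mul_right (lintegral_mono_set Ioc_subset_Icc_self) _)

/-- Oscillation in a ball around a point of such a curve. -/
theorem osc_ball {Y : Type*} [PseudoMetricSpace Y] {v : Z → Y} (hv : Continuous v) (k : ℕ)
    {γ : ℝ → Z} {L : ℝ} (hγ : LipschitzWith 1 γ) (hL : ep k / 2 ≤ L) {t : ℝ}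
    (ht : t ∈ Icc 0 L) {u w : Z} (hu : u ∈ ball (γ t) (ep k)) (hw : w ∈ ball (γ t) (ep k)) :
    edist (v u) (v w) ≤ 2 * ∫⁻ τ in Icc 0 L, rk k v (γ τ) := by
  have hε := ep_pos k
  obtain ⟨a, ha0, hat, hta⟩ : ∃ a, 0 ≤ a ∧ a ≤ t ∧ t ≤ a + ep k / 2 ∧ a + ep k / 2 ≤ L := by
    by_cases h : ep k / 2 ≤ t
    · exact ⟨t - ep k / 2, by linarith, by linarith, by linarith, by linarith [ht.2]⟩
    · push Not at h
      exact ⟨0, le_rfl, ht.1, by linarith, by linarith⟩
  have h := osc_base hv k hγ (a := a) (b := a + ep k / 2) (by linarith) (by linarith)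
    ⟨hat, hta.1⟩ (Or.inr hu) (Or.inr hw)
  refine h.trans (mul_le_mul_right (lintegral_mono_set ?_) _)
  exact fun τ hτ => ⟨by linarith [hτ.1], by linarith [hτ.2, hta.2]⟩

end QSCoh
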