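import Mathlib
import Pool.Agent.Lib.MP_cccab4_an.Defs
import Pool.Agent.Lib.MP_cccab4_an.S02
import Pool.Agent.Lib.MP_cccab4_an.S07a

/-!
# MP_cccab4_an, module S07b

At a point `z` at most `K` (from `net_overlap`) terms of the sum defining `rk k v z` are nonzero, so
`rk^Q ≤ K^{Q-1} Σ_x (diam(v '' ball x (4ε))/ε)^Q 1_{ball x (2ε)}` (power mean inequality, e.g.
`ENNReal.rpow_sum_le_const_mul_sum_rpow` on the finset of `x` with `z ∈ ball x (2ε)`).  For
`z ∈ closedBall x₀ r` only `x ∈ closedBall x₀ (r+2ε)` count.  Integrate: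
`μ (ball x (2ε)) ≤ C (2ε)^Q`; `ε^Q` cancels.  `rk_lt_top`: `rk` is bounded by a finite constant and `μ`
is finite (`diam` is a real number in any case).
-/

open MeasureTheory Metric Set Filter Topology
open scoped ENNReal NNReal

namespace QSCoh

set_option linter.unusedSectionVars false

variable {Z : Type*} [MetricSpace Z] [CompactSpace Z] [MeasurableSpace Z] [BorelSpace Z]
  {μ : Measure Z} {Q : ℝ}

/-- Power of a sum of indicators with bounded overlap. -/
theorem sum_ind_rpow {ι X : Type*} (N : Finset ι) (a : ι → ℝ≥0∞) (B : ι → Set X) (K : ℕ) {p : ℝ}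
    (hp : 1 ≤ p) (z : X) (hK : ∀ A ⊆ N, (∀ i ∈ A, z ∈ B i) → A.card ≤ K) :
    (∑ i ∈ N, a i * (B i).indicator 1 z) ^ p ≤
      (K : ℝ≥0∞) ^ (p - 1) * ∑ i ∈ N, a i ^ p * (B i).indicator 1 z := by
  classical
  set A := N.filter (fun i => z ∈ B i) with hA
  have h1 : ∑ i ∈ N, a i * (B i).indicator 1 z = ∑ i ∈ A, a i := by
    rw [hA, Finset.sum_filter]
    refine Finset.sum_congr rfl fun i _ => ?_
    by_cases h : z ∈ B i <;> simp [h]
  have h2 : ∑ i ∈ N, a i ^ p * (B i).indicator 1 z = ∑ i ∈ A, a i ^ p := by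
    rw [hA, Finset.sum_filter]
    refine Finset.sum_congr rfl fun i _ => ?_
    by_cases h : z ∈ B i <;> simp [h]
  rw [h1, h2]
  refine (ENNReal.rpow_sum_le_const_mul_sum_rpow A a hp).trans ?_
  refine mul_le_mul_left (ENNReal.rpow_le_rpow ?_ (by linarith)) _
  have h3 : A.card ≤ K := hK A (Finset.filter_subset _ _) fun i hi => (Finset.mem_filter.1 hi).2
  exact_mod_cast h3

theorem Ek_mono {Y : Type*} [PseudoMetricSpace Y] (Q : ℝ) (k : ℕ) (v : Z → Y) {W W' : Set Z}
    (h : W ⊆ W') : Ek Q k W v ≤ Ek Q k W' v := by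
  classical
  unfold Ek
  refine Finset.sum_le_sum_of_subset_of_nonneg ?_ (fun _ _ _ => Real.rpow_nonneg diam_nonneg _)
  intro x hx
  rw [Finset.mem_filter] at hx ⊢
  exact ⟨hx.1, h hx.2⟩

theorem Ek_nonneg {Y : Type*} [PseudoMetricSpace Y] (Q : ℝ) (k : ℕ) (v : Z → Y) (W : Set Z) :
    0 ≤ Ek Q k W v := by
  classical
  unfold Ek
  exact Finset.sum_nonneg fun _ _ => Real.rpow_nonneg diam_nonneg _

/-- The `Q`-energy of `rk` is bounded by the discrete energy. -/
theorem energy_rk {Y : Type*} [PseudoMetricSpace Y] (H : Sp Z μ Q) : ∃ C : ℝ, 0 < C ∧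
    ∀ (k : ℕ) (v : Z → Y), Continuous v → ∀ (x₀ : Z) (r : ℝ),
    ∫⁻ z in closedBall x₀ r, rk k v z ^ Q ∂μ ≤
      ENNReal.ofReal (C * Ek Q k (closedBall x₀ (r + 2 * ep k)) v) := by
  classical
  have hQ1 : 1 < Q := H.hQ
  have hQ : 0 < Q := by linarith
  obtain ⟨K, hK⟩ := net_overlap H
  obtain ⟨C, hC, hup⟩ := mass_upper H
  refine ⟨(K : ℝ) ^ (Q - 1) * (C * 2 ^ Q) + 1, by positivity, fun k v hv x₀ r => ?_⟩
  have hε := ep_pos k
  set ε := ep k with hεd
  set N := (net Z k).filter (· ∈ closedBall x₀ (r + 2 * ε)) with hN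
  set d : Z → ℝ := fun x => diam (v '' ball x (4 * ε)) with hd
  have hd0 : ∀ x, 0 ≤ d x := fun x => diam_nonneg
  -- pointwise bound on the ball
  have hpt : ∀ z ∈ closedBall x₀ r, rk k v z ^ Q ≤
      (K : ℝ≥0∞) ^ (Q - 1) * ∑ x ∈ N, ENNReal.ofReal (d x / ε) ^ Q *
        (ball x (2 * ε)).indicator 1 z := by
    intro z hz
    have h1 : rk k v z = ∑ x ∈ N, ENNReal.ofReal (d x / ε) * (ball x (2 * ε)).indicator 1 z := by
      unfold rk
      rw [hN, Finset.sum_filter]
      refine Finset.sum_congr rfl fun x _ => ?_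
      by_cases h : x ∈ closedBall x₀ (r + 2 * ε)
      · rw [if_pos h]
      · rw [if_neg h]
        have h2 : z ∉ ball x (2 * ep k) := fun h2 => h (by
          rw [mem_ball] at h2
          rw [mem_closedBall] at hz ⊢
          have := dist_triangle x z x₀
          rw [dist_comm x z] at this
          linarith)
        simp [h2]
    rw [h1]
    refine sum_ind_rpow N _ _ K hQ1.le z ?_
    intro A hA hz'
    refine hK k z A (hA.trans (Finset.filter_subset _ _)) fun x hx => ?_
    have := mem_ball.1 (hz' x hx)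
    linarith
  calc ∫⁻ z in closedBall x₀ r, rk k v z ^ Q ∂μ
      ≤ ∫⁻ z in closedBall x₀ r, (K : ℝ≥0∞) ^ (Q - 1) * ∑ x ∈ N, ENNReal.ofReal (d x / ε) ^ Q *
        (ball x (2 * ε)).indicator 1 z ∂μ :=
        setLIntegral_mono' isClosed_closedBall.measurableSet hpt
    _ ≤ ∫⁻ z, (K : ℝ≥0∞) ^ (Q - 1) * ∑ x ∈ N, ENNReal.ofReal (d x / ε) ^ Q *
        (ball x (2 * ε)).indicator 1 z ∂μ := setLIntegral_le_lintegral _ _
    _ = (K : ℝ≥0∞) ^ (Q - 1) * ∑ x ∈ N, ENNReal.ofReal (d x / ε) ^ Q * μ (ball x (2 * ε)) := by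
        rw [lintegral_const_mul _ (Finset.measurable_sum _ fun x _ =>
          (measurable_one.indicator measurableSet_ball).const_mul _)]
        congr 1
        rw [lintegral_finsetSum _ fun x _ =>
          (measurable_one.indicator measurableSet_ball).const_mul _]
        refine Finset.sum_congr rfl fun x _ => ?_
        rw [lintegral_const_mul _ (measurable_one.indicator measurableSet_ball)]
        congr 1
        exact lintegral_indicator_one measurableSet_ball
    _ ≤ (K : ℝ≥0∞) ^ (Q - 1) * ∑ x ∈ N, ENNReal.ofReal (C * 2 ^ Q * d x ^ Q) := by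
        refine mul_le_mul_right (Finset.sum_le_sum fun x _ => ?_) _
        calc ENNReal.ofReal (d x / ε) ^ Q * μ (ball x (2 * ε))
            ≤ ENNReal.ofReal (d x / ε) ^ Q * ENNReal.ofReal (C * (2 * ε) ^ Q) :=
              mul_le_mul_right ((measure_mono ball_subset_closedBall).trans
                (hup x _ (by positivity))) _
          _ = ENNReal.ofReal (C * 2 ^ Q * d x ^ Q) := by
              rw [ENNReal.ofReal_rpow_of_nonneg (div_nonneg (hd0 x) hε.le) hQ.le,
                ← ENNReal.ofReal_mul (by have := hd0 x; positivity)]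
              congr 1
              rw [Real.div_rpow (hd0 x) hε.le, Real.mul_rpow (by norm_num) hε.le]
              field_simp
    _ = ENNReal.ofReal ((K : ℝ) ^ (Q - 1) * (C * 2 ^ Q) * ∑ x ∈ N, d x ^ Q) := by
        rw [← ENNReal.ofReal_sum_of_nonneg (fun x _ => by have := hd0 x; positivity),
          ← Finset.mul_sum, mul_assoc ((K : ℝ) ^ (Q - 1)),
          ENNReal.ofReal_mul (by positivity : (0:ℝ) ≤ (K : ℝ) ^ (Q - 1))]
        congr 1
        rw [← ENNReal.ofReal_natCast, ENNReal.ofReal_rpow_of_nonneg (by positivity) (by linarith)]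
    _ ≤ _ := by
        refine ENNReal.ofReal_le_ofReal ?_
        have h5 : ∑ x ∈ N, d x ^ Q = Ek Q k (closedBall x₀ (r + 2 * ε)) v := by
          simp only [hN, hd, Ek, hεd]
        rw [h5]
        have := Ek_nonneg Q k v (closedBall x₀ (r + 2 * ε))
        nlinarith

theorem rk_lt_top {Y : Type*} [PseudoMetricSpace Y] (H : Sp Z μ Q) (k : ℕ) (v : Z → Y)
    (A : Set Z) : ∫⁻ z in A, rk k v z ^ Q ∂μ < ∞ := by
  have := finite_mu H
  have hQ : 0 < Q := by linarith [H.hQ]
  set M : ℝ≥0∞ := ∑ x ∈ net Z k, ENNReal.ofReal (diam (v '' ball x (4 * ep k)) / ep k) with hM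
  have hMtop : M < ∞ := ENNReal.sum_lt_top.2 fun x _ => ENNReal.ofReal_lt_top
  have hle : ∀ z, rk k v z ^ Q ≤ M ^ Q := by
    intro z
    refine ENNReal.rpow_le_rpow ?_ hQ.le
    unfold rk
    refine Finset.sum_le_sum fun x _ => ?_
    by_cases h : z ∈ ball x (2 * ep k)
    · rw [indicator_of_mem h]; simp
    · rw [indicator_of_notMem h]; simp
  calc ∫⁻ z in A, rk k v z ^ Q ∂μ ≤ ∫⁻ _ in A, M ^ Q ∂μ := lintegral_mono hle
    _ = M ^ Q * μ A := by rw [setLIntegral_const]
    _ < ∞ := ENNReal.mul_lt_top (ENNReal.rpow_lt_top_of_nonneg hQ.le hMtop.ne) (measure_lt_top _ _)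

end QSCoh
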