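import Mathlib
import Pool.Agent.Lib.MP_cccab4_an.Defs
import Pool.Agent.Lib.MP_cccab4_an.S05
import Pool.Agent.Lib.MP_cccab4_an.S07b

/-!
# MP_cccab4_an, module S09

`JJ_trans`: concatenate the paths (`Path.trans`); two points of the two pieces are compared through
`q`, which lies on both.  `step`: apply `link` with `c₀ = c`, `E = γ₁([0,L₁])`, `F = γ₂([0,L₂])`
(path images, diameters `≥ c R`), `ρ = rk k v`, `l = e`: a curve `β` of parameter length `ℓ` from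
`γ₁ s` to `γ₂ t` with `∫ rk(β) ≤ e`.
`JJ v (γ₁ 0) (γ₁ s) (2e₁)`, `JJ v (γ₂ t) (γ₂ 0) (2e₂)` by `osc_curve`.  If `ℓ ≥ ep k/2`:
`JJ v (γ₁ s) (γ₂ t) (2e)` by `osc_curve`; otherwise `β ⊆ ball (γ₁ s) (ep k)` and `osc_ball` for `γ₁`
gives `JJ v (γ₁ s) (γ₂ t) (2e₁)`.  Total `≤ 4e₁ + 2e₂ + 2e`.
-/

open MeasureTheory Metric Set Filter Topology
open scoped ENNReal NNReal

namespace QSCoh

set_option linter.unusedSectionVars false

variable {Z : Type*} [MetricSpace Z] [CompactSpace Z] [MeasurableSpace Z] [BorelSpace Z]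
  {μ : Measure Z} {Q : ℝ}

theorem JJ_trans {Y : Type*} [PseudoMetricSpace Y] {v : Z → Y} {p q r : Z} {c c' : ℝ≥0∞}
    (h : JJ v p q c) (h' : JJ v q r c') : JJ v p r (c + c') := by
  obtain ⟨α, a0, a1, ha⟩ := h
  obtain ⟨β, b0, b1, hb⟩ := h'
  let P : Path p q := ⟨α, a0, a1⟩
  let R : Path q r := ⟨β, b0, b1⟩
  have hP : ∀ s, ∃ s', P s = α s' := fun s => ⟨s, rfl⟩
  have hmem : ∀ s, (∃ s', (P.trans R) s = α s') ∨ ∃ s', (P.trans R) s = β s' := by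
    intro s
    have h1 : (P.trans R) s ∈ range (P.trans R) := ⟨s, rfl⟩
    rw [Path.trans_range] at h1
    rcases h1 with ⟨s', h2⟩ | ⟨s', h2⟩
    · exact Or.inl ⟨s', h2.symm⟩
    · exact Or.inr ⟨s', h2.symm⟩
  refine ⟨(P.trans R).toContinuousMap, (P.trans R).source, (P.trans R).target, fun s t => ?_⟩
  show edist (v ((P.trans R) s)) (v ((P.trans R) t)) ≤ c + c'
  have ea : ∀ s', edist (v (α s')) (v q) ≤ c := fun s' => by rw [← a1]; exact ha s' 1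
  have eb : ∀ s', edist (v q) (v (β s')) ≤ c' := fun s' => by rw [← b0]; exact hb 0 s'
  rcases hmem s with ⟨s', hs⟩ | ⟨s', hs⟩ <;> rcases hmem t with ⟨t', ht⟩ | ⟨t', ht⟩ <;> rw [hs, ht]
  · exact (ha s' t').trans le_self_add
  · exact (edist_triangle _ (v q) _).trans (add_le_add (ea s') (eb t'))
  · rw [edist_comm]
    exact (edist_triangle _ (v q) _).trans (add_le_add (ea t') (eb s'))
  · exact (hb s' t').trans le_add_self

theorem JJ_symm {Y : Type*} [PseudoMetricSpace Y] {v : Z → Y} {p q : Z} {c : ℝ≥0∞}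
    (h : JJ v p q c) : JJ v q p c := by
  obtain ⟨α, a0, a1, ha⟩ := h
  let P : Path p q := ⟨α, a0, a1⟩
  refine ⟨P.symm.toContinuousMap, P.symm.source, P.symm.target, fun s t => ?_⟩
  exact ha _ _

theorem JJ_mono {Y : Type*} [PseudoMetricSpace Y] {v : Z → Y} {p q : Z} {c c' : ℝ≥0∞}
    (h : JJ v p q c) (hc : c ≤ c') : JJ v p q c' := by
  obtain ⟨α, a0, a1, ha⟩ := h
  exact ⟨α, a0, a1, fun s t => (ha s t).trans hc⟩

/-- Joining two points of a curve along it. -/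
theorem JJ_curve {Y : Type*} [PseudoMetricSpace Y] {v : Z → Y} {γ : ℝ → Z} {L : ℝ}
    (hγ : Continuous γ) {c : ℝ≥0∞}
    (h : ∀ s ∈ Icc 0 L, ∀ t ∈ Icc 0 L, edist (v (γ s)) (v (γ t)) ≤ c) {s t : ℝ}
    (hs : s ∈ Icc 0 L) (ht : t ∈ Icc 0 L) : JJ v (γ s) (γ t) c := by
  refine ⟨⟨fun τ => γ (s + τ * (t - s)), by fun_prop⟩, by simp, by simp, fun τ τ' => ?_⟩
  have hm : ∀ τ : unitInterval, s + (τ : ℝ) * (t - s) ∈ Icc 0 L := by
    intro τ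
    have h0 := τ.2.1
    have h1 := τ.2.2
    constructor
    · nlinarith [hs.1, ht.1]
    · nlinarith [hs.2, ht.2]
  exact h _ (hm τ) _ (hm τ')

theorem isPI_Icc {Z : Type*} [TopologicalSpace Z] {γ : ℝ → Z} (hγ : Continuous γ) {a b : ℝ}
    (hab : a ≤ b) : IsPI (γ '' Icc a b) := by
  refine ⟨⟨fun τ => γ (a + τ * (b - a)), by fun_prop⟩, ?_⟩
  ext z
  constructor
  · rintro ⟨τ, rfl⟩
    have h0 := τ.2.1
    have h1 := τ.2.2
    exact ⟨_, ⟨by nlinarith, by nlinarith⟩, rfl⟩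
  · rintro ⟨t, ht, rfl⟩
    rcases hab.eq_or_lt with h | h
    · have : t = a := le_antisymm (by rw [h]; exact ht.2) ht.1
      refine ⟨0, ?_⟩
      simp [this]
    · have hba : 0 < b - a := by linarith
      refine ⟨⟨(t - a) / (b - a), div_nonneg (by linarith [ht.1]) hba.le,
        (div_le_one hba).2 (by linarith [ht.2])⟩, ?_⟩
      show γ (a + (t - a) / (b - a) * (b - a)) = γ t
      rw [div_mul_cancel₀ _ hba.ne']
      congr 1
      ring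

theorem step {Y : Type*} [PseudoMetricSpace Y] (H : Sp Z μ Q) {c : ℝ} (hc : 0 < c) :
    ∃ Λ' m' : ℝ, StepC (Z := Z) μ Q Y c Λ' m' := by
  obtain ⟨Λ', m', hΛ', hm', hlink⟩ := link H hc
  refine ⟨Λ', m', hΛ', hm', ?_⟩
  intro k v hv x₀ R hR γ₁ γ₂ L₁ L₂ hγ₁ hγ₂ hL₁ hL₂ him₁ him₂ hd₁ hd₂ e₁ e₂ e he₁ he₂ he he' hI
  have hε := ep_pos k
  have hL₁0 : 0 ≤ L₁ := by linarith
  have hL₂0 : 0 ≤ L₂ := by linarith
  have hdiam : ∀ (γ : ℝ → Z) (L : ℝ), LipschitzWith 1 γ → 0 ≤ L → c * R ≤ dist (γ 0) (γ L) →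
      c * R ≤ diam (γ '' Icc 0 L) := by
    intro γ L hγ hL hd
    refine hd.trans (dist_le_diam_of_mem ?_ ⟨0, ⟨le_rfl, hL⟩, rfl⟩ ⟨L, ⟨hL, le_rfl⟩, rfl⟩)
    exact (isCompact_Icc.image hγ.continuous).isBounded
  obtain ⟨β, ℓ, hβ, hℓ, ⟨s, hs, hs'⟩, ⟨t, ht, ht'⟩, -, hβI⟩ := hlink x₀ R hR (γ₁ '' Icc 0 L₁)
    (γ₂ '' Icc 0 L₂) (isPI_Icc hγ₁.continuous hL₁0) (isPI_Icc hγ₂.continuous hL₂0)
    (by rintro _ ⟨t, ht, rfl⟩; exact him₁ t ht) (by rintro _ ⟨t, ht, rfl⟩; exact him₂ t ht)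
    (hdiam γ₁ L₁ hγ₁ hL₁0 hd₁) (hdiam γ₂ L₂ hγ₂ hL₂0 hd₂) (rk k v) (measurable_rk k v) e he he' hI
  have j1 : JJ v (γ₁ 0) (γ₁ s) (2 * e₁) := by
    refine JJ_curve (L := L₁) hγ₁.continuous ?_ ⟨le_rfl, hL₁0⟩ hs
    exact fun s hs t ht => (osc_curve hv k hγ₁ hL₁ hs ht).trans (mul_le_mul_right he₁ _)
  have j3 : JJ v (γ₂ t) (γ₂ 0) (2 * e₂) := by
    refine JJ_curve (L := L₂) hγ₂.continuous ?_ ht ⟨le_rfl, hL₂0⟩
    exact fun s hs t ht => (osc_curve hv k hγ₂ hL₂ hs ht).trans (mul_le_mul_right he₂ _)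
  have j2 : JJ v (γ₁ s) (γ₂ t) (2 * e₁ + 2 * e) := by
    rw [hs', ht']
    by_cases hc : ep k / 2 ≤ ℓ
    · refine JJ_mono (c := 2 * e) ?_ le_add_self
      refine JJ_curve (L := ℓ) hβ.continuous ?_ ⟨le_rfl, hℓ⟩ ⟨hℓ, le_rfl⟩
      exact fun s hs t ht => (osc_curve hv k hβ hc hs ht).trans (mul_le_mul_right hβI _)
    · push Not at hc
      refine JJ_mono (c := 2 * e₁) ?_ le_self_add
      refine JJ_curve (L := ℓ) hβ.continuous ?_ ⟨le_rfl, hℓ⟩ ⟨hℓ, le_rfl⟩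
      have hmem : ∀ τ ∈ Icc 0 ℓ, β τ ∈ ball (γ₁ s) (ep k) := by
        intro τ hτ
        rw [hs', mem_ball]
        have := hβ.dist_le_mul τ 0
        simp only [NNReal.coe_one, one_mul, Real.dist_eq, sub_zero] at this
        rw [abs_of_nonneg hτ.1] at this
        linarith [hτ.2]
      exact fun τ hτ τ' hτ' => (osc_ball hv k hγ₁ hL₁ hs (hmem τ hτ) (hmem τ' hτ')).trans
        (mul_le_mul_right he₁ _)
  refine JJ_mono (JJ_trans (JJ_trans j1 j2) j3) (le_of_eq ?_)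
  ring

end QSCoh
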