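import Mathlib
import Pool.Agent.Lib.MP_cccab4_an.Defs
import Pool.Agent.Lib.MP_cccab4_an.S09

/-!
# MP_cccab4_an, module S10

For `i ≤ n` let `γ_i` be a seed at scale `r_i = r/2^i` with `∫ rk(γ_i) ≤ e i` (`hs`).  It has
`L_i ≥ d(γ_i 0, γ_i L_i) ≥ r_i/2 - r_i/8 = 3r_i/8 ≥ ep k/2`.  For `i < n`, `γ_i, γ_{i+1}` lie in
`closedBall x (Λ r_i)`, and `d(γ_i 0,γ_i L_i), d(γ_{i+1} 0,γ_{i+1} L_{i+1}) ≥ 3r_{i+1}/8 = 3 r_i/16
≥ (3/(16(Λ+1))) Λ r_i`, so `ht` with `R = Λ r_i`, `e = e i` gives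
`JJ v (γ_i 0) (γ_{i+1} 0) (6 e_i + 2 e_{i+1})`.  Add up (`JJ_trans`, `JJ_symm`); `p = γ_n 0`,
`d(x,p) ≤ r_n/8`.  Base case `n = 0`: `JJ v p p 0` (constant path).
-/

open MeasureTheory Metric Set Filter Topology
open scoped ENNReal NNReal

namespace QSCoh

set_option linter.unusedSectionVars false

variable {Z : Type*} [MetricSpace Z] [CompactSpace Z] [MeasurableSpace Z] [BorelSpace Z]
  {μ : Measure Z} {Q : ℝ}

theorem JJ_refl {Y : Type*} [PseudoMetricSpace Y] (v : Z → Y) (p : Z) (c : ℝ≥0∞) : JJ v p p c :=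
  ⟨ContinuousMap.const _ p, rfl, rfl, fun _ _ => by simp⟩

/-- The length and endpoint distance of a seed. -/
theorem Seed.facts {Λ : ℝ} {x : Z} {r : ℝ} {ρ : Z → ℝ≥0∞} {e : ℝ≥0∞} {γ : ℝ → Z} {L : ℝ}
    (h : Seed Λ x r ρ e γ L) : 3 * r / 8 ≤ dist (γ 0) (γ L) ∧ 3 * r / 8 ≤ L := by
  have h1 := dist_triangle x (γ 0) (γ L)
  have h2 := h.start
  have h3 := h.stop
  have h4 := h.lip.dist_le_mul 0 L
  simp only [NNReal.coe_one, one_mul, Real.dist_eq, zero_sub, abs_neg] at h4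
  rw [abs_of_nonneg h.nonneg] at h4
  constructor <;> linarith

/-- Chain of seeds from scale `r` down to scale `r/2^n` around `x`. -/
theorem chain {Y : Type*} [PseudoMetricSpace Y] {Λ m Λ' m' : ℝ} (hs : SeedC μ Q Λ m)
    (ht : StepC (Z := Z) μ Q Y (3 / (16 * (Λ + 1))) Λ' m') {k : ℕ} {v : Z → Y}
    (hv : Continuous v) {x : Z} {r : ℝ} (hr : 0 < r) (hr' : r ≤ diam (univ : Set Z) / 2) {n : ℕ}
    (hn : 2 * ep k ≤ r / 2 ^ n) (e : ℕ → ℝ≥0∞)
    (he : ∀ i ≤ n, 0 < e i ∧ e i ≠ ∞ ∧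
      ∫⁻ z in closedBall x (Λ * (r / 2 ^ i)), rk k v z ^ Q ∂μ < ENNReal.ofReal m * e i ^ Q ∧
      ∫⁻ z in closedBall x (Λ' * (Λ * (r / 2 ^ i))), rk k v z ^ Q ∂μ
        < ENNReal.ofReal m' * e i ^ Q) :
    ∃ (γ : ℝ → Z) (L : ℝ), Seed Λ x r (rk k v) (e 0) γ L ∧
      ∃ p, dist x p ≤ r / 2 ^ n ∧ JJ v p (γ 0) (8 * ∑ i ∈ Finset.range (n + 1), e i) := by
  have hε := ep_pos k
  obtain ⟨hΛ, hm, hseed⟩ := hs
  obtain ⟨hΛ', hm', hstep⟩ := ht
  -- choose the seeds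
  have hex : ∀ i : ℕ, ∃ γL : (ℝ → Z) × ℝ, i ≤ n → Seed Λ x (r / 2 ^ i) (rk k v) (e i) γL.1 γL.2 := by
    intro i
    by_cases hi : i ≤ n
    · obtain ⟨h1, h2, h3, -⟩ := he i hi
      have hri : r / 2 ^ i ≤ diam (univ : Set Z) / 2 :=
        (div_le_self hr.le (one_le_pow₀ (by norm_num))).trans hr'
      obtain ⟨γ, L, h⟩ := hseed x (r / 2 ^ i) (by positivity) hri (rk k v) (measurable_rk k v)
        (e i) h1 h2 h3
      exact ⟨(γ, L), fun _ => h⟩
    · exact ⟨(fun _ => x, 0), fun h => absurd h hi⟩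
  choose γL hγL using hex
  have hscale : ∀ i ≤ n, 2 * ep k ≤ r / 2 ^ i := by
    intro i hi
    refine hn.trans (div_le_div_of_nonneg_left hr.le (by positivity) ?_)
    exact pow_le_pow_right₀ (by norm_num) hi
  -- the links
  have hlink : ∀ i < n, JJ v ((γL i).1 0) ((γL (i + 1)).1 0) (6 * e i + 2 * e (i + 1)) := by
    intro i hi
    have s1 := hγL i hi.le
    have s2 := hγL (i + 1) hi
    obtain ⟨a1, a2⟩ := s1.facts
    obtain ⟨b1, b2⟩ := s2.facts
    obtain ⟨h1, h2, -, h4⟩ := he i hi.le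
    set ri := r / 2 ^ i with hri
    have hripos : 0 < ri := by positivity
    have hri1 : r / 2 ^ (i + 1) = ri / 2 := by rw [hri, pow_succ]; field_simp
    have hsc1 := hscale i hi.le
    have hsc2 := hscale (i + 1) hi
    rw [← hri] at hsc1
    rw [hri1] at hsc2 b1 b2 s2
    have hΛ0 : 0 < Λ := by linarith
    have hc1 : 3 / (16 * (Λ + 1)) * (Λ * ri) ≤ 3 * (ri / 2) / 8 := by
      rw [div_mul_eq_mul_div, div_le_iff₀ (by positivity)]
      have : 0 ≤ Λ * ri := by positivity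
      nlinarith
    have := hstep k v hv x (Λ * ri) (by positivity) (γL i).1 (γL (i + 1)).1 (γL i).2 (γL (i + 1)).2
      s1.lip s2.lip (by linarith) (by linarith) (fun t ht => s1.im t ht)
      (fun t ht => by
        have h5 := s2.im t ht
        rw [mem_closedBall] at h5 ⊢
        have : Λ * (ri / 2) ≤ Λ * ri := mul_le_mul_of_nonneg_left (by linarith) hΛ0.le
        linarith)
      (by linarith) (by linarith) (e i) (e (i + 1)) (e i) s1.int s2.int h1 h2 h4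
    refine JJ_mono this (le_of_eq ?_)
    ring
  -- add up
  have hsum : ∀ j ≤ n, JJ v ((γL j).1 0) ((γL 0).1 0)
      (∑ i ∈ Finset.range j, (6 * e i + 2 * e (i + 1))) := by
    intro j
    induction j with
    | zero => intro _; exact JJ_refl v _ _
    | succ j ih =>
      intro hj
      have h1 := JJ_trans (JJ_symm (hlink j (by omega))) (ih (by omega))
      rw [Finset.sum_range_succ]
      exact JJ_mono h1 (le_of_eq (add_comm _ _))
  have hle : ∑ i ∈ Finset.range n, (6 * e i + 2 * e (i + 1)) ≤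
      8 * ∑ i ∈ Finset.range (n + 1), e i := by
    rw [Finset.sum_add_distrib, ← Finset.mul_sum, ← Finset.mul_sum]
    have h1 : ∑ i ∈ Finset.range n, e i ≤ ∑ i ∈ Finset.range (n + 1), e i := by
      rw [Finset.sum_range_succ]; exact le_self_add
    have h2 : ∑ i ∈ Finset.range n, e (i + 1) ≤ ∑ i ∈ Finset.range (n + 1), e i := by
      rw [Finset.sum_range_succ']; exact le_self_add
    calc 6 * ∑ i ∈ Finset.range n, e i + 2 * ∑ i ∈ Finset.range n, e (i + 1)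
        ≤ 6 * ∑ i ∈ Finset.range (n + 1), e i + 2 * ∑ i ∈ Finset.range (n + 1), e i :=
          add_le_add (mul_le_mul_right h1 _) (mul_le_mul_right h2 _)
      _ = _ := by rw [← add_mul]; norm_num
  have s0 := hγL 0 (Nat.zero_le n)
  rw [pow_zero, div_one] at s0
  have sn := hγL n le_rfl
  refine ⟨(γL 0).1, (γL 0).2, s0, (γL n).1 0, ?_, JJ_mono (hsum n le_rfl) hle⟩
  have := sn.start
  have h3 : 0 < r / 2 ^ n := by positivity
  linarith

end QSCoh
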