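import Mathlib
import Pool.Agent.Lib.MP_cccab4_an.Defs
import Pool.Agent.Lib.MP_cccab4_an.S10

/-!
# MP_cccab4_an, module S11

`chain` at `x` and at `y` with base scale `r/2`; the two top seeds lie in
`closedBall x (Λ r/2) ⊆ closedBall x₀ ((Λ+1) r)`, have endpoints at distance `≥ 3(r/2)/8 = 3r/16
= (3/(16(Λ+1))) (Λ+1) r` and parameter length `≥ ep k/2`, so `ht` with `R = (Λ+1) r`, `e = E` links them:
cost `4 e 0 + 2 e' 0 + 2E`.
-/

open MeasureTheory Metric Set Filter Topology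
open scoped ENNReal NNReal

namespace QSCoh

set_option linter.unusedSectionVars false

variable {Z : Type*} [MetricSpace Z] [CompactSpace Z] [MeasurableSpace Z] [BorelSpace Z]
  {μ : Measure Z} {Q : ℝ}

/-- Two chains linked at the top. -/
theorem pair {Y : Type*} [PseudoMetricSpace Y] {Λ m Λ' m' : ℝ} (hs : SeedC μ Q Λ m)
    (ht : StepC (Z := Z) μ Q Y (3 / (16 * (Λ + 1))) Λ' m') {k : ℕ} {v : Z → Y}
    (hv : Continuous v) {x₀ : Z} {r : ℝ} (hr : 0 < r) (hr' : r ≤ diam (univ : Set Z)) {n : ℕ}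
    (hn : 2 * ep k ≤ r / 2 / 2 ^ n) {x y : Z} (hx : x ∈ closedBall x₀ r) (hy : y ∈ closedBall x₀ r)
    (e e' : ℕ → ℝ≥0∞) (E : ℝ≥0∞)
    (he : ∀ i ≤ n, 0 < e i ∧ e i ≠ ∞ ∧
      ∫⁻ z in closedBall x (Λ * (r / 2 / 2 ^ i)), rk k v z ^ Q ∂μ < ENNReal.ofReal m * e i ^ Q ∧
      ∫⁻ z in closedBall x (Λ' * (Λ * (r / 2 / 2 ^ i))), rk k v z ^ Q ∂μ
        < ENNReal.ofReal m' * e i ^ Q)
    (he' : ∀ i ≤ n, 0 < e' i ∧ e' i ≠ ∞ ∧
      ∫⁻ z in closedBall y (Λ * (r / 2 / 2 ^ i)), rk k v z ^ Q ∂μ < ENNReal.ofReal m * e' i ^ Q ∧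
      ∫⁻ z in closedBall y (Λ' * (Λ * (r / 2 / 2 ^ i))), rk k v z ^ Q ∂μ
        < ENNReal.ofReal m' * e' i ^ Q)
    (hE : 0 < E ∧ E ≠ ∞ ∧
      ∫⁻ z in closedBall x₀ (Λ' * ((Λ + 1) * r)), rk k v z ^ Q ∂μ < ENNReal.ofReal m' * E ^ Q) :
    ∃ p q, dist x p ≤ r / 2 / 2 ^ n ∧ dist y q ≤ r / 2 / 2 ^ n ∧
      JJ v p q (12 * (∑ i ∈ Finset.range (n + 1), e i) + 12 * (∑ i ∈ Finset.range (n + 1), e' i)
        + 2 * E) := by
  have hε := ep_pos k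
  obtain ⟨γ, L, sγ, p, hp, jp⟩ := chain hs ht hv (x := x) (r := r / 2) (by linarith) (by linarith)
    hn e he
  obtain ⟨β, M, sβ, q, hq, jq⟩ := chain hs ht hv (x := y) (r := r / 2) (by linarith) (by linarith)
    hn e' he'
  refine ⟨p, q, hp, hq, ?_⟩
  obtain ⟨hΛ, hm, -⟩ := hs
  obtain ⟨hΛ', hm', hstep⟩ := ht
  obtain ⟨a1, a2⟩ := sγ.facts
  obtain ⟨b1, b2⟩ := sβ.facts
  have hsc : 2 * ep k ≤ r / 2 := hn.trans (div_le_self (by linarith) (one_le_pow₀ (by norm_num)))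
  have hΛ0 : 0 < Λ := by linarith
  have hc1 : 3 / (16 * (Λ + 1)) * ((Λ + 1) * r) = 3 * (r / 2) / 8 := by
    field_simp
    norm_num
  have him : ∀ (w : Z), w ∈ closedBall x₀ r → ∀ u : Z, u ∈ closedBall w (Λ * (r / 2)) →
      u ∈ closedBall x₀ ((Λ + 1) * r) := by
    intro w hw u hu
    rw [mem_closedBall] at hw hu ⊢
    have := dist_triangle u w x₀
    nlinarith
  have jt := hstep k v hv x₀ ((Λ + 1) * r) (by positivity) γ β L M sγ.lip sβ.lip (by linarith)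
    (by linarith) (fun t ht => him x hx _ (sγ.im t ht)) (fun t ht => him y hy _ (sβ.im t ht))
    (by rw [hc1]; exact a1) (by rw [hc1]; exact b1) (e 0) (e' 0) E sγ.int sβ.int hE.1 hE.2.1 hE.2.2
  have h0 : e 0 ≤ ∑ i ∈ Finset.range (n + 1), e i :=
    Finset.single_le_sum (f := e) (fun _ _ => zero_le) (Finset.mem_range.2 (Nat.succ_pos n))
  have h0' : e' 0 ≤ ∑ i ∈ Finset.range (n + 1), e' i :=
    Finset.single_le_sum (f := e') (fun _ _ => zero_le) (Finset.mem_range.2 (Nat.succ_pos n))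
  refine JJ_mono (JJ_trans (JJ_trans jp jt) (JJ_symm jq)) ?_
  set A := ∑ i ∈ Finset.range (n + 1), e i with hA
  set B := ∑ i ∈ Finset.range (n + 1), e' i with hB
  calc 8 * A + (4 * e 0 + 2 * e' 0 + 2 * E) + 8 * B
      ≤ 8 * A + (4 * A + 2 * B + 2 * E) + 8 * B := by gcongr
    _ ≤ 8 * A + (4 * A + 4 * B + 2 * E) + 8 * B := by
        gcongr
        norm_num
    _ = 12 * A + 12 * B + 2 * E := by ring

end QSCoh
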