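import Mathlib
import Pool.Agent.Lib.MP_cccab4_an.Defs
import Pool.Agent.Lib.MP_cccab4_an.S01

/-!
# MP_cccab4_an, module S12

`∫⁻ z in closedBall x s, ρ^Q = ∫⁻ z, 1_{d(x,z) ≤ s} ρ(z)^Q` is measurable in `x`
(`Measurable.lintegral_prod_right'`).  Hölder on `B = closedBall x₀ r` (exponents `Q`, `Q/(Q-1)`):
`∫_B I(x)^{1/Q} ≤ μ(B)^{1-1/Q} (∫_B I)^{1/Q}`; Tonelli: `∫_B I = ∫ ρ(z)^Q μ(B ∩ closedBall z s) dz ≤
C₁ s^Q ∫_{closedBall x₀ (r+s)} ρ^Q`.  `μ(B) ≤ μ(univ) < ∞`.
-/

open MeasureTheory Metric Set Filter Topology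
open scoped ENNReal NNReal

namespace QSCoh

set_option linter.unusedSectionVars false

variable {Z : Type*} [MetricSpace Z] [CompactSpace Z] [MeasurableSpace Z] [BorelSpace Z]
  {μ : Measure Z} {Q : ℝ}

/-- Integration of the local `L^Q` norms. -/
theorem gint (H : Sp Z μ Q) : ∃ C : ℝ, 0 < C ∧ ∀ ρ : Z → ℝ≥0∞, Measurable ρ →
    ∀ (x₀ : Z) (r s : ℝ), 0 < r → 0 < s →
    Measurable (fun x => (∫⁻ z in closedBall x s, ρ z ^ Q ∂μ) ^ (1 / Q)) ∧
    ∫⁻ x in closedBall x₀ r, (∫⁻ z in closedBall x s, ρ z ^ Q ∂μ) ^ (1 / Q) ∂μ ≤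
      ENNReal.ofReal (C * s) * (∫⁻ z in closedBall x₀ (r + s), ρ z ^ Q ∂μ) ^ (1 / Q) := by
  have := finite_mu H
  have hQ1 : 1 < Q := H.hQ
  have hQ : 0 < Q := by linarith
  obtain ⟨C, hC, hup⟩ := mass_upper H
  refine ⟨(μ.real univ + 1) ^ (1 - 1 / Q) * C ^ (1 / Q), by positivity, fun ρ hρ x₀ r s hr hs => ?_⟩
  -- the inner integral as an integral of a jointly measurable function
  set F : Z × Z → ℝ≥0∞ := fun p => {p : Z × Z | dist p.2 p.1 ≤ s}.indicator (fun p => ρ p.2 ^ Q) p
    with hF
  have hSet : MeasurableSet {p : Z × Z | dist p.2 p.1 ≤ s} :=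
    (isClosed_le (continuous_snd.dist continuous_fst) continuous_const).measurableSet
  have hFm : Measurable F := ((hρ.comp measurable_snd).pow_const Q).indicator hSet
  have hinner : ∀ x, ∫⁻ z in closedBall x s, ρ z ^ Q ∂μ = ∫⁻ z, F (x, z) ∂μ := by
    intro x
    rw [← lintegral_indicator isClosed_closedBall.measurableSet]
    refine lintegral_congr fun z => ?_
    by_cases h : dist z x ≤ s
    · rw [indicator_of_mem (mem_closedBall.2 h), hF]
      simp [h]
    · rw [indicator_of_notMem (fun h' => h (mem_closedBall.1 h')), hF]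
      simp [h]
  have hIm : Measurable fun x => ∫⁻ z in closedBall x s, ρ z ^ Q ∂μ := by
    simp_rw [hinner]
    exact hFm.lintegral_prod_right'
  refine ⟨hIm.pow_const _, ?_⟩
  set B := closedBall x₀ r with hB
  set I : Z → ℝ≥0∞ := fun x => ∫⁻ z in closedBall x s, ρ z ^ Q ∂μ with hI
  -- Hölder
  have hconj : Q.HolderConjugate (Real.conjExponent Q) := Real.HolderConjugate.conjExponent hQ1
  have hhold : ∫⁻ x in B, I x ^ (1 / Q) ∂μ ≤
      (∫⁻ x in B, I x ∂μ) ^ (1 / Q) * (μ B) ^ (1 - 1 / Q) := by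
    have h1 := ENNReal.lintegral_mul_le_Lp_mul_Lq (μ.restrict B) hconj
      (f := fun x => I x ^ (1 / Q)) (g := fun _ => 1) (hIm.pow_const _).aemeasurable
      aemeasurable_const
    have h2 : ∀ x, (I x ^ (1 / Q)) ^ Q = I x := fun x => by
      rw [← ENNReal.rpow_mul, one_div_mul_cancel hQ.ne', ENNReal.rpow_one]
    have h3 : 1 / Real.conjExponent Q = 1 - 1 / Q := by
      have := hconj.inv_add_inv_eq_one
      rw [one_div, one_div]
      linarith
    simp only [Pi.mul_apply, mul_one, h2, ENNReal.one_rpow, lintegral_const,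
      Measure.restrict_apply MeasurableSet.univ, univ_inter, one_mul, h3] at h1
    exact h1
  -- Tonelli
  have hton : ∫⁻ x in B, I x ∂μ ≤ ENNReal.ofReal (C * s ^ Q) *
      ∫⁻ z in closedBall x₀ (r + s), ρ z ^ Q ∂μ := by
    have h1 : ∫⁻ x in B, I x ∂μ = ∫⁻ z, ∫⁻ x in B, F (x, z) ∂μ ∂μ := by
      simp_rw [hI, hinner]
      exact lintegral_lintegral_swap hFm.aemeasurable
    rw [h1]
    have h2 : ∀ z, ∫⁻ x in B, F (x, z) ∂μ ≤ (closedBall x₀ (r + s)).indicator
        (fun z => ENNReal.ofReal (C * s ^ Q) * ρ z ^ Q) z := by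
      intro z
      by_cases hz : z ∈ closedBall x₀ (r + s)
      · rw [indicator_of_mem hz]
        calc ∫⁻ x in B, F (x, z) ∂μ ≤ ∫⁻ x, F (x, z) ∂μ := setLIntegral_le_lintegral _ _
          _ = ∫⁻ x, (closedBall z s).indicator (fun _ => ρ z ^ Q) x ∂μ := by
              refine lintegral_congr fun x => ?_
              by_cases h : dist z x ≤ s
              · have h' : x ∈ closedBall z s := by rw [mem_closedBall, dist_comm]; exact h
                rw [indicator_of_mem h', hF]
                simp [h]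
              · have h' : x ∉ closedBall z s := by
                  rw [mem_closedBall, dist_comm]; exact h
                rw [indicator_of_notMem h', hF]
                simp [h]
          _ = ρ z ^ Q * μ (closedBall z s) := by
              rw [lintegral_indicator isClosed_closedBall.measurableSet, setLIntegral_const]
          _ ≤ ρ z ^ Q * ENNReal.ofReal (C * s ^ Q) := mul_le_mul_right (hup z s hs) _
          _ = _ := mul_comm _ _
      · rw [indicator_of_notMem hz]
        refine le_of_eq ?_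
        rw [← lintegral_indicator isClosed_closedBall.measurableSet]
        refine (lintegral_congr fun x => ?_).trans lintegral_zero
        by_cases hx : x ∈ B
        · rw [indicator_of_mem hx, hF]
          have : ¬ dist z x ≤ s := fun h => hz (by
            rw [hB, mem_closedBall] at hx
            rw [mem_closedBall]
            have := dist_triangle z x x₀
            linarith)
          simp [this]
        · rw [indicator_of_notMem hx]
    calc (∫⁻ z, ∫⁻ x in B, F (x, z) ∂μ ∂μ) ≤ ∫⁻ z, (closedBall x₀ (r + s)).indicator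
          (fun z => ENNReal.ofReal (C * s ^ Q) * ρ z ^ Q) z ∂μ := lintegral_mono h2
      _ = _ := by
        rw [lintegral_indicator isClosed_closedBall.measurableSet,
          lintegral_const_mul _ (hρ.pow_const Q)]
  calc ∫⁻ x in B, I x ^ (1 / Q) ∂μ ≤ (∫⁻ x in B, I x ∂μ) ^ (1 / Q) * (μ B) ^ (1 - 1 / Q) := hhold
    _ ≤ (ENNReal.ofReal (C * s ^ Q) * ∫⁻ z in closedBall x₀ (r + s), ρ z ^ Q ∂μ) ^ (1 / Q) *
        (ENNReal.ofReal (μ.real univ + 1)) ^ (1 - 1 / Q) := by
        have h1Q : 1 / Q < 1 := by rw [div_lt_one hQ]; exact hQ1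
        refine mul_le_mul' (ENNReal.rpow_le_rpow hton (by positivity))
          (ENNReal.rpow_le_rpow ?_ (by linarith))
        calc μ B ≤ μ univ := measure_mono (subset_univ _)
          _ = ENNReal.ofReal (μ.real univ) := (ENNReal.ofReal_toReal (measure_ne_top _ _)).symm
          _ ≤ _ := ENNReal.ofReal_le_ofReal (by linarith)
    _ = _ := by
        rw [ENNReal.mul_rpow_of_nonneg _ _ (by positivity),
          ENNReal.ofReal_rpow_of_nonneg (by positivity) (by positivity),
          ENNReal.ofReal_rpow_of_pos (by positivity), mul_right_comm,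
          ← ENNReal.ofReal_mul (by positivity)]
        congr 2
        rw [Real.mul_rpow (by positivity) (by positivity), ← Real.rpow_mul hs.le,
          mul_one_div_cancel hQ.ne', Real.rpow_one]
        ring

end QSCoh
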