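import Mathlib
import Pool.Agent.Lib.MP_cccab4_an.Defs
import Pool.Agent.Lib.MP_cccab4_an.S06
import Pool.Agent.Lib.MP_cccab4_an.S11
import Pool.Agent.Lib.MP_cccab4_an.S12

/-!
# MP_cccab4_an, module S13

Let `Λ₁, m` be from `seed` and `Λ', m'` from `step` with `c = 3/(16(Λ₁+1))`; `Λ₂ = Λ' Λ₁ ≥ Λ₁`,
`m₂ = min m m'`.  Let `n` be maximal with `2 ep k ≤ (r/2)/2^n` (`n = 0` is allowed), so
`(r/2)/2^n < 4 ep k`.  With `r_i = (r/2)/2^i`, `ρ = rk k v`, `δ' > 0` small (depending on `δ`, `μ univ`):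
`e_i(x) = ((2/m₂) ∫_{closedBall x (Λ₂ r_i)} ρ^Q)^{1/Q} + δ'/2^i`,
`E = ((2/m₂) ∫_{closedBall x₀ (Λ'(Λ₁+1) r)} ρ^Q)^{1/Q} + δ'`.  These are positive, finite
(`rk_lt_top`) and satisfy the strict inequalities of `pair` (`m₂ (a + b)^Q > I` when
`a = ((2/m₂) I)^{1/Q}`, `b > 0`, `I < ∞`).  Put `g x = 12 Σ_{i ≤ n} e_i(x) + E`.  `pair` gives
`JJ v p q (g x + g y)`.  By `gint`: `∫_{closedBall x₀ r} e_i ≤ (2/m₂)^{1/Q} C₁ Λ₂ r_i
(∫_{closedBall x₀ (r + Λ₂ r)} ρ^Q)^{1/Q} + δ' 2^{-i} μ(univ)`, the sum over `i` of `r_i` is `≤ r ≤ D`, and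
`energy_rk` bounds the integral over `closedBall x₀ ((Λ₂ + Λ'(Λ₁+1) + 1) r)` by
`C₂ Ek (closedBall x₀ (Λ r))`, `Λ = Λ₂ + Λ'(Λ₁+1) + 2` (`2 ep k ≤ r`).
-/

open MeasureTheory Metric Set Filter Topology
open scoped ENNReal NNReal

namespace QSCoh

set_option linter.unusedSectionVars false

variable {Z : Type*} [MetricSpace Z] [CompactSpace Z] [MeasurableSpace Z] [BorelSpace Z]
  {μ : Measure Z} {Q : ℝ}

/-- The strict inequality behind the choice of the `e_i`. -/
theorem strict_e {m Q : ℝ} (hm : 0 < m) (hQ : 0 < Q) {I b : ℝ≥0∞} (hI : I < ∞) (hb : 0 < b) :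
    I < ENNReal.ofReal m * ((ENNReal.ofReal (2 / m) * I) ^ (1 / Q) + b) ^ Q := by
  have hm' : 0 < ENNReal.ofReal m := ENNReal.ofReal_pos.2 hm
  by_cases h0 : I = 0
  · rw [h0]
    refine ENNReal.mul_pos hm'.ne' ?_
    refine (ENNReal.rpow_pos_of_nonneg ?_ hQ.le).ne'
    exact lt_of_lt_of_le hb le_add_self
  · have h1 : ENNReal.ofReal m * ((ENNReal.ofReal (2 / m) * I) ^ (1 / Q)) ^ Q = 2 * I := by
      rw [← ENNReal.rpow_mul, one_div_mul_cancel hQ.ne', ENNReal.rpow_one, ← mul_assoc,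
        ← ENNReal.ofReal_mul hm.le, mul_div_cancel₀ _ hm.ne']
      congr 1
      simp
    calc I < 2 * I := by
          rw [two_mul]
          exact ENNReal.lt_add_right hI.ne h0
      _ = ENNReal.ofReal m * ((ENNReal.ofReal (2 / m) * I) ^ (1 / Q)) ^ Q := h1.symm
      _ ≤ _ := mul_le_mul_right (ENNReal.rpow_le_rpow le_self_add hQ.le) _

/-- The chain estimate. -/
theorem CH {Y : Type*} [PseudoMetricSpace Y] (H : Sp Z μ Q) : ∃ Λ C : ℝ, 1 ≤ Λ ∧ 0 < C ∧
    ∀ (x₀ : Z) (r : ℝ), 0 < r → r ≤ diam (univ : Set Z) → ∀ k, 4 * ep k ≤ r →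
    ∀ v : Z → Y, Continuous v → ∀ δ : ℝ, 0 < δ → ∃ g : Z → ℝ≥0∞, Measurable g ∧
      ∫⁻ x in closedBall x₀ r, g x ∂μ ≤
        ENNReal.ofReal (C * Ek Q k (closedBall x₀ (Λ * r)) v ^ (1 / Q) + δ) ∧
      ∀ x ∈ closedBall x₀ r, ∀ y ∈ closedBall x₀ r, ∃ p q, dist x p ≤ 4 * ep k ∧
        dist y q ≤ 4 * ep k ∧ JJ v p q (g x + g y) := by
  classical
  have := finite_mu H
  have hQ1 : 1 < Q := H.hQ
  have hQ : 0 < Q := by linarith
  obtain ⟨Λ₁, m, hsC⟩ := seed H
  have hΛ₁ : 1 ≤ Λ₁ := hsC.1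
  have hm : 0 < m := hsC.2.1
  obtain ⟨Λ', m', htC⟩ := step (Y := Y) H (c := 3 / (16 * (Λ₁ + 1))) (by positivity)
  have hΛ' : 1 ≤ Λ' := htC.1
  have hm' : 0 < m' := htC.2.1
  obtain ⟨C₁, hC₁, hgint⟩ := gint H
  obtain ⟨C₂, hC₂, hen⟩ := energy_rk (Y := Y) H
  set m₂ := min m m' with hm₂
  have hm₂pos : 0 < m₂ := lt_min hm hm'
  set Λ₂ := Λ' * Λ₁ with hΛ₂
  have hΛ₂1 : 1 ≤ Λ₂ := by nlinarith
  have hΛ₁₂ : Λ₁ ≤ Λ₂ := by nlinarith
  set Λ₃ := Λ' * (Λ₁ + 1) with hΛ₃
  have hΛ₃1 : 1 ≤ Λ₃ := by nlinarith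
  set Λ := Λ₂ + Λ₃ + 2 with hΛ
  set D := diam (univ : Set Z) with hD
  have hDpos : 0 < D := H.hD
  set MM := μ.real univ with hMM
  have hMM0 : 0 ≤ MM := measureReal_nonneg
  set A := (2 / m₂) ^ (1 / Q) * C₂ ^ (1 / Q) with hA
  have hA0 : 0 < A := by positivity
  -- final constant: 12 * C₁ * Λ₂ * D * A + A * MM
  refine ⟨Λ, 12 * (C₁ * Λ₂ * D) * A + A * (MM + 1), by linarith, by positivity, ?_⟩
  intro x₀ r hr hrD k hk v hv δ hδ
  have hε := ep_pos k
  set ρ := rk k v with hρ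
  have hρm : Measurable ρ := measurable_rk k v
  set δ' := δ / (25 * (MM + 1)) with hδ'
  have hδ'pos : 0 < δ' := by positivity
  -- the number of scales
  obtain ⟨n, hn1, hn2⟩ : ∃ n : ℕ, 2 * ep k ≤ r / 2 / 2 ^ n ∧ r / 2 / 2 ^ n < 4 * ep k := by
    have hex : ∃ n : ℕ, r / 2 / 2 ^ n < 4 * ep k := by
      have ht : Tendsto (fun n : ℕ => r / 2 * (1 / 2 : ℝ) ^ n) atTop (𝓝 0) := by
        simpa using (tendsto_pow_atTop_nhds_zero_of_lt_one (by norm_num : (0:ℝ) ≤ 1 / 2)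
          (by norm_num)).const_mul (r / 2)
      obtain ⟨n, hn⟩ := (ht.eventually_lt_const (show (0:ℝ) < 4 * ep k by positivity)).exists
      refine ⟨n, ?_⟩
      rw [one_div_pow, mul_one_div] at hn
      exact hn
    refine ⟨Nat.find hex, ?_, Nat.find_spec hex⟩
    rcases Nat.eq_zero_or_pos (Nat.find hex) with h0 | hpos
    · rw [h0, pow_zero, div_one]; linarith
    · have h1 := Nat.find_min hex (Nat.sub_lt hpos one_pos)
      push Not at h1
      have h2 : (2:ℝ) ^ (Nat.find hex) = 2 ^ (Nat.find hex - 1) * 2 := by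
        rw [← pow_succ]; congr 1; omega
      rw [h2, ← div_div]
      linarith
  -- local integrals
  set I : Z → ℝ → ℝ≥0∞ := fun x s => ∫⁻ z in closedBall x s, ρ z ^ Q ∂μ with hI
  have hItop : ∀ x s, I x s < ∞ := fun x s => rk_lt_top H k v _
  have hImono : ∀ x {s t : ℝ}, s ≤ t → I x s ≤ I x t := fun x s t hst =>
    lintegral_mono_set (closedBall_subset_closedBall hst)
  set ri : ℕ → ℝ := fun i => r / 2 / 2 ^ i with hri
  have hri0 : ∀ i, 0 < ri i := fun i => by simp only [hri]; positivity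
  set e : Z → ℕ → ℝ≥0∞ := fun x i =>
    (ENNReal.ofReal (2 / m₂) * I x (Λ₂ * ri i)) ^ (1 / Q) + ENNReal.ofReal (δ' / 2 ^ i) with he
  set E : ℝ≥0∞ := (ENNReal.ofReal (2 / m₂) * I x₀ (Λ₃ * r)) ^ (1 / Q) + ENNReal.ofReal δ' with hE
  set g : Z → ℝ≥0∞ := fun x => 12 * ∑ i ∈ Finset.range (n + 1), e x i + E with hg
  have hem : ∀ i, Measurable fun x => e x i := fun i => by
    simp only [he]
    refine Measurable.add_const ?_ _
    have h1 := (hgint ρ hρm x₀ r (Λ₂ * ri i) hr (by have := hri0 i; positivity)).1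
    have h2 : (fun x => (ENNReal.ofReal (2 / m₂) * I x (Λ₂ * ri i)) ^ (1 / Q)) =
        fun x => ENNReal.ofReal (2 / m₂) ^ (1 / Q) * (I x (Λ₂ * ri i)) ^ (1 / Q) := by
      ext x
      exact ENNReal.mul_rpow_of_nonneg _ _ (by positivity)
    rw [h2]
    exact h1.const_mul _
  have hgm : Measurable g := by
    simp only [hg]
    exact ((Finset.measurable_sum _ fun i _ => hem i).const_mul _).add_const _
  have hmm1 : ENNReal.ofReal m₂ ≤ ENNReal.ofReal m := ENNReal.ofReal_le_ofReal (min_le_left _ _)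
  have hmm2 : ENNReal.ofReal m₂ ≤ ENNReal.ofReal m' := ENNReal.ofReal_le_ofReal (min_le_right _ _)
  have hefin : ∀ x i, e x i ≠ ∞ := fun x i => by
    simp only [he]
    refine ENNReal.add_ne_top.2 ⟨?_, ENNReal.ofReal_ne_top⟩
    refine (ENNReal.rpow_lt_top_of_nonneg (by positivity) ?_).ne
    exact (ENNReal.mul_lt_top ENNReal.ofReal_lt_top (hItop _ _)).ne
  have hpairh : ∀ x, ∀ i ≤ n, 0 < e x i ∧ e x i ≠ ∞ ∧
      ∫⁻ z in closedBall x (Λ₁ * (r / 2 / 2 ^ i)), rk k v z ^ Q ∂μ < ENNReal.ofReal m * e x i ^ Q ∧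
      ∫⁻ z in closedBall x (Λ' * (Λ₁ * (r / 2 / 2 ^ i))), rk k v z ^ Q ∂μ
        < ENNReal.ofReal m' * e x i ^ Q := by
    intro x i _
    have hpos : 0 < ENNReal.ofReal (δ' / 2 ^ i) := ENNReal.ofReal_pos.2 (by positivity)
    have hst := strict_e hm₂pos hQ (hItop x (Λ₂ * ri i)) hpos
    refine ⟨lt_of_lt_of_le hpos le_add_self, hefin x i, ?_, ?_⟩
    · refine lt_of_le_of_lt (hImono x ?_) (lt_of_lt_of_le hst (mul_le_mul_left hmm1 _))
      exact mul_le_mul_of_nonneg_right hΛ₁₂ (hri0 i).le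
    · refine lt_of_le_of_lt (hImono x (le_of_eq ?_)) (lt_of_lt_of_le hst (mul_le_mul_left hmm2 _))
      simp only [hΛ₂, hri]
      ring
  have hEh : 0 < E ∧ E ≠ ∞ ∧
      ∫⁻ z in closedBall x₀ (Λ' * ((Λ₁ + 1) * r)), rk k v z ^ Q ∂μ < ENNReal.ofReal m' * E ^ Q := by
    have hpos : 0 < ENNReal.ofReal δ' := ENNReal.ofReal_pos.2 hδ'pos
    have hst := strict_e hm₂pos hQ (hItop x₀ (Λ₃ * r)) hpos
    refine ⟨lt_of_lt_of_le hpos le_add_self, ?_, ?_⟩
    · refine ENNReal.add_ne_top.2 ⟨?_, ENNReal.ofReal_ne_top⟩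
      refine (ENNReal.rpow_lt_top_of_nonneg (by positivity) ?_).ne
      exact (ENNReal.mul_lt_top ENNReal.ofReal_lt_top (hItop _ _)).ne
    · refine lt_of_le_of_lt (hImono x₀ (le_of_eq ?_)) (lt_of_lt_of_le hst (mul_le_mul_left hmm2 _))
      simp only [hΛ₃]
      ring
  refine ⟨g, hgm, ?_, ?_⟩
  · -- the integral
    set B := closedBall x₀ r with hB
    set W := closedBall x₀ (Λ * r) with hW
    set EE := Ek Q k W v with hEE
    have hEE0 : 0 ≤ EE := Ek_nonneg _ _ _ _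
    have hΛ0 : 0 < Λ₂ := by linarith
    have hΛ30 : 0 < Λ₃ := by linarith
    -- energy of any ball of radius ≤ (Λ₂ + Λ₃ + 1) r
    have henr : ∀ s ≤ (Λ₂ + Λ₃ + 1) * r, I x₀ s ≤ ENNReal.ofReal (C₂ * EE) := by
      intro s hs
      refine (hen k v hv x₀ s).trans (ENNReal.ofReal_le_ofReal ?_)
      refine mul_le_mul_of_nonneg_left (Ek_mono Q k v (closedBall_subset_closedBall ?_)) hC₂.le
      rw [hΛ]
      nlinarith
    have hroot : ∀ s ≤ (Λ₂ + Λ₃ + 1) * r,
        ENNReal.ofReal (2 / m₂) ^ (1 / Q) * (I x₀ s) ^ (1 / Q) ≤ ENNReal.ofReal (A * EE ^ (1 / Q)) := by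
      intro s hs
      rw [← ENNReal.mul_rpow_of_nonneg _ _ (by positivity : (0:ℝ) ≤ 1 / Q)]
      calc (ENNReal.ofReal (2 / m₂) * I x₀ s) ^ (1 / Q)
          ≤ (ENNReal.ofReal (2 / m₂) * ENNReal.ofReal (C₂ * EE)) ^ (1 / Q) :=
            ENNReal.rpow_le_rpow (mul_le_mul_right (henr s hs) _) (by positivity)
        _ = ENNReal.ofReal (A * EE ^ (1 / Q)) := by
            rw [← ENNReal.ofReal_mul (by positivity),
              ENNReal.ofReal_rpow_of_nonneg (by positivity) (by positivity)]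
            congr 1
            rw [hA, Real.mul_rpow (by positivity) (by positivity), Real.mul_rpow (by positivity) hEE0]
            ring
    have hμB : μ B ≤ ENNReal.ofReal MM := by
      rw [hMM]
      calc μ B ≤ μ univ := measure_mono (subset_univ _)
        _ = _ := (ENNReal.ofReal_toReal (measure_ne_top _ _)).symm
    -- each e_i
    have hei : ∀ i, ∫⁻ x in B, e x i ∂μ ≤
        ENNReal.ofReal (C₁ * Λ₂ * A * EE ^ (1 / Q) * ri i + δ' * MM * (1 / 2) ^ i) := by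
      intro i
      have hrii := hri0 i
      have hg1 := hgint ρ hρm x₀ r (Λ₂ * ri i) hr (by positivity)
      have h2 : ∀ x, e x i = ENNReal.ofReal (2 / m₂) ^ (1 / Q) * (I x (Λ₂ * ri i)) ^ (1 / Q) +
          ENNReal.ofReal (δ' / 2 ^ i) := fun x => by
        simp only [he]
        rw [ENNReal.mul_rpow_of_nonneg _ _ (by positivity)]
      have hrir : ri i ≤ r := by
        simp only [hri]
        exact (div_le_self (by linarith) (one_le_pow₀ (by norm_num))).trans (by linarith)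
      calc ∫⁻ x in B, e x i ∂μ
          = ENNReal.ofReal (2 / m₂) ^ (1 / Q) * ∫⁻ x in B, (I x (Λ₂ * ri i)) ^ (1 / Q) ∂μ +
            ENNReal.ofReal (δ' / 2 ^ i) * μ B := by
            simp_rw [h2]
            rw [lintegral_add_right _ measurable_const, lintegral_const_mul _ hg1.1,
              setLIntegral_const]
        _ ≤ ENNReal.ofReal (2 / m₂) ^ (1 / Q) * (ENNReal.ofReal (C₁ * (Λ₂ * ri i)) *
              (I x₀ (r + Λ₂ * ri i)) ^ (1 / Q)) + ENNReal.ofReal (δ' / 2 ^ i) * ENNReal.ofReal MM :=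
            add_le_add (mul_le_mul_right hg1.2 _) (mul_le_mul_right hμB _)
        _ = ENNReal.ofReal (C₁ * (Λ₂ * ri i)) * (ENNReal.ofReal (2 / m₂) ^ (1 / Q) *
              (I x₀ (r + Λ₂ * ri i)) ^ (1 / Q)) + ENNReal.ofReal (δ' / 2 ^ i * MM) := by
            rw [← ENNReal.ofReal_mul (by positivity)]
            ring
        _ ≤ ENNReal.ofReal (C₁ * (Λ₂ * ri i)) * ENNReal.ofReal (A * EE ^ (1 / Q)) +
              ENNReal.ofReal (δ' / 2 ^ i * MM) := by
            refine add_le_add (mul_le_mul_right (hroot _ ?_) _) le_rfl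
            nlinarith
        _ = _ := by
            rw [← ENNReal.ofReal_mul (by positivity), ← ENNReal.ofReal_add (by positivity)
              (by positivity)]
            congr 1
            rw [one_div_pow]
            ring
    -- sums of geometric series
    have hgeo : ∑ i ∈ Finset.range (n + 1), ((1 : ℝ) / 2) ^ i ≤ 2 := by
      have := (summable_geometric_two).sum_le_tsum (Finset.range (n + 1))
        (fun i _ => by positivity)
      rw [tsum_geometric_two] at this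
      exact this
    have hrisum : ∑ i ∈ Finset.range (n + 1), ri i ≤ r := by
      have h1 : ∑ i ∈ Finset.range (n + 1), ri i =
          r / 2 * ∑ i ∈ Finset.range (n + 1), ((1 : ℝ) / 2) ^ i := by
        rw [Finset.mul_sum]
        refine Finset.sum_congr rfl fun i _ => ?_
        simp only [hri]
        rw [one_div_pow, mul_one_div]
      rw [h1]
      nlinarith
    have hEint : ∫⁻ _ in B, E ∂μ ≤ ENNReal.ofReal ((A * EE ^ (1 / Q) + δ') * MM) := by
      rw [setLIntegral_const, ENNReal.ofReal_mul (by positivity)]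
      refine mul_le_mul' ?_ hμB
      rw [ENNReal.ofReal_add (by positivity) hδ'pos.le]
      refine add_le_add ?_ le_rfl
      rw [ENNReal.mul_rpow_of_nonneg _ _ (by positivity : (0:ℝ) ≤ 1 / Q)]
      refine hroot _ ?_
      nlinarith
    calc ∫⁻ x in B, g x ∂μ
        = 12 * ∑ i ∈ Finset.range (n + 1), ∫⁻ x in B, e x i ∂μ + ∫⁻ _ in B, E ∂μ := by
          simp only [hg]
          rw [lintegral_add_right _ measurable_const,
            lintegral_const_mul _ (Finset.measurable_sum _ fun i _ => hem i),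
            lintegral_finsetSum _ fun i _ => hem i]
      _ ≤ 12 * ∑ i ∈ Finset.range (n + 1), ENNReal.ofReal (C₁ * Λ₂ * A * EE ^ (1 / Q) * ri i +
            δ' * MM * (1 / 2) ^ i) + ENNReal.ofReal ((A * EE ^ (1 / Q) + δ') * MM) :=
          add_le_add (mul_le_mul_right (Finset.sum_le_sum fun i _ => hei i) _) hEint
      _ = ENNReal.ofReal (12 * ∑ i ∈ Finset.range (n + 1), (C₁ * Λ₂ * A * EE ^ (1 / Q) * ri i +
            δ' * MM * (1 / 2) ^ i) + (A * EE ^ (1 / Q) + δ') * MM) := by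
          rw [← ENNReal.ofReal_sum_of_nonneg (fun i _ => by have := hri0 i; positivity),
            ENNReal.ofReal_add (mul_nonneg (by norm_num) (Finset.sum_nonneg fun i _ => by
              have := hri0 i; positivity)) (by positivity),
            ENNReal.ofReal_mul (by norm_num : (0:ℝ) ≤ 12)]
          congr 2
          simp
      _ ≤ _ := by
          refine ENNReal.ofReal_le_ofReal ?_
          rw [Finset.sum_add_distrib, ← Finset.mul_sum, ← Finset.mul_sum]
          have hX : 0 ≤ EE ^ (1 / Q) := by positivity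
          have h1 : C₁ * Λ₂ * A * EE ^ (1 / Q) * ∑ i ∈ Finset.range (n + 1), ri i ≤
              C₁ * Λ₂ * A * EE ^ (1 / Q) * D :=
            mul_le_mul_of_nonneg_left (hrisum.trans hrD) (by positivity)
          have h2 : δ' * MM * ∑ i ∈ Finset.range (n + 1), ((1:ℝ) / 2) ^ i ≤ δ' * MM * 2 :=
            mul_le_mul_of_nonneg_left hgeo (by positivity)
          have h3 : 25 * δ' * MM ≤ δ := by
            rw [hδ']
            have : 25 * (δ / (25 * (MM + 1))) * MM = δ * (MM / (MM + 1)) := by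
              field_simp
            rw [this]
            have : MM / (MM + 1) ≤ 1 := by
              rw [div_le_one (by positivity)]; linarith
            nlinarith
          have h4 : A * EE ^ (1 / Q) * MM ≤ A * (MM + 1) * EE ^ (1 / Q) := by nlinarith
          nlinarith
  · intro x hx y hy
    obtain ⟨p, q, hp, hq, hJ⟩ := pair hsC htC hv (x₀ := x₀) hr hrD hn1 hx hy (e x) (e y) E
      (hpairh x) (hpairh y) hEh
    refine ⟨p, q, hp.trans hn2.le, hq.trans hn2.le, JJ_mono hJ (le_of_eq ?_)⟩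
    simp only [hg]
    ring

end QSCoh
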