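import Mathlib
import Pool.Agent.Lib.MP_cccab4_an.Defs
import Pool.Agent.Lib.MP_cccab4_an.S13

/-!
# MP_cccab4_an, module S15

`Λ, C₁` from `CH` (with `Y = Z`).  `r' = min (r/Λ) D`.  Take `k` with `4 ep k ≤ r'`,
`Ek Q k (closedBall x₀ (Λ r')) F ≤ Ek Q k (closedBall x₀ r) F ≤ σ` and `d(Fu,Fw) ≤ σ^{1/Q}` whenever
`d(u,w) ≤ 4 ep k`.  `CH` with `δ = σ^{1/Q}`: `∫_{B'} g ≤ (C₁+1) σ^{1/Q}`, `B' = closedBall x₀ r'`.  The
set `P = {x ∈ B' | g x ≤ 2(C₁+1)σ^{1/Q}/μ(B')}` has measure `≥ μ(B')/2 > 0`; pick `y ∈ P`, `b = F y`.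
For `x ∈ P`: `d(Fx,Fy) ≤ g x + g y + 2σ^{1/Q}`.
-/

open MeasureTheory Metric Set Filter Topology
open scoped ENNReal NNReal

namespace QSCoh

set_option linter.unusedSectionVars false

variable {Z : Type*} [MetricSpace Z] [CompactSpace Z] [MeasurableSpace Z] [BorelSpace Z]
  {μ : Measure Z} {Q : ℝ}

/-- From `JJ` and uniform continuity to a distance bound. -/
theorem edist_of_JJ {Y : Type*} [PseudoMetricSpace Y] {v : Z → Y} {x y p q : Z} {c : ℝ≥0∞} {w : ℝ}
    (hw : 0 ≤ w) (hp : dist (v x) (v p) ≤ w) (hq : dist (v y) (v q) ≤ w) (h : JJ v p q c) :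
    edist (v x) (v y) ≤ c + ENNReal.ofReal (2 * w) := by
  obtain ⟨α, a0, a1, ha⟩ := h
  have h1 : edist (v p) (v q) ≤ c := by
    have := ha 0 1
    rwa [a0, a1] at this
  have h2 : edist (v x) (v p) ≤ ENNReal.ofReal w := by
    rw [edist_dist]; exact ENNReal.ofReal_le_ofReal hp
  have h3 : edist (v q) (v y) ≤ ENNReal.ofReal w := by
    rw [edist_dist, dist_comm]; exact ENNReal.ofReal_le_ofReal hq
  calc edist (v x) (v y) ≤ edist (v x) (v p) + edist (v p) (v q) + edist (v q) (v y) :=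
        edist_triangle4 _ _ _ _
    _ ≤ ENNReal.ofReal w + c + ENNReal.ofReal w := add_le_add (add_le_add h2 h1) h3
    _ = c + ENNReal.ofReal (2 * w) := by
        rw [two_mul, ENNReal.ofReal_add hw hw]; ring

/-- Maps of small local energy are nearly constant on a large part of a smaller ball. -/
theorem loc (H : Sp Z μ Q) (x₀ : Z) {r : ℝ} (hr : 0 < r) : ∃ r' C : ℝ, 0 < r' ∧ r' ≤ r ∧ 0 < C ∧
    ∀ F : Z → Z, Continuous F → ∀ σ : ℝ, 0 < σ →
    (∃ᶠ k in atTop, Ek Q k (closedBall x₀ r) F ≤ σ) →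
    ∃ b : Z, μ.real (closedBall x₀ r') / 2 ≤
      μ.real {x ∈ closedBall x₀ r' | dist (F x) b ≤ C * σ ^ (1 / Q)} := by
  have := finite_mu H
  have hQ : 0 < Q := by linarith [H.hQ]
  obtain ⟨Λ, C₁, hΛ, hC₁, hCH⟩ := CH (Y := Z) H
  set D := diam (univ : Set Z) with hD
  have hDpos : 0 < D := H.hD
  have hΛ0 : 0 < Λ := by linarith
  set r' := min (r / Λ) D with hr'
  have hr'pos : 0 < r' := lt_min (by positivity) hDpos
  have hr'r : r' ≤ r := (min_le_left _ _).trans (div_le_self hr.le hΛ)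
  have hΛr' : Λ * r' ≤ r := by
    have : Λ * r' ≤ Λ * (r / Λ) := mul_le_mul_of_nonneg_left (min_le_left _ _) hΛ0.le
    rwa [mul_div_cancel₀ _ hΛ0.ne'] at this
  set B := closedBall x₀ r' with hB
  have hBpos : 0 < μ.real B := (mass_ball_pos H x₀ hr'pos).trans_le
    (measureReal_mono ball_subset_closedBall)
  set C₂ := 4 * (C₁ + 1) / μ.real B + 2 with hC₂
  refine ⟨r', C₂, hr'pos, hr'r, by positivity, fun F hF σ hσ hfr => ?_⟩
  set s := σ ^ (1 / Q) with hs
  have hspos : 0 < s := by positivity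
  obtain ⟨η, hη, huc⟩ := Metric.uniformContinuous_iff.1
    (CompactSpace.uniformContinuous_of_continuous hF) s hspos
  have hsmall : ∀ᶠ k in atTop, 4 * ep k < min η r' := by
    have ht : Tendsto (fun k => 4 * ep k) atTop (𝓝 0) := by
      simpa [ep] using (tendsto_pow_atTop_nhds_zero_of_lt_one (by norm_num : (0:ℝ) ≤ 1 / 2)
        (by norm_num)).const_mul 4
    exact ht.eventually_lt_const (lt_min hη hr'pos)
  obtain ⟨k, hk1, hk2⟩ := (hfr.and_eventually hsmall).exists
  obtain ⟨g, hgm, hgI, hg⟩ := hCH x₀ r' hr'pos (min_le_right _ _) k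
    (hk2.le.trans (min_le_right _ _)) F hF s hspos
  have hEk : Ek Q k (closedBall x₀ (Λ * r')) F ≤ σ :=
    (Ek_mono Q k F (closedBall_subset_closedBall hΛr')).trans hk1
  have hgI' : ∫⁻ x in B, g x ∂μ ≤ ENNReal.ofReal ((C₁ + 1) * s) := by
    refine hgI.trans (ENNReal.ofReal_le_ofReal ?_)
    have h1 : Ek Q k (closedBall x₀ (Λ * r')) F ^ (1 / Q) ≤ s :=
      Real.rpow_le_rpow (Ek_nonneg _ _ _ _) hEk (by positivity)
    nlinarith
  -- the good set
  set t := 2 * (C₁ + 1) * s / μ.real B with ht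
  have htpos : 0 < t := by positivity
  set P := {x ∈ B | g x ≤ ENNReal.ofReal t} with hP
  have hPm : MeasurableSet P :=
    isClosed_closedBall.measurableSet.inter (measurableSet_le hgm measurable_const)
  have hPbig : μ.real B / 2 ≤ μ.real P := by
    -- Markov for the complement
    have h1 : ENNReal.ofReal t * μ (B \ P) ≤ ENNReal.ofReal ((C₁ + 1) * s) := by
      calc ENNReal.ofReal t * μ (B \ P) = ∫⁻ _ in B \ P, ENNReal.ofReal t ∂μ := by
            rw [setLIntegral_const]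
        _ ≤ ∫⁻ x in B \ P, g x ∂μ := by
            refine setLIntegral_mono' (isClosed_closedBall.measurableSet.diff hPm) fun x hx => ?_
            by_contra h
            push Not at h
            exact hx.2 ⟨hx.1, h.le⟩
        _ ≤ ∫⁻ x in B, g x ∂μ := lintegral_mono_set sdiff_subset
        _ ≤ _ := hgI'
    have h2 : t * μ.real (B \ P) ≤ (C₁ + 1) * s := by
      have h3 : μ (B \ P) = ENNReal.ofReal (μ.real (B \ P)) :=
        (ENNReal.ofReal_toReal (measure_ne_top _ _)).symm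
      rw [h3, ← ENNReal.ofReal_mul htpos.le] at h1
      exact (ENNReal.ofReal_le_ofReal_iff (by positivity)).1 h1
    have h4 : t * (μ.real B / 2) = (C₁ + 1) * s := by
      rw [ht]; field_simp
    have h5 : μ.real (B \ P) ≤ μ.real B / 2 := by
      rw [← h4] at h2
      exact le_of_mul_le_mul_left h2 htpos
    have h6 : μ.real (B \ P) = μ.real B - μ.real P := measureReal_sdiff (fun x hx => hx.1) hPm
    linarith
  have hPne : P.Nonempty := by
    by_contra h
    rw [not_nonempty_iff_eq_empty] at h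
    rw [h, measureReal_empty] at hPbig
    linarith
  obtain ⟨y, hy⟩ := hPne
  refine ⟨F y, hPbig.trans (measureReal_mono fun x hx => ⟨hx.1, ?_⟩)⟩
  obtain ⟨p, q, hp, hq, hJ⟩ := hg x hx.1 y hy.1
  have hkη : 4 * ep k < η := hk2.trans_le (min_le_left _ _)
  have h1 := edist_of_JJ (v := F) (x := x) (y := y) hspos.le
    (huc (lt_of_le_of_lt hp hkη)).le (huc (lt_of_le_of_lt hq hkη)).le hJ
  have h2 : edist (F x) (F y) ≤ ENNReal.ofReal (2 * t + 2 * s) := by
    refine h1.trans ?_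
    rw [ENNReal.ofReal_add (by positivity) (by positivity), two_mul t,
      ENNReal.ofReal_add htpos.le htpos.le]
    exact add_le_add (add_le_add hx.2 hy.2) le_rfl
  rw [edist_dist, ENNReal.ofReal_le_ofReal_iff (by positivity)] at h2
  refine h2.trans (le_of_eq ?_)
  rw [hC₂, ht]
  field_simp
  ring

end QSCoh
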