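import Mathlib
import Pool.Agent.Lib.MP_cccab4_an.Defs
import Pool.Agent.Lib.MP_cccab4_an.S01

/-!
# MP_cccab4_an, module S03

`μ` is doubling (by `mass_upper`, `mass_lower`), so there is an instance
`IsUnifLocDoublingMeasure μ`; use `IsUnifLocDoublingMeasure.ae_tendsto_measure_inter_div` with
centres `w = y` (constant), radii `δ → 0+`, and `ae_restrict_iff'`.
-/

open MeasureTheory Metric Set Filter Topology
open scoped ENNReal NNReal

namespace QSCoh

variable {Z : Type*} [MetricSpace Z] [CompactSpace Z] [MeasurableSpace Z] [BorelSpace Z]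
  {μ : Measure Z} {Q : ℝ}

theorem doubling (H : Sp Z μ Q) : IsUnifLocDoublingMeasure μ := by
  have hQ : 0 < Q := by linarith [H.hQ]
  obtain ⟨C, hC, hup⟩ := mass_upper H
  obtain ⟨c, hc, hlo⟩ := mass_lower H
  refine ⟨⟨(C * 2 ^ Q / c).toNNReal, ?_⟩⟩
  have h1 : ∀ᶠ ε : ℝ in 𝓝[>] 0, ε ≤ diam (univ : Set Z) := by
    filter_upwards [Ioc_mem_nhdsGT H.hD] with ε hε using hε.2
  filter_upwards [self_mem_nhdsWithin, h1] with ε hε hεD x
  have hε' : (0:ℝ) < ε := hε
  refine (hup x (2 * ε) (by positivity)).trans ?_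
  refine le_trans ?_ (mul_le_mul_right ((hlo x ε hε' hεD).trans
    (measure_mono ball_subset_closedBall)) _)
  have h2 : (((C * 2 ^ Q / c).toNNReal : ℝ≥0) : ℝ≥0∞) = ENNReal.ofReal (C * 2 ^ Q / c) := rfl
  rw [h2, ← ENNReal.ofReal_mul (by positivity)]
  refine ENNReal.ofReal_le_ofReal (le_of_eq ?_)
  rw [Real.mul_rpow (by norm_num) hε'.le]
  field_simp

/-- Lebesgue density theorem. -/
theorem dens_ae (H : Sp Z μ Q) {A : Set Z} (hA : IsClosed A) : ∀ᵐ y ∂μ, y ∈ A → Dens μ A y := by
  have := finite_mu H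
  have := doubling H
  have h := IsUnifLocDoublingMeasure.ae_tendsto_measure_inter_div μ A 1
  rw [ae_restrict_iff' hA.measurableSet] at h
  filter_upwards [h] with y hy hyA
  exact hy hyA (fun _ => y) (fun r => r) tendsto_id
    (by filter_upwards [self_mem_nhdsWithin] with r hr
        rw [one_mul]; exact mem_closedBall_self (le_of_lt hr))

end QSCoh
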