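import Mathlib
import Pool.Agent.Lib.MP_cccab4_an.Defs
import Pool.Agent.Lib.MP_cccab4_an.S02
import Pool.Agent.Lib.MP_cccab4_an.S04

/-!
# MP_cccab4_an, module T01a

Let `K = closedBall x s` (compact).  By compactness and injectivity there is `0 < δ' ≤ min (δ, D)` such
that `d(Fu,Fv) < δ'` implies `d(u,v) < l/8`.  Let `Y = {F x_i}` be a maximal `δ'`-separated finite
subset of the compact set `F(K)`, `x_i ∈ K`.  Put `r_i = sup {d(x_i,u) : d(F x_i,F u) < δ'}`; then
`0 < r_i ≤ l/8` (`Z` has no isolated point: `near_pt`, and `F` is continuous).  Let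
`ρ = (2/R) Σ_i (δ'/r_i) 1_{closedBall x_i (2 r_i)}`.
Admissible: let `γ` be as stated, `I = {i | ∃ t ∈ [0,L], d(F x_i,F γ t) < δ'}`.  The continuous function
`t ↦ d(F γ 0, F γ t)` takes all values in `[0,R]`, and each `F γ t` is within `< δ'` of some `F x_i`,
`i ∈ I`; so `[0,R]` is covered by `#I` intervals of length `2δ'` (centres `d(F γ 0,F x_i)`) and
`R ≤ 2δ' #I`.  For `i ∈ I`, with `t` as in the definition, `d(x_i,γ t) ≤ r_i`, and since
`L ≥ l ≥ 8 r_i` one of `[t - r_i,t]`, `[t,t+r_i]` lies in `[0,L]`; there `γ ∈ closedBall x_i (2r_i)`.  So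
`∫ρ(γ) ≥ (2/R) Σ_{i∈I} (δ'/r_i) r_i = 2δ' #I/R ≥ 1`.
Energy: if `w ∈ closedBall x_i (2r_i)`, choose `u_i` with `d(F x_i,F u_i) < δ'`, `d(x_i,u_i) ≥ r_i/2`;
then `d(x_i,w) ≤ 4 d(x_i,u_i)`, so `d(F x_i,F w) ≤ η(4) δ'` by `QSg`; by `count_sep` at most
`K_η` indices `i` occur for each `w`.  Hence `∫ρ^Q ≤ (2/R)^Q K_η^{Q-1} Σ_i (δ'/r_i)^Q
μ(closedBall x_i (2r_i)) ≤ (2/R)^Q K_η^{Q-1} C₁ 2^Q δ'^Q #Y`, and `δ'^Q #Y ≤ C₂ μ(cthickening δ (F(K)))`
because the balls `ball (F x_i) (δ'/2)` are disjoint, lie in the thickening and have mass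
`≥ c (δ'/2)^Q`.
-/

open MeasureTheory Metric Set Filter Topology
open scoped ENNReal NNReal

namespace QSCoh

variable {Z : Type*} [MetricSpace Z] [CompactSpace Z] [MeasurableSpace Z] [BorelSpace Z]
  {μ : Measure Z} {Q : ℝ}

theorem t01a_sep {F : Z → Z} (hF : Continuous F) (hi : Function.Injective F) {l : ℝ} (hl : 0 < l) :
    ∃ ε : ℝ, 0 < ε ∧ ∀ u v, dist (F u) (F v) < ε → dist u v < l := by
  have hK : IsCompact {p : Z × Z | l ≤ dist p.1 p.2} :=
    (isClosed_le continuous_const (continuous_fst.dist continuous_snd)).isCompact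
  by_cases hne : {p : Z × Z | l ≤ dist p.1 p.2}.Nonempty
  · obtain ⟨p, hp, hmin⟩ := hK.exists_isMinOn hne
      ((hF.comp continuous_fst).dist (hF.comp continuous_snd)).continuousOn
    refine ⟨dist (F p.1) (F p.2), dist_pos.2 fun h => ?_, fun u v huv => ?_⟩
    · have h1 := hi h
      have h2 : l ≤ dist p.1 p.2 := hp
      rw [h1, dist_self] at h2
      linarith
    · by_contra hcon
      have h2 : dist (F p.1) (F p.2) ≤ dist (F u) (F v) :=
        hmin (show (u, v) ∈ {p : Z × Z | l ≤ dist p.1 p.2} from not_lt.1 hcon)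
      exact absurd huv (not_lt.2 h2)
  · refine ⟨1, one_pos, fun u v _ => ?_⟩
    by_contra hcon
    exact hne ⟨(u, v), not_lt.1 hcon⟩

theorem t01a_rad (H : Sp Z μ Q) {F : Z → Z} (hF : Continuous F) {δ' l : ℝ} (hδ' : 0 < δ')
    (h : ∀ u v, dist (F u) (F v) < δ' → dist u v < l) (a : Z) :
    ∃ r : ℝ, 0 < r ∧ r ≤ l ∧ (∀ u, dist (F a) (F u) < δ' → dist a u ≤ r) ∧
      ∃ u, dist (F a) (F u) < δ' ∧ r / 2 ≤ dist a u := by
  set A : Set ℝ := (fun u => dist a u) '' {u | dist (F a) (F u) < δ'} with hA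
  have hbdd : BddAbove A := ⟨l, by rintro _ ⟨u, hu, rfl⟩; exact (h a u hu).le⟩
  have hnear : ∃ u, u ≠ a ∧ dist (F a) (F u) < δ' := by
    have hc : ContinuousAt F a := hF.continuousAt
    obtain ⟨ε, hε, hε2⟩ := Metric.continuousAt_iff.1 hc δ' hδ'
    obtain ⟨u, hu1, hu2⟩ := near_pt H a hε
    exact ⟨u, hu1, by rw [dist_comm]; exact hε2 (by rw [dist_comm]; exact hu2)⟩
  obtain ⟨u₀, hu₀, hu₀'⟩ := hnear
  have hmem : dist a u₀ ∈ A := ⟨u₀, hu₀', rfl⟩
  have hpos : 0 < sSup A := lt_of_lt_of_le (dist_pos.2 (Ne.symm hu₀)) (le_csSup hbdd hmem)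
  refine ⟨sSup A, hpos, csSup_le ⟨_, hmem⟩ (by rintro _ ⟨u, hu, rfl⟩; exact (h a u hu).le),
    fun u hu => le_csSup hbdd ⟨u, hu, rfl⟩, ?_⟩
  obtain ⟨_, ⟨u, hu, rfl⟩, h2⟩ := exists_lt_of_lt_csSup ⟨_, hmem⟩ (half_lt_self hpos)
  exact ⟨u, hu, h2.le⟩

/-- A good density for curves whose `F`-image is long. -/
theorem cover (H : Sp Z μ Q) {η : ℝ → ℝ} (hη : Gauge η) : ∃ C : ℝ, 0 < C ∧
    ∀ F : Z → Z, Continuous F → Function.Injective F → QSg η F →
    ∀ (x : Z) (s l R δ : ℝ), 0 < s → 0 < l → 0 < R → 0 < δ →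
    ∃ ρ : Z → ℝ≥0∞, Measurable ρ ∧
      (∀ (γ : ℝ → Z) (L : ℝ), LipschitzWith 1 γ → 0 ≤ L → (∀ t ∈ Icc 0 L, γ t ∈ closedBall x s) →
        l ≤ dist (γ 0) (γ L) → R ≤ dist (F (γ 0)) (F (γ L)) → 1 ≤ ∫⁻ t in Icc 0 L, ρ (γ t)) ∧
      ∫⁻ z, ρ z ^ Q ∂μ ≤ ENNReal.ofReal (C * R ^ (-Q)) * μ (cthickening δ (F '' closedBall x s)) := by
  classical
  have hQ1 := H.hQ
  have hQ : 0 < Q := by linarith
  have := finite_mu H
  obtain ⟨C₁, hC₁, hup⟩ := mass_upper H
  obtain ⟨c, hc, hlo⟩ := mass_lower H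
  obtain ⟨Kc, hKc⟩ := count_sep H (R := η 4 + 1) (by linarith [hη.nonneg 4])
  refine ⟨((Kc : ℝ) + 1) ^ (Q - 1) * (2 ^ Q * C₁ * 4 ^ Q / c), by positivity, ?_⟩
  intro F hF hi hq x s l R δ hs hl hR hδ
  have hD := H.hD
  obtain ⟨ε, hε, hεd⟩ := t01a_sep hF hi (l := l / 8) (by positivity)
  obtain ⟨δ', hδ'0, hδ'ε, hδ'δ, hδ'D⟩ : ∃ δ' : ℝ, 0 < δ' ∧ δ' ≤ ε ∧ δ' ≤ δ ∧
      δ' ≤ diam (univ : Set Z) :=
    ⟨min ε (min δ (diam (univ : Set Z))), lt_min hε (lt_min hδ hD), min_le_left _ _,
      (min_le_right _ _).trans (min_le_left _ _), (min_le_right _ _).trans (min_le_right _ _)⟩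
  have hδ's : ∀ u v, dist (F u) (F v) < δ' → dist u v < l / 8 := fun u v huv =>
    hεd u v (lt_of_lt_of_le huv hδ'ε)
  set K : Set Z := closedBall x s with hK
  have hKc' : IsCompact (F '' K) := isClosed_closedBall.isCompact.image hF
  haveI : CompactSpace ↥(F '' K) := isCompact_iff_compactSpace.1 hKc'
  obtain ⟨N, hN⟩ := exists_net (Z := ↥(F '' K)) hδ'0
  have hpre : ∀ i : ↥(F '' K), ∃ a ∈ K, F a = i := fun i => i.2
  choose p hpK hpF using hpre
  choose r hr0 hrl hru u hu1 hu2 using t01a_rad H hF hδ'0 hδ's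
  have hsepZ : ∀ i ∈ N, ∀ j ∈ N, i ≠ j → δ' ≤ dist (i : Z) (j : Z) := fun i hi j hj hij =>
    hN.sep i hi j hj hij
  refine ⟨fun w => ∑ i ∈ N, ENNReal.ofReal (2 / R * (δ' / r (p i))) *
    (closedBall (p i) (2 * r (p i))).indicator 1 w, ?_, ?_, ?_⟩
  · exact Finset.measurable_fun_sum N fun i _ =>
      (measurable_one.indicator measurableSet_closedBall).const_mul _
  · -- admissibility
    intro γ L hγ hL hγK hlγ hRγ
    have hlL : l ≤ L := by
      have h1 := hγ.dist_le_mul 0 L
      rw [NNReal.coe_one, one_mul, Real.dist_eq, zero_sub, abs_neg, abs_of_nonneg hL] at h1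
      linarith
    set I : Finset ↥(F '' K) := N.filter (fun i => ∃ t ∈ Icc 0 L, dist (F (p i)) (F (γ t)) < δ')
      with hI
    have hcard : R ≤ 2 * δ' * I.card := by
      have hcont : ContinuousOn (fun t => dist (F (γ 0)) (F (γ t))) (Icc 0 L) :=
        (continuous_const.dist (hF.comp hγ.continuous)).continuousOn
      have hiv := intermediate_value_Icc hL hcont
      have hsub : Icc (0 : ℝ) R ⊆ ⋃ i ∈ I, ball (dist (F (γ 0)) (i : Z)) δ' := by
        intro v hv
        have hv' : v ∈ Icc (dist (F (γ 0)) (F (γ 0))) (dist (F (γ 0)) (F (γ L))) := by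
          rw [dist_self]
          exact ⟨hv.1, hv.2.trans hRγ⟩
        obtain ⟨t, ht, htv⟩ := hiv hv'
        obtain ⟨i, hiN, hid⟩ := hN.cov ⟨F (γ t), ⟨γ t, hγK t ht, rfl⟩⟩
        have hid' : dist (F (γ t)) (i : Z) < δ' := hid
        rw [mem_iUnion₂]
        refine ⟨i, ?_, ?_⟩
        · rw [hI, Finset.mem_filter]
          refine ⟨hiN, t, ht, ?_⟩
          rw [hpF, dist_comm]
          exact hid'
        · rw [mem_ball, Real.dist_eq, ← htv]
          refine lt_of_le_of_lt ?_ hid'
          rw [abs_le]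
          have t1 := dist_triangle (F (γ 0)) (F (γ t)) (i : Z)
          have t2 := dist_triangle_right (F (γ 0)) (F (γ t)) (i : Z)
          constructor <;> linarith
      have h1 : ENNReal.ofReal R ≤ (I.card : ℝ≥0∞) * ENNReal.ofReal (2 * δ') := by
        calc ENNReal.ofReal R = volume (Icc (0 : ℝ) R) := by rw [Real.volume_Icc, sub_zero]
          _ ≤ volume (⋃ i ∈ I, ball (dist (F (γ 0)) (i : Z)) δ') := measure_mono hsub
          _ ≤ ∑ i ∈ I, volume (ball (dist (F (γ 0)) (i : Z)) δ') := measure_biUnion_finset_le _ _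
          _ = (I.card : ℝ≥0∞) * ENNReal.ofReal (2 * δ') := by
            rw [Finset.sum_congr rfl fun i _ => Real.volume_ball _ _, Finset.sum_const,
              nsmul_eq_mul]
      rw [← ENNReal.ofReal_natCast, ← ENNReal.ofReal_mul (by positivity)] at h1
      have h2 := (ENNReal.ofReal_le_ofReal_iff (by positivity)).1 h1
      linarith
    have hlen : ∀ i ∈ I, ENNReal.ofReal (r (p i)) ≤
        ∫⁻ t in Icc 0 L, (closedBall (p i) (2 * r (p i))).indicator 1 (γ t) := by
      intro i hiI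
      rw [hI, Finset.mem_filter] at hiI
      obtain ⟨-, t, ht, hti⟩ := hiI
      have hd : dist (p i) (γ t) ≤ r (p i) := hru (p i) (γ t) hti
      have hri := hr0 (p i)
      have hril := hrl (p i)
      obtain ⟨a, ha0, haL, hat⟩ : ∃ a : ℝ, 0 ≤ a ∧ a + r (p i) ≤ L ∧
          ∀ v ∈ Icc a (a + r (p i)), |v - t| ≤ r (p i) := by
        by_cases h1 : r (p i) ≤ t
        · refine ⟨t - r (p i), by linarith, by linarith [ht.2], fun v hv => ?_⟩
          rw [abs_le]
          constructor <;> linarith [hv.1, hv.2]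
        · refine ⟨t, ht.1, by linarith, fun v hv => ?_⟩
          rw [abs_le]
          constructor <;> linarith [hv.1, hv.2]
      have hsub : Icc a (a + r (p i)) ⊆ Icc 0 L := fun v hv => ⟨ha0.trans hv.1, hv.2.trans haL⟩
      calc ENNReal.ofReal (r (p i)) = ∫⁻ _ in Icc a (a + r (p i)), (1 : ℝ≥0∞) := by
            rw [setLIntegral_one, Real.volume_Icc]
            congr 1
            ring
        _ ≤ ∫⁻ t in Icc a (a + r (p i)), (closedBall (p i) (2 * r (p i))).indicator 1 (γ t) := by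
            refine setLIntegral_mono' measurableSet_Icc fun v hv => ?_
            have h3 : γ v ∈ closedBall (p i) (2 * r (p i)) := by
              rw [mem_closedBall]
              have h4 := hγ.dist_le_mul v t
              rw [NNReal.coe_one, one_mul, Real.dist_eq] at h4
              have h5 := hat v hv
              have h6 := dist_triangle (γ v) (γ t) (p i)
              rw [dist_comm (γ t) (p i)] at h6
              linarith
            rw [indicator_of_mem h3]
            exact le_rfl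
        _ ≤ _ := lintegral_mono_set hsub
    have hmeas : ∀ i, Measurable fun t => (closedBall (p i) (2 * r (p i))).indicator
        (1 : Z → ℝ≥0∞) (γ t) := fun i =>
      (measurable_one.indicator measurableSet_closedBall).comp hγ.continuous.measurable
    calc (1 : ℝ≥0∞) ≤ ENNReal.ofReal (2 / R * δ' * I.card) := by
          rw [← ENNReal.ofReal_one]
          refine ENNReal.ofReal_le_ofReal ?_
          have h1 : 2 / R * δ' * I.card = (2 * δ' * I.card) / R := by ring
          rw [h1, le_div_iff₀ hR]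
          linarith
      _ = ∑ _i ∈ I, ENNReal.ofReal (2 / R * δ') := by
          rw [Finset.sum_const, nsmul_eq_mul, ← ENNReal.ofReal_natCast,
            ← ENNReal.ofReal_mul (by positivity)]
          congr 1
          ring
      _ ≤ ∑ i ∈ I, ENNReal.ofReal (2 / R * (δ' / r (p i))) *
          ∫⁻ t in Icc 0 L, (closedBall (p i) (2 * r (p i))).indicator 1 (γ t) := by
          refine Finset.sum_le_sum fun i hiI => ?_
          have hri := hr0 (p i)
          calc ENNReal.ofReal (2 / R * δ') =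
                ENNReal.ofReal (2 / R * (δ' / r (p i))) * ENNReal.ofReal (r (p i)) := by
                rw [← ENNReal.ofReal_mul (by positivity)]
                congr 1
                field_simp
            _ ≤ _ := by gcongr; exact hlen i hiI
      _ ≤ ∑ i ∈ N, ENNReal.ofReal (2 / R * (δ' / r (p i))) *
          ∫⁻ t in Icc 0 L, (closedBall (p i) (2 * r (p i))).indicator 1 (γ t) :=
          Finset.sum_le_sum_of_subset (Finset.filter_subset _ _)
      _ = ∫⁻ t in Icc 0 L, ∑ i ∈ N, ENNReal.ofReal (2 / R * (δ' / r (p i))) *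
          (closedBall (p i) (2 * r (p i))).indicator 1 (γ t) := by
          rw [lintegral_finset_sum N fun i _ => (hmeas i).const_mul _]
          refine Finset.sum_congr rfl fun i _ => ?_
          rw [lintegral_const_mul _ (hmeas i)]
  · -- energy
    have hcount : ∀ w : Z, (N.filter (fun i => w ∈ closedBall (p i) (2 * r (p i)))).card ≤ Kc := by
      intro w
      set A : Finset ↥(F '' K) := N.filter (fun i => w ∈ closedBall (p i) (2 * r (p i))) with hA
      have h1 : (A.image (Subtype.val : ↥(F '' K) → Z)).card = A.card :=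
        Finset.card_image_of_injective _ Subtype.val_injective
      rw [← h1]
      refine hKc δ' hδ'0 (N.image (Subtype.val : ↥(F '' K) → Z)) ?_ (F w) _ ?_ ?_
      · intro y hy y' hy' hyy
        rw [Finset.mem_image] at hy hy'
        obtain ⟨i, hi1, rfl⟩ := hy
        obtain ⟨j, hj1, rfl⟩ := hy'
        exact hsepZ i hi1 j hj1 fun h => hyy (by rw [h])
      · exact Finset.image_subset_image (Finset.filter_subset _ _)
      · intro y hy
        rw [Finset.mem_image] at hy
        obtain ⟨i, hiA, rfl⟩ := hy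
        rw [hA, Finset.mem_filter] at hiA
        have h2 : dist (p i) w ≤ 2 * r (p i) := by
          rw [dist_comm]
          exact hiA.2
        have h3 : dist (p i) w ≤ 4 * dist (p i) (u (p i)) := by
          have := hu2 (p i)
          linarith
        have h4 := hq (p i) w (u (p i)) 4 h3
        have h5 := (hu1 (p i)).le
        have h6 := hη.nonneg 4
        rw [hpF] at h4 h5
        rw [dist_comm (F w)]
        calc dist (i : Z) (F w) ≤ η 4 * dist (i : Z) (F (u (p i))) := h4
          _ ≤ η 4 * δ' := by gcongr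
          _ ≤ (η 4 + 1) * δ' := by nlinarith
    have hpt : ∀ w : Z, (∑ i ∈ N, ENNReal.ofReal (2 / R * (δ' / r (p i))) *
        (closedBall (p i) (2 * r (p i))).indicator 1 w) ^ Q ≤
        ENNReal.ofReal (((Kc : ℝ) + 1) ^ (Q - 1)) * ∑ i ∈ N,
          ENNReal.ofReal (2 / R * (δ' / r (p i))) ^ Q *
          (closedBall (p i) (2 * r (p i))).indicator 1 w := by
      intro w
      set A : Finset ↥(F '' K) := N.filter (fun i => w ∈ closedBall (p i) (2 * r (p i))) with hA
      have e1 : ∑ i ∈ N, ENNReal.ofReal (2 / R * (δ' / r (p i))) *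
          (closedBall (p i) (2 * r (p i))).indicator 1 w =
          ∑ i ∈ A, ENNReal.ofReal (2 / R * (δ' / r (p i))) := by
        rw [hA, Finset.sum_filter]
        refine Finset.sum_congr rfl fun i _ => ?_
        by_cases h : w ∈ closedBall (p i) (2 * r (p i))
        · rw [indicator_of_mem h, if_pos h, Pi.one_apply, mul_one]
        · rw [indicator_of_notMem h, if_neg h, mul_zero]
      have e2 : ∑ i ∈ N, ENNReal.ofReal (2 / R * (δ' / r (p i))) ^ Q *
          (closedBall (p i) (2 * r (p i))).indicator 1 w =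
          ∑ i ∈ A, ENNReal.ofReal (2 / R * (δ' / r (p i))) ^ Q := by
        rw [hA, Finset.sum_filter]
        refine Finset.sum_congr rfl fun i _ => ?_
        by_cases h : w ∈ closedBall (p i) (2 * r (p i))
        · rw [indicator_of_mem h, if_pos h, Pi.one_apply, mul_one]
        · rw [indicator_of_notMem h, if_neg h, mul_zero]
      rw [e1, e2]
      refine (ENNReal.rpow_sum_le_const_mul_sum_rpow A _ hQ1.le).trans ?_
      refine mul_le_mul' ?_ le_rfl
      rw [← ENNReal.ofReal_rpow_of_nonneg (by positivity) (by linarith)]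
      refine ENNReal.rpow_le_rpow ?_ (by linarith)
      rw [← ENNReal.ofReal_natCast]
      refine ENNReal.ofReal_le_ofReal ?_
      have : (A.card : ℝ) ≤ Kc := by exact_mod_cast hcount w
      linarith
    have hmeas : ∀ i, Measurable ((closedBall (p i) (2 * r (p i))).indicator (1 : Z → ℝ≥0∞)) :=
      fun i => measurable_one.indicator measurableSet_closedBall
    have hint : ∀ i, ENNReal.ofReal (2 / R * (δ' / r (p i))) ^ Q *
        μ (closedBall (p i) (2 * r (p i))) ≤
        ENNReal.ofReal (2 ^ Q * R ^ (-Q) * δ' ^ Q * C₁ * 2 ^ Q) := by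
      intro i
      have hri := hr0 (p i)
      rw [ENNReal.ofReal_rpow_of_nonneg (by positivity) hQ.le]
      refine (mul_le_mul' le_rfl (hup (p i) (2 * r (p i)) (by positivity))).trans ?_
      rw [← ENNReal.ofReal_mul (by positivity)]
      refine ENNReal.ofReal_le_ofReal (le_of_eq ?_)
      rw [Real.mul_rpow (by positivity) (by positivity), Real.div_rpow (by norm_num) hR.le,
        Real.div_rpow hδ'0.le hri.le, Real.mul_rpow (by norm_num) hri.le, Real.rpow_neg hR.le]
      have h1 : 0 < r (p i) ^ Q := by positivity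
      have h2 : 0 < R ^ Q := by positivity
      field_simp
    have hballs : (N.card : ℝ≥0∞) * ENNReal.ofReal (c * (δ' / 2) ^ Q) ≤
        μ (cthickening δ (F '' K)) := by
      have hdis : (N : Set ↥(F '' K)).PairwiseDisjoint (fun i => ball (i : Z) (δ' / 2)) := by
        intro i hi j hj hij
        refine ball_disjoint_ball ?_
        have := hsepZ i hi j hj hij
        linarith
      have hsub : (⋃ i ∈ N, ball (i : Z) (δ' / 2)) ⊆ cthickening δ (F '' K) := by
        intro w hw
        simp only [mem_iUnion, exists_prop] at hw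
        obtain ⟨i, -, hw⟩ := hw
        refine mem_cthickening_of_dist_le w (i : Z) δ _ i.2 ?_
        have : dist w (i : Z) < δ' / 2 := hw
        linarith
      calc (N.card : ℝ≥0∞) * ENNReal.ofReal (c * (δ' / 2) ^ Q)
          = ∑ _i ∈ N, ENNReal.ofReal (c * (δ' / 2) ^ Q) := by rw [Finset.sum_const, nsmul_eq_mul]
        _ ≤ ∑ i ∈ N, μ (ball (i : Z) (δ' / 2)) :=
            Finset.sum_le_sum fun i _ => hlo i _ (by positivity) (by linarith)
        _ = μ (⋃ i ∈ N, ball (i : Z) (δ' / 2)) := by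
            rw [measure_biUnion_finset hdis (fun i _ => measurableSet_ball)]
        _ ≤ _ := measure_mono hsub
    calc ∫⁻ z, (∑ i ∈ N, ENNReal.ofReal (2 / R * (δ' / r (p i))) *
          (closedBall (p i) (2 * r (p i))).indicator 1 z) ^ Q ∂μ
        ≤ ∫⁻ z, ENNReal.ofReal (((Kc : ℝ) + 1) ^ (Q - 1)) * ∑ i ∈ N,
          ENNReal.ofReal (2 / R * (δ' / r (p i))) ^ Q *
          (closedBall (p i) (2 * r (p i))).indicator 1 z ∂μ := lintegral_mono hpt
      _ = ENNReal.ofReal (((Kc : ℝ) + 1) ^ (Q - 1)) * ∑ i ∈ N,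
          ENNReal.ofReal (2 / R * (δ' / r (p i))) ^ Q * μ (closedBall (p i) (2 * r (p i))) := by
          rw [lintegral_const_mul _ (Finset.measurable_fun_sum N fun i _ =>
            (hmeas i).const_mul _), lintegral_finset_sum N fun i _ => (hmeas i).const_mul _]
          congr 1
          refine Finset.sum_congr rfl fun i _ => ?_
          rw [lintegral_const_mul _ (hmeas i), lintegral_indicator_one measurableSet_closedBall]
      _ ≤ ENNReal.ofReal (((Kc : ℝ) + 1) ^ (Q - 1)) * ∑ _i ∈ N,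
          ENNReal.ofReal (2 ^ Q * R ^ (-Q) * δ' ^ Q * C₁ * 2 ^ Q) := by
          gcongr with i _
          exact hint i
      _ = ENNReal.ofReal (((Kc : ℝ) + 1) ^ (Q - 1) * (2 ^ Q * C₁ * 4 ^ Q / c) * R ^ (-Q)) *
          ((N.card : ℝ≥0∞) * ENNReal.ofReal (c * (δ' / 2) ^ Q)) := by
          rw [Finset.sum_const, nsmul_eq_mul]
          have e1 : 2 ^ Q * R ^ (-Q) * δ' ^ Q * C₁ * 2 ^ Q =
              (2 ^ Q * C₁ * 4 ^ Q / c * R ^ (-Q)) * (c * (δ' / 2) ^ Q) := by
            rw [Real.div_rpow hδ'0.le (by norm_num)]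
            have h4 : (4 : ℝ) ^ Q = 2 ^ Q * 2 ^ Q := by
              rw [← Real.mul_rpow (by norm_num) (by norm_num)]
              norm_num
            rw [h4]
            have h2 : (0 : ℝ) < 2 ^ Q := by positivity
            field_simp
          rw [e1, ENNReal.ofReal_mul (p := 2 ^ Q * C₁ * 4 ^ Q / c * R ^ (-Q)) (by positivity),
            mul_assoc (((Kc : ℝ) + 1) ^ (Q - 1)),
            ENNReal.ofReal_mul (p := ((Kc : ℝ) + 1) ^ (Q - 1)) (by positivity)]
          ring
      _ ≤ _ := by gcongr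

end QSCoh
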