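import Mathlib
import Pool.Agent.Lib.MP_cccab4_an.Defs
import Pool.Agent.Lib.MP_cccab4_an.S06
import Pool.Agent.Lib.MP_cccab4_an.T01a

/-!
# MP_cccab4_an, module T01b

`Λ, m` from `seed`; `r₁ = r/(2Λ) ≤ D/2`.  Let `K = closedBall x (r/2) = closedBall x (Λ r₁)`,
`l = 3r₁/8`, `R = diam (F '' ball x r)/(2 η(6Λ))` (positive: the ball has two points; `η(6Λ) > 0` because
otherwise `F` would be constant on a ball).  If `γ` is a seed at `(x,r₁)`: `d(γ 0,γ L) ≥ 3r₁/8`, and for
`w ∈ ball x r`: `d(γ 0,w) ≤ r + r₁/8 ≤ 6Λ·(3r₁/8)` (as `r = 2Λ r₁`), so `d(F γ 0,F w) ≤ η(6Λ)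
d(F γ 0,F γ L)`, whence `diam (F '' ball x r) ≤ 2η(6Λ) d(F γ 0,F γ L)`, i.e. `d(F γ 0, F γ L) ≥ R`.
For `δ > 0` let `ρ` be from `cover` (`s = r/2`).  If `∫ρ^Q < m (1/2)^Q`, `seed` with `l = 1/2` gives a
seed with `∫ρ(γ) ≤ 1/2`, contradicting admissibility.  So
`m 2^{-Q} ≤ C R^{-Q} μ(cthickening δ (F '' K))`.  Let `δ → 0`
(`tendsto_measure_cthickening_of_isCompact`): `m 2^{-Q} ≤ C R^{-Q} μ(F '' K)`, `K ⊆ ball x r`.
-/

open MeasureTheory Metric Set Filter Topology
open scoped ENNReal NNReal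

namespace QSCoh

variable {Z : Type*} [MetricSpace Z] [CompactSpace Z] [MeasurableSpace Z] [BorelSpace Z]
  {μ : Measure Z} {Q : ℝ}

theorem t01b_two (H : Sp Z μ Q) : ∃ a b : Z, a ≠ b := by
  by_contra h
  push Not at h
  have h1 : (univ : Set Z).Subsingleton := fun a _ b _ => h a b
  have h2 := H.hD
  rw [diam_subsingleton h1] at h2
  exact lt_irrefl _ h2

/-- The image of a ball under a quasisymmetric embedding has large measure (Tyson). -/
theorem low (H : Sp Z μ Q) {F : Z → Z} (hF : Continuous F) (hi : Function.Injective F) {η : ℝ → ℝ}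
    (hη : Gauge η) (hq : QSg η F) : ∃ c : ℝ, 0 < c ∧ ∀ (x : Z) (r : ℝ), 0 < r →
    r ≤ diam (univ : Set Z) → c * diam (F '' ball x r) ^ Q ≤ μ.real (F '' ball x r) := by
  have hfin := finite_mu H
  have hQ : 0 < Q := by linarith [H.hQ]
  obtain ⟨Λ, m, hΛ, hm, hseed⟩ := seed H
  obtain ⟨C, hC, hcov⟩ := cover H hη
  have hcov := hcov F hF hi hq
  -- the gauge is at least one
  have hη1 : 1 ≤ η (6 * Λ) := by
    obtain ⟨a, b, hab⟩ := t01b_two H
    have h1 : dist a b ≤ 6 * Λ * dist a b := by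
      have := dist_nonneg (x := a) (y := b)
      nlinarith
    have h2 := hq a b b (6 * Λ) h1
    have h3 : 0 < dist (F a) (F b) := dist_pos.2 (fun h => hab (hi h))
    by_contra h4
    push Not at h4
    nlinarith
  set e : ℝ := η (6 * Λ) with he
  have he0 : 0 < e := by linarith
  refine ⟨m / (2 ^ Q * C * (2 * e) ^ Q), by positivity, fun x r hr hrD => ?_⟩
  set d : ℝ := diam (F '' ball x r) with hd
  have hbd : Bornology.IsBounded (F '' ball x r) := isBounded_of_compactSpace
  have hdnn : 0 ≤ d := diam_nonneg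
  rcases eq_or_lt_of_le hdnn with hd0 | hd0
  · rw [← hd0, Real.zero_rpow hQ.ne', mul_zero]
    exact measureReal_nonneg
  · set r₁ : ℝ := r / (2 * Λ) with hr₁
    have hΛ0 : 0 < Λ := by linarith
    have hr₁0 : 0 < r₁ := by positivity
    have hrr : r = 2 * Λ * r₁ := by rw [hr₁]; field_simp
    have hr₁D : r₁ ≤ diam (univ : Set Z) / 2 := by
      rw [hr₁, div_le_div_iff₀ (by positivity) (by norm_num)]
      nlinarith
    have hK : closedBall x (Λ * r₁) = closedBall x (r / 2) := by
      congr 1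
      rw [hrr]
      ring
    set R : ℝ := d / (2 * e) with hR
    have hR0 : 0 < R := by positivity
    -- a seed has a long image
    have hlong : ∀ (γ : ℝ → Z) (L : ℝ) (ρ : Z → ℝ≥0∞) (l : ℝ≥0∞), Seed Λ x r₁ ρ l γ L →
        3 * r₁ / 8 ≤ dist (γ 0) (γ L) ∧ R ≤ dist (F (γ 0)) (F (γ L)) := by
      intro γ L ρ l hs
      have h1 := hs.start
      have h2 := hs.stop
      have h3 : dist x (γ L) ≤ dist x (γ 0) + dist (γ 0) (γ L) := dist_triangle _ _ _
      have h4 : 3 * r₁ / 8 ≤ dist (γ 0) (γ L) := by linarith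
      refine ⟨h4, ?_⟩
      have h5 : ∀ w ∈ ball x r, dist (F (γ 0)) (F w) ≤ e * dist (F (γ 0)) (F (γ L)) := by
        intro w hw
        apply hq
        rw [mem_ball, dist_comm] at hw
        have h6 : dist (γ 0) w ≤ dist x (γ 0) + dist x w := by
          have := dist_triangle (γ 0) x w
          rwa [dist_comm (γ 0) x] at this
        have h7 : r₁ ≤ Λ * r₁ := by nlinarith
        have h8 : Λ * (3 * r₁ / 8) ≤ Λ * dist (γ 0) (γ L) := mul_le_mul_of_nonneg_left h4 hΛ0.le
        nlinarith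
      have h6 : d ≤ 2 * (e * dist (F (γ 0)) (F (γ L))) := by
        apply diam_le_of_forall_dist_le (by positivity)
        rintro _ ⟨u, hu, rfl⟩ _ ⟨w, hw, rfl⟩
        have h7 := h5 u hu
        have h8 := h5 w hw
        have h9 := dist_triangle_left (F u) (F w) (F (γ 0))
        linarith
      rw [hR, div_le_iff₀ (by positivity)]
      linarith
    -- the inequality for the thickenings
    have hthick : ∀ δ : ℝ, 0 < δ → ENNReal.ofReal m * (ENNReal.ofReal (1 / 2)) ^ Q ≤
        ENNReal.ofReal (C * R ^ (-Q)) * μ (cthickening δ (F '' closedBall x (r / 2))) := by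
      intro δ hδ
      obtain ⟨ρ, hρm, hadm, hρ⟩ := hcov x (r / 2) (3 * r₁ / 8) R δ (by positivity) (by positivity)
        hR0 hδ
      refine le_trans ?_ hρ
      refine le_trans ?_ (setLIntegral_le_lintegral (closedBall x (Λ * r₁)) _)
      by_contra hlt
      push Not at hlt
      obtain ⟨γ, L, hs⟩ := hseed x r₁ hr₁0 hr₁D ρ hρm (ENNReal.ofReal (1 / 2))
        (by rw [ENNReal.ofReal_pos]; norm_num) ENNReal.ofReal_ne_top hlt
      obtain ⟨h1, h2⟩ := hlong γ L ρ _ hs
      have h3 := hadm γ L hs.lip hs.nonneg (fun t ht => by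
        have := hs.im t ht
        rwa [hK] at this) h1 h2
      have h4 := h3.trans hs.int
      have h5 : ENNReal.ofReal (1 / 2) < 1 := by
        rw [← ENNReal.ofReal_one]
        exact (ENNReal.ofReal_lt_ofReal_iff one_pos).2 (by norm_num)
      exact absurd h4 (not_le.2 h5)
    have hcomp : IsCompact (F '' closedBall x (r / 2)) := (isCompact_closedBall x _).image hF
    have hlim : ENNReal.ofReal m * (ENNReal.ofReal (1 / 2)) ^ Q ≤
        ENNReal.ofReal (C * R ^ (-Q)) * μ (F '' closedBall x (r / 2)) := by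
      have h1 : Tendsto (fun δ => ENNReal.ofReal (C * R ^ (-Q)) *
          μ (cthickening δ (F '' closedBall x (r / 2)))) (𝓝[>] 0)
          (𝓝 (ENNReal.ofReal (C * R ^ (-Q)) * μ (F '' closedBall x (r / 2)))) := by
        apply ENNReal.Tendsto.const_mul _ (Or.inr ENNReal.ofReal_ne_top)
        exact (tendsto_measure_cthickening_of_isCompact hcomp).mono_left nhdsWithin_le_nhds
      apply ge_of_tendsto h1
      filter_upwards [self_mem_nhdsWithin] with δ hδ
      exact hthick δ hδ
    have hmono : μ (F '' closedBall x (r / 2)) ≤ μ (F '' ball x r) :=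
      measure_mono (image_mono (closedBall_subset_ball (by linarith)))
    have hfinal : ENNReal.ofReal (m * (1 / 2) ^ Q) ≤
        ENNReal.ofReal (C * R ^ (-Q) * μ.real (F '' ball x r)) := by
      rw [ENNReal.ofReal_mul hm.le, ← ENNReal.ofReal_rpow_of_pos (by norm_num),
        ENNReal.ofReal_mul (by positivity), ofReal_measureReal]
      exact hlim.trans (mul_le_mul' le_rfl hmono)
    have hreal : m * (1 / 2) ^ Q ≤ C * R ^ (-Q) * μ.real (F '' ball x r) := by
      rwa [ENNReal.ofReal_le_ofReal_iff (by positivity)] at hfinal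
    have hRQ : 0 < R ^ Q := Real.rpow_pos_of_pos hR0 Q
    have h2Q : (0 : ℝ) < 2 ^ Q := by positivity
    rw [Real.rpow_neg hR0.le, Real.div_rpow (by norm_num) (by norm_num), Real.one_rpow] at hreal
    have h2e : 0 < (2 * e) ^ Q := by positivity
    have hRd : R ^ Q = d ^ Q / (2 * e) ^ Q := by
      rw [hR, Real.div_rpow hd0.le (by positivity)]
    have hdQ : 0 < d ^ Q := Real.rpow_pos_of_pos hd0 Q
    rw [hRd] at hreal hRQ
    have h10 : m * (1 / 2 ^ Q) * (d ^ Q / (2 * e) ^ Q) ≤ C * μ.real (F '' ball x r) := by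
      have h11 := mul_le_mul_of_nonneg_right hreal hRQ.le
      have h12 : C * (d ^ Q / (2 * e) ^ Q)⁻¹ * μ.real (F '' ball x r) * (d ^ Q / (2 * e) ^ Q) =
          C * μ.real (F '' ball x r) := by
        field_simp
      linarith
    have h13 : m / (2 ^ Q * C * (2 * e) ^ Q) * d ^ Q =
        (m * (1 / 2 ^ Q) * (d ^ Q / (2 * e) ^ Q)) / C := by
      field_simp
    rw [h13, div_le_iff₀ hC]
    linarith

end QSCoh
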