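import Mathlib
import Pool.Agent.Lib.MP_cccab4_an.Defs
import Pool.Agent.Lib.MP_cccab4_an.A08
import Pool.Agent.Lib.MP_cccab4_an.S01

/-!
# MP_cccab4_an, module T02a

Suppose `q ∉ range φ`.  `range φ` is compact: let `ρ > 0` with `d(q,φ w) ≥ 2ρ` for all `w`; for large
`j`, `d(q, g_j(f(h'_j w))) ≥ ρ` for all `w`, i.e. `d(q, g_j (f u)) ≥ ρ` for all `u` (`w = h_j u`).
In particular `d(q,g_j(f(z_j))) ≥ ρ`.  Let `u_j ∈ Z` with `g_j u_j = q` (`g_j` bijective).  With
`s_j = d(f x, f y_j) → 0` (continuity) and `d(f x,f z_j) ≥ D₁ > 0` (compactness and injectivity of `f`,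
`d(x,z_j) ≥ D/2`), `s_j ≤ σ d(f x,f z_j)` for large `j`.  `zoom2` (`κ = ρ`): `d(f x,u_j) ≤ M s_j`.
`zoom3` (with `M+1`, `ε = ρ/2`): `d(u_j,v) ≤ τ s_j` (`τ ≤ 1`) implies `d(q,g_j v) ≤ ρ/2`, so
`v ∉ range f`.  So `closedBall u_j (τ s_j)` is disjoint from `range f` and contained in
`closedBall (f x) ((M+1) s_j)`; so `μ(range f ∩ closedBall (f x) ((M+1)s_j)) ≤
μ(closedBall (f x) ((M+1)s_j)) - μ(closedBall u_j (τ s_j))`, and by Ahlfors regularity the ratio in
`Dens` is `≤ 1 - c` along `(M+1) s_j → 0+` (`s_j > 0` since `f` is injective, `y_j ≠ x`):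
contradiction.
-/

open MeasureTheory Metric Set Filter Topology
open scoped ENNReal NNReal

namespace QSCoh

variable {Z : Type*} [MetricSpace Z] [CompactSpace Z] [MeasurableSpace Z] [BorelSpace Z]
  {μ : Measure Z} {Q : ℝ}

/-- A definite hole contradicts density. -/
theorem dens_hole (H : Sp Z μ Q) {A : Set Z} {y : Z} (hd : Dens μ A y) {s : ℕ → ℝ}
    (hs0 : ∀ j, 0 < s j) (hs : Tendsto s atTop (𝓝 0)) {M τ : ℝ} (hM : 0 < M) (hτ : 0 < τ)
    (hτ1 : τ ≤ 1) {u : ℕ → Z} (hu : ∀ᶠ j in atTop, dist y (u j) ≤ M * s j)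
    (hole : ∀ᶠ j in atTop, Disjoint A (closedBall (u j) (τ * s j))) : False := by
  have := finite_mu H
  have hQ : 0 < Q := by linarith [H.hQ]
  obtain ⟨C, hC, hup⟩ := mass_upper H
  obtain ⟨c, hc, hlo⟩ := mass_lower H
  set D := diam (univ : Set Z) with hD
  have hDpos : 0 < D := H.hD
  -- the radius
  have hrad : Tendsto (fun j => (M + 1) * s j) atTop (𝓝[>] 0) := by
    refine tendsto_nhdsWithin_iff.2 ⟨?_, Eventually.of_forall fun j => ?_⟩
    · simpa using hs.const_mul (M + 1)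
    · exact mul_pos (by linarith) (hs0 j)
  have hlim := hd.comp hrad
  set q := c * τ ^ Q / (C * (M + 1) ^ Q) with hq
  have hqpos : 0 < q := by positivity
  have hbad : ∀ᶠ j in atTop, μ (A ∩ closedBall y ((M + 1) * s j)) / μ (closedBall y ((M + 1) * s j))
      ≤ ENNReal.ofReal (1 - min q 1) := by
    have hsD : ∀ᶠ j in atTop, s j < D := hs.eventually_lt_const hDpos
    filter_upwards [hu, hole, hsD] with j hj1 hj2 hj3
    have hsj := hs0 j
    set B := closedBall y ((M + 1) * s j) with hB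
    set B' := closedBall (u j) (τ * s j) with hB'
    have hsub : B' ⊆ B := by
      intro w hw
      rw [hB', mem_closedBall] at hw
      rw [hB, mem_closedBall]
      have h1 := dist_triangle w (u j) y
      rw [dist_comm (u j) y] at h1
      nlinarith
    have hmB' : MeasurableSet B' := isClosed_closedBall.measurableSet
    have hBpos : 0 < μ B := by
      have h1 : μ.real (ball y ((M + 1) * s j)) ≤ μ.real B := measureReal_mono ball_subset_closedBall
      have h2 := mass_ball_pos H y (r := (M + 1) * s j) (by positivity)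
      exact (ENNReal.toReal_pos_iff.1 (h2.trans_le h1)).1
    have hBtop : μ B ≠ ∞ := measure_ne_top _ _
    -- real inequality
    have h1 : μ.real (A ∩ B) + μ.real B' ≤ μ.real B := by
      have h2 : A ∩ B ⊆ B \ B' := fun w hw => ⟨hw.2, fun hw' => disjoint_left.1 hj2 hw.1 hw'⟩
      have h3 : μ.real (A ∩ B) ≤ μ.real (B \ B') := measureReal_mono h2
      have h4 : μ.real (B \ B') = μ.real B - μ.real B' := measureReal_sdiff hsub hmB'
      linarith
    have h5 : c * (τ * s j) ^ Q ≤ μ.real B' := by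
      have h6 := (hlo (u j) (τ * s j) (by positivity) (by nlinarith)).trans
        (measure_mono ball_subset_closedBall)
      exact (ENNReal.ofReal_le_iff_le_toReal (measure_ne_top _ _)).1 h6
    have h7 : μ.real B ≤ C * ((M + 1) * s j) ^ Q :=
      ENNReal.toReal_le_of_le_ofReal (by positivity) (hup y _ (by positivity))
    have h8 : q * μ.real B ≤ c * (τ * s j) ^ Q := by
      refine (mul_le_mul_of_nonneg_left h7 hqpos.le).trans (le_of_eq ?_)
      rw [hq, Real.mul_rpow hτ.le hsj.le, Real.mul_rpow (by linarith) hsj.le]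
      field_simp
    have hBr : 0 < μ.real B := ENNReal.toReal_pos hBpos.ne' hBtop
    have h9 : min q 1 * μ.real B ≤ q * μ.real B :=
      mul_le_mul_of_nonneg_right (min_le_left _ _) hBr.le
    have h10 : μ.real (A ∩ B) ≤ (1 - min q 1) * μ.real B := by linarith
    rw [ENNReal.div_le_iff hBpos.ne' hBtop]
    have h11 : μ (A ∩ B) = ENNReal.ofReal (μ.real (A ∩ B)) :=
      (ENNReal.ofReal_toReal (measure_ne_top _ _)).symm
    have h12 : μ B = ENNReal.ofReal (μ.real B) := (ENNReal.ofReal_toReal hBtop).symm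
    rw [h11, h12, ← ENNReal.ofReal_mul (by linarith [min_le_right q 1])]
    exact ENNReal.ofReal_le_ofReal h10
  have hfin := le_of_tendsto hlim hbad
  have hlt : ENNReal.ofReal (1 - min q 1) < 1 := by
    rw [ENNReal.ofReal_lt_one]
    have : 0 < min q 1 := lt_min hqpos one_pos
    linarith
  exact absurd hfin (not_le.2 hlt)

/-- Limits of zooms at a density point of the image are surjective. -/
theorem surj {S G : Set (Z → Z)} {δ₀ : ℝ} {θ₀ : ℝ → ℝ} (H : Sp Z μ Q) (K : Sg Z S G δ₀ θ₀) {f : Z → Z} (hf : f ∈ S) {x : Z}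
    (hd : Dens μ (range f) (f x)) {r : ℕ → ℝ} (hr : Tendsto r atTop (𝓝[>] 0)) {y z : ℕ → Z}
    (hy : ∀ j, dist x (y j) = r j) (hz : ∀ j, diam (univ : Set Z) / 2 ≤ dist x (z j))
    {h h' g : ℕ → Z → Z} (hh : ∀ j, Zm G δ₀ (h j) x (y j) (z j))
    (hi' : ∀ j w, h' j (h j w) = w)
    (hg : ∀ j, Zm G δ₀ (g j) (f x) (f (y j)) (f (z j))) {φ : Z → Z} (hφ : Continuous φ)
    (hlim : TendstoUniformly (fun j w => g j (f (h' j w))) φ atTop) : Function.Surjective φ := by
  classical
  by_contra hns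
  rw [Function.Surjective] at hns
  push Not at hns
  obtain ⟨q, hq⟩ := hns
  have hfc := K.cont f hf
  obtain ⟨θ, -, hqm⟩ := K.qm f hf
  set D := diam (univ : Set Z) with hD
  have hDpos : 0 < D := H.hD
  -- the distance from q to the range of φ
  have hcl : IsClosed (range φ) := (isCompact_range hφ).isClosed
  obtain ⟨ρ₂, hρ₂, hρball⟩ := Metric.isOpen_iff.1 hcl.isOpen_compl q (fun ⟨w, hw⟩ => hq w hw)
  set ρ := ρ₂ / 2 with hρ
  have hρpos : 0 < ρ := by positivity
  have hφq : ∀ w, 2 * ρ ≤ dist q (φ w) := by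
    intro w
    by_contra hlt
    push Not at hlt
    have : φ w ∈ ball q ρ₂ := by rw [mem_ball, dist_comm]; linarith
    exact hρball this ⟨w, rfl⟩
  have hFq : ∀ᶠ j in atTop, ∀ u, ρ ≤ dist q (g j (f u)) := by
    have h1 := Metric.tendstoUniformly_iff.1 hlim ρ hρpos
    filter_upwards [h1] with j hj u
    have h2 := hj (h j u)
    rw [hi'] at h2
    have h3 := hφq (h j u)
    have h4 := dist_triangle q (g j (f u)) (φ (h j u))
    rw [dist_comm (g j (f u))] at h4
    linarith
  -- zoom constants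
  obtain ⟨σ₂, hσ₂, M, hM, hz2⟩ := zoom2 K hρpos
  obtain ⟨σ₃, hσ₃, τ', hτ', hz3⟩ := zoom3 K (M := M + 1) (by linarith) (ε := ρ / 2) (by linarith)
  set τ := min τ' 1 with hτ
  have hτpos : 0 < τ := lt_min hτ' one_pos
  -- scales in the target
  set s : ℕ → ℝ := fun j => dist (f x) (f (y j)) with hs
  have hs0 : ∀ j, 0 < s j := fun j => dist_pos.2 (hqm.inj.ne (hh j).ne)
  have hyx : Tendsto y atTop (𝓝 x) := by
    rw [tendsto_iff_dist_tendsto_zero]
    have h1 : (fun j => dist (y j) x) = r := by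
      ext j; rw [dist_comm]; exact hy j
    rw [h1]
    exact hr.mono_right nhdsWithin_le_nhds
  have hslim : Tendsto s atTop (𝓝 0) := by
    have h1 : Tendsto (fun j => dist (f x) (f (y j))) atTop (𝓝 (dist (f x) (f x))) :=
      tendsto_const_nhds.dist ((hfc.tendsto x).comp hyx)
    rwa [dist_self] at h1
  obtain ⟨D₁, hD₁, hlow⟩ : ∃ D₁ > 0, ∀ w, D / 2 ≤ dist x w → D₁ ≤ dist (f x) (f w) := by
    set A : Set Z := {w | D / 2 ≤ dist x w} with hA
    have hAc : IsCompact A := (isClosed_le continuous_const (continuous_const.dist continuous_id)).isCompact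
    have hcont : Continuous fun w : Z => dist (f x) (f w) := continuous_const.dist hfc
    obtain ⟨w₀, hw₀, hmin⟩ := hAc.exists_isMinOn ⟨z 0, hz 0⟩ hcont.continuousOn
    refine ⟨dist (f x) (f w₀), dist_pos.2 (hqm.inj.ne fun e => ?_), fun w hw => hmin hw⟩
    have : D / 2 ≤ dist x w₀ := hw₀
    rw [← e, dist_self] at this
    linarith
  have hsmall : ∀ σ > 0, ∀ᶠ j in atTop, s j ≤ σ * dist (f x) (f (z j)) := by
    intro σ hσ
    filter_upwards [hslim.eventually_lt_const (show 0 < σ * D₁ by positivity)] with j hj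
    exact hj.le.trans (mul_le_mul_of_nonneg_left (hlow _ (hz j)) hσ.le)
  -- preimages of q
  choose u hu using fun j => (G_qm K (hg j).mem).2.1.2 q
  have hu1 : ∀ᶠ j in atTop, dist (f x) (u j) ≤ M * s j := by
    filter_upwards [hFq, hsmall σ₂ hσ₂] with j hj1 hj2
    refine hz2 (g j) (f x) (f (y j)) (f (z j)) (hg j) hj2 (u j) ?_
    rw [hu]
    exact hj1 (z j)
  refine dens_hole H hd hs0 hslim hM hτpos (min_le_right _ _) hu1 ?_
  filter_upwards [hFq, hsmall σ₃ hσ₃, hu1] with j hj1 hj2 hj3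
  refine disjoint_left.2 ?_
  rintro _ ⟨w, rfl⟩ hw
  rw [mem_closedBall] at hw
  have hsj := hs0 j
  have h1 : dist (u j) (f w) ≤ τ' * s j := by
    rw [dist_comm]
    exact hw.trans (mul_le_mul_of_nonneg_right (min_le_left _ _) hsj.le)
  have h2 : dist (f x) (u j) ≤ (M + 1) * s j := by nlinarith
  have h3 : dist (f x) (f w) ≤ (M + 1) * s j := by
    have h4 := dist_triangle (f x) (u j) (f w)
    rw [dist_comm] at hw
    have h5 : τ * s j ≤ 1 * s j := mul_le_mul_of_nonneg_right (min_le_right _ _) hsj.le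
    linarith
  have h6 := hz3 (g j) (f x) (f (y j)) (f (z j)) (hg j) hj2 (u j) (f w) h2 h3 h1
  rw [hu] at h6
  have h7 := hj1 w
  linarith

end QSCoh
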