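import Mathlib
import Pool.Agent.Lib.MP_cccab4_an.Defs
import Pool.Agent.Lib.MP_cccab4_an.A03
import Pool.Agent.Lib.MP_cccab4_an.A05
import Pool.Agent.Lib.MP_cccab4_an.A07
import Pool.Agent.Lib.MP_cccab4_an.A08
import Pool.Agent.Lib.MP_cccab4_an.T02a

/-!
# MP_cccab4_an, module T02b

Suppose not: for each `j` there are `y_j, z_j, h_j, h'_j, g_j` with `d(x,y_j) < 1/(j+1)` such that no
`φ` works.  `F_j = g_j ∘ f ∘ h'_j` is `θ₀∘θ∘θ₀`-QM (`f` is `θ`-QM, `qm_comp`, `G_qm`) and maps the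
`δ₀`-separated triple `(h_j x,h_j y_j,h_j z_j)` to the `δ₀`-separated triple `(g_j f x, …)`.  So
`qm_equi` applies, and `extract` gives a subsequence converging uniformly to a continuous `φ`;
`qm_lower` passes to the limit, so `φ` is injective.  `surj` (along the subsequence;
`r_j = d(x,y_j) → 0+`, positive by `Zm.ne`) gives surjectivity, so `φ` is bijective and `K.rig`
(with the sequences `g_j`, `h'_j` of the subsequence) gives `QM θ₀ φ`.  For large `j`,
`d(F_j w,φ w) ≤ ε` for all `w`: contradiction.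
-/

open MeasureTheory Metric Set Filter Topology
open scoped ENNReal NNReal

namespace QSCoh

variable {Z : Type*} [MetricSpace Z] [CompactSpace Z] [MeasurableSpace Z] [BorelSpace Z]
  {μ : Measure Z} {Q : ℝ}

/-- Zooms at a density point of the image are close to uniformly quasi-Möbius homeomorphisms. -/
theorem approx {S G : Set (Z → Z)} {δ₀ : ℝ} {θ₀ : ℝ → ℝ} (H : Sp Z μ Q) (K : Sg Z S G δ₀ θ₀) {f : Z → Z} (hf : f ∈ S) {x : Z}
    (hd : Dens μ (range f) (f x)) {ε : ℝ} (hε : 0 < ε) : ∃ r₀ > 0, ∀ y z : Z, dist x y < r₀ →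
    diam (univ : Set Z) / 2 ≤ dist x z → ∀ h h' g : Z → Z, Zm G δ₀ h x y z → h' ∈ G →
    (∀ w, h (h' w) = w) → (∀ w, h' (h w) = w) → Zm G δ₀ g (f x) (f y) (f z) →
    ∃ φ : Z → Z, Function.Bijective φ ∧ Continuous φ ∧ QM θ₀ φ ∧
      ∀ w, dist (g (f (h' w))) (φ w) ≤ ε := by
  by_contra hcon
  push Not at hcon
  have hp : ∀ j : ℕ, (0 : ℝ) < 1 / (j + 1) := fun j => by positivity
  choose y z hxy hxz h h' g hh hh' e1 e2 hg hbad using fun j : ℕ => hcon (1 / ((j : ℝ) + 1)) (hp j)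
  obtain ⟨θ, hθ, hqm⟩ := K.qm f hf
  set F : ℕ → Z → Z := fun j w => g j (f (h' j w)) with hF
  set Θ : ℝ → ℝ := fun t => θ₀ (θ (θ₀ t)) with hΘ
  have hΘg : Gauge Θ := gauge_comp (gauge_comp K.gauge hθ) K.gauge
  have hFqm : ∀ j, QM Θ (F j) := fun j =>
    qm_comp K.gauge (qm_comp hθ (G_qm K (hh' j)).1 hqm) (G_qm K (hg j).mem).1
  have htrip : ∀ j, ∃ a b c, Sep δ₀ a b c ∧ Sep δ₀ (F j a) (F j b) (F j c) := fun j =>
    ⟨h j x, h j (y j), h j (z j), (hh j).sep, by
      simp only [hF, e2]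
      exact (hg j).sep⟩
  obtain ⟨φ, hφ, f', hf'c, hlim⟩ := extract F (fun ε hε => by
    obtain ⟨τ, hτ, h1⟩ := qm_equi (Z := Z) hΘg K.hδ hε
    exact ⟨τ, hτ, fun j a b hab => h1 (F j) (hFqm j) (htrip j) a b hab⟩)
  have hpt : ∀ w, Tendsto (fun j => F (φ j) w) atTop (𝓝 (f' w)) := fun w => hlim.tendsto_at w
  -- injectivity of the limit
  have hinj : Function.Injective f' := by
    intro a b hab
    by_contra hne
    obtain ⟨τ, hτ, h1⟩ := qm_lower (Z := Z) hΘg K.hδ (ε := dist a b) (dist_pos.2 hne)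
    have h2 : Tendsto (fun j => dist (F (φ j) a) (F (φ j) b)) atTop (𝓝 (dist (f' a) (f' b))) :=
      (hpt a).dist (hpt b)
    have h3 : τ ≤ dist (f' a) (f' b) :=
      ge_of_tendsto' h2 fun j => h1 (F (φ j)) (hFqm _) (htrip _) a b le_rfl
    rw [hab, dist_self] at h3
    linarith
  -- surjectivity
  have hrt : Tendsto (fun j => dist x (y (φ j))) atTop (𝓝[>] 0) := by
    refine tendsto_nhdsWithin_iff.2 ⟨?_, Eventually.of_forall fun j => dist_pos.2 (hh (φ j)).ne⟩
    refine squeeze_zero (fun _ => dist_nonneg) (fun j => (hxy (φ j)).le) ?_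
    exact (tendsto_one_div_add_atTop_nhds_zero_nat (𝕜 := ℝ)).comp hφ.tendsto_atTop
  have hsurj : Function.Surjective f' :=
    surj H K hf hd hrt (y := fun j => y (φ j)) (z := fun j => z (φ j)) (fun _ => rfl)
      (fun j => hxz (φ j)) (h := fun j => h (φ j)) (h' := fun j => h' (φ j))
      (g := fun j => g (φ j)) (fun j => hh (φ j)) (fun j w => e2 (φ j) w) (fun j => hg (φ j)) hf'c hlim
  have hbij : Function.Bijective f' := ⟨hinj, hsurj⟩
  have hq : QM θ₀ f' := K.rig f hf (fun j => g (φ j)) (fun j => h' (φ j)) (fun j => (hg (φ j)).mem)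
    (fun j => hh' (φ j)) f' hlim hbij
  obtain ⟨j, hj⟩ := (Metric.tendstoUniformly_iff.1 hlim ε hε).exists
  obtain ⟨w, hw⟩ := hbad (φ j) f' hbij hf'c hq
  have := hj w
  rw [dist_comm] at this
  linarith

end QSCoh
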