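import Mathlib
import Pool.Agent.Lib.MP_cccab4_an.Defs
import Pool.Agent.Lib.MP_cccab4_an.S02
import Pool.Agent.Lib.MP_cccab4_an.S03
import Pool.Agent.Lib.MP_cccab4_an.T01b
import Pool.Agent.Lib.MP_cccab4_an.T03

/-!
# MP_cccab4_an, module T04

`f` is continuous and injective on a compact space, hence a closed embedding and a
`MeasurableEmbedding`; `ν A = μ (f '' A)` (`ν = μ.comap f`) is a finite Borel measure.  `C₁` from
`star`, `c` (depending on `f`) from `low`, `N` from `net_overlap`.  Put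
`G_k = {x | ∀ r, 0 < r → r ≤ 4 ep k → ∀ x', dist x' x < r →
diam (f '' ball x' r)^Q ≤ C₁ ν(ball x' r)}`.  `G_k` is closed (if `x_n → x`, `x' ∈ ball x r` then
`x' ∈ ball x_n r` eventually), increasing in `k`, and by `star` it contains, for large `k`, every `x`
with `Dens μ (range f) (f x)`.  By `dens_ae` (for `range f`, closed), `ν((⋃ G_k)ᶜ) = 0`, so
`ν(G_kᶜ) → 0`.
For `x ∈ net ∩ W`: if `ball x (4 ep k)` meets `G_k` in `x*`, the definition of `G_k` (with `r = 4 ep k`,
`x' = x`) gives `diam^Q ≤ C₁ ν(ball x (4 ep k))`; otherwise `diam^Q ≤ c⁻¹ ν(ball x (4 ep k)) =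
c⁻¹ ν(ball x (4 ep k) ∩ G_kᶜ)`.  Overlap `≤ N`, and the balls lie in `cthickening (4 ep k) W`, so
`Ek ≤ C₁ N ν(cthickening (4 ep k) W) + c⁻¹ N ν(G_kᶜ)`, and `ν(cthickening (4 ep k) W) → ν(W)`
(`tendsto_measure_cthickening_of_isClosed`).
-/

open MeasureTheory Metric Set Filter Topology
open scoped ENNReal NNReal

namespace QSCoh

variable {Z : Type*} [MetricSpace Z] [CompactSpace Z] [MeasurableSpace Z] [BorelSpace Z]
  {μ : Measure Z} {Q : ℝ}

theorem t04_sum (ν : Measure Z) (A : Finset Z) (B : Z → Set Z) (hB : ∀ x, MeasurableSet (B x))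
    (T : Set Z) (hT : MeasurableSet T) (hBT : ∀ x ∈ A, B x ⊆ T) (n : ℕ)
    (hn : ∀ z, ∀ A' ⊆ A, (∀ x ∈ A', z ∈ B x) → A'.card ≤ n) :
    ∑ x ∈ A, ν (B x) ≤ n * ν T := by
  classical
  have h1 : ∀ z, ∑ x ∈ A, (B x).indicator (1 : Z → ℝ≥0∞) z ≤ T.indicator (fun _ => (n : ℝ≥0∞)) z := by
    intro z
    have e1 : ∑ x ∈ A, (B x).indicator (1 : Z → ℝ≥0∞) z =
        ((A.filter (fun x => z ∈ B x)).card : ℝ≥0∞) := by
      rw [Finset.card_filter]
      push_cast
      refine Finset.sum_congr rfl fun x _ => ?_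
      by_cases h : z ∈ B x
      · rw [indicator_of_mem h, if_pos h]; rfl
      · rw [indicator_of_notMem h, if_neg h]
    rw [e1]
    by_cases hz : z ∈ T
    · rw [indicator_of_mem hz]
      have := hn z (A.filter (fun x => z ∈ B x)) (Finset.filter_subset _ _)
        (fun x hx => (Finset.mem_filter.1 hx).2)
      exact_mod_cast this
    · have h2 : A.filter (fun x => z ∈ B x) = ∅ := by
        rw [Finset.filter_eq_empty_iff]
        intro x hx hzx
        exact hz (hBT x hx hzx)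
      rw [h2, Finset.card_empty, Nat.cast_zero]
      exact zero_le
  calc ∑ x ∈ A, ν (B x) = ∑ x ∈ A, ∫⁻ z, (B x).indicator (1 : Z → ℝ≥0∞) z ∂ν := by
        refine Finset.sum_congr rfl fun x _ => ?_
        rw [lintegral_indicator_one (hB x)]
    _ = ∫⁻ z, ∑ x ∈ A, (B x).indicator (1 : Z → ℝ≥0∞) z ∂ν := by
        rw [lintegral_finsetSum A fun x _ => measurable_one.indicator (hB x)]
    _ ≤ ∫⁻ z, T.indicator (fun _ => (n : ℝ≥0∞)) z ∂ν := lintegral_mono h1
    _ = n * ν T := by rw [lintegral_indicator_const hT]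

theorem t04_sum_real (ν : Measure Z) [IsFiniteMeasure ν] (A : Finset Z) (B : Z → Set Z)
    (hB : ∀ x, MeasurableSet (B x)) (T : Set Z) (hT : MeasurableSet T) (hBT : ∀ x ∈ A, B x ⊆ T)
    (n : ℕ) (hn : ∀ z, ∀ A' ⊆ A, (∀ x ∈ A', z ∈ B x) → A'.card ≤ n) :
    ∑ x ∈ A, ν.real (B x) ≤ n * ν.real T := by
  have h1 := t04_sum ν A B hB T hT hBT n hn
  have h2 := ENNReal.toReal_mono (ENNReal.mul_ne_top (ENNReal.natCast_ne_top n)
    (measure_ne_top ν T)) h1
  rw [ENNReal.toReal_sum fun x _ => measure_ne_top ν _, ENNReal.toReal_mul,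
    ENNReal.toReal_natCast] at h2
  exact h2

theorem t04_ep_pos (k : ℕ) : 0 < ep k := by unfold ep; positivity

theorem t04_ep_anti {k k' : ℕ} (h : k ≤ k') : ep k' ≤ ep k := by
  unfold ep
  exact pow_le_pow_of_le_one (by norm_num) (by norm_num) h

theorem t04_ep_tendsto : Tendsto (fun k => 4 * ep k) atTop (𝓝 0) := by
  have h1 : Tendsto (fun k : ℕ => ((1 : ℝ) / 2) ^ k) atTop (𝓝 0) :=
    tendsto_pow_atTop_nhds_zero_of_lt_one (by norm_num) (by norm_num)
  have h2 := h1.const_mul 4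
  rw [mul_zero] at h2
  exact h2

/-- Discrete energy of an embedding over a closed set. -/
theorem Mprime {S G : Set (Z → Z)} {δ₀ : ℝ} {θ₀ : ℝ → ℝ} (H : Sp Z μ Q) (K : Sg Z S G δ₀ θ₀) : ∃ C : ℝ, 0 < C ∧ ∀ f ∈ S,
    ∀ W : Set Z, IsClosed W → ∀ δ : ℝ, 0 < δ →
    ∀ᶠ k in atTop, Ek Q k W f ≤ C * μ.real (f '' W) + δ := by
  have := finite_mu H
  obtain ⟨C₁, hC₁, hstar⟩ := star H K
  obtain ⟨n, hn⟩ := net_overlap H
  refine ⟨C₁ * (n + 1), by positivity, ?_⟩
  intro f hf W hW δ hδ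
  have hcont := K.cont f hf
  obtain ⟨θ, -, hθ⟩ := K.qm f hf
  have hinj := hθ.inj
  obtain ⟨η, hη, hq⟩ := K.qs f hf
  obtain ⟨c, hc, hlow⟩ := low H hcont hinj hη hq
  have hemb : MeasurableEmbedding f := (hcont.isClosedEmbedding hinj).measurableEmbedding
  set ν : Measure Z := μ.comap f with hν
  have hνa : ∀ A : Set Z, ν A = μ (f '' A) := fun A => hemb.comap_apply μ A
  have hνfin : IsFiniteMeasure ν := ⟨by rw [hνa]; exact measure_lt_top μ _⟩
  have hνr : ∀ A : Set Z, ν.real A = μ.real (f '' A) := fun A => by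
    unfold Measure.real
    rw [hνa]
  set P : ℝ → Z → Prop := fun r x' => diam (f '' ball x' r) ^ Q ≤ C₁ * μ.real (f '' ball x' r)
    with hP
  set GG : ℕ → Set Z := fun k => ⋂ (r : ℝ) (x' : Z) (_ : 0 < r ∧ r ≤ 4 * ep k ∧ ¬ P r x'),
    {x | r ≤ dist x' x} with hGG
  have hmem : ∀ k x, x ∈ GG k ↔ ∀ (r : ℝ) (x' : Z), (0 < r ∧ r ≤ 4 * ep k ∧ ¬ P r x') →
      r ≤ dist x' x := by
    intro k x
    simp only [hGG, mem_iInter]
    rfl
  have hGclosed : ∀ k, IsClosed (GG k) := fun k =>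
    isClosed_iInter fun r => isClosed_iInter fun x' => isClosed_iInter fun _ =>
      isClosed_le continuous_const (continuous_const.dist continuous_id)
  have hGmono : Monotone GG := by
    intro k k' hk x hx
    rw [hmem] at hx ⊢
    intro r x' h
    exact hx r x' ⟨h.1, h.2.1.trans (by linarith [t04_ep_anti hk]), h.2.2⟩
  have hGunion : ∀ x, Dens μ (range f) (f x) → x ∈ ⋃ k, GG k := by
    intro x hx
    obtain ⟨r₀, hr₀, h⟩ := hstar f hf x hx
    obtain ⟨k, hk⟩ := ((t04_ep_tendsto).eventually (gt_mem_nhds hr₀)).exists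
    rw [mem_iUnion]
    refine ⟨k, ?_⟩
    rw [hmem]
    intro r x' ⟨hr, hrk, hnP⟩
    by_contra hcon
    exact hnP (h r hr (lt_of_le_of_lt hrk hk) x' (not_le.1 hcon))
  have hnull : ν (⋂ k, (GG k)ᶜ) = 0 := by
    rw [hνa]
    have h1 := dens_ae H (A := range f) (isCompact_range hcont).isClosed
    rw [ae_iff] at h1
    refine measure_mono_null ?_ h1
    rintro _ ⟨x, hx, rfl⟩
    intro hcon
    have h2 := hGunion x (hcon ⟨x, rfl⟩)
    rw [mem_iInter] at hx
    rw [mem_iUnion] at h2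
    obtain ⟨k, hk⟩ := h2
    exact hx k hk
  have hlim1 : Tendsto (fun k => ν.real (GG k)ᶜ) atTop (𝓝 0) := by
    have h1 := tendsto_measure_iInter_atTop (μ := ν) (s := fun k => (GG k)ᶜ)
      (fun k => (hGclosed k).measurableSet.compl.nullMeasurableSet)
      (fun k k' hk => compl_subset_compl.2 (hGmono hk)) ⟨0, measure_ne_top _ _⟩
    rw [hnull] at h1
    have h2 := (ENNReal.tendsto_toReal ENNReal.zero_ne_top).comp h1
    rw [ENNReal.toReal_zero] at h2
    exact h2
  have hlim2 : Tendsto (fun k => ν.real (cthickening (4 * ep k) W)) atTop (𝓝 (ν.real W)) := by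
    have h1 := (tendsto_measure_cthickening_of_isClosed (μ := ν) (s := W)
      ⟨1, one_pos, measure_ne_top _ _⟩ hW).comp t04_ep_tendsto
    exact (ENNReal.tendsto_toReal (measure_ne_top ν W)).comp h1
  have hD := H.hD
  have hbound : ∀ k, 4 * ep k ≤ diam (univ : Set Z) → Ek Q k W f ≤
      C₁ * (n * ν.real (cthickening (4 * ep k) W)) + c⁻¹ * (n * ν.real (GG k)ᶜ) := by
    intro k hk
    have hr : 0 < 4 * ep k := by have := t04_ep_pos k; positivity
    obtain ⟨A, hAn, hAW, hEA⟩ : ∃ A : Finset Z, A ⊆ net Z k ∧ (∀ x ∈ A, x ∈ W) ∧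
        Ek Q k W f = ∑ x ∈ A, diam (f '' ball x (4 * ep k)) ^ Q := by
      classical
      refine ⟨(net Z k).filter (fun x => x ∈ W), Finset.filter_subset _ _,
        fun x hx => (Finset.mem_filter.1 hx).2, ?_⟩
      unfold Ek
      refine Finset.sum_congr ?_ fun _ _ => rfl
      ext x
      simp only [Finset.mem_filter]
    rw [hEA]
    have hterm : ∀ x : Z, diam (f '' ball x (4 * ep k)) ^ Q ≤
        C₁ * ν.real (ball x (4 * ep k)) + c⁻¹ * ν.real (ball x (4 * ep k) ∩ (GG k)ᶜ) := by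
      intro x
      have n1 : 0 ≤ ν.real (ball x (4 * ep k)) := measureReal_nonneg
      have n2 : 0 ≤ ν.real (ball x (4 * ep k) ∩ (GG k)ᶜ) := measureReal_nonneg
      have n3 : 0 ≤ c⁻¹ := by positivity
      by_cases h : (ball x (4 * ep k) ∩ GG k).Nonempty
      · obtain ⟨y, hy1, hy2⟩ := h
        have hPx : P (4 * ep k) x := by
          by_contra hcon
          have h3 := (hmem k y).1 hy2 (4 * ep k) x ⟨hr, le_rfl, hcon⟩
          rw [mem_ball, dist_comm] at hy1
          linarith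
        have h4 : diam (f '' ball x (4 * ep k)) ^ Q ≤ C₁ * ν.real (ball x (4 * ep k)) := by
          rw [hνr]
          exact hPx
        have h5 : 0 ≤ c⁻¹ * ν.real (ball x (4 * ep k) ∩ (GG k)ᶜ) := by positivity
        linarith
      · have h3 : ball x (4 * ep k) ∩ (GG k)ᶜ = ball x (4 * ep k) := by
          rw [inter_eq_left]
          intro y hy hy2
          exact h ⟨y, hy, hy2⟩
        rw [h3]
        have h4 := hlow x (4 * ep k) hr hk
        rw [← hνr] at h4
        have h5 : diam (f '' ball x (4 * ep k)) ^ Q ≤ c⁻¹ * ν.real (ball x (4 * ep k)) := by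
          rw [inv_mul_eq_div, le_div_iff₀ hc, mul_comm]
          exact h4
        have h6 : 0 ≤ C₁ * ν.real (ball x (4 * ep k)) := by positivity
        linarith
    have hover : ∀ (A : Finset Z), A ⊆ net Z k → ∀ (T : Set Z) z, ∀ A' ⊆ A,
        (∀ x ∈ A', z ∈ ball x (4 * ep k) ∩ T) → A'.card ≤ n := by
      intro A hA T z A' hA' hz
      refine hn k z A' (hA'.trans hA) fun x hx => ?_
      exact le_of_lt (hz x hx).1
    refine (Finset.sum_le_sum fun x _ => hterm x).trans ?_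
    rw [Finset.sum_add_distrib, ← Finset.mul_sum, ← Finset.mul_sum]
    have s1 := t04_sum_real ν A (fun x => ball x (4 * ep k) ∩ univ) (fun x => measurableSet_ball.inter MeasurableSet.univ)
      (cthickening (4 * ep k) W) isClosed_cthickening.measurableSet (by
        intro x hx y hy
        exact mem_cthickening_of_dist_le y x _ _ (hAW x hx) (le_of_lt hy.1)) n
      (hover A hAn univ)
    have s2 := t04_sum_real ν A (fun x => ball x (4 * ep k) ∩ (GG k)ᶜ)
      (fun x => measurableSet_ball.inter (hGclosed k).measurableSet.compl)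
      ((GG k)ᶜ) (hGclosed k).measurableSet.compl (fun x _ => inter_subset_right) n
      (hover A hAn _)
    simp only [inter_univ] at s1
    have n3 : 0 ≤ c⁻¹ := by positivity
    exact add_le_add (mul_le_mul_of_nonneg_left s1 hC₁.le) (mul_le_mul_of_nonneg_left s2 n3)
  have hlim : Tendsto (fun k => C₁ * (n * ν.real (cthickening (4 * ep k) W)) +
      c⁻¹ * (n * ν.real (GG k)ᶜ)) atTop (𝓝 (C₁ * (n * ν.real W) + c⁻¹ * (n * 0))) :=
    ((hlim2.const_mul _).const_mul _).add ((hlim1.const_mul _).const_mul _)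
  have hlt : C₁ * (n * ν.real W) + c⁻¹ * (n * 0) < C₁ * (n + 1) * μ.real (f '' W) + δ := by
    rw [← hνr W]
    have n1 : 0 ≤ ν.real W := measureReal_nonneg
    have : 0 ≤ C₁ * ν.real W := by positivity
    nlinarith
  filter_upwards [hlim.eventually (gt_mem_nhds hlt),
    t04_ep_tendsto.eventually (gt_mem_nhds hD)] with k h1 h2
  exact (hbound k h2.le).trans h1.le

end QSCoh
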