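import Mathlib
import Pool.Agent.Lib.MP_cccab4_an.Defs
import Pool.Agent.Lib.MP_cccab4_an.S01
import Pool.Agent.Lib.MP_cccab4_an.T04

/-!
# MP_cccab4_an, module T05

`LL_facts`: `max (d(z,a)) (De^{-N})` lies in `[De^{-N}, D]`; `log` is `1/s`-Lipschitz on `[s,∞)`.

`testfun`: let `u = LL D a N`, `f ∈ S`, `M = ⌈N/log 2⌉₊`, so `2^{-M} ≤ e^{-N}`.  It suffices that
eventually `Ek Q k univ (u ∘ f) ≤ C(N+1)` (then divide: `Ek` is homogeneous of degree `Q`, and
`Eventually → Frequently`).  Let `W_m = {x | D 2^{-m-1} ≤ d(f x,a) ≤ D 2^{-m}}`, `m ≤ M` (closed).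
For `k` large, `diam (f '' ball x (4 ep k)) ≤ D 2^{-M-2}` for all `x`.  Let `x ∈ net`.
If `d(f x,a) < D 2^{-M-1}`: on `ball x (4 ep k)`, `d(f ·,a) ≤ D 2^{-M} ≤ De^{-N}`, `u ∘ f = N` is constant
there and the term is `0`.  Otherwise `x ∈ W_m` for some `m ≤ M`, on the ball `d(f ·,a) ≥ D 2^{-m-2}`
and the term is `≤ ((2^{m+2}/D) diam (f '' ball x (4 ep k)))^Q`.  So
`Ek Q k univ (u∘f) ≤ Σ_{m ≤ M} (2^{m+2}/D)^Q Ek Q k W_m f`, and by `Mprime` (finitely many `m`, small
`δ`'s) eventually `≤ Σ_m ((2^{m+2}/D)^Q C₁ μ(f '' W_m) + 1)`, `μ(f '' W_m) ≤ μ(closedBall a (D2^{-m}))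
≤ C₂ D^Q 2^{-mQ}`.  Total `≤ (M+1)(4^Q C₁C₂ + 1)`, `M + 1 ≤ N/log 2 + 2`.
-/

set_option linter.unusedSectionVars false

open MeasureTheory Metric Set Filter Topology
open scoped ENNReal NNReal

namespace QSCoh

variable {Z : Type*} [MetricSpace Z] [CompactSpace Z] [MeasurableSpace Z] [BorelSpace Z]
  {μ : Measure Z} {Q : ℝ}

theorem T05_log {s p q : ℝ} (hs : 0 < s) (hp : s ≤ p) (hq : s ≤ q) :
    |Real.log p - Real.log q| ≤ |p - q| / s := by
  have key : ∀ {p q : ℝ}, s ≤ p → s ≤ q → Real.log p - Real.log q ≤ |p - q| / s := by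
    intro p q hp hq
    have hp0 : 0 < p := hs.trans_le hp
    have hq0 : 0 < q := hs.trans_le hq
    rw [← Real.log_div hp0.ne' hq0.ne']
    have h1 := Real.log_le_sub_one_of_pos (div_pos hp0 hq0)
    have h2 : p / q - 1 = (p - q) / q := by
      field_simp
    calc Real.log (p / q) ≤ (p - q) / q := by rw [← h2]; exact h1
      _ ≤ |p - q| / q := div_le_div_of_nonneg_right (le_abs_self _) hq0.le
      _ ≤ |p - q| / s := div_le_div_of_nonneg_left (abs_nonneg _) hs hq
  rw [abs_le]
  constructor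
  · have h1 := key hq hp
    rw [abs_sub_comm] at h1
    linarith
  · exact key hp hq

theorem LL_facts {Z : Type*} [MetricSpace Z] {D : ℝ} (hD : 0 < D) (a : Z) {N : ℝ} (hN : 0 ≤ N)
    (hle : ∀ x y : Z, dist x y ≤ D) :
    Continuous (LL D a N) ∧ (∀ z, 0 ≤ LL D a N z) ∧ (∀ z, LL D a N z ≤ N) ∧
    (∀ z, dist z a ≤ D * Real.exp (-N) → LL D a N z = N) ∧
    ∀ (s : ℝ), 0 < s → ∀ z w, s ≤ dist z a → s ≤ dist w a →
      |LL D a N z - LL D a N w| ≤ dist z w / s := by
  have hE : 0 < D * Real.exp (-N) := by positivity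
  have hpos : ∀ z, 0 < max (dist z a) (D * Real.exp (-N)) := fun z => lt_max_of_lt_right hE
  have hmax : ∀ z, max (dist z a) (D * Real.exp (-N)) ≤ D := by
    intro z
    apply max_le (hle z a)
    apply mul_le_of_le_one_right hD.le
    rw [Real.exp_le_one_iff]
    linarith
  refine ⟨?_, fun z => ?_, fun z => ?_, fun z hz => ?_, fun s hs z w hz hw => ?_⟩
  · unfold LL
    apply Continuous.log
    · exact continuous_const.div ((continuous_id.dist continuous_const).max continuous_const)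
        fun z => (hpos z).ne'
    · intro z
      exact (div_pos hD (hpos z)).ne'
  · unfold LL
    apply Real.log_nonneg
    rw [le_div_iff₀ (hpos z), one_mul]
    exact hmax z
  · unfold LL
    rw [Real.log_le_iff_le_exp (div_pos hD (hpos z)), div_le_iff₀ (hpos z)]
    calc D = Real.exp N * (D * Real.exp (-N)) := by
          rw [Real.exp_neg]
          field_simp
      _ ≤ Real.exp N * max (dist z a) (D * Real.exp (-N)) := by
          gcongr
          exact le_max_right _ _
  · unfold LL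
    rw [max_eq_right hz]
    have h1 : D / (D * Real.exp (-N)) = Real.exp N := by
      rw [Real.exp_neg]
      field_simp
    rw [h1, Real.log_exp]
  · unfold LL
    rw [Real.log_div hD.ne' (hpos z).ne', Real.log_div hD.ne' (hpos w).ne']
    have h1 : Real.log D - Real.log (max (dist z a) (D * Real.exp (-N))) -
        (Real.log D - Real.log (max (dist w a) (D * Real.exp (-N)))) =
        Real.log (max (dist w a) (D * Real.exp (-N))) -
          Real.log (max (dist z a) (D * Real.exp (-N))) := by ring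
    rw [h1]
    refine (T05_log hs (hw.trans (le_max_left _ _)) (hz.trans (le_max_left _ _))).trans ?_
    apply div_le_div_of_nonneg_right _ hs.le
    refine (abs_max_sub_max_le_abs _ _ _).trans ?_
    rw [dist_comm z w]
    exact abs_dist_sub_le _ _ _

theorem T05_ep_tendsto : Tendsto ep atTop (𝓝 0) := by
  unfold ep
  exact tendsto_pow_atTop_nhds_zero_of_lt_one (by norm_num) (by norm_num)

/-- Images of small balls are small. -/
theorem T05_small {f : Z → Z} (hf : Continuous f) {τ : ℝ} (hτ : 0 < τ) :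
    ∀ᶠ k in atTop, ∀ x, ∀ y ∈ ball x (4 * ep k), ∀ z ∈ ball x (4 * ep k),
      dist (f y) (f z) ≤ τ := by
  have hu : UniformContinuous f := CompactSpace.uniformContinuous_of_continuous hf
  rw [Metric.uniformContinuous_iff] at hu
  obtain ⟨δ, hδ, h⟩ := hu τ hτ
  have h1 : Tendsto (fun k => 8 * ep k) atTop (𝓝 0) := by
    simpa using T05_ep_tendsto.const_mul 8
  filter_upwards [h1.eventually_lt_const hδ] with k hk x y hy z hz
  rw [mem_ball] at hy hz
  apply (h _).le
  have := dist_triangle_right y z x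
  linarith

theorem T05_layer {D t : ℝ} {M : ℕ} (ht : t ≤ D) (h : D / 2 ^ (M + 1) ≤ t) :
    ∃ m ≤ M, D / 2 ^ (m + 1) ≤ t ∧ t ≤ D / 2 ^ m := by
  induction M with
  | zero => exact ⟨0, le_rfl, h, by simpa using ht⟩
  | succ M ih =>
    by_cases h1 : D / 2 ^ (M + 1) ≤ t
    · obtain ⟨m, hm, h2, h3⟩ := ih h1
      exact ⟨m, by omega, h2, h3⟩
    · push Not at h1
      exact ⟨M + 1, le_rfl, h, h1.le⟩

theorem T05_Ek_univ (Q : ℝ) (k : ℕ) (v : Z → ℝ) :
    Ek Q k univ v = ∑ x ∈ net Z k, diam (v '' ball x (4 * ep k)) ^ Q := by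
  unfold Ek
  refine Finset.sum_congr ?_ fun _ _ => rfl
  ext x
  simp

/-- The truncated logarithms, suitably normalised, are in the test class. -/
theorem testfun {S G : Set (Z → Z)} {δ₀ : ℝ} {θ₀ : ℝ → ℝ} (H : Sp Z μ Q) (K : Sg Z S G δ₀ θ₀) : ∃ C : ℝ, 0 < C ∧
    ∀ (a : Z) (N : ℝ), 1 ≤ N →
      (fun z => LL (diam (univ : Set Z)) a N z / (C * (N + 1)) ^ (1 / Q)) ∈ UU Q S := by
  classical
  have hfin := finite_mu H
  obtain ⟨C₁, hC₁, hM⟩ := Mprime H K
  obtain ⟨C₂, hC₂, hmass⟩ := mass_upper H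
  have hQ := H.hQ
  have hQ0 : 0 < Q := by linarith
  obtain ⟨D, hDdef⟩ : ∃ D : ℝ, D = diam (univ : Set Z) := ⟨_, rfl⟩
  have hD : 0 < D := by rw [hDdef]; exact H.hD
  have hle : ∀ x y : Z, dist x y ≤ D := fun x y => by
    rw [hDdef]
    exact dist_le_diam_of_mem isBounded_of_compactSpace (mem_univ _) (mem_univ _)
  have hC₂0 : 0 < C₂ := by linarith
  refine ⟨2 * (4 ^ Q * C₁ * C₂ + 1), by positivity, fun a N hN => ?_⟩
  rw [← hDdef]
  have hN0 : 0 ≤ N := by linarith
  obtain ⟨hLc, hL0, hLN, hLN', hLip⟩ := LL_facts hD a hN0 hle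
  obtain ⟨CC, hCC⟩ : ∃ CC : ℝ, CC = 2 * (4 ^ Q * C₁ * C₂ + 1) * (N + 1) := ⟨_, rfl⟩
  have hCC0 : 0 < CC := by
    rw [hCC]
    positivity
  rw [← hCC]
  obtain ⟨c, hc⟩ : ∃ c : ℝ, c = CC ^ (1 / Q) := ⟨_, rfl⟩
  have hc0 : 0 < c := by
    rw [hc]
    exact Real.rpow_pos_of_pos hCC0 _
  have hcQ : c ^ Q = CC := by
    rw [hc, ← Real.rpow_mul hCC0.le, one_div, inv_mul_cancel₀ hQ0.ne', Real.rpow_one]
  rw [← hc]
  refine ⟨hLc.div_const _, fun f hf => ?_⟩
  have hfc := K.cont f hf
  apply Eventually.frequently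
  obtain ⟨M, hMdef⟩ : ∃ M : ℕ, M = ⌈N / Real.log 2⌉₊ := ⟨_, rfl⟩
  have hlog2 : 0 < Real.log 2 := Real.log_pos (by norm_num)
  have hM1 : D / 2 ^ M ≤ D * Real.exp (-N) := by
    have h1 : N ≤ M * Real.log 2 := by
      have h2 := Nat.le_ceil (N / Real.log 2)
      rw [← hMdef, div_le_iff₀ hlog2] at h2
      exact h2
    have h2 : Real.exp N ≤ 2 ^ M := by
      calc Real.exp N ≤ Real.exp (M * Real.log 2) := Real.exp_le_exp.2 h1
        _ = 2 ^ M := by rw [Real.exp_nat_mul, Real.exp_log (by norm_num)]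
    rw [Real.exp_neg, ← div_eq_mul_inv]
    exact div_le_div_of_nonneg_left hD.le (Real.exp_pos _) h2
  have hM2 : (M : ℝ) + 1 ≤ 2 * (N + 1) := by
    have h1 := Nat.ceil_lt_add_one (by positivity : 0 ≤ N / Real.log 2)
    rw [← hMdef] at h1
    have h2 : N / Real.log 2 ≤ 2 * N := by
      rw [div_le_iff₀ hlog2]
      have := Real.log_two_gt_d9
      nlinarith
    linarith
  obtain ⟨W, hW⟩ : ∃ W : ℕ → Set Z, W = fun m => {x | D / 2 ^ (m + 1) ≤ dist (f x) a ∧
    dist (f x) a ≤ D / 2 ^ m} := ⟨_, rfl⟩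
  have hWc : ∀ m, IsClosed (W m) := by
    intro m
    rw [hW]
    exact (isClosed_le continuous_const (hfc.dist continuous_const)).inter
      (isClosed_le (hfc.dist continuous_const) continuous_const)
  have hEv : ∀ᶠ k in atTop, ∀ m ∈ Finset.range (M + 1),
      Ek Q k (W m) f ≤ C₁ * μ.real (f '' W m) + (D / 2 ^ (m + 2)) ^ Q := by
    rw [Filter.eventually_all_finset]
    intro m _
    exact hM f hf (W m) (hWc m) _ (by positivity)
  filter_upwards [T05_small hfc (by positivity : 0 < D / 2 ^ (M + 2)), hEv] with k hk hE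
  -- one term
  have hterm : ∀ x : Z, diam (((fun z => LL D a N z / c) ∘ f) '' ball x (4 * ep k)) ^ Q ≤
      ∑ m ∈ Finset.range (M + 1), if x ∈ W m then
        ((2 ^ (m + 2) / D) * diam (f '' ball x (4 * ep k)) / c) ^ Q else 0 := by
    intro x
    have hxb : x ∈ ball x (4 * ep k) := by
      apply mem_ball_self
      unfold ep
      positivity
    have hnn : ∀ m ∈ Finset.range (M + 1), 0 ≤ if x ∈ W m then
        ((2 ^ (m + 2) / D) * diam (f '' ball x (4 * ep k)) / c) ^ Q else 0 := by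
      intro m _
      split_ifs
      · have := diam_nonneg (s := f '' ball x (4 * ep k))
        positivity
      · exact le_rfl
    by_cases hx : dist (f x) a < D / 2 ^ (M + 1)
    · have h1 : diam (((fun z => LL D a N z / c) ∘ f) '' ball x (4 * ep k)) = 0 := by
        apply le_antisymm _ diam_nonneg
        apply diam_le_of_forall_dist_le le_rfl
        have h2 : ∀ y ∈ ball x (4 * ep k), LL D a N (f y) = N := by
          intro y hy
          apply hLN'
          refine le_trans ?_ hM1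
          have h3 := hk x y hy x hxb
          have h4 := dist_triangle (f y) (f x) a
          have h5 : D / 2 ^ (M + 1) = D / 2 ^ M / 2 := by
            rw [pow_succ]
            field_simp
          have h6 : D / 2 ^ (M + 2) = D / 2 ^ M / 4 := by
            rw [pow_add]
            norm_num
            field_simp
          have h7 : 0 < D / 2 ^ M := by positivity
          linarith
        rintro _ ⟨y, hy, rfl⟩ _ ⟨z, hz, rfl⟩
        simp only [Function.comp]
        rw [h2 y hy, h2 z hz, dist_self]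
      rw [h1, Real.zero_rpow hQ0.ne']
      exact Finset.sum_nonneg hnn
    · push Not at hx
      obtain ⟨m, hm, hm1, hm2⟩ := T05_layer (hle (f x) a) hx
      have hmr : m ∈ Finset.range (M + 1) := by
        rw [Finset.mem_range]
        omega
      refine le_trans ?_ (Finset.single_le_sum hnn hmr)
      have hxW : x ∈ W m := by
        rw [hW]
        exact ⟨hm1, hm2⟩
      rw [if_pos hxW]
      apply Real.rpow_le_rpow diam_nonneg _ hQ0.le
      have hd0 := diam_nonneg (s := f '' ball x (4 * ep k))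
      apply diam_le_of_forall_dist_le (by positivity)
      have hlow : ∀ y ∈ ball x (4 * ep k), D / 2 ^ (m + 2) ≤ dist (f y) a := by
        intro y hy
        have h3 := hk x x hxb y hy
        have h4 := dist_triangle (f x) (f y) a
        have h5 : D / 2 ^ (m + 1) = 2 * (D / 2 ^ (m + 2)) := by
          rw [pow_succ 2 (m + 1)]
          field_simp
        have h6 : D / 2 ^ (M + 2) ≤ D / 2 ^ (m + 2) := by
          apply div_le_div_of_nonneg_left hD.le (by positivity)
          exact pow_le_pow_right₀ (by norm_num) (by omega)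
        linarith
      rintro _ ⟨y, hy, rfl⟩ _ ⟨z, hz, rfl⟩
      simp only [Function.comp]
      rw [Real.dist_eq, ← sub_div, abs_div, abs_of_pos hc0]
      apply div_le_div_of_nonneg_right _ hc0.le
      refine (hLip (D / 2 ^ (m + 2)) (by positivity) (f y) (f z) (hlow y hy) (hlow z hz)).trans ?_
      have h7 : dist (f y) (f z) ≤ diam (f '' ball x (4 * ep k)) :=
        dist_le_diam_of_mem isBounded_of_compactSpace (mem_image_of_mem f hy)
          (mem_image_of_mem f hz)
      calc dist (f y) (f z) / (D / 2 ^ (m + 2)) = 2 ^ (m + 2) / D * dist (f y) (f z) := by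
            field_simp
        _ ≤ _ := mul_le_mul_of_nonneg_left h7 (by positivity)
  -- the sum
  have hsum : Ek Q k univ ((fun z => LL D a N z / c) ∘ f) ≤
      ∑ m ∈ Finset.range (M + 1), (2 ^ (m + 2) / D) ^ Q / CC * Ek Q k (W m) f := by
    rw [T05_Ek_univ]
    calc ∑ x ∈ net Z k, diam (((fun z => LL D a N z / c) ∘ f) '' ball x (4 * ep k)) ^ Q
        ≤ ∑ x ∈ net Z k, ∑ m ∈ Finset.range (M + 1), (if x ∈ W m then
          ((2 ^ (m + 2) / D) * diam (f '' ball x (4 * ep k)) / c) ^ Q else 0) :=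
          Finset.sum_le_sum fun x _ => hterm x
      _ = ∑ m ∈ Finset.range (M + 1), ∑ x ∈ net Z k, (if x ∈ W m then
          ((2 ^ (m + 2) / D) * diam (f '' ball x (4 * ep k)) / c) ^ Q else 0) :=
          Finset.sum_comm
      _ = ∑ m ∈ Finset.range (M + 1), (2 ^ (m + 2) / D) ^ Q / CC *
            Ek Q k (W m) f := by
          refine Finset.sum_congr rfl fun m _ => ?_
          unfold Ek
          rw [← Finset.sum_filter, Finset.mul_sum]
          refine Finset.sum_congr rfl fun x _ => ?_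
          have hd0 := diam_nonneg (s := f '' ball x (4 * ep k))
          rw [Real.div_rpow (by positivity) hc0.le, hcQ, Real.mul_rpow (by positivity) hd0]
          ring
  refine hsum.trans ?_
  have hone : ∀ m ∈ Finset.range (M + 1), (2 ^ (m + 2) / D) ^ Q / CC * Ek Q k (W m) f ≤
      (4 ^ Q * C₁ * C₂ + 1) / CC := by
    intro m hm
    have h1 := hE m hm
    have h2 : μ.real (f '' W m) ≤ C₂ * (D / 2 ^ m) ^ Q := by
      have e1 : f '' W m ⊆ closedBall a (D / 2 ^ m) := by
        rintro _ ⟨y, hy, rfl⟩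
        rw [hW] at hy
        exact hy.2
      have e2 := (measure_mono e1).trans (hmass a (D / 2 ^ m) (by positivity))
      exact ENNReal.toReal_le_of_le_ofReal (by positivity) e2
    have h3 : Ek Q k (W m) f ≤ C₁ * (C₂ * (D / 2 ^ m) ^ Q) + (D / 2 ^ (m + 2)) ^ Q := by
      refine h1.trans ?_
      gcongr
    have h4 : (0 : ℝ) < (2 ^ (m + 2) / D) ^ Q := by positivity
    have h5 : ((2 : ℝ) ^ (m + 2) / D) ^ Q * (D / 2 ^ m) ^ Q = 4 ^ Q := by
      rw [← Real.mul_rpow (by positivity) (by positivity)]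
      congr 1
      rw [pow_add]
      field_simp
      norm_num
    have h6 : ((2 : ℝ) ^ (m + 2) / D) ^ Q * (D / 2 ^ (m + 2)) ^ Q = 1 := by
      rw [← Real.mul_rpow (by positivity) (by positivity)]
      have : (2 : ℝ) ^ (m + 2) / D * (D / 2 ^ (m + 2)) = 1 := by field_simp
      rw [this, Real.one_rpow]
    calc (2 ^ (m + 2) / D) ^ Q / CC * Ek Q k (W m) f
        ≤ (2 ^ (m + 2) / D) ^ Q / CC * (C₁ * (C₂ * (D / 2 ^ m) ^ Q) + (D / 2 ^ (m + 2)) ^ Q) :=
          mul_le_mul_of_nonneg_left h3 (by positivity)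
      _ = (C₁ * C₂ * ((2 ^ (m + 2) / D) ^ Q * (D / 2 ^ m) ^ Q) +
            (2 ^ (m + 2) / D) ^ Q * (D / 2 ^ (m + 2)) ^ Q) / CC := by ring
      _ = (4 ^ Q * C₁ * C₂ + 1) / CC := by
          rw [h5, h6]
          ring
  calc ∑ m ∈ Finset.range (M + 1), (2 ^ (m + 2) / D) ^ Q / CC * Ek Q k (W m) f
      ≤ ∑ _m ∈ Finset.range (M + 1), (4 ^ Q * C₁ * C₂ + 1) / CC := Finset.sum_le_sum hone
    _ = ((M : ℝ) + 1) * ((4 ^ Q * C₁ * C₂ + 1) / CC) := by
        rw [Finset.sum_const, Finset.card_range, nsmul_eq_mul]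
        push_cast
        ring
    _ ≤ (2 * (N + 1)) * ((4 ^ Q * C₁ * C₂ + 1) / CC) :=
        mul_le_mul_of_nonneg_right hM2 (by positivity)
    _ = 1 := by
        rw [hCC]
        have h1 : (0 : ℝ) < 4 ^ Q * C₁ * C₂ + 1 := by positivity
        have h2 : (0 : ℝ) < N + 1 := by linarith
        field_simp

end QSCoh
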