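import Mathlib
import Pool.Agent.Lib.MP_cccab4_an.Defs
import Pool.Agent.Lib.MP_cccab4_an.S01
import Pool.Agent.Lib.MP_cccab4_an.T05

/-!
# MP_cccab4_an, module T06

`LL D a N z ≤ Σ_{m=0}^{⌊N⌋} 1_{closedBall a (De^{-m})}(z)` (if `LL = t ≤ N` then
`d(z,a) ≤ De^{-t}`, so the indicators with `m ≤ t` are `1`: at least `t` of them), hence the integral is
`≤ Σ_m C₁ D^Q e^{-mQ} ≤ C₁ D^Q/(1-e^{-Q})`.
-/

open MeasureTheory Metric Set Filter Topology
open scoped ENNReal NNReal

namespace QSCoh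

variable {Z : Type*} [MetricSpace Z] [CompactSpace Z] [MeasurableSpace Z] [BorelSpace Z]
  {μ : Measure Z} {Q : ℝ}

theorem t06_le {D : ℝ} (hD : 0 < D) (a z : Z) (hza : dist z a ≤ D) {N : ℝ} (hN : 0 ≤ N) :
    0 ≤ LL D a N z ∧ LL D a N z ≤ ∑ m ∈ Finset.range (⌊N⌋₊ + 1),
      (closedBall a (D * Real.exp (-(m : ℝ)))).indicator (fun _ => (1 : ℝ)) z := by
  set M : ℝ := max (dist z a) (D * Real.exp (-N)) with hM
  have hMpos : 0 < M := lt_of_lt_of_le (mul_pos hD (Real.exp_pos _)) (le_max_right _ _)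
  have hMD : M ≤ D := by
    apply max_le hza
    have : Real.exp (-N) ≤ 1 := Real.exp_le_one_iff.2 (by linarith)
    nlinarith
  obtain ⟨t, htdef⟩ : ∃ t : ℝ, t = Real.log (D / M) := ⟨_, rfl⟩
  have hLL : LL D a N z = t := by rw [htdef, hM, LL]
  rw [hLL]
  have ht0 : 0 ≤ t := by
    rw [htdef]
    exact Real.log_nonneg ((one_le_div hMpos).2 hMD)
  have htN : t ≤ N := by
    rw [htdef]
    have h1 : D / M ≤ Real.exp N := by
      rw [div_le_iff₀ hMpos]
      have h2 : D * Real.exp (-N) ≤ M := le_max_right _ _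
      have h3 : D = Real.exp N * (D * Real.exp (-N)) := by
        rw [mul_left_comm, ← Real.exp_add, add_neg_cancel, Real.exp_zero, mul_one]
      calc D = Real.exp N * (D * Real.exp (-N)) := h3
        _ ≤ Real.exp N * M := mul_le_mul_of_nonneg_left h2 (Real.exp_pos _).le
    have h4 := Real.log_le_log (by positivity) h1
    rwa [Real.log_exp] at h4
  have hdist : dist z a ≤ D * Real.exp (-t) := by
    have h1 : M = D * Real.exp (-t) := by
      rw [htdef, Real.exp_neg, Real.exp_log (by positivity)]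
      field_simp
    rw [← h1]
    exact le_max_left _ _
  refine ⟨ht0, ?_⟩
  have h1 : ∑ m ∈ Finset.range (⌊t⌋₊ + 1),
      (closedBall a (D * Real.exp (-(m : ℝ)))).indicator (fun _ => (1 : ℝ)) z = ⌊t⌋₊ + 1 := by
    have h2 : ∀ m ∈ Finset.range (⌊t⌋₊ + 1),
        (closedBall a (D * Real.exp (-(m : ℝ)))).indicator (fun _ => (1 : ℝ)) z = 1 := by
      intro m hm
      rw [Finset.mem_range] at hm
      have h3 : (m : ℝ) ≤ t := by
        have : m ≤ ⌊t⌋₊ := by omega
        exact (Nat.le_floor_iff ht0).1 this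
      rw [Set.indicator_of_mem]
      rw [mem_closedBall]
      refine hdist.trans ?_
      apply mul_le_mul_of_nonneg_left _ hD.le
      exact Real.exp_le_exp.2 (by linarith)
    rw [Finset.sum_congr rfl h2]
    simp
  calc t ≤ ⌊t⌋₊ + 1 := (Nat.lt_floor_add_one t).le
    _ = ∑ m ∈ Finset.range (⌊t⌋₊ + 1),
      (closedBall a (D * Real.exp (-(m : ℝ)))).indicator (fun _ => (1 : ℝ)) z := h1.symm
    _ ≤ _ := by
      apply Finset.sum_le_sum_of_subset_of_nonneg
      · intro m hm
        rw [Finset.mem_range] at hm ⊢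
        have := Nat.floor_le_floor htN
        omega
      · intro m _ _
        exact Set.indicator_nonneg (fun _ _ => zero_le_one) _

theorem logint (H : Sp Z μ Q) : ∃ C : ℝ, 0 < C ∧ ∀ (a : Z) (N : ℝ), 0 ≤ N →
    ∫ z, LL (diam (univ : Set Z)) a N z ∂μ ≤ C := by
  have := finite_mu H
  obtain ⟨C, hC, hup⟩ := mass_upper H
  have hQ : 0 < Q := by linarith [H.hQ]
  set D := diam (univ : Set Z) with hDdef
  have hD : 0 < D := H.hD
  set q : ℝ := Real.exp (-Q) with hq
  have hq0 : 0 < q := Real.exp_pos _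
  have hq1 : q < 1 := by
    rw [hq, ← Real.exp_zero]
    exact Real.exp_lt_exp.2 (by linarith)
  have h1q : 0 < 1 - q := by linarith
  have hDQ : 0 < D ^ Q := Real.rpow_pos_of_pos hD Q
  refine ⟨C * D ^ Q / (1 - q), by positivity, fun a N hN => ?_⟩
  have hle : ∀ z : Z, dist z a ≤ D := fun z =>
    dist_le_diam_of_mem isBounded_of_compactSpace (mem_univ _) (mem_univ _)
  have hint : ∀ m ∈ Finset.range (⌊N⌋₊ + 1), Integrable
      (fun z => (closedBall a (D * Real.exp (-(m : ℝ)))).indicator (fun _ => (1 : ℝ)) z) μ := by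
    intro m _
    exact (integrable_const 1).indicator measurableSet_closedBall
  have h1 : ∫ z, LL D a N z ∂μ ≤ ∫ z, ∑ m ∈ Finset.range (⌊N⌋₊ + 1),
      (closedBall a (D * Real.exp (-(m : ℝ)))).indicator (fun _ => (1 : ℝ)) z ∂μ := by
    apply integral_mono_of_nonneg
    · exact Eventually.of_forall (fun z => (t06_le hD a z (hle z) hN).1)
    · exact integrable_finset_sum _ hint
    · exact Eventually.of_forall (fun z => (t06_le hD a z (hle z) hN).2)
  rw [integral_finset_sum _ hint] at h1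
  have h2 : ∀ m ∈ Finset.range (⌊N⌋₊ + 1),
      ∫ z, (closedBall a (D * Real.exp (-(m : ℝ)))).indicator (fun _ => (1 : ℝ)) z ∂μ ≤
        C * D ^ Q * q ^ m := by
    intro m _
    rw [integral_indicator measurableSet_closedBall, setIntegral_const, smul_eq_mul, mul_one]
    have hr : 0 < D * Real.exp (-(m : ℝ)) := by positivity
    have h3 := hup a _ hr
    have h4 : μ.real (closedBall a (D * Real.exp (-(m : ℝ)))) ≤
        C * (D * Real.exp (-(m : ℝ))) ^ Q := by
      rw [measureReal_def]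
      apply ENNReal.toReal_le_of_le_ofReal _ h3
      positivity
    refine h4.trans (le_of_eq ?_)
    rw [Real.mul_rpow hD.le (Real.exp_pos _).le, ← Real.exp_mul, hq, ← Real.exp_nat_mul]
    have : -(m : ℝ) * Q = m * -Q := by ring
    rw [this]
    ring
  have h3 : (∑ m ∈ Finset.range (⌊N⌋₊ + 1), q ^ m) ≤ 1 / (1 - q) := by
    rw [le_div_iff₀ h1q, geom_sum_mul_neg]
    have : 0 ≤ q ^ (⌊N⌋₊ + 1) := by positivity
    linarith
  calc ∫ z, LL D a N z ∂μ ≤ ∑ m ∈ Finset.range (⌊N⌋₊ + 1), C * D ^ Q * q ^ m :=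
        h1.trans (Finset.sum_le_sum h2)
    _ = C * D ^ Q * ∑ m ∈ Finset.range (⌊N⌋₊ + 1), q ^ m := by rw [Finset.mul_sum]
    _ ≤ C * D ^ Q * (1 / (1 - q)) := mul_le_mul_of_nonneg_left h3 (by positivity)
    _ = C * D ^ Q / (1 - q) := by ring

end QSCoh
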