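import Mathlib
import Pool.Agent.Lib.MP_cccab4_an.Defs
import Pool.Agent.Lib.MP_cccab4_an.S15
import Pool.Agent.Lib.MP_cccab4_an.T04
import Pool.Agent.Lib.MP_cccab4_an.T05
import Pool.Agent.Lib.MP_cccab4_an.T06

/-!
# MP_cccab4_an, module T07

`r', C₁` from `loc`; `C₂` from `Mprime`; `C₃` from `testfun`; `C₄` from `logint`; `m' =
μ(closedBall x₀ r')/2 > 0`.  Let `σ₀ = μ(f '' closedBall x₀ r)`; for every `σ > C₂ σ₀`, eventually (so
frequently) `Ek Q k (closedBall x₀ r) f ≤ σ`.  Choose `N ≥ 1` (depending on `n`) with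
`N m'/(C₃(N+1))^{1/Q} - C₄/(C₃ (N+1))^{1/Q} > n` (possible: `Q > 1`).  If
`C₁ σ^{1/Q} ≤ De^{-N}` for some `σ > C₂σ₀`, then with `b` from `loc` and
`u = LL D b N/(C₃(N+1))^{1/Q} ∈ UU Q S`: `∫ u∘f ≥ N m'/(C₃(N+1))^{1/Q}` (`u ≥ 0` and `u∘f =
N/(…)^{1/Q}` where `d(f x,b) ≤ De^{-N}`), `∫ u ≤ C₄/(C₃(N+1))^{1/Q}`: contradiction with `Near`.  So
`σ₀ ≥ (De^{-N}/C₁)^Q/C₂ =: c > 0` (for every `σ > C₂σ₀` we have `σ > (De^{-N}/C₁)^Q`).
-/

open MeasureTheory Metric Set Filter Topology
open scoped ENNReal NNReal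

namespace QSCoh

variable {Z : Type*} [MetricSpace Z] [CompactSpace Z] [MeasurableSpace Z] [BorelSpace Z]
  {μ : Measure Z} {Q : ℝ}

/-- If `f` is near the identity then it does not contract a fixed ball too much (in measure). -/
theorem cprime {S G : Set (Z → Z)} {δ₀ : ℝ} {θ₀ : ℝ → ℝ} (H : Sp Z μ Q) (K : Sg Z S G δ₀ θ₀) (x₀ : Z) {r : ℝ} (hr : 0 < r) (n : ℝ) :
    ∃ c : ℝ, 0 < c ∧ ∀ f ∈ S, Near μ Q S f id n → c ≤ μ.real (f '' closedBall x₀ r) := by
  have := finite_mu H
  have hQ1 : 1 < Q := H.hQ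
  have hQ : 0 < Q := by linarith
  obtain ⟨r', C₁, hr', hrr, hC₁, hloc⟩ := loc H x₀ hr
  obtain ⟨C₂, hC₂, hM⟩ := Mprime H K
  obtain ⟨C₃, hC₃, htest⟩ := testfun H K
  obtain ⟨C₄, hC₄, hint⟩ := logint H
  set D := diam (univ : Set Z) with hD
  have hDpos : 0 < D := H.hD
  have hle : ∀ x y : Z, dist x y ≤ D := fun x y =>
    dist_le_diam_of_mem isBounded_of_compactSpace (mem_univ _) (mem_univ _)
  set m' := μ.real (closedBall x₀ r') / 2 with hm'
  have hm'pos : 0 < m' := by
    have h1 := mass_ball_pos H x₀ hr'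
    have h2 : μ.real (ball x₀ r') ≤ μ.real (closedBall x₀ r') := measureReal_mono ball_subset_closedBall
    linarith
  -- choose N
  obtain ⟨N, hN1, hN⟩ : ∃ N : ℝ, 1 ≤ N ∧ n < (N * m' - C₄) / (C₃ * (N + 1)) ^ (1 / Q) := by
    have h1Q : 1 / Q < 1 := by rw [div_lt_one hQ]; exact hQ1
    -- (N m' - C₄) / (C₃ (N+1))^(1/Q) → ∞
    have ht : Tendsto (fun N : ℝ => (N * m' - C₄) / (C₃ * (N + 1)) ^ (1 / Q)) atTop atTop := by
      have h2 : Tendsto (fun N : ℝ => (m' / 4) / (C₃ ^ (1 / Q)) * (N + 1) ^ (1 - 1 / Q)) atTop atTop := by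
        refine Tendsto.const_mul_atTop (by positivity) ?_
        exact (tendsto_rpow_atTop (by linarith)).comp (tendsto_atTop_add_const_right _ _ tendsto_id)
      refine tendsto_atTop_mono' _ ?_ h2
      filter_upwards [eventually_ge_atTop (1 : ℝ), eventually_ge_atTop (4 * C₄ / m')] with N hN hN'
      have h3 : 4 * C₄ ≤ N * m' := by
        have := (div_le_iff₀ hm'pos).1 hN'
        linarith
      have h4 : (m' / 4) * (N + 1) ≤ N * m' - C₄ := by nlinarith
      have hNp : 0 < N + 1 := by linarith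
      rw [Real.mul_rpow hC₃.le hNp.le, Real.rpow_sub hNp, Real.rpow_one]
      rw [div_mul_div_comm, ]
      exact div_le_div_of_nonneg_right h4 (by positivity)
    obtain ⟨N, hN⟩ := ((ht.eventually_gt_atTop n).and (eventually_ge_atTop (1:ℝ))).exists
    exact ⟨N, hN.2, hN.1⟩
  set σ₁ := (D * Real.exp (-N) / C₁) ^ Q with hσ₁
  have hσ₁pos : 0 < σ₁ := by positivity
  refine ⟨σ₁ / C₂ / 2, by positivity, fun f hf hn => ?_⟩
  by_contra hcon
  push Not at hcon
  have hfc := K.cont f hf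
  -- eventually the local energy is ≤ σ₁
  have hev : ∀ᶠ k in atTop, Ek Q k (closedBall x₀ r) f ≤ σ₁ := by
    filter_upwards [hM f hf (closedBall x₀ r) isClosed_closedBall (σ₁ / 2) (by positivity)] with k hk
    have h1 : C₂ * μ.real (f '' closedBall x₀ r) ≤ C₂ * (σ₁ / C₂ / 2) :=
      mul_le_mul_of_nonneg_left hcon.le hC₂.le
    have h2 : C₂ * (σ₁ / C₂ / 2) = σ₁ / 2 := by field_simp
    linarith
  obtain ⟨b, hb⟩ := hloc f hfc σ₁ hσ₁pos hev.frequently
  have hrad : C₁ * σ₁ ^ (1 / Q) = D * Real.exp (-N) := by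
    rw [hσ₁, ← Real.rpow_mul (by positivity), mul_one_div_cancel hQ.ne', Real.rpow_one]
    field_simp
  rw [hrad] at hb
  obtain ⟨hLc, hL0, hLN, hLe, -⟩ := LL_facts hDpos b (N := N) (by linarith) hle
  set A := (C₃ * (N + 1)) ^ (1 / Q) with hA
  have hApos : 0 < A := by positivity
  have hnear := hn _ (htest b N hN1)
  have hi2 : ∫ x, LL D b N (id x) / A ∂μ ≤ C₄ / A := by
    rw [integral_div]
    exact div_le_div_of_nonneg_right (hint b N (by linarith)) hApos.le
  have hi1 : N * m' / A ≤ ∫ x, LL D b N (f x) / A ∂μ := by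
    rw [integral_div]
    refine div_le_div_of_nonneg_right ?_ hApos.le
    set P := {x ∈ closedBall x₀ r' | dist (f x) b ≤ D * Real.exp (-N)} with hP
    have hPm : MeasurableSet P := by
      refine (isClosed_closedBall.inter (isClosed_le (hfc.dist continuous_const)
        continuous_const)).measurableSet
    calc N * m' ≤ N * μ.real P := mul_le_mul_of_nonneg_left hb (by linarith)
      _ = ∫ x in P, N ∂μ := by rw [setIntegral_const, smul_eq_mul, mul_comm]
      _ ≤ ∫ x in P, LL D b N (f x) ∂μ := by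
          refine setIntegral_mono_on (by simp) ?_ hPm ?_
          · exact ((hLc.comp hfc).integrable_of_hasCompactSupport
              (HasCompactSupport.of_compactSpace _)).integrableOn
          · intro x hx
            exact (hLe _ hx.2).ge
      _ ≤ ∫ x, LL D b N (f x) ∂μ := by
          refine setIntegral_le_integral ((hLc.comp hfc).integrable_of_hasCompactSupport
              (HasCompactSupport.of_compactSpace _)) (Eventually.of_forall fun x => hL0 _)
  have h9 : (N * m' - C₄) / A ≤ n := by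
    have := (abs_le.1 hnear).2
    rw [sub_div]
    linarith
  linarith

end QSCoh
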