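import Mathlib
import Pool.Agent.Lib.MP_cccab4_an.Defs
import Pool.Agent.Lib.MP_cccab4_an.S01

/-!
# MP_cccab4_an, module T08

Suppose for each `j` there is `a_j` with `μ {x | d(f x,a_j) < 1/(j+1)} > μ(univ)/2`.  Subsequence
`a_j → a`; then for every `ρ > 0`, `μ {x | d(f x,a) ≤ ρ} ≥ μ(univ)/2`.  As `ρ → 0` these sets decrease
to `f⁻¹{a}`, which has at most one point (injectivity), of measure `0` (`mass_point`), while
`μ(univ) > 0`: contradiction.
-/

open MeasureTheory Metric Set Filter Topology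
open scoped ENNReal NNReal

namespace QSCoh

variable {Z : Type*} [MetricSpace Z] [CompactSpace Z] [MeasurableSpace Z] [BorelSpace Z]
  {μ : Measure Z} {Q : ℝ}

theorem fin {S G : Set (Z → Z)} {δ₀ : ℝ} {θ₀ : ℝ → ℝ} (H : Sp Z μ Q) (K : Sg Z S G δ₀ θ₀) {f : Z → Z} (hf : f ∈ S) :
    ∃ r > 0, ∀ a : Z, μ.real {x | dist (f x) a < r} ≤ μ.real univ / 2 := by
  have := finite_mu H
  have hpos := mass_pos H
  have hfc := K.cont f hf
  obtain ⟨θ, -, hqm⟩ := K.qm f hf
  by_contra hcon
  push Not at hcon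
  have hp : ∀ j : ℕ, (0 : ℝ) < 1 / (j + 1) := fun j => by positivity
  choose a ha using fun j : ℕ => hcon (1 / ((j : ℝ) + 1)) (hp j)
  obtain ⟨b, -, φ, hφ, hb⟩ := isCompact_univ.tendsto_subseq (fun j => mem_univ (a j))
  have hbig : ∀ ρ : ℝ, 0 < ρ → μ.real univ / 2 ≤ μ.real {x | dist (f x) b ≤ ρ} := by
    intro ρ hρ
    have h1 : ∀ᶠ j in atTop, dist (a (φ j)) b < ρ / 2 := by
      have := (Metric.tendsto_atTop.1 hb) (ρ / 2) (by linarith)
      obtain ⟨N, hN⟩ := this
      exact eventually_atTop.2 ⟨N, fun n hn => hN n hn⟩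
    have h2 : ∀ᶠ j : ℕ in atTop, 1 / (((φ j : ℕ) : ℝ) + 1) < ρ / 2 :=
      ((tendsto_one_div_add_atTop_nhds_zero_nat (𝕜 := ℝ)).comp hφ.tendsto_atTop).eventually_lt_const
        (by linarith)
    obtain ⟨j, hj1, hj2⟩ := (h1.and h2).exists
    refine (ha (φ j)).le.trans (measureReal_mono fun x hx => ?_)
    have h3 : dist (f x) (a (φ j)) < 1 / (((φ j : ℕ) : ℝ) + 1) := hx
    have h4 := dist_triangle (f x) (a (φ j)) b
    show dist (f x) b ≤ ρ
    linarith
  -- pass to the limit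
  have hlim : Tendsto (fun n : ℕ => μ {x | dist (f x) b ≤ 1 / ((n : ℝ) + 1)}) atTop
      (𝓝 (μ (⋂ n : ℕ, {x | dist (f x) b ≤ 1 / ((n : ℝ) + 1)}))) := by
    refine tendsto_measure_iInter_atTop (fun n => ?_) ?_ ⟨0, measure_ne_top _ _⟩
    · exact (isClosed_le (hfc.dist continuous_const) continuous_const).nullMeasurableSet
    · intro m n hmn x hx
      have hx' : dist (f x) b ≤ 1 / ((n : ℝ) + 1) := hx
      show dist (f x) b ≤ 1 / ((m : ℝ) + 1)
      refine hx'.trans ?_
      have : (m : ℝ) ≤ n := by exact_mod_cast hmn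
      exact one_div_le_one_div_of_le (by positivity) (by linarith)
  have hzero : μ (⋂ n : ℕ, {x | dist (f x) b ≤ 1 / ((n : ℝ) + 1)}) = 0 := by
    have hsub : (⋂ n : ℕ, {x | dist (f x) b ≤ 1 / ((n : ℝ) + 1)}) ⊆ f ⁻¹' {b} := by
      intro x hx
      rw [mem_iInter] at hx
      have h5 : dist (f x) b ≤ 0 :=
        ge_of_tendsto' (tendsto_one_div_add_atTop_nhds_zero_nat (𝕜 := ℝ)) (fun n => hx n)
      exact dist_le_zero.1 h5
    refine measure_mono_null hsub ?_
    by_cases he : ∃ x, f x = b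
    · obtain ⟨x, hx⟩ := he
      have : f ⁻¹' {b} = {x} := by
        ext y
        simp only [mem_preimage, mem_singleton_iff]
        exact ⟨fun h => hqm.inj (h.trans hx.symm), fun h => by rw [h, hx]⟩
      rw [this]
      exact mass_point H x
    · have : f ⁻¹' {b} = ∅ := by
        ext y
        simp only [mem_preimage, mem_singleton_iff, mem_empty_iff_false, iff_false]
        exact fun h => he ⟨y, h⟩
      rw [this]
      exact measure_empty
  rw [hzero] at hlim
  have hge : ENNReal.ofReal (μ.real univ / 2) ≤ 0 := by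
    refine ge_of_tendsto' hlim fun n => ?_
    exact (ENNReal.ofReal_le_iff_le_toReal (measure_ne_top _ _)).2
      (hbig (1 / ((n : ℝ) + 1)) (hp n))
  simp only [nonpos_iff_eq_zero, ENNReal.ofReal_eq_zero] at hge
  linarith

end QSCoh
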