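import Mathlib
import Pool.Agent.Lib.MP_cccab4_an.Defs
import Pool.Agent.Lib.MP_cccab4_an.A08
import Pool.Agent.Lib.MP_cccab4_an.A09
import Pool.Agent.Lib.MP_cccab4_an.S01
import Pool.Agent.Lib.MP_cccab4_an.T08

/-!
# MP_cccab4_an, module T09

`M₀ = μ(univ)`, `ν A = μ(t⁻¹ A)`.  Constants: `c₁` from `zoom1` with `M = 1`; `M₂` from `zoom2` with
`κ = c₁/2`; `τ` from `zoom4` with `M = M₂`, `ε = 1/4`; `σ` the minimum of the three `σ`'s and `1/2`.
`r = min (c₁/8, τ/2, σD/8, …)` (positive, universal).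
Let `A = {s > 0 | ∃ b, ν(ball b s) > M₀/2}`; it is bounded below by a positive number (`fin` for `t`),
nonempty (`s > D`); `s* = sInf A > 0`; choose `s ∈ A`, `s < 2s*`, and `b` with `ν(ball b s) > M₀/2`.
For all `a` and all `s' < s*`: `ν(ball a s') ≤ M₀/2`, in particular for `s' = s/2`.
(1) `s ≥ σ D/4`: take `g = id`: `r ≤ σD/8 ≤ s/2`.
(2) `s < σD/4 < D/2`: `zoom_exists` at `(b,s)` gives `y, z, g` with `d(b,y) = s ≤ σ d(b,z)`; `p = g z`.
Let `a ∈ Z`.  If `d(a,p) < c₁ - r`: no `w ∈ ball b s` has `d(g w,a) < r` (`zoom1`: `d(g w,p) ≥ c₁`), so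
`g⁻¹(ball a r)` is disjoint from `ball b s` and has `ν`-mass `< M₀/2`.  If `d(a,p) ≥ c₁ - r ≥ c₁/2 + r`:
each `w` with `d(g w,a) < r` has `d(g w,p) ≥ c₁/2`, so `d(b,w) ≤ M₂ s`, and two such points `w,w'` have
`d(g w,g w') < 2r ≤ τ`, so `d(w,w') ≤ s/4`: the set `g⁻¹(ball a r)` lies in a ball of radius `s/2`, so has
`ν`-mass `≤ M₀/2`.
-/

open MeasureTheory Metric Set Filter Topology
open scoped ENNReal NNReal

namespace QSCoh

variable {Z : Type*} [MetricSpace Z] [CompactSpace Z] [MeasurableSpace Z] [BorelSpace Z]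
  {μ : Measure Z} {Q : ℝ}

theorem norm {S G : Set (Z → Z)} {δ₀ : ℝ} {θ₀ : ℝ → ℝ} (H : Sp Z μ Q) (K : Sg Z S G δ₀ θ₀) : ∃ r > 0, ∀ t ∈ S, ∃ g ∈ G, ∀ a : Z,
    μ.real {x | dist (g (t x)) a < r} ≤ μ.real univ / 2 := by
  have := finite_mu H
  have hpos := mass_pos H
  obtain ⟨σ₁, hσ₁, c₁, hc₁, hz1⟩ := zoom1 K (M := 1) one_pos
  obtain ⟨σ₂, hσ₂, M₂, hM₂, hz2⟩ := zoom2 K (κ := c₁ / 2) (by linarith)
  obtain ⟨σ₃, hσ₃, τ, hτ, hz4⟩ := zoom4 K (M := M₂) hM₂ (ε := 1 / 4) (by norm_num)
  set D := diam (univ : Set Z) with hD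
  have hDpos : 0 < D := H.hD
  have hle : ∀ x y : Z, dist x y ≤ D := fun x y =>
    dist_le_diam_of_mem isBounded_of_compactSpace (mem_univ _) (mem_univ _)
  set σ := min (min σ₁ σ₂) (min σ₃ (1 / 2)) with hσ
  have hσpos : 0 < σ := by
    simp only [hσ, lt_min_iff]
    exact ⟨⟨hσ₁, hσ₂⟩, hσ₃, by norm_num⟩
  have h1 : σ ≤ σ₁ := (min_le_left _ _).trans (min_le_left _ _)
  have h2 : σ ≤ σ₂ := (min_le_left _ _).trans (min_le_right _ _)
  have h3 : σ ≤ σ₃ := (min_le_right _ _).trans (min_le_left _ _)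
  have h4 : σ ≤ 1 / 2 := (min_le_right _ _).trans (min_le_right _ _)
  set r := min (c₁ / 8) (min (τ / 2) (σ * D / 8)) with hr
  have hrpos : 0 < r := by
    simp only [hr, lt_min_iff]
    exact ⟨by linarith, by linarith, by positivity⟩
  have hr1 : r ≤ c₁ / 8 := min_le_left _ _
  have hr2 : r ≤ τ / 2 := (min_le_right _ _).trans (min_le_left _ _)
  have hr3 : r ≤ σ * D / 8 := (min_le_right _ _).trans (min_le_right _ _)
  refine ⟨r, hrpos, fun t ht => ?_⟩
  have htc := K.cont t ht
  -- the set of good radii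
  set A : Set ℝ := {s | 0 < s ∧ ∃ b : Z, μ.real univ / 2 < μ.real {x | dist (t x) b < s}} with hA
  obtain ⟨ρ, hρ, hfin⟩ := fin H K ht
  have hAlow : ∀ s ∈ A, ρ ≤ s := by
    rintro s ⟨-, b, hb⟩
    by_contra hs
    push Not at hs
    have h5 : μ.real {x | dist (t x) b < s} ≤ μ.real {x | dist (t x) b < ρ} :=
      measureReal_mono (fun x hx => lt_trans hx hs)
    have h6 := hfin b
    linarith
  have hAne : A.Nonempty := by
    have hne : Nonempty Z := by
      by_contra h
      rw [not_nonempty_iff] at h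
      rw [univ_eq_empty_iff.2 h] at hpos
      simp at hpos
    obtain ⟨b⟩ := hne
    refine ⟨D + 1, by linarith, b, ?_⟩
    have : {x | dist (t x) b < D + 1} = univ := by
      ext x
      simp only [mem_ofPred_eq, mem_univ, iff_true]
      linarith [hle (t x) b]
    rw [this]
    linarith
  have hAbdd : BddBelow A := ⟨ρ, hAlow⟩
  have hsinf : ρ ≤ sInf A := le_csInf hAne hAlow
  obtain ⟨s, hsA, hs⟩ := exists_lt_of_csInf_lt hAne (show sInf A < 2 * sInf A by linarith)
  obtain ⟨hspos, b, hb⟩ := hsA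
  have hsmall : ∀ a : Z, μ.real {x | dist (t x) a < s / 2} ≤ μ.real univ / 2 := by
    intro a
    by_contra h
    push Not at h
    have := csInf_le hAbdd (show s / 2 ∈ A from ⟨by linarith, a, h⟩)
    linarith
  by_cases hcase : σ * D / 4 ≤ s
  · refine ⟨id, K.id_mem, fun a => ?_⟩
    refine le_trans (measureReal_mono fun x hx => ?_) (hsmall a)
    have : dist (t x) a < r := hx
    show dist (t x) a < s / 2
    linarith
  · push Not at hcase
    have hsD : s < D / 2 := by nlinarith
    obtain ⟨y, z, g, hy, hz, hg⟩ := zoom_exists H K b hspos hsD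
    have hg' := hg
    have hσs : s ≤ σ * dist b z := by
      have : σ * (D / 2) ≤ σ * dist b z := mul_le_mul_of_nonneg_left hz hσpos.le
      linarith
    have hbz : 0 ≤ dist b z := dist_nonneg
    have hs1 : dist b y ≤ σ₁ * dist b z := by
      rw [hy]; exact hσs.trans (mul_le_mul_of_nonneg_right h1 hbz)
    have hs2 : dist b y ≤ σ₂ * dist b z := by
      rw [hy]; exact hσs.trans (mul_le_mul_of_nonneg_right h2 hbz)
    have hs3 : dist b y ≤ σ₃ * dist b z := by
      rw [hy]; exact hσs.trans (mul_le_mul_of_nonneg_right h3 hbz)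
    have z1 := hz1 g b y z hg hs1
    have z2 := hz2 g b y z hg hs2
    have z4 := hz4 g b y z hg hs3
    rw [hy] at z1 z2 z4
    refine ⟨g, hg.mem, fun a => ?_⟩
    have hgc : Continuous g := (G_qm K hg.mem).2.2
    by_cases hap : dist a (g z) < c₁ - r
    · -- disjoint from the preimage of ball b s
      have hdis : Disjoint {x | dist (g (t x)) a < r} {x | dist (t x) b < s} := by
        refine disjoint_left.2 fun x hx hx' => ?_
        have h7 : dist (g (t x)) a < r := hx
        have h8 : dist (t x) b < s := hx'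
        have h9 := z1 (t x) (by rw [dist_comm]; linarith)
        have h10 := dist_triangle (g (t x)) a (g z)
        linarith
      have hm1 : MeasurableSet {x | dist (t x) b < s} :=
        (isOpen_lt (htc.dist continuous_const) continuous_const).measurableSet
      have h11 := measureReal_union (μ := μ) hdis hm1
      have h12 : μ.real ({x | dist (g (t x)) a < r} ∪ {x | dist (t x) b < s}) ≤ μ.real univ :=
        measureReal_mono (subset_univ _)
      linarith
    · push Not at hap
      -- the preimage lies in a ball of radius s / 2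
      have hfar : ∀ x, dist (g (t x)) a < r → dist b (t x) ≤ M₂ * s := by
        intro x hx
        refine z2 (t x) ?_
        have h10 := dist_triangle_left a (g z) (g (t x))
        linarith
      by_cases hem : ∃ x₁, dist (g (t x₁)) a < r
      · obtain ⟨x₁, hx₁⟩ := hem
        refine le_trans (measureReal_mono fun x hx => ?_) (hsmall (t x₁))
        have hx' : dist (g (t x)) a < r := hx
        have h13 := z4 (t x) (t x₁) (hfar x hx') (hfar x₁ hx₁)
          (by have := dist_triangle_right (g (t x)) (g (t x₁)) a; linarith)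
        show dist (t x) (t x₁) < s / 2
        linarith
      · have : {x | dist (g (t x)) a < r} = ∅ := by
          ext x
          simp only [mem_ofPred_eq, mem_empty_iff_false, iff_false]
          exact fun h => hem ⟨x, h⟩
        rw [this]
        simp only [measureReal_empty]
        linarith

end QSCoh
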