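import Mathlib
import Pool.Agent.Lib.MP_cccab4_an.Defs
import Pool.Agent.Lib.MP_cccab4_an.S07b

/-!
# MP_cccab4_an, module S08

`E, F` are disjoint compact.  If one is empty every `ρ` is admissible, `Md = 0`.  Otherwise there is
`d₀ > 0` with `d(x,y) ≥ d₀` for `x ∈ E`, `y ∈ F`; a `1`-Lipschitz curve from `E` to `F` has `L ≥ d₀`.
Take `k` with `ep k / 2 ≤ d₀` and `Ek Q k univ v ≤ 1`.  By `osc_curve`,
`ofReal (b-a) ≤ edist (v (γ 0)) (v (γ L)) ≤ 2 ∫ rk(γ)`, so `ρ = (2/(b-a)) rk k v` is admissible and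
`Md ≤ (2/(b-a))^Q ∫ rk^Q ≤ (2/(b-a))^Q C₁` (`energy_rk` with a ball that is everything).  `C = 2^Q C₁`.
-/

open MeasureTheory Metric Set Filter Topology
open scoped ENNReal NNReal

namespace QSCoh

variable {Z : Type*} [MetricSpace Z] [CompactSpace Z] [MeasurableSpace Z] [BorelSpace Z]
  {μ : Measure Z} {Q : ℝ}

theorem s08_Md_le {ρ : Z → ℝ≥0∞} {E F : Set Z} (h : Adm ρ E F) :
    Md μ Q E F ≤ ∫⁻ z, ρ z ^ Q ∂μ := by
  unfold Md
  exact iInf₂_le (f := fun (ρ : Z → ℝ≥0∞) (_ : Adm ρ E F) => ∫⁻ z, ρ z ^ Q ∂μ) ρ h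

theorem s08_adm {v : Z → ℝ} (hv : Continuous v) {k : ℕ} {E F : Set Z} {a b d₀ : ℝ} (hab : a < b)
    (hE : ∀ x ∈ E, v x ≤ a) (hF : ∀ x ∈ F, b ≤ v x)
    (hd : ∀ x ∈ E, ∀ y ∈ F, d₀ ≤ dist x y) (hk : ep k / 2 ≤ d₀) :
    Adm (fun z => ENNReal.ofReal (2 / (b - a)) * rk k v z) E F := by
  refine ⟨(measurable_rk k v).const_mul _, fun γ L hγ hL h0 hL' => ?_⟩
  have hba : 0 < b - a := by linarith
  have h1 : d₀ ≤ L := by
    have h2 := hd _ h0 _ hL'
    have h3 := hγ.dist_le_mul 0 L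
    rw [Real.dist_eq, zero_sub, abs_neg, abs_of_nonneg hL, NNReal.coe_one, one_mul] at h3
    linarith
  have h2 := osc_curve hv k hγ (hk.trans h1) (s := 0) (t := L) ⟨le_rfl, hL⟩ ⟨hL, le_rfl⟩
  have h3 : ENNReal.ofReal (b - a) ≤ edist (v (γ 0)) (v (γ L)) := by
    rw [edist_dist]
    apply ENNReal.ofReal_le_ofReal
    rw [Real.dist_eq, abs_sub_comm]
    refine le_trans ?_ (le_abs_self _)
    have := hE _ h0
    have := hF _ hL'
    linarith
  have h4 := h3.trans h2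
  rw [lintegral_const_mul' _ _ ENNReal.ofReal_ne_top]
  have h5 : ENNReal.ofReal (2 / (b - a)) = ENNReal.ofReal (1 / (b - a)) * 2 := by
    rw [show (2 : ℝ) / (b - a) = (1 / (b - a)) * 2 by ring, ENNReal.ofReal_mul (by positivity)]
    simp
  rw [h5, mul_assoc]
  calc (1 : ℝ≥0∞) = ENNReal.ofReal (1 / (b - a)) * ENNReal.ofReal (b - a) := by
        rw [← ENNReal.ofReal_mul (by positivity), one_div, inv_mul_cancel₀ hba.ne',
          ENNReal.ofReal_one]
    _ ≤ ENNReal.ofReal (1 / (b - a)) * (2 * ∫⁻ t in Icc 0 L, rk k v (γ t)) :=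
        mul_le_mul' le_rfl h4

/-- Capacity estimate: a function of small energy cannot have a big jump between two continua with
large modulus. -/
theorem capac (H : Sp Z μ Q) : ∃ C : ℝ, 0 < C ∧ ∀ v : Z → ℝ, Continuous v →
    (∃ᶠ k in atTop, Ek Q k univ v ≤ 1) → ∀ E F : Set Z, IsCompact E → IsCompact F →
    ∀ a b : ℝ, a < b → (∀ x ∈ E, v x ≤ a) → (∀ x ∈ F, b ≤ v x) →
    ENNReal.ofReal ((b - a) ^ Q) * Md μ Q E F ≤ ENNReal.ofReal C := by
  have hQ : 0 < Q := by linarith [H.hQ]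
  obtain ⟨C₁, hC₁, hen⟩ := energy_rk (Y := ℝ) H
  refine ⟨2 ^ Q * C₁, by positivity, fun v hv hfr E F hEc hFc a b hab hE hF => ?_⟩
  have hba : 0 < b - a := by linarith
  by_cases hne : E.Nonempty ∧ F.Nonempty
  · obtain ⟨hEn, hFn⟩ := hne
    -- positive distance
    obtain ⟨d₀, hd0, hd⟩ : ∃ d₀ : ℝ, 0 < d₀ ∧ ∀ x ∈ E, ∀ y ∈ F, d₀ ≤ dist x y := by
      obtain ⟨q, hq, hmin⟩ := (hEc.prod hFc).exists_isMinOn (hEn.prod hFn)
        (continuous_dist (α := Z)).continuousOn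
      refine ⟨dist q.1 q.2, ?_, fun x hx y hy => hmin (show (x, y) ∈ E ×ˢ F from ⟨hx, hy⟩)⟩
      rw [dist_pos]
      intro h
      have h1 := hE _ hq.1
      have h2 := hF _ hq.2
      rw [h] at h1
      linarith
    have hep : ∀ᶠ k in atTop, ep k / 2 ≤ d₀ := by
      have h1 : Tendsto (fun k : ℕ => ep k / 2) atTop (𝓝 (0 / 2)) :=
        (tendsto_pow_atTop_nhds_zero_of_lt_one (by norm_num) (by norm_num)).div_const 2
      rw [zero_div] at h1
      exact (h1.eventually (gt_mem_nhds hd0)).mono (fun k hk => hk.le)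
    obtain ⟨k, hk1, hk2⟩ := (hfr.and_eventually hep).exists
    have hadm := s08_adm hv hab hE hF hd hk2
    have h1 : Md μ Q E F ≤ ∫⁻ z, (ENNReal.ofReal (2 / (b - a)) * rk k v z) ^ Q ∂μ :=
      s08_Md_le hadm
    obtain ⟨x₀, -⟩ := hEn
    have huniv : closedBall x₀ (diam (univ : Set Z)) = univ := by
      apply eq_univ_of_forall
      intro y
      rw [mem_closedBall]
      exact dist_le_diam_of_mem isBounded_of_compactSpace (mem_univ _) (mem_univ _)
    have h2 : ∫⁻ z, rk k v z ^ Q ∂μ ≤ ENNReal.ofReal C₁ := by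
      have h3 := hen k v hv x₀ (diam (univ : Set Z))
      rw [huniv, Measure.restrict_univ] at h3
      refine h3.trans (ENNReal.ofReal_le_ofReal ?_)
      have h4 := (Ek_mono Q k v (subset_univ (closedBall x₀ (diam (univ : Set Z) + 2 * ep k)))).trans
        hk1
      nlinarith
    have h3 : ∫⁻ z, (ENNReal.ofReal (2 / (b - a)) * rk k v z) ^ Q ∂μ =
        ENNReal.ofReal ((2 / (b - a)) ^ Q) * ∫⁻ z, rk k v z ^ Q ∂μ := by
      rw [← lintegral_const_mul' _ _ ENNReal.ofReal_ne_top]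
      refine lintegral_congr fun z => ?_
      rw [ENNReal.mul_rpow_of_nonneg _ _ hQ.le, ENNReal.ofReal_rpow_of_pos (by positivity)]
    calc ENNReal.ofReal ((b - a) ^ Q) * Md μ Q E F
        ≤ ENNReal.ofReal ((b - a) ^ Q) *
          (ENNReal.ofReal ((2 / (b - a)) ^ Q) * ENNReal.ofReal C₁) := by
          apply mul_le_mul' le_rfl
          rw [h3] at h1
          exact h1.trans (mul_le_mul' le_rfl h2)
      _ = ENNReal.ofReal (2 ^ Q * C₁) := by
          rw [← ENNReal.ofReal_mul (by positivity), ← ENNReal.ofReal_mul (by positivity)]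
          congr 1
          rw [← mul_assoc, ← Real.mul_rpow hba.le (by positivity)]
          congr 2
          field_simp
  · have hadm : Adm (fun _ : Z => (0 : ℝ≥0∞)) E F := by
      refine ⟨measurable_const, fun γ L _ _ h0 hL => ?_⟩
      exact absurd ⟨⟨_, h0⟩, ⟨_, hL⟩⟩ hne
    have h1 : Md μ Q E F ≤ ∫⁻ _z : Z, (0 : ℝ≥0∞) ^ Q ∂μ := s08_Md_le hadm
    rw [ENNReal.zero_rpow_of_pos hQ, lintegral_zero] at h1
    have h2 : Md μ Q E F = 0 := le_antisymm h1 zero_le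
    rw [h2, mul_zero]
    exact zero_le

end QSCoh
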