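import Mathlib
import Pool.Agent.Lib.MP_cccab4_an.Defs
import Pool.Agent.Lib.MP_cccab4_an.S13

/-!
# MP_cccab4_an, module S14

Take `k` with `Ek Q k univ v ≤ 1`, `4 ep k ≤ min ε D`, and `|v u - v w| ≤ 1` when `d(u,w) ≤ 4 ep k`
(uniform continuity).  `CH` with `r = D` (`closedBall x₀ D = univ`), `δ = 1`: `∫ g ≤ C₁ + 1`.  For all
`x, y`: `|v x - v y| ≤ (g x + g y) + 2` (as `ENNReal`: `ofReal |v x - v y| ≤ g x + g y + 2`).
Integrating in `y`: `|v x - v̄| μ(Z) ≤ g x μ(Z) + ∫ g + 2 μ(Z)`, where `v̄` is the mean (in `lintegral`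
form; `v` is bounded, continuous, integrable).  Let `A = {x | g x ≤ C₂}` with `C₂ = 8 (C₁+1)/μ(Z)`:
`μ(A) ≥ 7/8 μ(Z)` (Markov).  On `A`: `|v x - v̄| ≤ C₂ + (C₁+1)/μ(Z) + 2`; the path `α` from
`p` to `q` given by `JJ v p q (g x + g y)` satisfies `|v(α s) - v p| ≤ 2C₂`, `|v p - v x| ≤ 1`.
-/

open MeasureTheory Metric Set Filter Topology
open scoped ENNReal NNReal

namespace QSCoh

set_option linter.unusedSectionVars false

variable {Z : Type*} [MetricSpace Z] [CompactSpace Z] [MeasurableSpace Z] [BorelSpace Z]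
  {μ : Measure Z} {Q : ℝ}

/-- From `JJ` and uniform continuity to a distance bound. -/
theorem edist_of_JJ' {Y : Type*} [PseudoMetricSpace Y] {v : Z → Y} {x y p q : Z} {c : ℝ≥0∞} {w : ℝ}
    (hw : 0 ≤ w) (hp : dist (v x) (v p) ≤ w) (hq : dist (v y) (v q) ≤ w) (h : JJ v p q c) :
    edist (v x) (v y) ≤ c + ENNReal.ofReal (2 * w) := by
  obtain ⟨α, a0, a1, ha⟩ := h
  have h1 : edist (v p) (v q) ≤ c := by
    have := ha 0 1
    rwa [a0, a1] at this
  have h2 : edist (v x) (v p) ≤ ENNReal.ofReal w := by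
    rw [edist_dist]; exact ENNReal.ofReal_le_ofReal hp
  have h3 : edist (v q) (v y) ≤ ENNReal.ofReal w := by
    rw [edist_dist, dist_comm]; exact ENNReal.ofReal_le_ofReal hq
  calc edist (v x) (v y) ≤ edist (v x) (v p) + edist (v p) (v q) + edist (v q) (v y) :=
        edist_triangle4 _ _ _ _
    _ ≤ ENNReal.ofReal w + c + ENNReal.ofReal w := add_le_add (add_le_add h2 h1) h3
    _ = c + ENNReal.ofReal (2 * w) := by
        rw [two_mul, ENNReal.ofReal_add hw hw]; ring

/-- Typical points are joined by paths on which `v` is close to its mean. -/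
theorem typ (H : Sp Z μ Q) : ∃ C : ℝ, 0 < C ∧ ∀ v : Z → ℝ, Continuous v →
    (∃ᶠ k in atTop, Ek Q k univ v ≤ 1) → ∀ ε : ℝ, 0 < ε →
    ∃ A : Set Z, MeasurableSet A ∧ 7 / 8 * μ.real univ ≤ μ.real A ∧
      ∀ x ∈ A, ∀ y ∈ A, ∃ α : C(unitInterval, Z), dist x (α 0) ≤ ε ∧ dist y (α 1) ≤ ε ∧
        ∀ s, |v (α s) - (∫ z, v z ∂μ) / μ.real univ| ≤ C := by
  have := finite_mu H
  have hQ : 0 < Q := by linarith [H.hQ]
  obtain ⟨Λ, C₁, hΛ, hC₁, hCH⟩ := CH (Y := ℝ) H
  set D := diam (univ : Set Z) with hD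
  have hDpos : 0 < D := H.hD
  set M := μ.real univ with hM
  have hMpos : 0 < M := mass_pos H
  have hne : Nonempty Z := by
    by_contra h
    rw [not_nonempty_iff] at h
    rw [hM, univ_eq_empty_iff.2 h] at hMpos
    simp at hMpos
  obtain ⟨x₀⟩ := hne
  set C₂ := 8 * (C₁ + 1) / M with hC₂
  have hC₂pos : 0 < C₂ := by positivity
  refine ⟨3 * C₂ + (C₁ + 1) / M + 3, by positivity, fun v hv hfr ε hε => ?_⟩
  obtain ⟨η, hη, huc⟩ := Metric.uniformContinuous_iff.1
    (CompactSpace.uniformContinuous_of_continuous hv) 1 one_pos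
  have hsmall : ∀ᶠ k in atTop, 4 * ep k < min (min η ε) D := by
    have ht : Tendsto (fun k => 4 * ep k) atTop (𝓝 0) := by
      simpa [ep] using (tendsto_pow_atTop_nhds_zero_of_lt_one (by norm_num : (0:ℝ) ≤ 1 / 2)
        (by norm_num)).const_mul 4
    exact ht.eventually_lt_const (lt_min (lt_min hη hε) hDpos)
  obtain ⟨k, hk1, hk2⟩ := (hfr.and_eventually hsmall).exists
  have hkη : 4 * ep k < η := hk2.trans_le ((min_le_left _ _).trans (min_le_left _ _))
  have hkε : 4 * ep k < ε := hk2.trans_le ((min_le_left _ _).trans (min_le_right _ _))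
  obtain ⟨g, hgm, hgI, hg⟩ := hCH x₀ D hDpos le_rfl k (hk2.le.trans (min_le_right _ _)) v hv 1 one_pos
  have hball : closedBall x₀ D = univ := by
    ext y
    simp only [mem_closedBall, mem_univ, iff_true]
    exact dist_le_diam_of_mem isBounded_of_compactSpace (mem_univ _) (mem_univ _)
  rw [hball, Measure.restrict_univ] at hgI
  have hgI' : ∫⁻ x, g x ∂μ ≤ ENNReal.ofReal (C₁ + 1) := by
    refine hgI.trans (ENNReal.ofReal_le_ofReal ?_)
    have h1 : Ek Q k (closedBall x₀ (Λ * D)) v ^ (1 / Q) ≤ 1 := by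
      have h2 : Ek Q k (closedBall x₀ (Λ * D)) v ≤ 1 := (Ek_mono Q k v (subset_univ _)).trans hk1
      exact Real.rpow_le_one (Ek_nonneg _ _ _ _) h2 (by positivity)
    nlinarith
  have hpair : ∀ x y : Z, ENNReal.ofReal |v x - v y| ≤ g x + g y + 2 := by
    intro x y
    obtain ⟨p, q, hp, hq, hJ⟩ := hg x (by rw [hball]; trivial) y (by rw [hball]; trivial)
    have h1 := edist_of_JJ' (v := v) (x := x) (y := y) zero_le_one
      (huc (lt_of_le_of_lt hp hkη)).le (huc (lt_of_le_of_lt hq hkη)).le hJ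
    rw [edist_dist, Real.dist_eq] at h1
    simpa using h1
  -- integrate in y
  have hvint : Integrable v μ := hv.integrable_of_hasCompactSupport
    (HasCompactSupport.of_compactSpace _)
  set avg := (∫ z, v z ∂μ) / M with havg
  have hmean : ∀ x, g x ≤ ENNReal.ofReal C₂ → |v x - avg| ≤ C₂ + (C₁ + 1) / M + 2 := by
    intro x hx
    have h1 : v x - avg = (∫ y, (v x - v y) ∂μ) / M := by
      rw [integral_sub (integrable_const _) hvint, integral_const, smul_eq_mul, havg, sub_div,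
        ← hM, mul_div_cancel_left₀ _ hMpos.ne']
    have h2 : ENNReal.ofReal |∫ y, (v x - v y) ∂μ| ≤ ENNReal.ofReal ((C₂ + 2) * M + (C₁ + 1)) := by
      calc ENNReal.ofReal |∫ y, (v x - v y) ∂μ| = ‖∫ y, (v x - v y) ∂μ‖ₑ := by
            rw [← Real.norm_eq_abs, ofReal_norm]
        _ ≤ ∫⁻ y, ‖v x - v y‖ₑ ∂μ := enorm_integral_le_lintegral_enorm _
        _ = ∫⁻ y, ENNReal.ofReal |v x - v y| ∂μ := by
            refine lintegral_congr fun y => ?_
            rw [← Real.norm_eq_abs, ofReal_norm]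
        _ ≤ ∫⁻ y, (g x + g y + 2) ∂μ := lintegral_mono fun y => hpair x y
        _ = (g x + 2) * μ univ + ∫⁻ y, g y ∂μ := by
            rw [lintegral_add_right _ measurable_const, lintegral_add_right _ hgm, lintegral_const,
              lintegral_const]
            ring
        _ ≤ (ENNReal.ofReal C₂ + 2) * ENNReal.ofReal M + ENNReal.ofReal (C₁ + 1) := by
            refine add_le_add (mul_le_mul' (add_le_add hx le_rfl) ?_) hgI'
            rw [hM]
            exact (ENNReal.ofReal_toReal (measure_ne_top _ _)).ge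
        _ = _ := by
            have e1 : ENNReal.ofReal ((C₂ + 2) * M + (C₁ + 1)) =
                (ENNReal.ofReal C₂ + 2) * ENNReal.ofReal M + ENNReal.ofReal (C₁ + 1) := by
              rw [ENNReal.ofReal_add (by positivity) (by positivity),
                ENNReal.ofReal_mul (by positivity), ENNReal.ofReal_add hC₂pos.le (by norm_num)]
              simp
            exact e1.symm
    have h3 : |∫ y, (v x - v y) ∂μ| ≤ (C₂ + 2) * M + (C₁ + 1) :=
      (ENNReal.ofReal_le_ofReal_iff (by positivity)).1 h2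
    rw [h1, abs_div, abs_of_pos hMpos, div_le_iff₀ hMpos]
    refine h3.trans (le_of_eq ?_)
    field_simp
    ring
  -- the good set
  set A := {x | g x ≤ ENNReal.ofReal C₂} with hA
  have hAm : MeasurableSet A := measurableSet_le hgm measurable_const
  refine ⟨A, hAm, ?_, ?_⟩
  · have h1 : ENNReal.ofReal C₂ * μ Aᶜ ≤ ENNReal.ofReal (C₁ + 1) := by
      calc ENNReal.ofReal C₂ * μ Aᶜ = ∫⁻ _ in Aᶜ, ENNReal.ofReal C₂ ∂μ := by
            rw [setLIntegral_const]
        _ ≤ ∫⁻ x in Aᶜ, g x ∂μ := by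
            refine setLIntegral_mono' hAm.compl fun x hx => ?_
            have hx' : ¬ g x ≤ ENNReal.ofReal C₂ := hx
            exact (not_le.1 hx').le
        _ ≤ ∫⁻ x, g x ∂μ := setLIntegral_le_lintegral _ _
        _ ≤ _ := hgI'
    have h2 : C₂ * μ.real Aᶜ ≤ C₁ + 1 := by
      have h3 : μ Aᶜ = ENNReal.ofReal (μ.real Aᶜ) := (ENNReal.ofReal_toReal (measure_ne_top _ _)).symm
      rw [h3, ← ENNReal.ofReal_mul hC₂pos.le] at h1
      exact (ENNReal.ofReal_le_ofReal_iff (by positivity)).1 h1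
    have h4 : C₂ * (M / 8) = C₁ + 1 := by rw [hC₂]; field_simp
    have h5 : μ.real Aᶜ ≤ M / 8 := by
      rw [← h4] at h2
      exact le_of_mul_le_mul_left h2 hC₂pos
    have h6 : μ.real Aᶜ = M - μ.real A := measureReal_compl hAm
    linarith
  · intro x hx y hy
    obtain ⟨p, q, hp, hq, α, a0, a1, hα⟩ := hg x (by rw [hball]; trivial) y (by rw [hball]; trivial)
    refine ⟨α, by rw [a0]; linarith, by rw [a1]; linarith, fun s => ?_⟩
    have h1 : |v (α s) - v p| ≤ 2 * C₂ := by
      have h2 := hα s 0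
      rw [a0, edist_dist, Real.dist_eq] at h2
      have h3 : ENNReal.ofReal |v (α s) - v p| ≤ ENNReal.ofReal (2 * C₂) := by
        refine h2.trans ?_
        rw [two_mul, ENNReal.ofReal_add hC₂pos.le hC₂pos.le]
        exact add_le_add hx hy
      exact (ENNReal.ofReal_le_ofReal_iff (by positivity)).1 h3
    have h2 : |v x - v p| ≤ 1 := by
      have := (huc (lt_of_le_of_lt hp hkη)).le
      rwa [Real.dist_eq] at this
    have h3 := hmean x hx
    rw [abs_le] at h1 h2 h3 ⊢
    constructor <;> linarith [h1.1, h1.2, h2.1, h2.2, h3.1, h3.2]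

end QSCoh
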