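import Mathlib
import Pool.Agent.Lib.MP_cccab4_an.Defs
import Pool.Agent.Lib.MP_cccab4_an.S04
import Pool.Agent.Lib.MP_cccab4_an.S08
import Pool.Agent.Lib.MP_cccab4_an.S14
import Pool.Agent.Lib.MP_cccab4_an.T08

/-!
# MP_cccab4_an, module T10

Let `r₁ > 0` be from `fin` for `id` (universal).  `C₁` from `typ`, `C₂` from `capac`, and `m` from
`H.loew` with `t = D/min (r/2) (r₁/2)`.  Let `u ∈ UU Q S`; `u ∘ f` and `u = u ∘ id` both satisfy the
hypothesis of `typ` (`id ∈ G ⊆ S`).  Means: `v̄₁ = (∫ u∘f)/μ(univ)`, `v̄₂ = (∫ u)/μ(univ)`.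
`typ` for `u ∘ f` with `ε` so small that `d(w,w') ≤ ε` implies `d(f w,f w') ≤ r/4`: set `A₁`, measure
`≥ 7/8`.  Pick `x ∈ A₁`; since `μ {y | d(f y,f x) < r} ≤ 1/2`, there is `y ∈ A₁` with `d(f y,f x) ≥ r`;
the path `α₁` gives `E₁ = f(α₁([0,1]))`, a path image of diameter `≥ r/2` on which
`|u - v̄₁| ≤ C₁`.  Likewise (for `id`) `E₂ = α₂([0,1])` of diameter `≥ r₁/2` on which `|u - v̄₂| ≤ C₁`.
If `|v̄₁ - v̄₂| ≤ 2C₁ + 1` fine.  Otherwise, say `v̄₁ < v̄₂`: `u ≤ v̄₁ + C₁` on `E₁`, `u ≥ v̄₂ - C₁` on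
`E₂`, so `E₁, E₂` are disjoint and `m (v̄₂ - v̄₁ - 2C₁)^Q ≤ C₂` by `capac` (apply it with
`v = u`, `E, F`; the other case symmetrically).  So `|v̄₁ - v̄₂| ≤ 2C₁ + 1 + (C₂/m)^{1/Q}`; multiply
by `μ(univ)`.
-/

open MeasureTheory Metric Set Filter Topology
open scoped ENNReal NNReal

namespace QSCoh

variable {Z : Type*} [MetricSpace Z] [CompactSpace Z] [MeasurableSpace Z] [BorelSpace Z]
  {μ : Measure Z} {Q : ℝ}

theorem isPI_image {Z : Type*} [TopologicalSpace Z] {f : Z → Z} (hf : Continuous f) {E : Set Z}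
    (h : IsPI E) : IsPI (f '' E) := by
  obtain ⟨α, rfl⟩ := h
  exact ⟨⟨fun s => f (α s), hf.comp α.continuous⟩, by ext y; simp⟩

theorem isPI_compact {Z : Type*} [TopologicalSpace Z] {E : Set Z} (h : IsPI E) : IsCompact E := by
  obtain ⟨α, rfl⟩ := h
  exact isCompact_range α.continuous

/-- The typical path statement for `u ∘ f`: a path image of definite size on which `u` is close to
the mean of `u ∘ f`. -/
theorem close_aux {S G : Set (Z → Z)} {δ₀ : ℝ} {θ₀ : ℝ → ℝ} (H : Sp Z μ Q) (K : Sg Z S G δ₀ θ₀)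
    {C : ℝ} (hC : ∀ v : Z → ℝ, Continuous v →
    (∃ᶠ k in atTop, Ek Q k univ v ≤ 1) → ∀ ε : ℝ, 0 < ε →
    ∃ A : Set Z, MeasurableSet A ∧ 7 / 8 * μ.real univ ≤ μ.real A ∧
      ∀ x ∈ A, ∀ y ∈ A, ∃ α : C(unitInterval, Z), dist x (α 0) ≤ ε ∧ dist y (α 1) ≤ ε ∧
        ∀ s, |v (α s) - (∫ z, v z ∂μ) / μ.real univ| ≤ C)
    {r : ℝ} (hr : 0 < r) {f : Z → Z} (hf : f ∈ S)
    (hn : ∀ a : Z, μ.real {x | dist (f x) a < r} ≤ μ.real univ / 2) {u : Z → ℝ}
    (hu : u ∈ UU Q S) : ∃ E : Set Z, IsPI E ∧ r / 2 ≤ diam E ∧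
      ∀ z ∈ E, |u z - (∫ x, u (f x) ∂μ) / μ.real univ| ≤ C := by
  have := finite_mu H
  have hpos := mass_pos H
  have hfc := K.cont f hf
  obtain ⟨ε, hε, hε'⟩ := Metric.uniformContinuous_iff.1
    (CompactSpace.uniformContinuous_of_continuous hfc) (r / 4) (by linarith)
  obtain ⟨A, hAm, hA, hP⟩ := hC (u ∘ f) (hu.1.comp hfc) (hu.2 f hf) (ε / 2) (by linarith)
  have hAne : A.Nonempty := by
    by_contra h
    rw [not_nonempty_iff_eq_empty] at h
    rw [h] at hA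
    simp at hA
    linarith
  obtain ⟨x, hx⟩ := hAne
  obtain ⟨y, hy, hxy⟩ : ∃ y ∈ A, r ≤ dist (f y) (f x) := by
    by_contra h
    push Not at h
    have h1 : μ.real A ≤ μ.real {y | dist (f y) (f x) < r} :=
      measureReal_mono (fun y hy => h y hy)
    have h2 := hn (f x)
    linarith
  obtain ⟨α, h0, h1, hα⟩ := hP x hx y hy
  refine ⟨f '' range α, isPI_image hfc ⟨α, rfl⟩, ?_, ?_⟩
  · have hb : Bornology.IsBounded (f '' range α) :=
      ((isPI_compact ⟨α, rfl⟩).image hfc).isBounded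
    have h2 : dist (f (α 0)) (f (α 1)) ≤ diam (f '' range α) :=
      dist_le_diam_of_mem hb ⟨_, ⟨0, rfl⟩, rfl⟩ ⟨_, ⟨1, rfl⟩, rfl⟩
    have h3 : dist (f x) (f (α 0)) < r / 4 := hε' (by linarith)
    have h4 : dist (f y) (f (α 1)) < r / 4 := hε' (by linarith)
    have h5 : dist (f y) (f x) ≤ dist (f y) (f (α 1)) + dist (f (α 1)) (f (α 0))
        + dist (f (α 0)) (f x) := dist_triangle4 _ _ _ _
    rw [dist_comm (f (α 1)) (f (α 0)), dist_comm (f (α 0)) (f x)] at h5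
    linarith
  · rintro z ⟨_, ⟨s, rfl⟩, rfl⟩
    exact hα s

theorem close {S G : Set (Z → Z)} {δ₀ : ℝ} {θ₀ : ℝ → ℝ} (H : Sp Z μ Q) (K : Sg Z S G δ₀ θ₀) {r : ℝ} (hr : 0 < r) : ∃ C : ℝ, ∀ f ∈ S,
    (∀ a : Z, μ.real {x | dist (f x) a < r} ≤ μ.real univ / 2) → Near μ Q S f id C := by
  have := finite_mu H
  have hpos := mass_pos H
  obtain ⟨r₁, hr₁, hid⟩ := fin H K (K.sub K.id_mem)
  obtain ⟨C₁, hC₁, hty⟩ := typ H
  obtain ⟨C₂, hC₂, hcap⟩ := capac H
  set D := diam (univ : Set Z) with hD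
  have hDpos : 0 < D := H.hD
  set w := min (r / 2) (r₁ / 2) with hw
  have hwpos : 0 < w := lt_min (by linarith) (by linarith)
  obtain ⟨m, hm, hloew⟩ := H.loew (D / w) (div_pos hDpos hwpos)
  have hQ : 0 < Q := by linarith [H.hQ]
  -- the key comparison
  have key : ∀ u ∈ UU Q S, ∀ E F : Set Z, IsPI E → IsPI F → w ≤ diam E → w ≤ diam F → ∀ a b : ℝ,
      (∀ x ∈ E, u x ≤ a) → (∀ x ∈ F, b ≤ u x) → b - a ≤ (C₂ / m) ^ (1 / Q) := by
    intro u hu E F hE hF hE' hF' a b ha hb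
    by_cases hab : a < b
    · have hEc := isPI_compact hE
      have hFc := isPI_compact hF
      have hdis : Disjoint E F := by
        refine disjoint_left.2 fun x hx hx' => ?_
        have := ha x hx
        have := hb x hx'
        linarith
      have hEne : E.Nonempty := by obtain ⟨α, rfl⟩ := hE; exact ⟨_, ⟨0, rfl⟩⟩
      have hFne : F.Nonempty := by obtain ⟨α, rfl⟩ := hF; exact ⟨_, ⟨0, rfl⟩⟩
      obtain ⟨x, hx⟩ := hEne
      obtain ⟨y, hy⟩ := hFne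
      have hMd := hloew E F hE hF hdis (hwpos.trans_le hE') (hwpos.trans_le hF')
        ⟨x, hx, y, hy, by
          have h1 : dist x y ≤ D := dist_le_diam_of_mem isBounded_of_compactSpace
            (mem_univ _) (mem_univ _)
          have h2 : D / w * w ≤ D / w * min (diam E) (diam F) :=
            mul_le_mul_of_nonneg_left (le_min hE' hF') (div_pos hDpos hwpos).le
          rw [div_mul_cancel₀ _ hwpos.ne'] at h2
          linarith⟩
      have hcon := hcap u hu.1 (by simpa using hu.2 id (K.sub K.id_mem)) E F hEc hFc a b hab ha hb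
      have h3 : ENNReal.ofReal ((b - a) ^ Q * m) ≤ ENNReal.ofReal C₂ := by
        rw [ENNReal.ofReal_mul (Real.rpow_nonneg (by linarith) _)]
        exact (mul_le_mul_right hMd _).trans hcon
      have h4 : (b - a) ^ Q * m ≤ C₂ := (ENNReal.ofReal_le_ofReal_iff hC₂.le).1 h3
      have h5 : (b - a) ^ Q ≤ C₂ / m := (le_div_iff₀ hm).2 h4
      have h6 := Real.rpow_le_rpow (Real.rpow_nonneg (by linarith) _) h5
        (by positivity : (0:ℝ) ≤ 1 / Q)
      rwa [← Real.rpow_mul (by linarith), mul_one_div_cancel hQ.ne', Real.rpow_one] at h6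
    · have : 0 ≤ (C₂ / m) ^ (1 / Q) := Real.rpow_nonneg (div_pos hC₂ hm).le _
      linarith
  refine ⟨(2 * C₁ + (C₂ / m) ^ (1 / Q)) * μ.real univ, fun f hf hn u hu => ?_⟩
  obtain ⟨E, hE, hEd, hEu⟩ := close_aux H K hty hr hf hn hu
  obtain ⟨F, hF, hFd, hFu⟩ := close_aux H K hty hr₁ (K.sub K.id_mem) hid hu
  have hEw : w ≤ diam E := (min_le_left _ _).trans hEd
  have hFw : w ≤ diam F := (min_le_right _ _).trans hFd
  set v₁ := (∫ x, u (f x) ∂μ) / μ.real univ with hv₁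
  set v₂ := (∫ x, u (id x) ∂μ) / μ.real univ with hv₂
  have h1 : v₂ - v₁ ≤ 2 * C₁ + (C₂ / m) ^ (1 / Q) := by
    have := key u hu E F hE hF hEw hFw (v₁ + C₁) (v₂ - C₁)
      (fun x hx => by have := (abs_le.1 (hEu x hx)).2; linarith)
      (fun x hx => by have := (abs_le.1 (hFu x hx)).1; linarith)
    linarith
  have h2 : v₁ - v₂ ≤ 2 * C₁ + (C₂ / m) ^ (1 / Q) := by
    have := key u hu F E hF hE hFw hEw (v₂ + C₁) (v₁ - C₁)
      (fun x hx => by have := (abs_le.1 (hFu x hx)).2; linarith)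
      (fun x hx => by have := (abs_le.1 (hEu x hx)).1; linarith)
    linarith
  have e1 : (∫ x, u (f x) ∂μ) = v₁ * μ.real univ := by rw [hv₁, div_mul_cancel₀ _ hpos.ne']
  have e2 : (∫ x, u (id x) ∂μ) = v₂ * μ.real univ := by rw [hv₂, div_mul_cancel₀ _ hpos.ne']
  rw [e1, e2, ← sub_mul, abs_mul, abs_of_pos hpos]
  exact mul_le_mul_of_nonneg_right (abs_le.2 ⟨by linarith, h1 |> fun _ => by linarith⟩) hpos.le

end QSCoh
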