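import Mathlib
import Pool.Agent.Lib.MP_cccab4_an.Defs
import Pool.Agent.Lib.MP_cccab4_an.A08
import Pool.Agent.Lib.MP_cccab4_an.A09

/-!
# MP_cccab4_an, module T11

Choose `v₁ ≠ v₂`, `r = κ = d(v₁,v₂)/8`; `σ, M` from `zoom2` for `κ`.  Let `q ∈ Ω`, `ball q τ ⊆ Ω`.
`zoom_exists` at `q` with `s < min (D/2, σD/2, τ/(M+1))`: `y, z, h`; `h'` the inverse of `h` (in `G`),
`p = h z`.  One of `v₁, v₂` is at distance `≥ 4κ` from `p`, say `v₁`.  For `w ∈ closedBall v₁ r`,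
`d(w,p) ≥ 3κ ≥ κ`, so `u = h' w` (`h u = w`) has `d(q,u) ≤ M s < τ`: `h' '' closedBall v₁ r ⊆ Ω`.
-/

open MeasureTheory Metric Set Filter Topology
open scoped ENNReal NNReal

namespace QSCoh

variable {Z : Type*} [MetricSpace Z] [CompactSpace Z] [MeasurableSpace Z] [BorelSpace Z]
  {μ : Measure Z} {Q : ℝ}

theorem fit {S G : Set (Z → Z)} {δ₀ : ℝ} {θ₀ : ℝ → ℝ} (H : Sp Z μ Q) (K : Sg Z S G δ₀ θ₀) : ∃ (v₁ v₂ : Z) (r : ℝ), 0 < r ∧
    ∀ Ω : Set Z, IsOpen Ω → Ω.Nonempty → (∃ g ∈ G, g '' closedBall v₁ r ⊆ Ω) ∨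
      ∃ g ∈ G, g '' closedBall v₂ r ⊆ Ω := by
  set D := diam (univ : Set Z) with hD
  have hDpos : 0 < D := H.hD
  -- two distinct points
  obtain ⟨v₁, v₂, hv⟩ : ∃ v₁ v₂ : Z, v₁ ≠ v₂ := by
    by_contra h
    push Not at h
    have hs : (univ : Set Z).Subsingleton := fun a _ b _ => h a b
    have := diam_subsingleton hs
    linarith
  have hd : 0 < dist v₁ v₂ := dist_pos.2 hv
  set κ := dist v₁ v₂ / 8 with hκ
  have hκpos : 0 < κ := by positivity
  obtain ⟨σ, hσ, M, hM, hz2⟩ := zoom2 K hκpos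
  refine ⟨v₁, v₂, κ, hκpos, fun Ω hΩ ⟨q, hq⟩ => ?_⟩
  obtain ⟨τ, hτ, hball⟩ := Metric.isOpen_iff.1 hΩ q hq
  -- the scale
  set s := min (D / 4) (min (σ * D / 4) (τ / (M + 1) / 2)) with hs
  have hspos : 0 < s := by
    simp only [hs, lt_min_iff]
    exact ⟨by positivity, by positivity, by positivity⟩
  have h1 : s ≤ D / 4 := min_le_left _ _
  have h2 : s ≤ σ * D / 4 := (min_le_right _ _).trans (min_le_left _ _)
  have h3 : s ≤ τ / (M + 1) / 2 := (min_le_right _ _).trans (min_le_right _ _)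
  have hMs : M * s < τ := by
    have h4 : (M + 1) * s ≤ (M + 1) * (τ / (M + 1) / 2) := mul_le_mul_of_nonneg_left h3 (by linarith)
    have h5 : (M + 1) * (τ / (M + 1) / 2) = τ / 2 := by field_simp
    nlinarith
  obtain ⟨y, z, h, hy, hz, hh⟩ := zoom_exists H K q hspos (by linarith)
  obtain ⟨h', hh', e1, e2⟩ := K.inv h hh.mem
  have hsz : dist q y ≤ σ * dist q z := by
    rw [hy]
    have : σ * (D / 2) ≤ σ * dist q z := mul_le_mul_of_nonneg_left hz hσ.le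
    linarith
  have hz2' := hz2 h q y z hh hsz
  rw [hy] at hz2'
  have main : ∀ v : Z, 4 * κ ≤ dist v (h z) → h' '' closedBall v κ ⊆ Ω := by
    rintro v hv _ ⟨w, hw, rfl⟩
    refine hball ?_
    rw [mem_ball, dist_comm]
    refine lt_of_le_of_lt (hz2' (h' w) ?_) hMs
    have e : h (h' w) = w := congrFun e1 w
    rw [e]
    have h6 := dist_triangle_left v (h z) w
    rw [mem_closedBall] at hw
    linarith
  by_cases hc : 4 * κ ≤ dist v₁ (h z)
  · exact Or.inl ⟨h', hh', main v₁ hc⟩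
  · refine Or.inr ⟨h', hh', main v₂ ?_⟩
    push Not at hc
    have h7 := dist_triangle_right v₁ v₂ (h z)
    have h8 : dist v₁ v₂ = 8 * κ := by rw [hκ]; ring
    linarith

end QSCoh
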