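import Mathlib
import Pool.Agent.Lib.MP_cccab4_an.Defs
import Pool.Agent.Lib.MP_cccab4_an.Pub
import Pool.Agent.Lib.MP_cccab4_an.P01
import Pool.Agent.Lib.MP_cccab4_an.P02
import Pool.Agent.Lib.MP_cccab4_an.A02
import Pool.Agent.Lib.MP_cccab4_an.A04
import Pool.Agent.Lib.MP_cccab4_an.T12

/-!
# MP_cccab4_an, module P03

If `Z` is a subsingleton every map `Z → Z` is onto (if `Z` is empty too).  Otherwise
`0 < diam univ`; `Sp Z μH[Q] Q` holds: `ahl` from `h.ahlfors` (on a compact space
`ofReal r ≤ ediam univ ↔ r ≤ diam univ` for `r > 0`), `loew` from `loew_path`.  `Sg Z S G δ θ₀` with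
`θ₀` from `qmob_gauge θ`; `qs` from `qs_gauge`, `qm` from `qs_qm`, `rig`: the bijective uniform limit
`φ` of continuous maps on a compact space is a homeomorphism
(`TendstoUniformly.continuous`, `Continuous.homeoOfEquivCompactToT2`).  Apply `count`.
-/

open MeasureTheory Metric Set Filter Topology
open scoped ENNReal NNReal

namespace QSCoh

/-- The semigroup form of the theorem for Loewner spaces. -/
theorem semigroup_form {Z : Type*} [MetricSpace Z] [CompactSpace Z] [MeasurableSpace Z]
    [BorelSpace Z] {Q : ℝ} (h : IsLoewner Q Z) : SemigroupForm Z := by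
  intro S G δ θ hδ hqs hcomp hsub hid hGcomp hGinv htri hlim
  by_cases hss : Subsingleton Z
  · intro f hf y
    exact ⟨y, Subsingleton.elim _ _⟩
  rw [not_subsingleton_iff_nontrivial] at hss
  obtain ⟨a, b, hab⟩ := exists_pair_ne Z
  have hbdd : Bornology.IsBounded (univ : Set Z) := isBounded_of_compactSpace
  have hD : 0 < diam (univ : Set Z) :=
    lt_of_lt_of_le (dist_pos.mpr hab) (dist_le_diam_of_mem hbdd (mem_univ a) (mem_univ b))
  have H : Sp Z μH[Q] Q := by
    refine ⟨h.one_lt, hD, ?_, h.rectConn, ?_⟩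
    · obtain ⟨C, hC, hC2⟩ := h.ahlfors
      refine ⟨C, hC, fun x r hr hrD => hC2 x r hr ?_⟩
      exact ENNReal.ofReal_le_of_le_toReal hrD
    · obtain ⟨φ, hφ, hφ2⟩ := h.loewner
      exact loew_path hφ hφ2
  obtain ⟨θ₀, hθ₀, hq⟩ := qmob_gauge (X := Z) (Y := Z) θ
  have K : Sg Z S G δ θ₀ := by
    refine ⟨hδ, hθ₀, hid, hsub, hcomp, fun f hf => (hqs f hf).1.continuous, ?_, ?_, hGinv,
      hGcomp, htri, ?_⟩
    · intro f hf
      exact (qs_gauge (hqs f hf)).2.2
    · intro f hf
      obtain ⟨-, hi, η, hη, hqf⟩ := qs_gauge (hqs f hf)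
      obtain ⟨θf, hθf, hqm⟩ := qs_qm (X := Z) (Y := Z) hη
      exact ⟨θf, hθf, hqm f hi hqf⟩
    · intro f hf g k hg hk φ hφ hbij
      have hφc : Continuous φ := by
        refine hφ.continuous (Frequently.of_forall fun j => ?_)
        exact (hqs _ (hsub (hg j))).1.continuous.comp
          ((hqs f hf).1.continuous.comp (hqs _ (hsub (hk j))).1.continuous)
      let E : Z ≃ Z := Equiv.ofBijective φ hbij
      have hE : Continuous E := hφc
      let e : Z ≃ₜ Z := hE.homeoOfEquivCompactToT2
      have he : (e : Z → Z) = φ := rfl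
      have h1 := hlim f hf g k hg hk e (by rw [he]; exact hφ)
      have h2 := hq e e.injective h1
      rw [he] at h2
      exact h2
  exact count H K

end QSCoh
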