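import Mathlib
import Pool.Agent.Lib.MP_cccab4_an.Defs
import Pool.Agent.Lib.MP_cccab4_an.Pub
import Pool.Agent.Lib.MP_cccab4_an.P02
import Pool.Agent.Lib.MP_cccab4_an.A02
import Pool.Agent.Lib.MP_cccab4_an.A03
import Pool.Agent.Lib.MP_cccab4_an.A04

/-!
# MP_cccab4_an, module P04

`qsemb_comp`: compose the distortion functions (`η_g ∘ η_f`; `η_g` is monotone, see `homeo_gauge`) and the
embeddings.  `qsemb_symm`: `qs_gauge`, `qs_qm`, `qm_inv`, `qm_qs`, `gauge_qs` (`Y` is compact too).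
`qsemb_of_qm`: `qm_qs`, `gauge_qs`.
-/

open MeasureTheory Metric Set Filter Topology
open scoped ENNReal NNReal

namespace QSCoh

theorem homeo_mono (η : ℝ≥0 ≃ₜ ℝ≥0) : Monotone η := by
  obtain ⟨θ, hθ, he⟩ := homeo_gauge η
  intro s t hst
  have h1 : θ s ≤ θ t := hθ.mono (by exact_mod_cast hst)
  rw [he, he] at h1
  exact_mod_cast h1

theorem qsemb_comp {X Y W : Type*} [MetricSpace X] [MetricSpace Y] [MetricSpace W] {f : X → Y}
    {g : Y → W} (hf : IsQSEmb f) (hg : IsQSEmb g) : IsQSEmb (g ∘ f) := by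
  obtain ⟨ef, η, hη⟩ := hf
  obtain ⟨eg, η', hη'⟩ := hg
  refine ⟨eg.comp ef, η.trans η', fun x a b hxb => ?_⟩
  have h1 := hη' (f x) (f a) (f b) (ef.injective.ne hxb)
  refine h1.trans ?_
  exact homeo_mono η' (hη x a b hxb)

/-- Quasi-Möbius homeomorphisms between compact spaces are quasisymmetric. -/
theorem qsemb_of_qm {X Y : Type*} [MetricSpace X] [CompactSpace X] [MetricSpace Y] {θ : ℝ → ℝ}
    (hθ : Gauge θ) {f : X → Y} (hc : Continuous f) (hf : QM θ f) : IsQSEmb f := by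
  obtain ⟨η, hη, hq⟩ := qm_qs hθ hc hf
  exact gauge_qs hc hf.inj hη hq

theorem qsemb_symm {X Y : Type*} [MetricSpace X] [CompactSpace X] [MetricSpace Y] (e : X ≃ₜ Y)
    (h : IsQSEmb e) : IsQSEmb e.symm := by
  have : CompactSpace Y := e.compactSpace
  obtain ⟨-, hi, η, hη, hq⟩ := qs_gauge h
  obtain ⟨θ, hθ, hqm⟩ := qs_qm (X := X) (Y := Y) hη
  obtain ⟨θ', hθ', hinv⟩ := qm_inv (X := X) (Y := Y) hθ
  exact qsemb_of_qm hθ' e.symm.continuous
    (hinv e e.symm (hqm e hi hq) e.apply_symm_apply e.symm_apply_apply)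

end QSCoh
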