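import Mathlib
import Pool.Agent.Lib.MP_cccab4_an.Defs
import Pool.Agent.Lib.MP_cccab4_an.Pub
import Pool.Agent.Lib.MP_cccab4_an.P02
import Pool.Agent.Lib.MP_cccab4_an.P04
import Pool.Agent.Lib.MP_cccab4_an.A02
import Pool.Agent.Lib.MP_cccab4_an.A03

/-!
# MP_cccab4_an, module P05

Given `S, G, δ, θ` on `X`, conjugate: `S' = {f' | e ∘ f' ∘ e.symm ∈ S}` (the maps `e.symm ∘ f ∘ e`,
`f ∈ S`), `G'` likewise.  Elements of `S'` are quasisymmetric embeddings (`qsemb_comp`,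
`qsemb_symm`); closure properties are clear.  Triples: `e` is uniformly continuous, so there is `δ' > 0`
with `d(u,w) ≥ δ'` whenever `d(e u,e w) ≥ δ`.  Limits: if `g'_j ∘ f' ∘ h'_j → φ'` uniformly, then
(`e` uniformly continuous) `g_j ∘ f ∘ h_j → φ = e ∘ φ' ∘ e.symm` uniformly, so `φ` is
`θ`-quasi-Möbius, so `φ' = e.symm ∘ φ ∘ e` is `θ'`-quasi-Möbius with `θ'` independent of `φ`
(`qmob_gauge`, `qs_gauge` + `qs_qm` for `e` and `e.symm`, `qm_comp`, `gauge_comp`, `gauge_qmob`).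
-/

open MeasureTheory Metric Set Filter Topology
open scoped ENNReal NNReal

namespace QSCoh

/-- The semigroup form is invariant under quasisymmetric homeomorphisms of compact spaces. -/
theorem form_transport {Z X : Type*} [MetricSpace Z] [CompactSpace Z] [MetricSpace X] (e : Z ≃ₜ X)
    (he : IsQSEmb e) (h : SemigroupForm Z) : SemigroupForm X := by
  have : CompactSpace X := e.compactSpace
  intro S G δ θ hδ hS hcomp hGS hid hG hinv hco hR
  have he' : IsQSEmb e.symm := qsemb_symm e he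
  -- conjugation
  set cj : (X → X) → (Z → Z) := fun f => e.symm ∘ f ∘ e with hcj
  have hcj_comp : ∀ f g, cj f ∘ cj g = cj (f ∘ g) := by
    intro f g
    funext z
    simp [hcj]
  have hcj_id : cj id = id := by
    funext z
    simp [hcj]
  -- gauges of e and e.symm
  obtain ⟨-, hei, η₁, hη₁, hq₁⟩ := qs_gauge he
  obtain ⟨θ₁, hθ₁, hm₁⟩ := qs_qm (X := Z) (Y := X) hη₁
  have hqe : QM θ₁ e := hm₁ e hei hq₁
  obtain ⟨-, hei', η₂, hη₂, hq₂⟩ := qs_gauge he'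
  obtain ⟨θ₂, hθ₂, hm₂⟩ := qs_qm (X := X) (Y := Z) hη₂
  have hqe' : QM θ₂ e.symm := hm₂ e.symm hei' hq₂
  obtain ⟨θ₃, hθ₃, hm₃⟩ := qmob_gauge (X := X) (Y := X) θ
  obtain ⟨θ₄, hm₄⟩ := gauge_qmob (X := Z) (Y := Z) (gauge_comp (gauge_comp hθ₁ hθ₃) hθ₂)
  -- separation
  obtain ⟨δ', hδ', hsep⟩ : ∃ δ' > 0, ∀ u w : Z, δ ≤ dist (e u) (e w) → δ' ≤ dist u w := by
    obtain ⟨δ', hδ', huc⟩ := Metric.uniformContinuous_iff.1
      (CompactSpace.uniformContinuous_of_continuous e.continuous) δ hδ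
    refine ⟨δ', hδ', fun u w huw => ?_⟩
    by_contra hcon
    push Not at hcon
    exact absurd huw (not_le.2 (huc hcon))
  have hmain := h (cj '' S) (cj '' G) δ' θ₄ hδ' ?_ ?_ (image_mono hGS) ?_ ?_ ?_ ?_ ?_
  · intro f hf x
    obtain ⟨z, hz⟩ := hmain (cj f) ⟨f, hf, rfl⟩ (e.symm x)
    exact ⟨e z, e.symm.injective hz⟩
  · rintro _ ⟨f, hf, rfl⟩
    exact qsemb_comp (qsemb_comp he (hS f hf)) he'
  · rintro _ ⟨f, hf, rfl⟩ _ ⟨g, hg, rfl⟩
    exact ⟨f ∘ g, hcomp f hf g hg, (hcj_comp f g).symm⟩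
  · exact ⟨id, hid, hcj_id⟩
  · rintro _ ⟨f, hf, rfl⟩ _ ⟨g, hg, rfl⟩
    exact ⟨f ∘ g, hG f hf g hg, (hcj_comp f g).symm⟩
  · rintro _ ⟨g, hg, rfl⟩
    obtain ⟨g', hg', e1, e2⟩ := hinv g hg
    exact ⟨cj g', ⟨g', hg', rfl⟩, by rw [hcj_comp, e1, hcj_id], by rw [hcj_comp, e2, hcj_id]⟩
  · intro x y z hxy hxz hyz
    obtain ⟨g, hg, s1, s2, s3⟩ := hco (e x) (e y) (e z) (e.injective.ne hxy) (e.injective.ne hxz)
      (e.injective.ne hyz)
    refine ⟨cj g, ⟨g, hg, rfl⟩, hsep _ _ ?_, hsep _ _ ?_, hsep _ _ ?_⟩ <;>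
      simpa [hcj]
  · rintro _ ⟨f, hf, rfl⟩ g h hg hh φ hlim
    choose g₁ hg₁ hg₂ using hg
    choose h₁ hh₁ hh₂ using hh
    set ψ : X ≃ₜ X := (e.symm.trans φ).trans e with hψ
    have hlim' : TendstoUniformly (fun j => g₁ j ∘ f ∘ h₁ j) ψ atTop := by
      have huc : UniformContinuous e := CompactSpace.uniformContinuous_of_continuous e.continuous
      have h1 := huc.comp_tendstoUniformly hlim
      have h2 := h1.comp e.symm
      have e1 : (fun j => (e ∘ (g j ∘ cj f ∘ h j)) ∘ e.symm) = fun j => g₁ j ∘ f ∘ h₁ j := by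
        funext j x
        simp only [Function.comp_apply, ← hg₂ j, ← hh₂ j, hcj, Homeomorph.apply_symm_apply]
      have e2 : (e ∘ φ) ∘ e.symm = ψ := by
        funext x
        rfl
      rw [← e1, ← e2]
      exact h2
    have hψq : IsQMob θ ψ := hR f hf g₁ h₁ hg₁ hh₁ ψ hlim'
    have hψQ : QM θ₃ ψ := hm₃ ψ ψ.injective hψq
    have a1 : QM (fun t => θ₃ (θ₁ t)) (fun z => ψ (e z)) := qm_comp hθ₃ hqe hψQ
    have a2 : QM (fun t => θ₂ (θ₃ (θ₁ t))) (fun z => e.symm (ψ (e z))) := qm_comp hθ₂ a1 hqe'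
    have a3 : (fun z => e.symm (ψ (e z))) = φ := by
      funext z
      simp [hψ]
    rw [a3] at a2
    exact hm₄ φ a2

end QSCoh
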