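import Mathlib
import Pool.Agent.Lib.MP_cccab4_an.Defs
import Pool.Agent.Lib.MP_cccab4_an.Pub
import Pool.Agent.Lib.MP_cccab4_an.P02
import Pool.Agent.Lib.MP_cccab4_an.P04
import Pool.Agent.Lib.MP_cccab4_an.A02
import Pool.Agent.Lib.MP_cccab4_an.A03

/-!
# MP_cccab4_an, module P06

`h` with `S = {f | IsQSEmb f}` and `G = {f | ∃ e : X ≃ₜ X, IsQSEmb e ∧ f = e}`.  For the
last hypothesis: `g_j, h_j ∈ G` are `θ`-quasi-Möbius (`hR`), `f` is quasi-Möbius (`qs_gauge`, `qs_qm`), so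
the `g_j ∘ f ∘ h_j` are uniformly quasi-Möbius, and so is their limit `φ` (`qm_limit`), a
homeomorphism; by `qsemb_of_qm` it is quasisymmetric, so `θ`-quasi-Möbius by `hR`.
-/

open MeasureTheory Metric Set Filter Topology
open scoped ENNReal NNReal

namespace QSCoh

/-- Rigid spaces satisfying the semigroup form are quasisymmetrically cohopfian. -/
theorem rigid_of_form {X : Type*} [MetricSpace X] [CompactSpace X] (h : SemigroupForm X) {δ : ℝ}
    (hδ : 0 < δ)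
    (co : ∀ x y z : X, x ≠ y → x ≠ z → y ≠ z → ∃ e : X ≃ₜ X, IsQSEmb e ∧
      δ ≤ dist (e x) (e y) ∧ δ ≤ dist (e x) (e z) ∧ δ ≤ dist (e y) (e z))
    (hR : UniformQS X) : IsCohopfian X := by
  obtain ⟨θ, hθ⟩ := hR
  intro f₀ hf₀
  obtain ⟨θ', hθ', hm'⟩ := qmob_gauge (X := X) (Y := X) θ
  refine h {f | IsQSEmb f} {f | ∃ e : X ≃ₜ X, IsQSEmb e ∧ f = e} δ θ hδ (fun f hf => hf)
    ?_ ?_ ?_ ?_ ?_ ?_ ?_ f₀ hf₀
  · intro f hf g hg
    exact qsemb_comp hg hf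
  · rintro _ ⟨e, he, rfl⟩
    exact he
  · refine ⟨Homeomorph.refl X, ?_, rfl⟩
    refine ⟨Topology.IsEmbedding.id, Homeomorph.refl _, fun x a b _ => le_rfl⟩
  · rintro _ ⟨e, he, rfl⟩ _ ⟨e', he', rfl⟩
    have h1 : IsQSEmb ((e : X → X) ∘ (e' : X → X)) := qsemb_comp he' he
    exact ⟨e'.trans e, h1, rfl⟩
  · rintro _ ⟨e, he, rfl⟩
    refine ⟨e.symm, ⟨e.symm, qsemb_symm e he, rfl⟩, ?_, ?_⟩
    · funext x; simp
    · funext x; simp
  · intro x y z hxy hxz hyz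
    obtain ⟨e, he, s⟩ := co x y z hxy hxz hyz
    exact ⟨e, ⟨e, he, rfl⟩, s⟩
  · intro f hf g h hg hh φ hlim
    refine hθ φ ?_
    obtain ⟨-, hfi, η, hη, hqs⟩ := qs_gauge hf
    obtain ⟨θ₂, hθ₂, hq⟩ := qs_qm (X := X) (Y := X) hη
    have hfq : QM θ₂ f := hq f hfi hqs
    have hgq : ∀ j, QM θ' (g j) := by
      intro j
      obtain ⟨e, he, h1⟩ := hg j
      rw [h1]
      exact hm' e e.injective (hθ e he)
    have hhq : ∀ j, QM θ' (h j) := by
      intro j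
      obtain ⟨e, he, h1⟩ := hh j
      rw [h1]
      exact hm' e e.injective (hθ e he)
    have hj : ∀ j, QM (fun t => θ' (θ₂ (θ' t))) (g j ∘ f ∘ h j) := by
      intro j
      have h1 : QM (fun t => θ₂ (θ' t)) (fun x => f (h j x)) := qm_comp hθ₂ (hhq j) hfq
      have h2 := qm_comp hθ' h1 (hgq j)
      exact h2
    have hlimq : QM (fun t => θ' (θ₂ (θ' t))) φ :=
      qm_limit hj (fun x => hlim.tendsto_at x) φ.injective
    exact qsemb_of_qm (gauge_comp (gauge_comp hθ' hθ₂) hθ') φ.continuous hlimq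

end QSCoh
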