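import Mathlib
import Pool.Agent.Lib.MP_cccab4_an.Defs
import Pool.Agent.Lib.MP_cccab4_an.Pub
import Pool.Agent.Lib.MP_cccab4_an.P03
import Pool.Agent.Lib.MP_cccab4_an.P04
import Pool.Agent.Lib.MP_cccab4_an.P05
import Pool.Agent.Lib.MP_cccab4_an.P06
import Pool.Agent.Lib.MP_cccab4_an.G04
import Pool.Agent.Lib.MP_cccab4_an.G05
import Pool.Agent.Lib.MP_cccab4_an.G06

/-!
# MP_cccab4_an, module G07

`qs_loewner_form`: the Loewner space `Z` of `QSLoewner X` is compact (homeomorphic to `X`);
`semigroup_form` and `form_transport`.  `group_form`: `Bdry T` is compact (`bdry_compact`); the maps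
`act g` are homeomorphisms (inverse `act g⁻¹`; `act_cont`) and quasisymmetric (`act_qm`,
`qsemb_of_qm`), `act_co` gives hypothesis `co` of `rigid_of_form`.
-/

open MeasureTheory Metric Set Filter Topology
open scoped ENNReal NNReal

namespace QSCoh

variable {Γ : Type*} [Group Γ] {T : Set Γ}

universe u

theorem qs_loewner_form {X : Type u} [MetricSpace X] [CompactSpace X] (h : QSLoewner X) :
    SemigroupForm X := by
  obtain ⟨Z, _, _, _, Q, e, he, hL⟩ := h
  have : CompactSpace Z := e.symm.compactSpace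
  exact form_transport e he (semigroup_form hL)

/-- The theorem for hyperbolic groups. -/
theorem group_form {Γ : Type u} [Group Γ] {T : Set Γ} (hT : IsHypGroup T)
    [MetricSpace (Bdry T)] (hv : IsVisual T) (hL : QSLoewner (Bdry T)) (hR : UniformQS (Bdry T)) :
    IsCohopfian (Bdry T) := by
  have : CompactSpace (Bdry T) := bdry_compact hT hv
  obtain ⟨κ, hκ, hco⟩ := act_co hT hv
  obtain ⟨θ, hθ, hqm⟩ := act_qm hT hv
  refine rigid_of_form (qs_loewner_form hL) hκ ?_ hR
  intro x y z hxy hxz hyz
  obtain ⟨g, h1, h2, h3⟩ := hco x y z hxy hxz hyz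
  let e : Bdry T ≃ₜ Bdry T :=
    { toFun := act hT.gen g
      invFun := act hT.gen g⁻¹
      left_inv := fun ξ => by rw [← act_mul, inv_mul_cancel, act_one]
      right_inv := fun ξ => by rw [← act_mul, mul_inv_cancel, act_one]
      continuous_toFun := act_cont hT hv g
      continuous_invFun := act_cont hT hv g⁻¹ }
  exact ⟨e, qsemb_of_qm hθ (act_cont hT hv g) (hqm g), h1, h2, h3⟩

end QSCoh
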