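import Mathlib
import Pool.Agent.Lib.MP_cccab4_an.Defs
import Pool.Agent.Lib.MP_cccab4_an.Pub
import Pool.Agent.Lib.MP_cccab4_an.P02
import Pool.Agent.Lib.MP_cccab4_an.P04
import Pool.Agent.Lib.MP_cccab4_an.G04
import Pool.Agent.Lib.MP_cccab4_an.G05
import Pool.Agent.Lib.MP_cccab4_an.G06
import Pool.Agent.Lib.MP_cccab4_an.G07

/-!
# MP_cccab4_an, module G08: the semigroup form for boundaries of hyperbolic groups
-/

open MeasureTheory Metric Set Filter Topology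
open scoped ENNReal NNReal

namespace QSCoh

universe u

/-- The semigroup form for a hyperbolic group: `S` a semigroup of quasisymmetric embeddings of the
boundary containing the action of the group, all quasisymmetric homeomorphisms in the uniform
closure of `S` quasi-Möbius with one distortion function.  Then all elements of `S` are onto. -/
theorem group_semigroup {Γ : Type u} [Group Γ] {T : Set Γ} (hT : IsHypGroup T)
    [MetricSpace (Bdry T)] (hv : IsVisual T) (hL : QSLoewner (Bdry T))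
    (S : Set (Bdry T → Bdry T)) (hS : ∀ f ∈ S, IsQSEmb f) (hcomp : ∀ f ∈ S, ∀ g ∈ S, f ∘ g ∈ S)
    (hact : ∀ g : Γ, act hT.gen g ∈ S) (θ : ℝ≥0 ≃ₜ ℝ≥0)
    (hR : ∀ φ : Bdry T ≃ₜ Bdry T, IsQSEmb φ → (∃ F : ℕ → Bdry T → Bdry T, (∀ j, F j ∈ S) ∧
      TendstoUniformly F φ atTop) → IsQMob θ φ) :
    ∀ f ∈ S, Function.Surjective f := by
  have := bdry_compact hT hv
  obtain ⟨κ, hκ, hco⟩ := act_co hT hv
  obtain ⟨θ₁, hθ₁, hqa⟩ := act_qm hT hv
  have hform : SemigroupForm (Bdry T) := qs_loewner_form hL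
  refine hform S (range (act hT.gen)) κ θ hκ hS hcomp ?_ ?_ ?_ ?_ ?_ ?_
  · rintro _ ⟨g, rfl⟩; exact hact g
  · exact ⟨1, funext fun ξ => act_one hT.gen ξ⟩
  · rintro _ ⟨g, rfl⟩ _ ⟨h, rfl⟩
    exact ⟨g * h, funext fun ξ => act_mul hT.gen g h ξ⟩
  · rintro _ ⟨g, rfl⟩
    refine ⟨act hT.gen g⁻¹, ⟨g⁻¹, rfl⟩, ?_, ?_⟩
    · funext ξ
      show act hT.gen g (act hT.gen g⁻¹ ξ) = ξ
      rw [← act_mul, mul_inv_cancel, act_one]
    · funext ξ
      show act hT.gen g⁻¹ (act hT.gen g ξ) = ξ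
      rw [← act_mul, inv_mul_cancel, act_one]
  · intro x y z hxy hxz hyz
    obtain ⟨g, h1, h2, h3⟩ := hco x y z hxy hxz hyz
    exact ⟨act hT.gen g, ⟨g, rfl⟩, h1, h2, h3⟩
  · intro f hf g h hg hh φ hlim
    refine hR φ ?_ ⟨fun j => g j ∘ f ∘ h j, fun j => ?_, hlim⟩
    · -- the limit is quasi-Möbius, hence quasisymmetric
      obtain ⟨-, hfi, η, hη, hqs⟩ := qs_gauge (hS f hf)
      obtain ⟨θ₂, hθ₂, hq⟩ := qs_qm (X := Bdry T) (Y := Bdry T) hη
      have hfq : QM θ₂ f := hq f hfi hqs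
      have hj : ∀ j, QM (fun t => θ₁ (θ₂ (θ₁ t))) (g j ∘ f ∘ h j) := by
        intro j
        obtain ⟨a, ha⟩ := hg j
        obtain ⟨b, hb⟩ := hh j
        rw [← ha, ← hb]
        have h1 : QM (fun t => θ₂ (θ₁ t)) (fun x => f (act hT.gen b x)) :=
          qm_comp hθ₂ (hqa b) hfq
        have h2 := qm_comp hθ₁ h1 (hqa a)
        exact h2
      have hlimq : QM (fun t => θ₁ (θ₂ (θ₁ t))) φ :=
        qm_limit hj (fun x => hlim.tendsto_at x) φ.injective
      exact qsemb_of_qm (gauge_comp (gauge_comp hθ₁ hθ₂) hθ₁) φ.continuous hlimq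
    · obtain ⟨a, ha⟩ := hg j
      obtain ⟨b, hb⟩ := hh j
      show g j ∘ f ∘ h j ∈ S
      rw [← ha, ← hb]
      exact hcomp _ (hact a) _ (hcomp _ hf _ (hact b))

end QSCoh
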